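import Pool.Agent.Lib.MP_dd84fd_nt.HX.KsDefs
import Pool.Agent.Lib.MP_dd84fd_nt.HX.Iface

/-!
# Goldbach exceptions with an explicit exponent (Theorem I): definitions and interface

Paper: /team-store/I3_paper.md (helper3) and I98_paper.md.  `th` is the exponent of the exceptional
set, `2/5 < th ≤ 1/2` (final: `th = 3/7 + ε`); `e` is small, `0 < e ≤ (th - 2/5)/100`.
`dl th e = (1/2 - th)/3 + e`: the quantities of Theorem H with `δ = dl th e` are reused: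
`y3 (dl th e) X = X^(1-th+3e)` (`= H0 = X / yB`), `y2 (dl th e) X = X^(th-3e)` (`= yB`), `Apd (dl th e)`.
A *family* is a pair `(ww, gg)` of functions `X n ↦ ℝ`; `ww X n` is the arithmetic function, `gg X n`
its density: the model is `fI gg X w n = gg X n * f1 w n`, `w = wX D' X`.
-/

set_option autoImplicit false

namespace Pool.MP_dd84fd_nt.IX

open Finset Pool.MP_67663b_nt.Odd Pool.MP_dd84fd_nt.En Pool.MP_dd84fd_nt.E2 Pool.MP_dd84fd_nt.LS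
open Pool.MP_dd84fd_nt.L2G (nrm)
open Pool.MP_dd84fd_nt.GX Pool.MP_dd84fd_nt.HX
open Pool.MP_dd84fd_nt.PL (rr)

/-- admissible parameters -/
def Adm (th e : ℝ) : Prop := 2 / 5 < th ∧ th ≤ 1 / 2 ∧ 0 < e ∧ e ≤ (th - 2 / 5) / 100

/-- `δ₁ = (1/2 - th)/3 + e` -/
noncomputable def dl (th e : ℝ) : ℝ := (1 / 2 - th) / 3 + e

/-- `X^((1-th)/2+4e)`, lower end of the type II window -/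
noncomputable def yA (th e : ℝ) (X : ℕ) : ℝ := (X : ℝ) ^ ((1 - th) / 2 + 4 * e)

/-- `X^(th-3e)`, upper end of the type II window -/
noncomputable def yB (th e : ℝ) (X : ℕ) : ℝ := (X : ℝ) ^ (th - 3 * e)

/-- `2 X^(1-th+3e)`, the type I level -/
noncomputable def ZI (th e : ℝ) (X : ℕ) : ℝ := 2 * (X : ℝ) ^ (1 - th + 3 * e)

/-- the sifting level of GEN `⌈X^(1/10)⌉` -/
noncomputable def zI (X : ℕ) : ℕ := ⌈(X : ℝ) ^ (1 / 10 : ℝ)⌉₊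

/-- the model `gg f1` -/
noncomputable def fI (gg : ℕ → ℕ → ℝ) (X w n : ℕ) : ℝ := gg X n * f1 w n

/-- `ww - gg f1` -/
noncomputable def uI (ww gg : ℕ → ℕ → ℝ) (X w n : ℕ) : ℝ := ww X n - fI gg X w n

/-- exponential sum `Σ (ww + s gg f1)(n) e(n θ)` -/
noncomputable def WI (ww gg : ℕ → ℕ → ℝ) (s : ℝ) (w X : ℕ) (θ : ℝ) : ℂ :=
  ∑ n ∈ Icc 1 X, ((ww X n + s * fI gg X w n : ℝ) : ℂ) * ee ((n : ℝ) * θ)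

/-- the integrand `W_- W_+ e(-n .)` -/
noncomputable def FFI (ww gg : ℕ → ℕ → ℝ) (w X n : ℕ) (θ : ℝ) : ℂ :=
  WI ww gg (-1) w X θ * WI ww gg 1 w X θ * ee (-((n : ℝ) * θ))

/-- `(1/G) Σ_j ω(j) U(j) V(j) e(-n j / G)`, `U = tr (ww - gg f1)` -/
noncomputable def PhI (G : ℕ) [NeZero G] (ww gg : ℕ → ℕ → ℝ) (X w : ℕ) (V ω : ZMod G → ℂ) (n : ℕ) :
    ℂ :=
  (1 / (G : ℂ)) * ∑ j : ZMod G, ω j * tr G X (uI ww gg X w) j * V j *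
    ZMod.stdAddChar (-((n : ZMod G) * j))

/-! ### Hypotheses on a family -/

/-- (W1): bounds -/
def W1 (K0 C1 : ℕ) (ww gg : ℕ → ℕ → ℝ) : Prop := ∃ X0 : ℕ, ∀ X : ℕ, X0 ≤ X →
  (∀ n, |ww X n| ≤ K0 * rg (zI X) n ∧ |gg X n| ≤ K0) ∧
  ∑ n ∈ Ico 1 X, |gg X (n + 1) - gg X n| ≤ (Real.log X) ^ C1

/-- (W2): the decomposition into type I sums of level `ZI` with weights of bounded variation and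
type II blocks with small variable `m` in `(yA/2, yB]` -/
def DecI (B C2 : ℕ) (th e : ℝ) (ww : ℕ → ℕ → ℝ) : Prop := ∃ X0 : ℕ, ∀ X : ℕ, X0 ≤ X →
  ∃ (I : ℕ) (γ α : ℕ → ℕ → ℝ) (M K : ℕ → ℕ) (a c : ℕ → ℕ → ℝ) (err : ℕ → ℝ),
    (I : ℝ) ≤ (Real.log X) ^ C2 ∧
    (∀ i, (∀ n, |γ i n| ≤ (Real.log X) ^ C2) ∧
      ∑ n ∈ Ico 1 X, |γ i (n + 1) - γ i n| ≤ (Real.log X) ^ C2) ∧
    (∀ i l, |α i l| ≤ (Real.log X) ^ C2) ∧ (∀ i (l : ℕ), ZI th e X < l → α i l = 0) ∧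
    (∀ i n, |a i n| ≤ (Real.log X) ^ C2 ∧ |c i n| ≤ (Real.log X) ^ C2) ∧
    (∀ i, yA th e X / 2 ≤ M i ∧ (M i : ℝ) ≤ yB th e X ∧ K i * M i ≤ X) ∧
    (∀ i m, a i m ≠ 0 → M i < m ∧ m ≤ 2 * M i ∧ (m : ℝ) ≤ yB th e X ∧ m * K i ≤ X) ∧
    (∀ n ∈ Icc 1 X, ww X n = ∑ i ∈ range I, γ i n * ∑ l ∈ n.divisors, α i l +
      ∑ i ∈ range I, ∑ m ∈ n.divisors, (if n / m ≤ K i then a i m * c i (n / m) else 0) +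
      err n) ∧
    ∑ n ∈ Icc 1 X, err n ^ 2 ≤ X / (Real.log X) ^ B

/-- (W3): closeness on the major arcs -/
def MajI (ww gg : ℕ → ℕ → ℝ) : Prop := ∀ A B : ℕ, ∃ D0 : ℕ, ∀ D' : ℕ, D0 ≤ D' →
  ∃ X0 : ℕ, ∀ X : ℕ, X0 ≤ X → ∀ θ : ℝ, Ht ((Real.log X) ^ B) X θ →
    ‖WI ww gg (-1) (wX D' X) X θ‖ ≤ X / (Real.log X) ^ A

/-! ### Sections of the proof of GEN -/

/-- the type I bound `B1` for `F` at level `ZI` -/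
def TII1 (th e : ℝ) (X : ℕ) (F : ℕ → ℂ) (B1 : ℝ) : Prop :=
  ∀ (R : ℕ) (c : ℕ → ℂ) (y : ℕ → ℕ), (R : ℝ) ≤ ZI th e X → (∀ r, ‖c r‖ ≤ 1) →
    (∀ r ∈ Icc 1 R, r * y r ≤ X) →
    ‖∑ r ∈ Icc 1 R, c r * ∑ k ∈ Icc 1 (y r), F (r * k)‖ ≤ B1

/-- the type II bound `B2` for `F`: the small variable is in `(N, 2N]`, `yA/2 ≤ N ≤ yB` -/
def TII2 (th e : ℝ) (X : ℕ) (F : ℕ → ℂ) (B2 : ℝ) : Prop :=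
  ∀ (M N t : ℕ) (a b : ℕ → ℂ), t ≤ X → (∀ n, ‖a n‖ ≤ 1) → (∀ n, ‖b n‖ ≤ 1) →
    1 ≤ M → yA th e X / 2 ≤ N → (N : ℝ) ≤ yB th e X → M * N ≤ X →
    ‖∑ l ∈ Ioc M (2 * M), ∑ s ∈ (Ioc N (2 * N)).filter (fun s => l * s ≤ t),
      a l * b s * F (l * s)‖ ≤ B2

/-- the bounds for the second function: the third bound holds at the points of height
`≥ X/(4 y3) = X^(th-3e)/4` -/
def VBI (G : ℕ) [NeZero G] (th e : ℝ) (X C : ℕ) (V : ZMod G → ℂ) : Prop :=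
  VBH G X C V ∧ ∀ j, (X : ℝ) / (4 * y3 (dl th e) X) ≤ ht X (al G j) →
    ‖V j‖ ≤ (X : ℝ) ^ ((3 + th) / 4)

/-- the structured set `S(Λ, b)` with `ε' = e/10` -/
def SSI (th e : ℝ) (X Λ : ℕ) (bb : ℝ) (α : ℝ) : Prop :=
  ∃ d ∈ Apd (dl th e) X α,
    (Nat.lcm Λ d : ℝ) * max bb (hd X α d / d) ≤ (X : ℝ) ^ (e / 10) * Λ * bb

/-- the weight `1` outside `S(Λ, b)` -/
noncomputable def wSI (G : ℕ) (th e : ℝ) (X Λ : ℕ) (bb : ℝ) (j : ZMod G) : ℂ :=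
  open Classical in if SSI th e X Λ bb (al G j) then 0 else 1

/-- reduction to type I and type II sums -/
def RedI : Prop := ∀ A : ℕ, ∃ B : ℕ, ∀ K0 C1 C2 : ℕ, ∃ C : ℕ, ∀ th e : ℝ, Adm th e →
  ∀ ww gg : ℕ → ℕ → ℝ, W1 K0 C1 ww gg → DecI B C2 th e ww → ∀ D' : ℕ, 1 ≤ D' →
  ∃ X0 : ℕ, ∀ X : ℕ, X0 ≤ X → ∀ (F : ℕ → ℂ) (B1 B2 B3 B4 : ℝ), TII1 th e X F B1 →
    TII2 th e X F B2 →
    ∑ n ∈ Icc 1 X, ‖F n‖ ^ 2 ≤ B3 ^ 2 → (∀ n, ‖F n‖ ≤ B4) → 0 ≤ B3 →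
    ‖∑ n ∈ Icc 1 X, ((uI ww gg X (wX D' X) n : ℝ) : ℂ) * F n‖ ≤
      (Real.log X) ^ C * (B1 + B2 + Real.sqrt X * B4) + Real.sqrt X * B3 / (Real.log X) ^ A

/-- the structure theorem -/
def StI : Prop := ∀ A CV : ℕ, ∃ B : ℕ, ∀ (K0 C1 C2 : ℕ) (th e η : ℝ), Adm th e → 0 < η →
  η ≤ e → ∀ ww gg : ℕ → ℕ → ℝ, W1 K0 C1 ww gg → DecI B C2 th e ww → ∀ D' : ℕ, 1 ≤ D' →
  ∃ X0 : ℕ, ∀ X : ℕ, X0 ≤ X → ∀ (G : ℕ) [NeZero G], 3 * X ≤ G → ∀ V : ZMod G → ℂ,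
    VBI G th e X CV V → ∀ ω : ZMod G → ℂ, (∀ j, ‖ω j‖ ≤ 1) → ∀ E : Finset ℕ, E ⊆ Icc 1 X →
    (X : ℝ) ^ (th - e) ≤ E.card → ∀ ph : ℕ → ℂ, (∀ n, ‖ph n‖ ≤ 1) →
    NoAPH G (dl th e) X ω E ((X : ℝ) ^ (-η)) →
    ‖∑ n ∈ E, ph n * PhI G ww gg X (wX D' X) V ω n‖ ≤ X * E.card / (Real.log X) ^ A

/-- the tree theorem -/
def TreeI : Prop := ∀ A CV : ℕ, ∃ B : ℕ, ∀ (K0 C1 C2 : ℕ) (th e : ℝ), Adm th e →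
  ∀ ww gg : ℕ → ℕ → ℝ, W1 K0 C1 ww gg → DecI B C2 th e ww → ∀ D' : ℕ, 1 ≤ D' →
  ∃ X0 : ℕ, ∀ X : ℕ, X0 ≤ X → ∀ (G : ℕ) [NeZero G], 3 * X ≤ G → ∀ V : ZMod G → ℂ,
    VBI G th e X CV V → ∀ Bx : Finset ℕ, Bx ⊆ Icc 1 X →
    (∀ n ∈ Bx, ∀ (Λ : ℕ) (bb : ℝ), 1 ≤ Λ → 1 ≤ bb → (Λ : ℝ) * bb ≤ 2 * (X : ℝ) ^ (1 - th + e) →
      (X : ℝ) / (Real.log X) ^ A < ‖PhI G ww gg X (wX D' X) V (wSI G th e X Λ bb) n‖) →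
    (Bx.card : ℝ) ≤ (X : ℝ) ^ (th - e / 4)

/-- structured functions are small at large height: `ww + s gg f1 = structured + err` -/
def SupI : Prop := ∀ A : ℕ, ∃ B : ℕ, ∀ (K0 C1 C2 : ℕ) (th e : ℝ), Adm th e →
  ∀ ww gg : ℕ → ℕ → ℝ, W1 K0 C1 ww gg → DecI B C2 th e ww → ∀ D' : ℕ, 1 ≤ D' →
  ∃ X0 : ℕ, ∀ X : ℕ, X0 ≤ X → ∀ s : ℝ, |s| ≤ 1 → ∃ err : ℕ → ℝ,
    ∑ n ∈ Icc 1 X, err n ^ 2 ≤ X / (Real.log X) ^ A ∧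
    ∀ θ : ℝ, (X : ℝ) ^ (th - 4 * e) ≤ ht X θ →
      ‖∑ n ∈ Icc 1 X, ((ww X n + s * fI gg X (wX D' X) n - err n : ℝ) : ℂ) * ee ((n : ℝ) * θ)‖ ≤
        (X : ℝ) ^ ((3 + th) / 4)

/-- the pointwise lemma -/
def PlI : Prop := ∀ A : ℕ, ∃ B : ℕ, ∀ K0 C1 C2 : ℕ, ∃ K1 K2 : ℕ, ∀ th e : ℝ, Adm th e →
  ∀ ww gg : ℕ → ℕ → ℝ, W1 K0 C1 ww gg → DecI B C2 th e ww → ∀ D' A0 : ℕ, 1 ≤ D' →
  ∃ X0 : ℕ, ∀ X : ℕ, X0 ≤ X → ∀ n : ℕ, X < 2 * n → n ≤ X →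
    ∀ (QQ : Finset ℕ) (N b : ℝ) (bq : ℕ → ℝ), (∀ q ∈ QQ, 1 ≤ q ∧ b ≤ bq q ∧ bq q ≤ 2 * b) →
    (∀ q ∈ QQ, ∀ q' ∈ QQ, (Nat.lcm q q' : ℝ) ≤ N) → (QQ.card : ℝ) ≤ (X : ℝ) ^ (1 / 50 : ℝ) →
    1 / (Real.log X) ^ A0 ≤ b → N * b ≤ (X : ℝ) ^ (1 - th + 3 / 2 * e) →
    ((Real.log X) ^ K2 < b ∨ ∀ q ∈ QQ, (Real.log X) ^ K1 * (Nat.gcd q n : ℝ) < q) →
    ∑ q ∈ QQ, ‖∑ a ∈ rr q,
      ((∫ x in (bq q / X)..(2 * bq q / X), FFI ww gg (wX D' X) X n ((a : ℝ) / q + x)) +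
      ∫ x in (bq q / X)..(2 * bq q / X), FFI ww gg (wX D' X) X n ((a : ℝ) / q - x))‖ ≤
      X / (Real.log X) ^ A

/-- greedy -/
def GreedyI : Prop := ∀ A : ℕ, ∃ B : ℕ, ∀ K0 C1 C2 K1 K2 : ℕ, ∃ C : ℕ, ∀ (K : ℕ) (th e : ℝ),
  Adm th e → ∀ ww gg : ℕ → ℕ → ℝ, W1 K0 C1 ww gg → DecI B C2 th e ww → MajI ww gg →
  ∃ D0 : ℕ, ∀ D' : ℕ, D0 ≤ D' → ∃ X0 : ℕ, ∀ X : ℕ, X0 ≤ X → ∃ D : Finset ℕ,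
    (D.card : ℝ) ≤ (Real.log X) ^ C ∧
    (∀ d ∈ D, (Real.log X) ^ K ≤ (d : ℝ) ∧ (d : ℝ) ≤ (X : ℝ) ^ (1 - th + 3 * e)) ∧
    ∀ n ∈ Icc 1 X, (∀ d ∈ D, ¬ d ∣ n) → ∀ (QQ : Finset ℕ) (N : ℝ),
      (∀ q ∈ QQ, 1 ≤ q ∧ (q : ℝ) ≤ (Real.log X) ^ K1 * (Nat.gcd q n : ℝ)) →
      (∀ q ∈ QQ, ∀ q' ∈ QQ, (Nat.lcm q q' : ℝ) ≤ N) → N ≤ (X : ℝ) ^ (1 - th + 3 / 2 * e) →
      ∑ q ∈ QQ, ∑ a ∈ rr q, ∫ x in (-(2 * (Real.log X) ^ K2) / X)..(2 * (Real.log X) ^ K2 / X),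
        ‖WI ww gg (-1) (wX D' X) X ((a : ℝ) / q + x)‖ *
          ‖WI ww gg 1 (wX D' X) X ((a : ℝ) / q + x)‖ ≤
        X / (Real.log X) ^ A

/-- centre -/
def CentreI : Prop := ∀ A : ℕ, ∃ A0 : ℕ, ∀ (K0 C1 : ℕ) (ww gg : ℕ → ℕ → ℝ), W1 K0 C1 ww gg →
  ∀ D' : ℕ, 1 ≤ D' → ∃ X0 : ℕ, ∀ X : ℕ, X0 ≤ X → ∀ (QQ : Finset ℕ) (N : ℝ), (∀ q ∈ QQ, 1 ≤ q) →
    (∀ q ∈ QQ, ∀ q' ∈ QQ, (Nat.lcm q q' : ℝ) ≤ N) → N ≤ X →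
    ∑ q ∈ QQ, ∑ a ∈ rr q, ∫ x in (-(1 / (Real.log X) ^ A0) / X)..(1 / (Real.log X) ^ A0 / X),
      ‖WI ww gg (-1) (wX D' X) X ((a : ℝ) / q + x)‖ *
        ‖WI ww gg 1 (wX D' X) X ((a : ℝ) / q + x)‖ ≤
      X / (Real.log X) ^ A

/-- GEN -/
def GenI : Prop := ∀ A : ℕ, ∃ B : ℕ, ∀ K0 C1 C2 : ℕ, ∃ C : ℕ, ∀ th e : ℝ, Adm th e →
  ∀ ww gg : ℕ → ℕ → ℝ, W1 K0 C1 ww gg → DecI B C2 th e ww → MajI ww gg → ∀ K : ℕ,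
  ∃ D0 : ℕ, ∀ D' : ℕ, D0 ≤ D' → ∃ X0 : ℕ, ∀ X : ℕ, X0 ≤ X → ∃ D Ex : Finset ℕ,
    (D.card : ℝ) ≤ (Real.log X) ^ C ∧
    (∀ d ∈ D, (Real.log X) ^ K ≤ (d : ℝ) ∧ (d : ℝ) ≤ (X : ℝ) ^ (1 - th + 3 * e)) ∧
    (Ex.card : ℝ) ≤ (X : ℝ) ^ (th - e / 4) ∧
    ∀ n : ℕ, X < 2 * n → n ≤ X → Even n → n ∉ Ex → (∀ d ∈ D, ¬ d ∣ n) →
      |cvv (ww X) (ww X) n - cvv (fI gg X (wX D' X)) (fI gg X (wX D' X)) n| ≤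
        X / (Real.log X) ^ A

theorem y3_dl (th e : ℝ) (X : ℕ) : y3 (dl th e) X = (X : ℝ) ^ (1 - th + 3 * e) := by
  unfold y3 dl; congr 1; ring

theorem y2_dl (th e : ℝ) (X : ℕ) : y2 (dl th e) X = yB th e X := by
  unfold y2 dl yB; congr 1; ring

end Pool.MP_dd84fd_nt.IX
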