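import Pool.Agent.Lib.MP_dd84fd_nt.HX.PlDefs
import Pool.Agent.Lib.MP_dd84fd_nt.IX.Defs

/-!
# Theorem I, section 4 (PL_I): definitions

Paper: /team-store/I3_paper.md section 4 (and H98_paper.md section 5).  `L = log X`.
`StdI`, `BlkI`: as `HXP.StdH`, `HXP.BlkH` with `N b ≤ X^(1-θ+3e/2)`, `X^((1-θ)/2+3e) ≤ M ≤ X^(θ-3e)`.
-/

set_option autoImplicit false

namespace Pool.MP_dd84fd_nt.IXP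

open Finset Pool.MP_67663b_nt.Odd Pool.MP_dd84fd_nt.PL Pool.MP_dd84fd_nt.HX Pool.MP_dd84fd_nt.HXP
open Pool.MP_dd84fd_nt.IX (Adm)

/-- a type II block: `m ∈ MM ⊆ (M, 2M]`, `|a_m| ≤ Am`, `∑_{k ≤ K} |c_k|² ≤ S X / M` -/
def BlkI (X : ℕ) (th e M : ℝ) (K : ℕ) (MM : Finset ℕ) (a c : ℕ → ℂ) (Am S : ℝ) : Prop :=
  (X : ℝ) ^ ((1 - th) / 2 + 3 * e) ≤ M ∧ M ≤ (X : ℝ) ^ (th - 3 * e) ∧ K ≤ X ∧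
    (∀ m ∈ MM, M < (m : ℝ) ∧ (m : ℝ) ≤ 2 * M) ∧ (∀ m ∈ MM, ‖a m‖ ≤ Am) ∧
    ∑ k ∈ Icc 1 K, ‖c k‖ ^ 2 ≤ S * X / M

/-- the standing hypotheses of PL_I on `X, n, b, N, σ, QQ, bq` -/
def StdI (X n : ℕ) (th e : ℝ) (A1 : ℕ) (b N σ : ℝ) (QQ : Finset ℕ) (bq : ℕ → ℝ) : Prop :=
  X < 2 * n ∧ n ≤ X ∧ (σ = 1 ∨ σ = -1) ∧ (Real.log X) ^ (-(A1 : ℝ)) ≤ b ∧ 1 ≤ N ∧
    N * b ≤ (X : ℝ) ^ (1 - th + 3 / 2 * e) ∧ Fam QQ N ∧ (QQ.card : ℝ) ≤ (X : ℝ) ^ (1 / 50 : ℝ) ∧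
    ∀ q ∈ QQ, b ≤ bq q ∧ bq q ≤ 2 * b

end Pool.MP_dd84fd_nt.IXP
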