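import Pool.Agent.Lib.MP_dd84fd_nt.HX.PlMod
import Pool.Agent.Lib.MP_dd84fd_nt.IX.PlDefs

/-!
# PL_I-Mod: the model `gg f1` is a short type I sum plus an `L²`-small remainder

Adapt `HX/PlMod.lean` (copy its private lemmas): the factor `(1 - w_D(n))/log n` is replaced by `gg X n`, `|gg X n| ≤ K0`,
variation `≤ L^C1` (`W1`).  `f1 w n = R ∑_{d ∣ (n,P)} μ(d)`, `R = P/φ(P) ≤ L`; `Γ d n = R μ(d) gg X n` if `d ∣ P`, `d ≤ V0 X`, `0` otherwise.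
`WI_l2`: `|ww| ≤ K0`, `|gg f1| ≤ K0 L`: `∑ |·|² ≤ 2 (K0² + K0² L²) X ≤ X L³`.
-/

set_option autoImplicit false

namespace Pool.MP_dd84fd_nt.IXP

open Finset Pool.MP_67663b_nt.Odd Pool.MP_dd84fd_nt.E2 Pool.MP_dd84fd_nt.PL Pool.MP_dd84fd_nt.HX Pool.MP_dd84fd_nt.HXP
open Pool.MP_dd84fd_nt.IX (Adm W1 fI WI)

/-- the sum over the multiples of `d` -/
private theorem plModI_mult (d t : ℕ) (hd : 0 < d) (g : ℕ → ℂ) :
    ∑ n ∈ (Icc 1 t).filter (fun n => d ∣ n), g n = ∑ k ∈ Icc 1 (t / d), g (d * k) := by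
  symm
  refine sum_bij (fun k _ => d * k) ?_ ?_ ?_ ?_
  · intro k hk
    rw [mem_Icc] at hk
    rw [mem_filter, mem_Icc]
    refine ⟨⟨Nat.mul_pos hd hk.1, ?_⟩, dvd_mul_right d k⟩
    calc d * k ≤ d * (t / d) := Nat.mul_le_mul_left d hk.2
      _ ≤ t := Nat.mul_div_le t d
  · intro k _ k' _ h
    exact Nat.eq_of_mul_eq_mul_left hd h
  · intro n hn
    rw [mem_filter, mem_Icc] at hn
    obtain ⟨k, rfl⟩ := hn.2
    refine ⟨k, ?_, rfl⟩
    rw [mem_Icc]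
    constructor
    · exact Nat.pos_of_mul_pos_left hn.1.1
    · rw [Nat.le_div_iff_mul_le hd, mul_comm]
      exact hn.1.2
  · intro k _
    rfl

private theorem plModI_iw_sum (X D : ℕ) (γ : ℕ → ℕ → ℝ) (θ : ℝ) :
    ∑ d ∈ Icc 1 D, iw X d (γ d) θ =
      tp X (fun n => ((∑ d ∈ (Icc 1 D).filter (fun d => d ∣ n), γ d n : ℝ) : ℂ)) θ := by
  have h1 : ∀ d ∈ Icc 1 D, iw X d (γ d) θ =
      ∑ n ∈ Icc 1 X, if d ∣ n then ((γ d n : ℝ) : ℂ) * ee ((n : ℝ) * θ) else 0 := by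
    intro d hd
    have hd0 : 0 < d := (Finset.mem_Icc.1 hd).1
    rw [← Finset.sum_filter, plModI_mult d X hd0 (fun n => ((γ d n : ℝ) : ℂ) * ee ((n : ℝ) * θ))]
    rfl
  rw [Finset.sum_congr rfl h1, Finset.sum_comm]
  unfold tp
  refine Finset.sum_congr rfl fun n _ => ?_
  rw [← Finset.sum_filter]
  push_cast
  rw [Finset.sum_mul]

private theorem plModI_uniq (X : ℕ) (a : ℕ → ℂ) (h : ∀ θ : ℝ, tp X a θ = 0) :
    ∀ n ∈ Icc 1 X, a n = 0 := by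
  intro n hn
  have h1 := L2G.parseval (N := X + 1) (Icc 1 X) (fun n hn => by
    have := (Finset.mem_Icc.1 hn).2
    omega) a
  have h2 : (fun θ : ℝ => ‖∑ n ∈ Icc 1 X, a n * ee (n * θ)‖ ^ 2) = fun _ => 0 := by
    funext θ
    have := h θ
    unfold tp at this
    rw [this]
    simp
  rw [h2] at h1
  have h3 : ∑ n ∈ Icc 1 X, ‖a n‖ ^ 2 = 0 := by
    rw [← h1]
    unfold L2G.av
    simp
  have h4 := (Finset.sum_eq_zero_iff_of_nonneg (fun n _ => sq_nonneg ‖a n‖)).1 h3 n hn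
  rw [sq_eq_zero_iff, norm_eq_zero] at h4
  exact h4

theorem model_i (K0 C1 : ℕ) (ww gg : ℕ → ℕ → ℝ) (hw : W1 K0 C1 ww gg) (D' : ℕ) (hD : 1 ≤ D') :
    ∃ η : ℝ, 0 < η ∧ ∃ X0 : ℕ, ∀ X : ℕ, X0 ≤ X → ∃ (Γ : ℕ → ℕ → ℝ) (e : ℕ → ℂ),
      (∀ d, BVw X ((Real.log X) ^ (C1 + 2)) (Γ d)) ∧
      ∑ n ∈ Icc 1 X, ‖e n‖ ^ 2 ≤ (X : ℝ) ^ (1 - η) ∧
      ∀ θ : ℝ, tp X (fun n => (fI gg X (wX D' X) n : ℂ)) θ =
        ∑ d ∈ Icc 1 (V0 X), iw X d (Γ d) θ + tp X e θ := by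
  obtain ⟨X1, hX1⟩ := hw
  obtain ⟨η, hη, X3, hX3⟩ := model_split D' hD
  obtain ⟨X4, hX4⟩ := MP_log_pow (2 * (K0 : ℝ) ^ 2) 2 (ε := η / 2) (by positivity)
  obtain ⟨X5, hX5⟩ := MP_log_large (max 1 (K0 : ℝ))
  obtain ⟨X6, hX6⟩ := MP_log_pow (8 * (K0 : ℝ) ^ 2) 2 (ε := min (1 / 2) (1 - min (η / 2) (1 / 4))) (by
    refine lt_min (by norm_num) ?_
    have : min (η / 2) (1 / 4) ≤ 1 / 4 := min_le_right _ _
    linarith)
  obtain ⟨X7, hX7⟩ := f1_le D'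
  refine ⟨min (η / 4) (1 / 4), lt_min (by positivity) (by norm_num),
    max (max X1 X3) (max (max X4 X5) (max (max X6 X7) 1)), fun X hX => ?_⟩
  simp only [max_le_iff] at hX
  obtain ⟨⟨hX1', hX3'⟩, ⟨hX4', hX5'⟩, ⟨hX6', hX7'⟩, hXone⟩ := hX
  have hX0 : (0 : ℝ) < X := by exact_mod_cast hXone
  have hXge1 : (1 : ℝ) ≤ X := by exact_mod_cast hXone
  obtain ⟨hL1, hLK⟩ := max_le_iff.1 (hX5 X hX5')
  obtain ⟨hwg, hvar⟩ := hX1 X hX1'
  obtain ⟨v, e, hv, -, he, hF⟩ := hX3 X hX3'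
  have hlog := hX4 X hX4'
  have hlog6 := hX6 X hX6'
  set L := Real.log X with hL
  have hL0 : 0 < L := by linarith
  have hwle : ((wX D' X : ℕ) : ℝ) ≤ L ^ D' := by
    unfold wX
    exact Nat.floor_le (pow_nonneg hL0.le D')
  obtain ⟨-, hf⟩ := hX7 X hX7' (wX D' X) hwle
  obtain ⟨w, hw⟩ : ∃ w, wX D' X = w := ⟨_, rfl⟩
  rw [hw] at hF hf ⊢
  have hK0 : (0 : ℝ) ≤ K0 := Nat.cast_nonneg K0
  -- comparison of coefficients
  have hco : ∀ n ∈ Icc 1 X, ((f2 w n : ℝ) : ℂ) =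
      ((∑ d ∈ (Icc 1 (V0 X)).filter (fun d => d ∣ n), v d / Real.log n : ℝ) : ℂ) + e n := by
    intro n hn
    have h1 := plModI_uniq X (fun n => ((f2 w n : ℝ) : ℂ) -
      (((∑ d ∈ (Icc 1 (V0 X)).filter (fun d => d ∣ n), v d / Real.log n : ℝ) : ℂ) + e n))
      (by
        intro θ
        have h2 : tp X (fun n => ((f2 w n : ℝ) : ℂ) -
            (((∑ d ∈ (Icc 1 (V0 X)).filter (fun d => d ∣ n), v d / Real.log n : ℝ) : ℂ) + e n)) θ =
            F2 w X θ - (tp X (fun n =>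
              ((∑ d ∈ (Icc 1 (V0 X)).filter (fun d => d ∣ n), v d / Real.log n : ℝ) : ℂ)) θ +
              tp X e θ) := by
          unfold tp F2
          rw [← Finset.sum_add_distrib, ← Finset.sum_sub_distrib]
          refine Finset.sum_congr rfl fun n _ => ?_
          ring
        rw [h2, hF θ, ← plModI_iw_sum X (V0 X) (fun d n => v d / Real.log n) θ]
        have h3 : TI X (V0 X) (fun _ => 0) v θ =
            ∑ d ∈ Icc 1 (V0 X), iw X d (fun n => v d / Real.log n) θ := by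
          unfold TI ti iw
          refine Finset.sum_congr rfl fun d _ => Finset.sum_congr rfl fun k _ => ?_
          rw [zero_mul, zero_add]
        rw [h3, sub_self]) n hn
    exact sub_eq_zero.1 h1
  obtain ⟨u, hu⟩ : ∃ u : ℕ → ℂ, u = fun n => ((En.f1 w n : ℝ) : ℂ) -
    ((∑ d ∈ (Icc 1 (V0 X)).filter (fun d => d ∣ n), v d : ℝ) : ℂ) := ⟨_, rfl⟩
  have hu2 : ∀ n ∈ Icc 1 X, n ≠ 1 → ‖u n‖ ≤ L * ‖e n‖ := by
    intro n hn hn1
    have hn' := Finset.mem_Icc.1 hn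
    have hn2 : (2 : ℝ) ≤ n := by exact_mod_cast (show 2 ≤ n by omega)
    have hln : 0 < Real.log (n : ℝ) := Real.log_pos (by linarith)
    have h1 : u n = ((Real.log (n : ℝ) : ℝ) : ℂ) * e n := by
      have r1 : En.f1 w n = Real.log (n : ℝ) * f2 w n := by
        unfold f2
        field_simp
      have r2 : ∑ d ∈ (Icc 1 (V0 X)).filter (fun d => d ∣ n), v d = Real.log (n : ℝ) *
          ∑ d ∈ (Icc 1 (V0 X)).filter (fun d => d ∣ n), v d / Real.log n := by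
        rw [← Finset.sum_div]
        field_simp
      rw [hu]
      simp only
      rw [r1, r2, Complex.ofReal_mul, Complex.ofReal_mul, hco n hn]
      ring
    rw [h1, norm_mul, Complex.norm_real, Real.norm_eq_abs, abs_of_pos hln]
    apply mul_le_mul_of_nonneg_right _ (norm_nonneg _)
    exact Real.log_le_log (by linarith) (by exact_mod_cast hn'.2)
  have hu1 : ‖u 1‖ ≤ 2 * L := by
    rw [hu]
    refine (norm_sub_le _ _).trans ?_
    have h1 : ‖((En.f1 w 1 : ℝ) : ℂ)‖ ≤ L := by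
      rw [Complex.norm_real, Real.norm_eq_abs, abs_of_nonneg (f1_nonneg w 1)]
      exact hf 1
    have h2 : ‖((∑ d ∈ (Icc 1 (V0 X)).filter (fun d => d ∣ 1), v d : ℝ) : ℂ)‖ ≤ L := by
      rw [Complex.norm_real, Real.norm_eq_abs]
      refine (Finset.abs_sum_le_sum_abs _ _).trans ?_
      refine (Finset.sum_le_card_nsmul _ _ L fun d _ => hv d).trans ?_
      rw [nsmul_eq_mul]
      have h3 : ((Icc 1 (V0 X)).filter (fun d => d ∣ 1)).card ≤ 1 := by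
        rw [Finset.card_le_one]
        intro a ha b hb
        rw [Nat.dvd_one.1 (Finset.mem_filter.1 ha).2, Nat.dvd_one.1 (Finset.mem_filter.1 hb).2]
      have h4 : (((Icc 1 (V0 X)).filter (fun d => d ∣ 1)).card : ℝ) ≤ 1 := by exact_mod_cast h3
      calc (((Icc 1 (V0 X)).filter (fun d => d ∣ 1)).card : ℝ) * L ≤ 1 * L :=
            mul_le_mul_of_nonneg_right h4 hL0.le
        _ = L := one_mul L
    linarith
  have hsum : ∑ n ∈ Icc 1 X, ‖u n‖ ^ 2 ≤ 4 * L ^ 2 + L ^ 2 * ∑ n ∈ Icc 1 X, ‖e n‖ ^ 2 := by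
    have h1 : ∀ n ∈ Icc 1 X, ‖u n‖ ^ 2 ≤ (if n = 1 then 4 * L ^ 2 else 0) + L ^ 2 * ‖e n‖ ^ 2 := by
      intro n hn
      split_ifs with h
      · rw [h]
        have h2 : ‖u 1‖ ^ 2 ≤ (2 * L) ^ 2 := pow_le_pow_left₀ (norm_nonneg _) hu1 2
        have h3 : 0 ≤ L ^ 2 * ‖e 1‖ ^ 2 := by positivity
        linarith
      · rw [zero_add, ← mul_pow]
        exact pow_le_pow_left₀ (norm_nonneg _) (hu2 n hn h) 2
    refine (Finset.sum_le_sum h1).trans ?_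
    rw [Finset.sum_add_distrib, ← Finset.mul_sum]
    apply add_le_add_left
    rw [Finset.sum_ite_eq' (Icc 1 X) 1]
    split_ifs
    · exact le_refl _
    · positivity
  refine ⟨fun d n => v d * gg X n, fun n => ((gg X n : ℝ) : ℂ) * u n,
    fun d => ⟨fun n hn => ?_, ?_⟩, ?_, fun θ => ?_⟩
  · show |v d * gg X n| ≤ L ^ (C1 + 2)
    rw [abs_mul]
    calc |v d| * |gg X n| ≤ L * K0 := mul_le_mul (hv d) (hwg n).2 (abs_nonneg _) hL0.le
      _ ≤ L * L := mul_le_mul_of_nonneg_left hLK hL0.le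
      _ = L ^ 2 := by ring
      _ ≤ L ^ (C1 + 2) := pow_le_pow_right₀ hL1 (by omega)
  · show ∑ n ∈ Ico 1 X, |v d * gg X (n + 1) - v d * gg X n| ≤ L ^ (C1 + 2)
    have h1 : ∀ n ∈ Ico 1 X, |v d * gg X (n + 1) - v d * gg X n| ≤
        L * |gg X (n + 1) - gg X n| := by
      intro n _
      rw [← mul_sub, abs_mul]
      exact mul_le_mul_of_nonneg_right (hv d) (abs_nonneg _)
    refine (Finset.sum_le_sum h1).trans ?_
    rw [← Finset.mul_sum]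
    calc L * ∑ n ∈ Ico 1 X, |gg X (n + 1) - gg X n| ≤ L * L ^ C1 :=
          mul_le_mul_of_nonneg_left hvar hL0.le
      _ = L ^ (C1 + 1) := by ring
      _ ≤ L ^ (C1 + 2) := pow_le_pow_right₀ hL1 (by omega)
  · have h1 : ∀ n ∈ Icc 1 X, ‖((gg X n : ℝ) : ℂ) * u n‖ ^ 2 ≤ (K0 : ℝ) ^ 2 * ‖u n‖ ^ 2 := by
      intro n _
      rw [norm_mul, mul_pow, Complex.norm_real, Real.norm_eq_abs]
      apply mul_le_mul_of_nonneg_right _ (by positivity)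
      exact pow_le_pow_left₀ (abs_nonneg _) (hwg n).2 2
    refine (Finset.sum_le_sum h1).trans ?_
    rw [← Finset.mul_sum]
    have hmin1 : min (η / 4) (1 / 4) ≤ η / 4 := min_le_left _ _
    have hmin2 : min (η / 4) (1 / 4) ≤ 1 / 4 := min_le_right _ _
    have h2 : 2 * (K0 : ℝ) ^ 2 * L ^ 2 * (X : ℝ) ^ (1 - η) ≤ (X : ℝ) ^ (1 - min (η / 4) (1 / 4)) := by
      calc 2 * (K0 : ℝ) ^ 2 * L ^ 2 * (X : ℝ) ^ (1 - η) ≤ (X : ℝ) ^ (η / 2) * (X : ℝ) ^ (1 - η) :=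
            mul_le_mul_of_nonneg_right hlog (by positivity)
        _ = (X : ℝ) ^ (1 - η / 2) := by
            rw [← Real.rpow_add hX0]
            congr 1
            ring
        _ ≤ (X : ℝ) ^ (1 - min (η / 4) (1 / 4)) := by
            apply Real.rpow_le_rpow_of_exponent_le hXge1
            linarith
    have h3 : 8 * (K0 : ℝ) ^ 2 * L ^ 2 ≤ (X : ℝ) ^ (1 - min (η / 4) (1 / 4)) := by
      refine hlog6.trans ?_
      apply Real.rpow_le_rpow_of_exponent_le hXge1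
      refine (min_le_left _ _).trans ?_
      linarith
    have h4 : (K0 : ℝ) ^ 2 * ∑ n ∈ Icc 1 X, ‖u n‖ ^ 2 ≤
        (K0 : ℝ) ^ 2 * (4 * L ^ 2 + L ^ 2 * (X : ℝ) ^ (1 - η)) := by
      apply mul_le_mul_of_nonneg_left _ (by positivity)
      refine hsum.trans ?_
      have := mul_le_mul_of_nonneg_left he (show (0 : ℝ) ≤ L ^ 2 by positivity)
      linarith
    refine h4.trans ?_
    have h5 : (K0 : ℝ) ^ 2 * (4 * L ^ 2 + L ^ 2 * (X : ℝ) ^ (1 - η)) =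
        (8 * (K0 : ℝ) ^ 2 * L ^ 2) / 2 + (2 * (K0 : ℝ) ^ 2 * L ^ 2 * (X : ℝ) ^ (1 - η)) / 2 := by
      ring
    rw [h5]
    linarith
  · rw [plModI_iw_sum X (V0 X) (fun d n => v d * gg X n) θ]
    unfold tp
    rw [← Finset.sum_add_distrib]
    refine Finset.sum_congr rfl fun n hn => ?_
    rw [← add_mul]
    congr 1
    beta_reduce
    rw [← Finset.sum_mul, hu]
    unfold fI
    push_cast
    ring

theorem WI_l2 (K0 C1 : ℕ) (ww gg : ℕ → ℕ → ℝ) (hw : W1 K0 C1 ww gg) (D' : ℕ) (hD : 1 ≤ D') :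
    ∃ X0 : ℕ, ∀ X : ℕ, X0 ≤ X → ∀ s : ℝ, |s| ≤ 1 → ∃ e : ℕ → ℂ,
      ∑ n ∈ Icc 1 X, ‖e n‖ ^ 2 ≤ X * (Real.log X) ^ 3 ∧
      ∀ θ : ℝ, WI ww gg s (wX D' X) X θ = tp X e θ := by
  obtain ⟨X1, hX1⟩ := f1_le D'
  obtain ⟨X2, hX2⟩ := hw
  obtain ⟨X4, hX4⟩ := MP_log_large 1
  obtain ⟨X5, hX5⟩ := MP_log_large ((2 * (K0 : ℝ)) ^ 2)
  refine ⟨max (max X1 X2) (max X4 X5), fun X hX s hs => ?_⟩
  simp only [max_le_iff] at hX
  obtain ⟨⟨hX1', hX2'⟩, hX4', hX5'⟩ := hX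
  have hL1 := hX4 X hX4'
  have hL2 := hX5 X hX5'
  obtain ⟨hwg, -⟩ := hX2 X hX2'
  set L := Real.log X with hL
  have hL0 : 0 < L := by linarith
  have hwle : ((wX D' X : ℕ) : ℝ) ≤ L ^ D' := by
    unfold wX
    exact Nat.floor_le (pow_nonneg hL0.le D')
  obtain ⟨-, hf⟩ := hX1 X hX1' (wX D' X) hwle
  obtain ⟨w, hw⟩ : ∃ w, wX D' X = w := ⟨_, rfl⟩
  rw [hw] at hf ⊢
  have hK0 : (0 : ℝ) ≤ K0 := Nat.cast_nonneg K0
  refine ⟨fun n => ((ww X n + s * fI gg X w n : ℝ) : ℂ), ?_, fun θ => rfl⟩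
  have hb : ∀ n ∈ Icc 1 X, ‖((ww X n + s * fI gg X w n : ℝ) : ℂ)‖ ^ 2 ≤ L ^ 3 := by
    intro n hn
    have e1 : |ww X n| ≤ K0 := by
      refine (hwg n).1.trans ?_
      have h1 : rg (IX.zI X) n ≤ 1 := by
        unfold rg
        split_ifs <;> norm_num
      calc (K0 : ℝ) * rg (IX.zI X) n ≤ K0 * 1 := mul_le_mul_of_nonneg_left h1 hK0
        _ = K0 := mul_one _
    have e2 : |fI gg X w n| ≤ K0 * L := by
      unfold fI
      rw [abs_mul, abs_of_nonneg (f1_nonneg w n)]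
      exact mul_le_mul (hwg n).2 (hf n) (f1_nonneg w n) hK0
    have e5 : ‖((ww X n + s * fI gg X w n : ℝ) : ℂ)‖ ≤ (2 * (K0 : ℝ)) * L := by
      rw [Complex.norm_real, Real.norm_eq_abs]
      calc |ww X n + s * fI gg X w n| ≤ |ww X n| + |s * fI gg X w n| := abs_add_le _ _
        _ ≤ K0 + 1 * (K0 * L) := by
            rw [abs_mul]
            exact add_le_add e1 (mul_le_mul hs e2 (abs_nonneg _) (by norm_num))
        _ ≤ K0 * L + 1 * (K0 * L) := by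
            have : (K0 : ℝ) * 1 ≤ K0 * L := mul_le_mul_of_nonneg_left hL1 hK0
            linarith
        _ = (2 * (K0 : ℝ)) * L := by ring
    calc ‖((ww X n + s * fI gg X w n : ℝ) : ℂ)‖ ^ 2 ≤ ((2 * (K0 : ℝ)) * L) ^ 2 :=
          pow_le_pow_left₀ (norm_nonneg _) e5 2
      _ = (2 * (K0 : ℝ)) ^ 2 * L ^ 2 := by ring
      _ ≤ L * L ^ 2 := mul_le_mul_of_nonneg_right hL2 (by positivity)
      _ = L ^ 3 := by ring
  refine (Finset.sum_le_sum hb).trans ?_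
  rw [Finset.sum_const, Nat.card_Icc, Nat.add_sub_cancel, nsmul_eq_mul]

end Pool.MP_dd84fd_nt.IXP
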