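import Pool.Agent.Lib.MP_dd84fd_nt.IX.Defs
import Pool.Agent.Lib.MP_dd84fd_nt.HX.FaDefs

/-!
# Theorem I, GEN, assembly: definitions
-/

set_option autoImplicit false

namespace Pool.MP_dd84fd_nt.IX

open Finset Pool.MP_67663b_nt.Odd Pool.MP_dd84fd_nt.En Pool.MP_dd84fd_nt.E2 Pool.MP_dd84fd_nt.LS
  Pool.MP_dd84fd_nt.GX Pool.MP_dd84fd_nt.HX

open Pool.MP_dd84fd_nt.L2G (nrm)

open Pool.MP_dd84fd_nt.PL (rr)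

open Classical in
/-- the denominators of the discs: `lcm(Λ, q) ≤ X^(e/10) Λ` -/
noncomputable def QQi (th e : ℝ) (X Λ : ℕ) : Finset ℕ :=
  (Icc 1 ⌊y3 (dl th e) X⌋₊).filter
    (fun q : ℕ => (Nat.lcm Λ q : ℝ) ≤ (X : ℝ) ^ (e / 10) * Λ)

/-- `X` times the radius of the discs with denominator `q` -/
noncomputable def rdi (th e : ℝ) (X Λ : ℕ) (bb : ℝ) (q : ℕ) : ℝ :=
  min ((X : ℝ) ^ (e / 10) * Λ * bb / (Nat.lcm Λ q : ℝ)) (y3 (dl th e) X / q)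

/-- `ww + gg f1` -/
noncomputable def upI (ww gg : ℕ → ℕ → ℝ) (X w n : ℕ) : ℝ := ww X n + fI gg X w n

/-- the integral of `|W_-| |W_+|` over the discs of radius `v/X` -/
noncomputable def dscNI (ww gg : ℕ → ℕ → ℝ) (w X q : ℕ) (v : ℝ) : ℝ :=
  ∑ a ∈ rr q, ∫ x in (-(v) / X)..(v / X), ‖WI ww gg (-1) w X ((a : ℝ) / q + x)‖ *
    ‖WI ww gg 1 w X ((a : ℝ) / q + x)‖

/-- the conclusion of the greedy theorem for one `n` -/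
def GoodNI (th e : ℝ) (ww gg : ℕ → ℕ → ℝ) (w X n A K1 K2 : ℕ) : Prop :=
  ∀ (QQ : Finset ℕ) (N : ℝ),
    (∀ q ∈ QQ, 1 ≤ q ∧ (q : ℝ) ≤ (Real.log X) ^ K1 * (Nat.gcd q n : ℝ)) →
    (∀ q ∈ QQ, ∀ q' ∈ QQ, (Nat.lcm q q' : ℝ) ≤ N) → N ≤ (X : ℝ) ^ (1 - th + 3 / 2 * e) →
    ∑ q ∈ QQ, dscNI ww gg w X q (2 * (Real.log X) ^ K2) ≤ X / (Real.log X) ^ A

end Pool.MP_dd84fd_nt.IX
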