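import Pool.Agent.Lib.MP_dd84fd_nt.HX.PlTIN
import Pool.Agent.Lib.MP_dd84fd_nt.IX.PlDefs

/-!
# PL_I-T2: the model on the arcs, and the `L²` norm of the functions `lam`

Adapt `tim_N2`, `tila_N2` of `HX/PlTIN.lean` (copy its private lemmas).
`t2i_N2`: `D = V0 X ≤ X^(1/4)`, `g = 1`, `S = {d ≤ V0 : ¬ q ∣ d}`, `ti_rest` (`4 V0 q x ≤ 16 X^(1/4) Nb/X ≤ 16 X^(1/4+1-θ+3e/2-1) ≤ 1`), pointwise
`≤ C L^C0 (X^(1/4) + q)(1+L) ≤ X^(1-θ+4e)`, `N2 ≤ (4Nb/X) X^(2-2θ+8e) ≤ X^(19/20)`.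
`lami_N2`: for the `q` with `16 D q b ≤ X`: `lam_iw_large` (`4 D q x ≤ 1` for `x ≤ 2b_q/X ≤ 4b/X`): `≤ L^C0 (1+L)/(q b_q/X) ≤ L^(C0+2) X/(qb)`,
`N2 ≤ ∑_q q (2b/X) L^(2C0+4) X²/(qb)² ≤ X L^(2C0+6)/b`.
-/

set_option autoImplicit false

namespace Pool.MP_dd84fd_nt.IXP

open Finset Pool.MP_67663b_nt.Odd Pool.MP_dd84fd_nt.PL Pool.MP_dd84fd_nt.HX Pool.MP_dd84fd_nt.HXP
open Pool.MP_dd84fd_nt.IX (Adm)

private theorem t2_log (K : ℕ) (A η : ℝ) (hη : 0 < η) : ∃ X0 : ℕ, ∀ X : ℕ, X0 ≤ X →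
    A * (Real.log X) ^ K ≤ (X : ℝ) ^ η := by
  have h1 := (isLittleO_log_rpow_rpow_atTop (K : ℝ) hη).bound
    (show (0 : ℝ) < 1 / (|A| + 1) by positivity)
  obtain ⟨x0, hx0⟩ := Filter.eventually_atTop.1 h1
  refine ⟨max ⌈x0⌉₊ 1, fun X hX => ?_⟩
  have hX1 : 1 ≤ X := (le_max_right _ _).trans hX
  have hX2 : x0 ≤ X := (Nat.le_ceil x0).trans (by exact_mod_cast (le_max_left _ _).trans hX)
  have h2 := hx0 X hX2
  have hL : 0 ≤ Real.log X := Real.log_natCast_nonneg X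
  have hXp : (0 : ℝ) ≤ (X : ℝ) ^ η := Real.rpow_nonneg (Nat.cast_nonneg X) _
  rw [Real.rpow_natCast, Real.norm_eq_abs, Real.norm_eq_abs, abs_of_nonneg (pow_nonneg hL K),
    abs_of_nonneg hXp] at h2
  calc A * (Real.log X) ^ K ≤ |A| * (Real.log X) ^ K :=
        mul_le_mul_of_nonneg_right (le_abs_self A) (pow_nonneg hL K)
    _ ≤ |A| * (1 / (|A| + 1) * (X : ℝ) ^ η) := mul_le_mul_of_nonneg_left h2 (abs_nonneg A)
    _ = (|A| / (|A| + 1)) * (X : ℝ) ^ η := by ring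
    _ ≤ 1 * (X : ℝ) ^ η := by
        apply mul_le_mul_of_nonneg_right _ hXp
        rw [div_le_one (by positivity)]
        linarith
    _ = (X : ℝ) ^ η := one_mul _

private theorem t2_big (T : ℝ) : ∃ X0 : ℕ, ∀ X : ℕ, X0 ≤ X → T ≤ Real.log X := by
  refine ⟨⌈Real.exp T⌉₊, fun X hX => ?_⟩
  have h1 : Real.exp T ≤ X := (Nat.le_ceil _).trans (by exact_mod_cast hX)
  rw [Real.le_log_iff_exp_le ((Real.exp_pos T).trans_le h1)]
  exact h1

private theorem t2_V0 (X : ℕ) (hX : 1 ≤ X) : (V0 X : ℝ) ≤ (X : ℝ) ^ (1 / 4 : ℝ) := by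
  have hX0 : (0 : ℝ) < X := by exact_mod_cast hX
  have h3 : (V0 X : ℝ) ≤ Real.sqrt (Nat.sqrt X) := Real.nat_sqrt_le_real_sqrt
  have h4 : Real.sqrt (Nat.sqrt X) ≤ Real.sqrt (Real.sqrt X) :=
    Real.sqrt_le_sqrt Real.nat_sqrt_le_real_sqrt
  have h5 : Real.sqrt (Real.sqrt X) = (X : ℝ) ^ (1 / 4 : ℝ) := by
    rw [Real.sqrt_eq_rpow, Real.sqrt_eq_rpow, ← Real.rpow_mul hX0.le]
    norm_num
  exact (h3.trans h4).trans h5.le

private theorem t2_harm (QQ : Finset ℕ) (N : ℝ) (hN : Fam QQ N) (hN1 : 1 ≤ N) :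
    ∑ q ∈ QQ, 1 / (q : ℝ) ≤ 1 + Real.log N := by
  have hsub : QQ ⊆ Icc 1 ⌊N⌋₊ := by
    intro q hq
    rw [mem_Icc]
    refine ⟨hN.1 q hq, Nat.le_floor ?_⟩
    have := hN.2 q hq q hq
    rwa [Nat.lcm_self] at this
  have h1 : ∑ q ∈ QQ, 1 / (q : ℝ) ≤ ∑ q ∈ Icc 1 ⌊N⌋₊, 1 / (q : ℝ) :=
    sum_le_sum_of_subset_of_nonneg hsub fun _ _ _ => by positivity
  have h2 := harmonic_le_one_add_log ⌊N⌋₊
  rw [harmonic_eq_sum_Icc] at h2
  push_cast at h2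
  have h3 : ∑ q ∈ Icc 1 ⌊N⌋₊, 1 / (q : ℝ) = ∑ q ∈ Icc 1 ⌊N⌋₊, ((q : ℝ))⁻¹ :=
    sum_congr rfl fun _ _ => one_div _
  have h4 : Real.log ⌊N⌋₊ ≤ Real.log N := by
    apply Real.log_le_log
    · have : 1 ≤ ⌊N⌋₊ := Nat.le_floor (by exact_mod_cast hN1)
      exact_mod_cast this
    · exact Nat.floor_le (by linarith)
  rw [← h3] at h2
  linarith

/-- facts for large `X` -/
private theorem t2_facts (th e : ℝ) (A1 : ℕ) (hp : Adm th e) : ∃ X0 : ℕ, ∀ X : ℕ,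
    X0 ≤ X → ∀ (n : ℕ) (b N σ : ℝ) (QQ : Finset ℕ) (bq : ℕ → ℝ), StdI X n th e A1 b N σ QQ bq →
    1 ≤ X ∧ 2 ≤ Real.log X ∧ 0 < b ∧ N * b ≤ (X : ℝ) ^ (1 - th + 3 / 2 * e) ∧ N ≤ X ∧
    (∀ q ∈ QQ, 1 ≤ q ∧ q ≤ X ∧ (q : ℝ) ≤ (X : ℝ) ^ (1 - th + 3 * e)) ∧
    (∀ q ∈ QQ, ∀ x : ℝ, x ≤ 2 * bq q / X → 4 * (X : ℝ) ^ (1 / 4 : ℝ) * q * x ≤ 1) := by
  obtain ⟨ht1, ht2, he0, het⟩ := hp
  obtain ⟨X1, hX1⟩ := t2_log A1 1 (e / 10) (by linarith)
  obtain ⟨X2, hX2⟩ := t2_big 2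
  obtain ⟨X3, hX3⟩ := t2_log 0 16 (1 / 10) (by norm_num)
  refine ⟨max (max X1 X2) (max X3 1), ?_⟩
  intro X hX n b N σ QQ bq hstd
  have g1 := hX1 X ((le_max_left _ _).trans ((le_max_left _ _).trans hX))
  have g2 := hX2 X ((le_max_right _ _).trans ((le_max_left _ _).trans hX))
  have g3 := hX3 X ((le_max_left _ _).trans ((le_max_right _ _).trans hX))
  have hX1' : 1 ≤ X := (le_max_right _ _).trans ((le_max_right _ _).trans hX)
  have hX0 : (0 : ℝ) < X := by exact_mod_cast hX1'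
  have hX1R : (1 : ℝ) ≤ X := by exact_mod_cast hX1'
  obtain ⟨-, -, hσ, hbL, hN1, hNb, hfam, -, hbq⟩ := hstd
  obtain ⟨L, hL⟩ : ∃ L : ℝ, L = Real.log X := ⟨_, rfl⟩
  rw [← hL] at g1 g2 hbL
  rw [pow_zero, mul_one] at g3
  rw [one_mul] at g1
  have hL0 : 0 < L := by linarith
  have hb0 : 0 < b := lt_of_lt_of_le (Real.rpow_pos_of_pos hL0 _) hbL
  have hNle : N ≤ (X : ℝ) ^ (1 - th + 8 / 5 * e) := by
    have h1 : 1 ≤ b * L ^ A1 := by
      have h2 : L ^ (-(A1 : ℝ)) * L ^ A1 = 1 := by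
        rw [← Real.rpow_natCast, ← Real.rpow_add hL0]
        simp
      calc 1 = L ^ (-(A1 : ℝ)) * L ^ A1 := h2.symm
        _ ≤ b * L ^ A1 := mul_le_mul_of_nonneg_right hbL (by positivity)
    calc N = N * 1 := (mul_one N).symm
      _ ≤ N * (b * L ^ A1) := mul_le_mul_of_nonneg_left h1 (by linarith)
      _ = (N * b) * L ^ A1 := by ring
      _ ≤ (X : ℝ) ^ (1 - th + 3 / 2 * e) * (X : ℝ) ^ (e / 10) := by
          apply mul_le_mul hNb g1 (by positivity) (by positivity)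
      _ = (X : ℝ) ^ (1 - th + 8 / 5 * e) := by
          rw [← Real.rpow_add hX0]
          congr 1
          ring
  have hNX : N ≤ X := by
    have h1 : (X : ℝ) ^ (1 - th + 8 / 5 * e) ≤ (X : ℝ) ^ (1 : ℝ) :=
      Real.rpow_le_rpow_of_exponent_le hX1R (by linarith)
    rw [Real.rpow_one] at h1
    exact hNle.trans h1
  have hqq' : ∀ q ∈ QQ, 1 ≤ q ∧ (q : ℝ) ≤ N := by
    intro q hqq
    have h1 := hfam.2 q hqq q hqq
    rw [Nat.lcm_self] at h1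
    exact ⟨hfam.1 q hqq, h1⟩
  refine ⟨hX1', by rw [← hL]; exact g2, hb0, hNb, hNX, ?_, ?_⟩
  · intro q hqq
    obtain ⟨hq1, h1⟩ := hqq' q hqq
    refine ⟨hq1, by exact_mod_cast h1.trans hNX, ?_⟩
    have h2 : (X : ℝ) ^ (1 - th + 8 / 5 * e) ≤ (X : ℝ) ^ (1 - th + 3 * e) :=
      Real.rpow_le_rpow_of_exponent_le hX1R (by linarith)
    exact h1.trans (hNle.trans h2)
  · intro q hqq x hx
    obtain ⟨hq1, h1⟩ := hqq' q hqq
    have h2 : x ≤ 4 * b / X := by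
      refine hx.trans ?_
      apply div_le_div_of_nonneg_right _ hX0.le
      linarith [(hbq q hqq).2]
    have hexp : (X : ℝ) ^ (1 / 10 : ℝ) * ((X : ℝ) ^ (1 / 4 : ℝ) *
        (X : ℝ) ^ (1 - th + 3 / 2 * e)) ≤ X := by
      rw [← Real.rpow_add hX0, ← Real.rpow_add hX0]
      calc (X : ℝ) ^ (1 / 10 + (1 / 4 + (1 - th + 3 / 2 * e))) ≤ (X : ℝ) ^ (1 : ℝ) :=
            Real.rpow_le_rpow_of_exponent_le hX1R (by linarith)
        _ = X := Real.rpow_one _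
    calc 4 * (X : ℝ) ^ (1 / 4 : ℝ) * q * x ≤ 4 * (X : ℝ) ^ (1 / 4 : ℝ) * q * (4 * b / X) := by
          apply mul_le_mul_of_nonneg_left h2 (by positivity)
      _ ≤ 4 * (X : ℝ) ^ (1 / 4 : ℝ) * N * (4 * b / X) := by gcongr
      _ = 16 * ((X : ℝ) ^ (1 / 4 : ℝ) * (N * b)) / X := by ring
      _ ≤ (X : ℝ) ^ (1 / 10 : ℝ) * ((X : ℝ) ^ (1 / 4 : ℝ) *
            (X : ℝ) ^ (1 - th + 3 / 2 * e)) / X := by
          gcongr
      _ ≤ X / X := by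
          apply div_le_div_of_nonneg_right hexp hX0.le
      _ = 1 := div_self hX0.ne'

theorem t2i_N2 (th e : ℝ) (A1 C0 : ℕ) (hp : Adm th e) : ∃ X0 : ℕ, ∀ X : ℕ, X0 ≤ X →
    ∀ (n : ℕ) (b N σ : ℝ) (QQ : Finset ℕ) (bq : ℕ → ℝ), StdI X n th e A1 b N σ QQ bq →
    ∀ (γ : ℕ → ℕ → ℝ), (∀ l, BVw X ((Real.log X) ^ C0) (γ l)) →
    N2 X bq QQ (fun q a x => ∑ d ∈ (Icc 1 (V0 X)).filter (fun d => ¬ q ∣ d),
      iw X d (γ d) ((a : ℝ) / q + σ * x)) ≤ (X : ℝ) ^ (19 / 20 : ℝ) := by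
  obtain ⟨ht1, ht2, he0, het⟩ := id hp
  obtain ⟨C, hC, hti⟩ := ti_rest
  obtain ⟨X1, hX1⟩ := t2_facts th e A1 hp
  obtain ⟨X2, hX2⟩ := t2_log (C0 + 1) (4 * C) e he0
  obtain ⟨X3, hX3⟩ := t2_log 0 4 (3 / 20) (by norm_num)
  refine ⟨max X1 (max X2 X3), ?_⟩
  intro X hX n b N σ QQ bq hstd γ hγ
  obtain ⟨hX1', hL2, hb0, hNb, hNX, hq, hx4⟩ := hX1 X ((le_max_left _ _).trans hX) n b N σ QQ bq
    hstd
  have g2 := hX2 X ((le_max_left _ _).trans ((le_max_right _ _).trans hX))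
  have g3 := hX3 X ((le_max_right _ _).trans ((le_max_right _ _).trans hX))
  rw [pow_zero, mul_one] at g3
  have hX0 : (0 : ℝ) < X := by exact_mod_cast hX1'
  have hX1R : (1 : ℝ) ≤ X := by exact_mod_cast hX1'
  obtain ⟨-, -, hσ, -, hN1, -, hfam, -, hbq⟩ := hstd
  set κ : ℝ := 1 - th + 3 * e with hκ
  have hL0 : 0 < Real.log X := by linarith
  have hR0 : 0 ≤ (Real.log X) ^ C0 := by positivity
  have hV := t2_V0 X hX1'
  -- the pointwise bound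
  have hpt : ∀ q ∈ QQ, ∀ a ∈ rr q, ∀ x : ℝ, bq q / X ≤ x → x ≤ 2 * bq q / X →
      ‖∑ d ∈ (Icc 1 (V0 X)).filter (fun d => ¬ q ∣ d), iw X d (γ d) ((a : ℝ) / q + σ * x)‖ ≤
        (X : ℝ) ^ (κ + e) := by
    intro q hqq a ha x hx1 hx2
    obtain ⟨hq1, hqX, hqκ⟩ := hq q hqq
    have hqR : (1 : ℝ) ≤ q := by exact_mod_cast hq1
    have hcop : Nat.Coprime a q := by
      unfold rr at ha
      exact (mem_filter.1 ha).2
    have hbqq := hbq q hqq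
    have hx0 : 0 ≤ x := le_trans (div_nonneg (hb0.le.trans hbqq.1) hX0.le) hx1
    have hDx : 4 * (V0 X : ℝ) * q * x ≤ 1 := by
      refine le_trans ?_ (hx4 q hqq x hx2)
      gcongr
    have hlogq : Real.log q ≤ Real.log X :=
      Real.log_le_log (by linarith) (by exact_mod_cast hqX)
    have h2 := hti X q a 1 (V0 X) ((Icc 1 (V0 X)).filter (fun d => ¬ q ∣ d)) γ
      ((Real.log X) ^ C0) x σ hq1 hcop (one_dvd q) (by
        intro l hl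
        rw [mem_filter, mem_Icc] at hl
        rw [Nat.div_one]
        exact ⟨hl.1.1, hl.1.2, hl.2⟩) hσ hx0 hDx hR0 (fun l _ => hγ l)
    simp only [mul_one] at h2
    refine h2.trans ?_
    have h3 : (V0 X : ℝ) + q ≤ 2 * (X : ℝ) ^ κ := by
      have h4 : (X : ℝ) ^ (1 / 4 : ℝ) ≤ (X : ℝ) ^ κ :=
        Real.rpow_le_rpow_of_exponent_le hX1R (by rw [hκ]; linarith)
      linarith
    have h5 : 1 + Real.log q ≤ 2 * Real.log X := by linarith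
    have h6 : 0 ≤ 1 + Real.log q := by
      have := Real.log_natCast_nonneg q
      linarith
    calc C * (Real.log X) ^ C0 * ((V0 X : ℝ) + q) * (1 + Real.log q)
        ≤ C * (Real.log X) ^ C0 * (2 * (X : ℝ) ^ κ) * (2 * Real.log X) := by
          gcongr
      _ = (4 * C * (Real.log X) ^ (C0 + 1)) * (X : ℝ) ^ κ := by ring
      _ ≤ (X : ℝ) ^ e * (X : ℝ) ^ κ := by gcongr
      _ = (X : ℝ) ^ (κ + e) := by
          rw [← Real.rpow_add hX0]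
          congr 1
          ring
  -- the norm
  have h0 := N2_sup X hX1' bq QQ (fun q hqq => hb0.trans_le (hbq q hqq).1)
    (fun q a x => ∑ d ∈ (Icc 1 (V0 X)).filter (fun d => ¬ q ∣ d),
      iw X d (γ d) ((a : ℝ) / q + σ * x))
    (fun q a => continuous_finsetSum _ fun l _ => (iw_cont X l (γ l)).comp (by fun_prop))
    (fun _ => (X : ℝ) ^ (κ + e)) hpt
  refine h0.trans ?_
  have hcount := count QQ N hfam hN1
  have h1 : ∑ q ∈ QQ, (Nat.totient q : ℝ) * (bq q / X) * ((X : ℝ) ^ (κ + e)) ^ 2 ≤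
      ∑ q ∈ QQ, (Nat.totient q : ℝ) * ((2 * b / X) * ((X : ℝ) ^ (κ + e)) ^ 2) := by
    apply sum_le_sum
    intro q hqq
    have h6 := (hbq q hqq).2
    rw [mul_assoc]
    gcongr
  refine h1.trans ?_
  rw [← sum_mul]
  have h8 : ((X : ℝ) ^ (κ + e)) ^ 2 = (X : ℝ) * (X : ℝ) ^ (2 * κ + 2 * e - 1) := by
    rw [← Real.rpow_natCast, ← Real.rpow_mul hX0.le]
    nth_rewrite 2 [← Real.rpow_one (X : ℝ)]
    rw [← Real.rpow_add hX0]
    congr 1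
    push_cast
    ring
  calc (∑ q ∈ QQ, (Nat.totient q : ℝ)) * ((2 * b / X) * ((X : ℝ) ^ (κ + e)) ^ 2)
      ≤ (2 * N) * ((2 * b / X) * ((X : ℝ) ^ (κ + e)) ^ 2) := by
        apply mul_le_mul_of_nonneg_right _ (by positivity)
        linarith
    _ = 4 * (N * b) * (X : ℝ) ^ (2 * κ + 2 * e - 1) := by
        rw [h8]
        field_simp
        ring
    _ ≤ (X : ℝ) ^ (3 / 20 : ℝ) * (X : ℝ) ^ (1 - th + 3 / 2 * e) *
          (X : ℝ) ^ (2 * κ + 2 * e - 1) := by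
        gcongr
    _ = (X : ℝ) ^ (3 / 20 + (1 - th + 3 / 2 * e) + (2 * κ + 2 * e - 1)) := by
        rw [← Real.rpow_add hX0, ← Real.rpow_add hX0]
    _ ≤ (X : ℝ) ^ (19 / 20 : ℝ) := by
        apply Real.rpow_le_rpow_of_exponent_le hX1R
        rw [hκ]
        linarith

theorem lami_N2 (th e : ℝ) (A1 C0 : ℕ) (hp : Adm th e) : ∃ X0 : ℕ, ∀ X : ℕ, X0 ≤ X →
    ∀ (n : ℕ) (b N σ : ℝ) (QQ : Finset ℕ) (bq : ℕ → ℝ), StdI X n th e A1 b N σ QQ bq →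
    ∀ (D : ℕ) (S : ℕ → Finset ℕ) (γ : ℕ → ℕ → ℕ → ℝ), D ≤ X → (∀ q, ∀ l ∈ S q, 1 ≤ l ∧ l ≤ D) →
    (∀ q l, BVw X ((Real.log X) ^ C0) (γ q l)) →
    N2 X bq QQ (fun q _ x => open Classical in
      if 16 * (D : ℝ) * q * b ≤ X then ∑ l ∈ S q, iw X (l * q) (γ q l) (σ * x) else 0) ≤
      X * (Real.log X) ^ (2 * C0 + 6) / b := by
  classical
  obtain ⟨X1, hX1⟩ := t2_facts th e A1 hp
  refine ⟨X1, ?_⟩
  intro X hX n b N σ QQ bq hstd D S γ hDX hS hγ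
  obtain ⟨hX1', hL2, hb0, hNb, hNX, hq, hx4⟩ := hX1 X hX n b N σ QQ bq hstd
  have hX0 : (0 : ℝ) < X := by exact_mod_cast hX1'
  have hX1R : (1 : ℝ) ≤ X := by exact_mod_cast hX1'
  obtain ⟨-, -, hσ, -, hN1, -, hfam, -, hbq⟩ := hstd
  obtain ⟨L, hL⟩ : ∃ L : ℝ, L = Real.log X := ⟨_, rfl⟩
  have hL0 : 0 < L := by linarith
  have hbq0 : ∀ q ∈ QQ, 0 < bq q := fun q hqq => hb0.trans_le (hbq q hqq).1
  have h0 := N2_sup X hX1' bq QQ hbq0 (fun q _ x => open Classical in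
      if 16 * (D : ℝ) * q * b ≤ X then ∑ l ∈ S q, iw X (l * q) (γ q l) (σ * x) else 0)
    (by
      intro q a
      by_cases hc : 16 * (D : ℝ) * q * b ≤ X
      · simp only [if_pos hc]
        exact continuous_finsetSum _ fun l _ => (iw_cont X (l * q) (γ q l)).comp (by fun_prop)
      · simp only [if_neg hc]
        exact continuous_const)
    (fun q => L ^ C0 * (1 + L) * X / (q * bq q)) (by
      intro q hqq a ha x hx1 hx2
      obtain ⟨hq1, hqX, -⟩ := hq q hqq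
      have hq0 : (0 : ℝ) < q := by exact_mod_cast hq1
      have hb1 := hbq0 q hqq
      have hx0 : 0 < x := lt_of_lt_of_le (div_pos hb1 hX0) hx1
      by_cases hc : 16 * (D : ℝ) * q * b ≤ X
      · simp only [if_pos hc]
        have hx4' : x ≤ 4 * b / X := by
          refine hx2.trans (div_le_div_of_nonneg_right ?_ hX0.le)
          linarith [(hbq q hqq).2]
        have h1 := lam_iw_large X q D (S q) (γ q) ((Real.log X) ^ C0) x σ hX1' hq1 hDX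
          (hS q) (by rw [← hL]; positivity) (fun l _ => hγ q l) hσ hx0 (by
            calc 4 * (D : ℝ) * q * x ≤ 4 * (D : ℝ) * q * (4 * b / X) := by gcongr
              _ = (16 * (D : ℝ) * q * b) / X := by ring
              _ ≤ 1 := by
                  rw [div_le_one hX0]
                  exact hc)
        refine h1.trans ?_
        rw [← hL]
        have h2 : (q : ℝ) * (bq q / X) ≤ q * x := mul_le_mul_of_nonneg_left hx1 hq0.le
        calc L ^ C0 * (1 + L) / (q * x) ≤ L ^ C0 * (1 + L) / (q * (bq q / X)) := by gcongr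
          _ = L ^ C0 * (1 + L) * X / (q * bq q) := by field_simp
      · simp only [if_neg hc]
        rw [norm_zero]
        positivity)
  refine h0.trans ?_
  rw [← hL]
  have hterm : ∀ q ∈ QQ, (Nat.totient q : ℝ) * (bq q / X) *
      (L ^ C0 * (1 + L) * X / (q * bq q)) ^ 2 ≤
        (L ^ C0 * (1 + L)) ^ 2 * (X / b) * (1 / (q : ℝ)) := by
    intro q hqq
    obtain ⟨hq1, hqX, -⟩ := hq q hqq
    have hq0 : (0 : ℝ) < q := by exact_mod_cast hq1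
    have hb1 := hbq0 q hqq
    have ht : (Nat.totient q : ℝ) ≤ q := by exact_mod_cast Nat.totient_le q
    have e1 : (Nat.totient q : ℝ) * (bq q / X) * (L ^ C0 * (1 + L) * X / (q * bq q)) ^ 2 =
        (L ^ C0 * (1 + L)) ^ 2 * (X / bq q) * ((Nat.totient q : ℝ) / q ^ 2) := by
      field_simp
    rw [e1]
    have e2 : (Nat.totient q : ℝ) / q ^ 2 ≤ 1 / q := by
      rw [div_le_div_iff₀ (by positivity) hq0]
      nlinarith
    have e3 : (X : ℝ) / bq q ≤ X / b := by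
      have := (hbq q hqq).1
      gcongr
    gcongr
  refine (sum_le_sum hterm).trans ?_
  rw [← mul_sum]
  have hharm := t2_harm QQ N hfam hN1
  have hlogN : Real.log N ≤ L := by
    rw [hL]
    exact Real.log_le_log (by linarith) hNX
  rw [← hL] at hL2
  have h5 : ∑ q ∈ QQ, 1 / (q : ℝ) ≤ 2 * L := by linarith
  calc (L ^ C0 * (1 + L)) ^ 2 * (X / b) * ∑ q ∈ QQ, 1 / (q : ℝ)
      ≤ (L ^ C0 * (2 * L)) ^ 2 * (X / b) * (2 * L) := by
        have : 1 + L ≤ 2 * L := by linarith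
        gcongr
    _ = (X / b) * (8 * L ^ (2 * C0 + 3)) := by ring
    _ ≤ (X / b) * (L ^ 3 * L ^ (2 * C0 + 3)) := by
        have : (8 : ℝ) ≤ L ^ 3 := by
          calc (8 : ℝ) = 2 ^ 3 := by norm_num
            _ ≤ L ^ 3 := pow_le_pow_left₀ (by norm_num) hL2 3
        gcongr
    _ = X * L ^ (2 * C0 + 6) / b := by ring

end Pool.MP_dd84fd_nt.IXP
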