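import Pool.Agent.Lib.MP_dd84fd_nt.IX.GrDefs
import Pool.Agent.Lib.MP_dd84fd_nt.E2.FBound
import Pool.Agent.Lib.MP_dd84fd_nt.E2.MinorP

/-!
# IX-GrCf (0.3 h): coefficients and norms

Adapt `HX/GrNrm.lean` (`coef_le`, `WH_triv`). `W1`: `|ww| ≤ K0 rg ≤ K0` (`rg ≤ 1`), `|gg| ≤ K0`, `0 ≤ f1 ≤ log X` (`f1_le D'`, `wX D' X ≤ (log X)^D'`): `|cfI| ≤ K0 + K0 log X ≤ (log X)^2` for large `X`
(`MP_log_large`). The sum of squares: `X` terms. `WI`: triangle inequality, `‖ee‖ = 1`.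
-/

set_option autoImplicit false

namespace Pool.MP_dd84fd_nt.IX

open Finset Pool.MP_67663b_nt.Odd Pool.MP_dd84fd_nt.En Pool.MP_dd84fd_nt.E2 Pool.MP_dd84fd_nt.LS
open Pool.MP_dd84fd_nt.L2G (nrm)
open Pool.MP_dd84fd_nt.GX Pool.MP_dd84fd_nt.HX
open Pool.MP_dd84fd_nt.PL (rr Fam)

theorem cf_le (K0 C1 D' : ℕ) (ww gg : ℕ → ℕ → ℝ) (h : W1 K0 C1 ww gg) : ∃ X0 : ℕ, ∀ X : ℕ,
    X0 ≤ X → ∀ s : ℝ, |s| ≤ 1 →
    (∀ n, |cfI ww gg s (wX D' X) X n| ≤ (Real.log X) ^ 2) ∧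
    ∑ n ∈ Icc 1 X, cfI ww gg s (wX D' X) X n ^ 2 ≤ X * (Real.log X) ^ 4 ∧
    ∀ θ, ‖WI ww gg s (wX D' X) X θ‖ ≤ X * (Real.log X) ^ 2 := by
  obtain ⟨X1, hX1⟩ := h
  obtain ⟨X3, hX3⟩ := f1_le D'
  obtain ⟨X4, hX4⟩ := MP_log_large (2 * K0 + 1)
  refine ⟨max X1 (max X3 X4), fun X hX s hs => ?_⟩
  simp only [max_le_iff] at hX
  obtain ⟨g1, g3, g4⟩ := hX
  have hL := hX4 X g4
  have hK : (0 : ℝ) ≤ K0 := Nat.cast_nonneg _
  have key : ∀ n, |cfI ww gg s (wX D' X) X n| ≤ (Real.log X) ^ 2 := by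
    intro n
    set L := Real.log (X : ℝ) with hLd
    have hL0 : 0 ≤ L := by linarith
    have hL1 : 1 ≤ L := by linarith
    have hw : ((wX D' X : ℕ) : ℝ) ≤ L ^ D' := by
      unfold wX
      exact Nat.floor_le (pow_nonneg hL0 D')
    obtain ⟨-, hf⟩ := hX3 X g3 (wX D' X) hw
    have hf0 := f1_nonneg (wX D' X) n
    obtain ⟨ha, hg⟩ := (hX1 X g1).1 n
    have hrg : rg (zI X) n ≤ 1 := by
      unfold rg
      split_ifs <;> norm_num
    have ha1 : |ww X n| ≤ K0 := ha.trans (mul_le_of_le_one_right hK hrg)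
    have hfI : |fI gg X (wX D' X) n| ≤ K0 * L := by
      unfold fI
      rw [abs_mul, abs_of_nonneg hf0]
      exact mul_le_mul hg (hf n) hf0 hK
    unfold cfI
    calc |ww X n + s * fI gg X (wX D' X) n|
        ≤ |ww X n| + |s * fI gg X (wX D' X) n| := abs_add_le _ _
      _ ≤ K0 + 1 * (K0 * L) := by
          rw [abs_mul]
          exact add_le_add ha1 (mul_le_mul hs hfI (abs_nonneg _) (by norm_num))
      _ ≤ K0 * L + K0 * L := by nlinarith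
      _ = (2 * K0) * L := by ring
      _ ≤ L * L := mul_le_mul_of_nonneg_right (by linarith) hL0
      _ = L ^ 2 := by ring
  refine ⟨key, ?_, fun θ => ?_⟩
  · refine (Finset.sum_le_card_nsmul _ _ ((Real.log X) ^ 4) fun k _ => ?_).trans (le_of_eq ?_)
    · rw [← sq_abs]
      calc |cfI ww gg s (wX D' X) X k| ^ 2 ≤ ((Real.log X) ^ 2) ^ 2 :=
            pow_le_pow_left₀ (abs_nonneg _) (key k) 2
        _ = (Real.log X) ^ 4 := by ring
    · rw [Nat.card_Icc, nsmul_eq_mul, Nat.add_sub_cancel]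
  · unfold WI
    refine (norm_sum_le _ _).trans ?_
    refine (Finset.sum_le_card_nsmul _ _ ((Real.log X) ^ 2) fun k _ => ?_).trans (le_of_eq ?_)
    · rw [norm_mul, norm_ee, mul_one, Complex.norm_real, Real.norm_eq_abs]
      exact key k
    · rw [Nat.card_Icc, nsmul_eq_mul, Nat.add_sub_cancel]

end Pool.MP_dd84fd_nt.IX
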