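import Pool.Agent.Lib.MP_dd84fd_nt.IX.GrDefs
import Pool.Agent.Lib.MP_dd84fd_nt.HX.GrExpII

/-!
# IX-GrT2 (0.4 h): exponential sums of type II

Scaling of `expII_h` (`HX/GrExpII.lean`): apply it to `a / L^C2`, `c / L^C2` (bounded by `1 ≤ L^2`), `L = log X ≥ 1`: the sum for `a, c` is `L^(2 C2)` times the sum for the scaled ones.
-/

set_option autoImplicit false

namespace Pool.MP_dd84fd_nt.IX

open Finset Pool.MP_67663b_nt.Odd Pool.MP_dd84fd_nt.En Pool.MP_dd84fd_nt.E2 Pool.MP_dd84fd_nt.LS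
open Pool.MP_dd84fd_nt.L2G (nrm)
open Pool.MP_dd84fd_nt.GX Pool.MP_dd84fd_nt.HX
open Pool.MP_dd84fd_nt.PL (rr Fam)

theorem type2_pw (C2 : ℕ) : ∃ X0 : ℕ, ∀ X : ℕ, X0 ≤ X → ∀ (M K : ℕ) (a c : ℕ → ℝ) (θ : ℝ),
    1 ≤ M → M ≤ X → K * M ≤ X → (∀ n, |a n| ≤ (Real.log X) ^ C2 ∧ |c n| ≤ (Real.log X) ^ C2) →
    (∀ m : ℕ, a m ≠ 0 → M < m ∧ m ≤ 2 * M) →
    ‖ES X (fun n => ∑ m ∈ n.divisors, (if n / m ≤ K then a m * c (n / m) else 0)) θ‖ ^ 2 ≤
      X * ((X : ℝ) / M + X / ht X θ + M) * (Real.log X) ^ (4 * C2 + 10) := by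
  obtain ⟨X1, h1⟩ := expII_h
  refine ⟨max X1 3, ?_⟩
  intro X hX M K a c θ hM hMX hKM hac hsupp
  have hX1 : X1 ≤ X := (le_max_left _ _).trans hX
  have hX3 : 3 ≤ X := (le_max_right _ _).trans hX
  have hX3r : (3 : ℝ) ≤ (X : ℝ) := by exact_mod_cast hX3
  have hL : 1 ≤ Real.log X := by
    rw [Real.le_log_iff_exp_le (by linarith)]
    exact (le_of_lt Real.exp_one_lt_d9).trans (by linarith)
  set L := Real.log X with hLdef
  have hL0 : 0 < L := by linarith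
  have hLp : 0 < L ^ C2 := by positivity
  have hsc : ∀ b : ℝ, |b| ≤ L ^ C2 → |b / L ^ C2| ≤ L ^ 2 := by
    intro b hb
    rw [abs_div, abs_of_pos hLp, div_le_iff₀ hLp]
    have h2 : (1 : ℝ) ≤ L ^ 2 := one_le_pow₀ hL
    nlinarith
  have key := h1 X hX1 (M : ℝ) K (fun n => a n / L ^ C2) (fun n => c n / L ^ C2) θ
    (by exact_mod_cast hM) (by exact_mod_cast hMX) (by exact_mod_cast hKM)
    (fun n => ⟨hsc _ (hac n).1, hsc _ (hac n).2⟩)
    (fun m hm => by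
      have h2 : a m ≠ 0 := by
        intro h3
        exact hm (by simp [h3])
      obtain ⟨h4, h5⟩ := hsupp m h2
      exact ⟨by exact_mod_cast h4, by exact_mod_cast h5⟩)
  have hES : ES X (fun n => ∑ m ∈ n.divisors, (if n / m ≤ K then a m * c (n / m) else 0)) θ =
      ((L ^ (2 * C2) : ℝ) : ℂ) * (∑ n ∈ Icc 1 X, ((∑ m ∈ n.divisors,
        (if n / m ≤ K then (a m / L ^ C2) * (c (n / m) / L ^ C2) else 0) : ℝ) : ℂ) *
          ee ((n : ℝ) * θ)) := by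
    unfold ES
    rw [Finset.mul_sum]
    refine Finset.sum_congr rfl fun n _ => ?_
    rw [← mul_assoc, ← Complex.ofReal_mul]
    congr 2
    rw [Finset.mul_sum]
    refine Finset.sum_congr rfl fun m _ => ?_
    split_ifs
    · rw [two_mul, pow_add]
      field_simp
    · simp
  rw [hES, norm_mul, mul_pow, Complex.norm_real, Real.norm_eq_abs, abs_of_nonneg (by positivity)]
  refine (mul_le_mul_of_nonneg_left key (by positivity)).trans (le_of_eq ?_)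
  rw [← pow_mul, pow_add, show 2 * C2 * 2 = 4 * C2 by ring]
  ring

end Pool.MP_dd84fd_nt.IX
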