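import Pool.Agent.Lib.MP_dd84fd_nt.IX.GrBV
import Pool.Agent.Lib.MP_dd84fd_nt.IX.GrT2
import Pool.Agent.Lib.MP_dd84fd_nt.IX.GrCf
import Pool.Agent.Lib.MP_dd84fd_nt.HX.GrMod

/-!
# IX-GrSup (0.8 h): SupI

Model: `HX/GrStr.lean` (`str_h`). `B = A + 2`. `DecI` gives `I, γ, α, M, K, a, c, err1`; `model_coef D'` (`HX/GrMod.lean`): `f1 = ∑_{d ∣ n} v d + e1 n`, `|v| ≤ L`, `v d = 0` for `d > X^(1/4)`, `∑ e1² ≤ X^(1-η)`.
`err n := err1 n + s gg X n e1 n`: `∑ err² ≤ 2 X/L^(A+2) + 2 K0² X^(1-η) ≤ X/L^A`. For `n ∈ Icc 1 X`: `ww + s fI - err = ∑_i γ_i(n) ∑_{l ∣ n} α_i(l) + ∑_i (type II)_i + s gg(n) ∑_{d ∣ n} v d`, so `ES` of it is a sum of `2 I + 1` terms.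
Let `ht ≥ X^(th-4e)`, so `X/ht ≤ X^(1-th+4e)`. Type I: `bv_type1` with `T = T' = L^C2`, `R = ⌊ZI⌋₊ ≤ X`: `≤ C L^(2 C2) (X^(1-th+4e) + 2 X^(1-th+3e)) L` each; model: `T = max (K0) (L^C1) ≤ L^(C1+1)`, `T' = L`, `R = ⌊X^(1/4)⌋₊`.
Type II: `type2_pw`: `M_i ≥ yA/2 ≥ 1`, `X/M_i ≤ 2 X^((1+th)/2-4e)`, `M_i ≤ yB = X^(th-3e) ≤ X^((1+th)/2-4e)`, `X/ht ≤ X^((1+th)/2-4e)` (`(3 th - 1)/2 ≥ 8 e`): `‖.‖² ≤ 4 X^((3+th)/2-4e) L^(4 C2+10)`, `‖.‖ ≤ 2 X^((3+th)/4-2e) L^(2 C2+5)`,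
times `I ≤ L^C2`. All exponents: `1-th+4e ≤ 0.61 < 0.84 ≤ (3+th)/4 - 2e`. Total `≤ X^((3+th)/4)` for large `X` (`MP_log_pow` with `ε = 2e` resp. a fixed one). `Adm`: `2/5 < th ≤ 1/2`, `0 < e ≤ 1/1000`.
(The sum in the goal is `ES X (fun n => cfI ww gg s w X n - err n) θ` by definition.)
-/

set_option autoImplicit false

namespace Pool.MP_dd84fd_nt.IX

open Finset Pool.MP_67663b_nt.Odd Pool.MP_dd84fd_nt.En Pool.MP_dd84fd_nt.E2 Pool.MP_dd84fd_nt.LS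
open Pool.MP_dd84fd_nt.L2G (nrm)
open Pool.MP_dd84fd_nt.GX Pool.MP_dd84fd_nt.HX
open Pool.MP_dd84fd_nt.PL (rr Fam)

/-- numerical end of `sup_i` -/
theorem grSup_num (A C1 C2 K0 : ℕ) (C η th e : ℝ) (hη : 0 < η) (h : Adm th e) : ∃ X0 : ℕ,
    ∀ X : ℕ, X0 ≤ X → 1 ≤ X ∧ 2 ≤ Real.log X ∧
      (4 * (K0 : ℝ) ^ 2) * (Real.log X) ^ A ≤ (X : ℝ) ^ η ∧
      (3 * C + 2 + 2 * C * (K0 + 1)) * (Real.log X) ^ (3 * C2 + C1 + 5) ≤ (X : ℝ) ^ (2 * e) ∧
      1 ≤ yA th e X / 2 ∧ ZI th e X ≤ X := by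
  obtain ⟨a1, a2, a3, a4⟩ := h
  obtain ⟨X1, h1⟩ := MP_log_large 2
  obtain ⟨X2, h2⟩ := MP_log_pow (4 * (K0 : ℝ) ^ 2) A hη
  obtain ⟨X3, h3⟩ := MP_log_pow (3 * C + 2 + 2 * C * (K0 + 1)) (3 * C2 + C1 + 5)
    (show (0 : ℝ) < 2 * e by linarith)
  obtain ⟨X4, h4⟩ := MP_log_pow 2 0 (show (0 : ℝ) < (1 - th) / 2 + 4 * e by linarith)
  obtain ⟨X5, h5⟩ := MP_log_pow 2 0 (show (0 : ℝ) < th - 3 * e by linarith)
  refine ⟨max (max (max X1 X2) (max X3 X4)) (max X5 1), fun X hX => ?_⟩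
  simp only [max_le_iff] at hX
  obtain ⟨⟨⟨g1, g2⟩, g3, g4⟩, g5, g6⟩ := hX
  have k4 := h4 X g4
  rw [pow_zero, mul_one] at k4
  have k5 := h5 X g5
  rw [pow_zero, mul_one] at k5
  have hX1 : (1 : ℝ) ≤ X := by exact_mod_cast g6
  have hX0 : (0 : ℝ) < X := by linarith
  refine ⟨g6, h1 X g1, h2 X g2, h3 X g3, ?_, ?_⟩
  · unfold yA
    linarith
  · unfold ZI
    have k6 : 0 ≤ (X : ℝ) ^ (1 - th + 3 * e) := by positivity
    calc 2 * (X : ℝ) ^ (1 - th + 3 * e) ≤ (X : ℝ) ^ (th - 3 * e) * (X : ℝ) ^ (1 - th + 3 * e) :=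
          mul_le_mul_of_nonneg_right k5 k6
      _ = X := by
          rw [← Real.rpow_add hX0]
          have : th - 3 * e + (1 - th + 3 * e) = 1 := by ring
          rw [this, Real.rpow_one]

theorem grSup_sum {ι : Type*} (X : ℕ) (t : Finset ι) (c : ι → ℕ → ℝ) (θ : ℝ) :
    ES X (fun n => ∑ i ∈ t, c i n) θ = ∑ i ∈ t, ES X (c i) θ := by
  unfold ES
  rw [sum_comm]
  refine sum_congr rfl fun n _ => ?_
  push_cast
  rw [sum_mul]

theorem grSup_smul (X : ℕ) (s : ℝ) (c : ℕ → ℝ) (θ : ℝ) :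
    ES X (fun n => s * c n) θ = (s : ℂ) * ES X c θ := by
  unfold ES
  rw [mul_sum]
  refine sum_congr rfl fun n _ => ?_
  push_cast
  ring

theorem grSup_congr (X : ℕ) (c d : ℕ → ℝ) (θ : ℝ) (h : ∀ n ∈ Icc 1 X, c n = d n) :
    ES X c θ = ES X d θ := by
  unfold ES
  refine sum_congr rfl fun n hn => ?_
  rw [h n hn]

theorem sup_i : SupI := by
  intro A
  refine ⟨A + 2, fun K0 C1 C2 th e hadm ww gg hW hD D' hD' => ?_⟩
  obtain ⟨η, hη, X1, hX1⟩ := model_coef D' hD'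
  obtain ⟨C, hC, X2, hX2⟩ := bv_type1
  obtain ⟨X3, hX3⟩ := type2_pw C2
  obtain ⟨X4, hX4⟩ := grSup_num A C1 C2 K0 C η th e hη hadm
  obtain ⟨X5, hX5⟩ := hW
  obtain ⟨X6, hX6⟩ := hD
  obtain ⟨a1, a2, a3, a4⟩ := hadm
  refine ⟨max (max (max X1 X2) (max X3 X4)) (max X5 X6), fun X hX s hs => ?_⟩
  simp only [max_le_iff] at hX
  obtain ⟨⟨⟨g1, g2⟩, g3, g4⟩, g5, g6⟩ := hX
  obtain ⟨m1, m2, m3, m4, m5, m6⟩ := hX4 X g4
  obtain ⟨v, e1, v1, v2, v3, v4⟩ := hX1 X g1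
  obtain ⟨w1, w2⟩ := hX5 X g5
  obtain ⟨I, γ, α, M, K, a, c, err, c1, c2, c3, c4, c5, c6, c7, c8, c9⟩ := hX6 X g6
  have hXp : (1 : ℝ) ≤ X := by exact_mod_cast m1
  have hX0 : (0 : ℝ) < X := by linarith
  set L := Real.log (X : ℝ) with hL
  have hL0 : 0 < L := by linarith
  have hL1 : 1 ≤ L := by linarith
  have hsg : ∀ n, (s * gg X n) ^ 2 ≤ (K0 : ℝ) ^ 2 := by
    intro n
    have h1 : |s * gg X n| ≤ K0 := by
      rw [abs_mul]
      calc |s| * |gg X n| ≤ 1 * K0 := mul_le_mul hs (w1 n).2 (abs_nonneg _) zero_le_one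
        _ = K0 := one_mul _
    rw [← sq_abs]
    exact pow_le_pow_left₀ (abs_nonneg _) h1 2
  refine ⟨fun n => err n + s * gg X n * e1 n, ?_, ?_⟩
  · have f1 : ∑ n ∈ Icc 1 X, (err n + s * gg X n * e1 n) ^ 2 ≤
        2 * (∑ n ∈ Icc 1 X, err n ^ 2) + 2 * (K0 : ℝ) ^ 2 * (∑ n ∈ Icc 1 X, e1 n ^ 2) := by
      rw [mul_sum, mul_sum, ← sum_add_distrib]
      apply sum_le_sum
      intro n _
      have h1 : (s * gg X n) ^ 2 * e1 n ^ 2 ≤ (K0 : ℝ) ^ 2 * e1 n ^ 2 :=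
        mul_le_mul_of_nonneg_right (hsg n) (sq_nonneg _)
      nlinarith [sq_nonneg (err n - s * gg X n * e1 n)]
    have hLA : 0 < L ^ A := by positivity
    have f2 : (X : ℝ) ^ (1 - η) * (4 * (K0 : ℝ) ^ 2 * L ^ A) ≤ X := by
      calc (X : ℝ) ^ (1 - η) * (4 * (K0 : ℝ) ^ 2 * L ^ A) ≤
            (X : ℝ) ^ (1 - η) * (X : ℝ) ^ η := by
            apply mul_le_mul_of_nonneg_left m3
            positivity
        _ = X := by
            rw [← Real.rpow_add hX0]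
            norm_num
    have f3 : 2 * (K0 : ℝ) ^ 2 * (X : ℝ) ^ (1 - η) ≤ X / L ^ A / 2 := by
      rw [div_div, le_div_iff₀ (by positivity)]
      nlinarith
    have f4 : 2 * (X / L ^ (A + 2)) ≤ X / L ^ A / 2 := by
      have : X / L ^ (A + 2) = X / L ^ A / L ^ 2 := by
        rw [div_div, ← pow_add]
      rw [this]
      have f5 : X / L ^ A / L ^ 2 ≤ X / L ^ A / 4 := by
        apply div_le_div_of_nonneg_left (by positivity) (by norm_num)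
        nlinarith
      linarith
    have f6 : 2 * (K0 : ℝ) ^ 2 * (∑ n ∈ Icc 1 X, e1 n ^ 2) ≤
        2 * (K0 : ℝ) ^ 2 * (X : ℝ) ^ (1 - η) :=
      mul_le_mul_of_nonneg_left v3 (by positivity)
    linarith
  · intro θ hθ
    obtain ⟨E, hE⟩ : ∃ E : ℝ, (3 + th) / 4 - 2 * e = E := ⟨_, rfl⟩
    have hhp : 0 < ht X θ := lt_of_lt_of_le (by positivity) hθ
    have hle : ∀ s t : ℝ, s ≤ t → (X : ℝ) ^ s ≤ (X : ℝ) ^ t :=
      fun s t h => Real.rpow_le_rpow_of_exponent_le hXp h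
    have hXE0 : 0 < (X : ℝ) ^ E := by positivity
    -- `X / ht ≤ X^(2E-1)`
    have b0 : (X : ℝ) / ht X θ ≤ (X : ℝ) ^ (1 - th + 4 * e) := by
      rw [div_le_iff₀ hhp]
      have b2 : (X : ℝ) = (X : ℝ) ^ (1 - th + 4 * e) * (X : ℝ) ^ (th - 4 * e) := by
        rw [← Real.rpow_add hX0]
        have : 1 - th + 4 * e + (th - 4 * e) = 1 := by ring
        rw [this, Real.rpow_one]
      calc (X : ℝ) = (X : ℝ) ^ (1 - th + 4 * e) * (X : ℝ) ^ (th - 4 * e) := b2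
        _ ≤ (X : ℝ) ^ (1 - th + 4 * e) * ht X θ :=
          mul_le_mul_of_nonneg_left hθ (by positivity)
    have b1 : (X : ℝ) / ht X θ ≤ (X : ℝ) ^ (2 * E - 1) := b0.trans (hle _ _ (by linarith))
    have b1' : (X : ℝ) / ht X θ ≤ (X : ℝ) ^ E := b0.trans (hle _ _ (by linarith))
    -- type I
    have t1 : ∀ i, ‖ES X (fun n => γ i n * ∑ l ∈ n.divisors, α i l) θ‖ ≤
        3 * C * ((X : ℝ) ^ E * L ^ (2 * C2 + 1)) := by
      intro i
      have hR : ⌊ZI th e X⌋₊ ≤ X := by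
        have : ((⌊ZI th e X⌋₊ : ℕ) : ℝ) ≤ X :=
          (Nat.floor_le (by unfold ZI; positivity)).trans m6
        exact_mod_cast this
      refine (hX2 X g2 (γ i) (α i) (L ^ C2) (L ^ C2) ⌊ZI th e X⌋₊ hR (c2 i).1 (c2 i).2 (c3 i)
        (fun l hl => c4 i l (Nat.lt_of_floor_lt hl)) θ).trans ?_
      have d1 : ((⌊ZI th e X⌋₊ : ℕ) : ℝ) ≤ 2 * (X : ℝ) ^ E := by
        refine (Nat.floor_le (by unfold ZI; positivity)).trans ?_
        unfold ZI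
        have := hle (1 - th + 3 * e) E (by linarith)
        linarith
      have d2 : (X : ℝ) / ht X θ + ((⌊ZI th e X⌋₊ : ℕ) : ℝ) ≤ 3 * (X : ℝ) ^ E := by linarith
      calc C * L ^ C2 * L ^ C2 * ((X : ℝ) / ht X θ + ((⌊ZI th e X⌋₊ : ℕ) : ℝ)) * L
          ≤ C * L ^ C2 * L ^ C2 * (3 * (X : ℝ) ^ E) * L := by
            apply mul_le_mul_of_nonneg_right _ hL0.le
            exact mul_le_mul_of_nonneg_left d2 (by positivity)
        _ = 3 * C * ((X : ℝ) ^ E * L ^ (2 * C2 + 1)) := by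
            rw [pow_succ, two_mul, pow_add]
            ring
    -- model
    have t3 : ‖ES X (fun n => gg X n * ∑ d ∈ n.divisors, v d) θ‖ ≤
        2 * C * (K0 + 1) * ((X : ℝ) ^ E * L ^ (C1 + 2)) := by
      have hR : ⌊(X : ℝ) ^ (1 / 4 : ℝ)⌋₊ ≤ X := by
        have : ((⌊(X : ℝ) ^ (1 / 4 : ℝ)⌋₊ : ℕ) : ℝ) ≤ X := by
          refine (Nat.floor_le (by positivity)).trans ?_
          nth_rewrite 2 [← Real.rpow_one (X : ℝ)]
          exact hle _ _ (by norm_num)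
        exact_mod_cast this
      have hLC : 0 < L ^ C1 := by positivity
      have hK0 : (0 : ℝ) ≤ K0 := Nat.cast_nonneg _
      refine (hX2 X g2 (gg X) v (K0 + L ^ C1) L ⌊(X : ℝ) ^ (1 / 4 : ℝ)⌋₊ hR
        (fun n => (w1 n).2.trans (by linarith)) (w2.trans (by linarith)) v1
        (fun l hl => v2 l (Nat.lt_of_floor_lt hl)) θ).trans ?_
      have d1 : ((⌊(X : ℝ) ^ (1 / 4 : ℝ)⌋₊ : ℕ) : ℝ) ≤ (X : ℝ) ^ E :=
        (Nat.floor_le (by positivity)).trans (hle _ _ (by linarith))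
      have d2 : (X : ℝ) / ht X θ + ((⌊(X : ℝ) ^ (1 / 4 : ℝ)⌋₊ : ℕ) : ℝ) ≤ 2 * (X : ℝ) ^ E := by
        linarith
      have d3 : (K0 : ℝ) + L ^ C1 ≤ (K0 + 1) * L ^ C1 := by
        have : (1 : ℝ) ≤ L ^ C1 := one_le_pow₀ hL1
        nlinarith
      calc C * (K0 + L ^ C1) * L * ((X : ℝ) / ht X θ + ((⌊(X : ℝ) ^ (1 / 4 : ℝ)⌋₊ : ℕ) : ℝ)) * L
          ≤ C * (K0 + L ^ C1) * L * (2 * (X : ℝ) ^ E) * L := by
            apply mul_le_mul_of_nonneg_right _ hL0.le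
            exact mul_le_mul_of_nonneg_left d2 (by positivity)
        _ = 2 * C * ((X : ℝ) ^ E * L ^ 2) * (K0 + L ^ C1) := by ring
        _ ≤ 2 * C * ((X : ℝ) ^ E * L ^ 2) * ((K0 + 1) * L ^ C1) :=
            mul_le_mul_of_nonneg_left d3 (by positivity)
        _ = 2 * C * (K0 + 1) * ((X : ℝ) ^ E * L ^ (C1 + 2)) := by ring
    -- type II
    have t2 : ∀ i, ‖ES X (fun n => ∑ m ∈ n.divisors,
        (if n / m ≤ K i then a i m * c i (n / m) else 0)) θ‖ ≤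
        2 * ((X : ℝ) ^ E * L ^ (2 * C2 + 5)) := by
      intro i
      obtain ⟨d1, d2, d3⟩ := c6 i
      have d5 : (M i : ℝ) ≤ (X : ℝ) ^ (2 * E - 1) := by
        refine d2.trans ?_
        unfold yB
        exact hle _ _ (by linarith)
      have d6 : M i ≤ X := by
        have : (M i : ℝ) ≤ X := by
          refine d5.trans ?_
          nth_rewrite 2 [← Real.rpow_one (X : ℝ)]
          exact hle _ _ (by linarith)
        exact_mod_cast this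
      have d4 : 1 ≤ M i := by
        have : (1 : ℝ) ≤ M i := m5.trans d1
        exact_mod_cast this
      have d7 := hX3 X g3 (M i) (K i) (a i) (c i) θ d4 d6 d3 (fun n => c5 i n)
        (fun m hm => ⟨(c7 i m hm).1, (c7 i m hm).2.1⟩)
      have hM0 : (0 : ℝ) < M i := by exact_mod_cast (by omega : 0 < M i)
      have d8 : (X : ℝ) / M i ≤ 2 * (X : ℝ) ^ (2 * E - 1) := by
        rw [div_le_iff₀ hM0]
        have d9 : (X : ℝ) = (X : ℝ) ^ (2 * E - 1) * yA th e X := by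
          unfold yA
          rw [← Real.rpow_add hX0]
          have : 2 * E - 1 + ((1 - th) / 2 + 4 * e) = 1 := by rw [← hE]; ring
          rw [this, Real.rpow_one]
        have d10 : 0 ≤ (X : ℝ) ^ (2 * E - 1) := by positivity
        calc (X : ℝ) = (X : ℝ) ^ (2 * E - 1) * yA th e X := d9
          _ ≤ (X : ℝ) ^ (2 * E - 1) * (2 * M i) :=
              mul_le_mul_of_nonneg_left (by linarith) d10
          _ = 2 * (X : ℝ) ^ (2 * E - 1) * M i := by ring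
      have d11 : (X : ℝ) / M i + X / ht X θ + M i ≤ 4 * (X : ℝ) ^ (2 * E - 1) := by linarith
      have d12 : X * ((X : ℝ) / M i + X / ht X θ + M i) * L ^ (4 * C2 + 10) ≤
          (2 * ((X : ℝ) ^ E * L ^ (2 * C2 + 5))) ^ 2 := by
        have e5 : (2 * ((X : ℝ) ^ E * L ^ (2 * C2 + 5))) ^ 2 =
            X * (4 * (X : ℝ) ^ (2 * E - 1)) * L ^ (4 * C2 + 10) := by
          have e6 : ((X : ℝ) ^ E) ^ 2 = X * (X : ℝ) ^ (2 * E - 1) := by
            rw [← Real.rpow_natCast, ← Real.rpow_mul hX0.le]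
            nth_rewrite 2 [← Real.rpow_one (X : ℝ)]
            rw [← Real.rpow_add hX0]
            congr 1
            push_cast
            ring
          have e7 : (L ^ (2 * C2 + 5)) ^ 2 = L ^ (4 * C2 + 10) := by
            rw [← pow_mul]
            congr 1
            ring
          rw [mul_pow, mul_pow, e6, e7]
          ring
        rw [e5]
        apply mul_le_mul_of_nonneg_right _ (by positivity)
        exact mul_le_mul_of_nonneg_left d11 hX0.le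
      exact abs_le_of_sq_le_sq' (d7.trans d12) (by positivity) |>.2
    -- decomposition
    have dec : ∑ n ∈ Icc 1 X, ((ww X n + s * fI gg X (wX D' X) n -
          (err n + s * gg X n * e1 n) : ℝ) : ℂ) * ee ((n : ℝ) * θ) =
        ∑ i ∈ range I, ES X (fun n => γ i n * ∑ l ∈ n.divisors, α i l) θ +
        ∑ i ∈ range I, ES X (fun n => ∑ m ∈ n.divisors,
          (if n / m ≤ K i then a i m * c i (n / m) else 0)) θ +
        (s : ℂ) * ES X (fun n => gg X n * ∑ d ∈ n.divisors, v d) θ := by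
      rw [← grSup_smul, ← grSup_sum, ← grSup_sum, ← ES_add, ← ES_add]
      refine grSup_congr X _ _ θ fun n hn => ?_
      rw [c8 n hn]
      unfold fI
      rw [v4 n hn]
      ring
    rw [dec]
    have n1 : ‖∑ i ∈ range I, ES X (fun n => γ i n * ∑ l ∈ n.divisors, α i l) θ‖ ≤
        L ^ C2 * (3 * C * ((X : ℝ) ^ E * L ^ (2 * C2 + 1))) := by
      refine (norm_sum_le _ _).trans ((sum_le_sum (fun i _ => t1 i)).trans ?_)
      rw [sum_const, card_range, nsmul_eq_mul]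
      exact mul_le_mul_of_nonneg_right c1 (by positivity)
    have n2 : ‖∑ i ∈ range I, ES X (fun n => ∑ m ∈ n.divisors,
          (if n / m ≤ K i then a i m * c i (n / m) else 0)) θ‖ ≤
        L ^ C2 * (2 * ((X : ℝ) ^ E * L ^ (2 * C2 + 5))) := by
      refine (norm_sum_le _ _).trans ((sum_le_sum (fun i _ => t2 i)).trans ?_)
      rw [sum_const, card_range, nsmul_eq_mul]
      exact mul_le_mul_of_nonneg_right c1 (by positivity)
    have n3 : ‖(s : ℂ) * ES X (fun n => gg X n * ∑ d ∈ n.divisors, v d) θ‖ ≤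
        2 * C * (K0 + 1) * ((X : ℝ) ^ E * L ^ (C1 + 2)) := by
      rw [norm_mul, Complex.norm_real, Real.norm_eq_abs]
      calc |s| * ‖ES X (fun n => gg X n * ∑ d ∈ n.divisors, v d) θ‖ ≤
          1 * (2 * C * (K0 + 1) * ((X : ℝ) ^ E * L ^ (C1 + 2))) :=
            mul_le_mul hs t3 (norm_nonneg _) zero_le_one
        _ = _ := one_mul _
    refine (norm_add_le _ _).trans ((add_le_add (norm_add_le _ _) le_rfl).trans ?_)
    refine (add_le_add (add_le_add n1 n2) n3).trans ?_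
    have p1 : L ^ C2 * (3 * C * ((X : ℝ) ^ E * L ^ (2 * C2 + 1))) ≤
        (X : ℝ) ^ E * (3 * C * L ^ (3 * C2 + C1 + 5)) := by
      have q1 : L ^ (3 * C2 + 1) ≤ L ^ (3 * C2 + C1 + 5) := pow_le_pow_right₀ hL1 (by omega)
      calc L ^ C2 * (3 * C * ((X : ℝ) ^ E * L ^ (2 * C2 + 1))) =
          (X : ℝ) ^ E * (3 * C * L ^ (3 * C2 + 1)) := by
            rw [show 3 * C2 + 1 = C2 + (2 * C2 + 1) by ring, pow_add]
            ring
        _ ≤ _ := mul_le_mul_of_nonneg_left (mul_le_mul_of_nonneg_left q1 (by positivity)) hXE0.le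
    have p2 : L ^ C2 * (2 * ((X : ℝ) ^ E * L ^ (2 * C2 + 5))) ≤
        (X : ℝ) ^ E * (2 * L ^ (3 * C2 + C1 + 5)) := by
      have q1 : L ^ (3 * C2 + 5) ≤ L ^ (3 * C2 + C1 + 5) := pow_le_pow_right₀ hL1 (by omega)
      calc L ^ C2 * (2 * ((X : ℝ) ^ E * L ^ (2 * C2 + 5))) =
          (X : ℝ) ^ E * (2 * L ^ (3 * C2 + 5)) := by
            rw [show 3 * C2 + 5 = C2 + (2 * C2 + 5) by ring, pow_add]
            ring
        _ ≤ _ := mul_le_mul_of_nonneg_left (mul_le_mul_of_nonneg_left q1 (by norm_num)) hXE0.le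
    have p3 : 2 * C * (K0 + 1) * ((X : ℝ) ^ E * L ^ (C1 + 2)) ≤
        (X : ℝ) ^ E * (2 * C * (K0 + 1) * L ^ (3 * C2 + C1 + 5)) := by
      have q1 : L ^ (C1 + 2) ≤ L ^ (3 * C2 + C1 + 5) := pow_le_pow_right₀ hL1 (by omega)
      calc 2 * C * (K0 + 1) * ((X : ℝ) ^ E * L ^ (C1 + 2)) =
          (X : ℝ) ^ E * (2 * C * (K0 + 1) * L ^ (C1 + 2)) := by ring
        _ ≤ _ := mul_le_mul_of_nonneg_left (mul_le_mul_of_nonneg_left q1 (by positivity)) hXE0.le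
    have t8 : (X : ℝ) ^ ((3 + th) / 4) = (X : ℝ) ^ E * (X : ℝ) ^ (2 * e) := by
      rw [← Real.rpow_add hX0, ← hE]
      congr 1
      ring
    rw [t8]
    refine le_trans ?_ (mul_le_mul_of_nonneg_left m4 hXE0.le)
    calc L ^ C2 * (3 * C * ((X : ℝ) ^ E * L ^ (2 * C2 + 1))) +
          L ^ C2 * (2 * ((X : ℝ) ^ E * L ^ (2 * C2 + 5))) +
          2 * C * (K0 + 1) * ((X : ℝ) ^ E * L ^ (C1 + 2))
        ≤ (X : ℝ) ^ E * (3 * C * L ^ (3 * C2 + C1 + 5)) +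
          (X : ℝ) ^ E * (2 * L ^ (3 * C2 + C1 + 5)) +
          (X : ℝ) ^ E * (2 * C * (K0 + 1) * L ^ (3 * C2 + C1 + 5)) :=
          add_le_add (add_le_add p1 p2) p3
      _ = (X : ℝ) ^ E * ((3 * C + 2 + 2 * C * (K0 + 1)) * L ^ (3 * C2 + C1 + 5)) := by ring

end Pool.MP_dd84fd_nt.IX
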