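import Pool.Agent.Lib.MP_dd84fd_nt.IX.KsDefs
import Pool.Agent.Lib.MP_dd84fd_nt.HX.TrStep

/-!
# IX-TrStep (0.5 h): one step of the tree

Copy the proof of `HX.tr_step` (`HX/TrStep.lean`) with `dl th e` in place of `δ` (except in the exponent: `e/10` instead of `δ/10`), `PhI G ww gg X w V (wSI G th e X Λ bb)` in place of `PhH ...`. `HX.Thin` is used.
-/

set_option autoImplicit false

namespace Pool.MP_dd84fd_nt.IX

open Finset Pool.MP_67663b_nt.Odd Pool.MP_dd84fd_nt.En Pool.MP_dd84fd_nt.E2 Pool.MP_dd84fd_nt.LS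
open Pool.MP_dd84fd_nt.L2G (nrm)
open Pool.MP_dd84fd_nt.GX Pool.MP_dd84fd_nt.HX

theorem tr_step_i (G : ℕ) [NeZero G] (th e : ℝ) (X w : ℕ) (hX : 1 ≤ X) (ww gg : ℕ → ℕ → ℝ)
    (V : ZMod G → ℂ)
    (E : Finset ℕ) (Λ : ℕ) (bb : ℝ) (hΛ : 1 ≤ Λ) (hb : 1 ≤ bb) (hT : Thin X Λ bb E) (ρ Q : ℝ)
    (hE : E.Nonempty) (hQ : ∀ n ∈ E, Q < ‖PhI G ww gg X w V (wSI G th e X Λ bb) n‖)
    (hst : NoAPH G (dl th e) X (wSI G th e X Λ bb) E ρ → ∀ ph : ℕ → ℂ, (∀ n, ‖ph n‖ ≤ 1) →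
      ‖∑ n ∈ E, ph n * PhI G ww gg X w V (wSI G th e X Λ bb) n‖ ≤ Q * E.card) :
    ∃ (E' : Finset ℕ) (Λ' : ℕ) (bb' : ℝ), E' ⊆ E ∧ ρ * E.card < E'.card ∧ 1 ≤ Λ' ∧ 1 ≤ bb' ∧
      Thin X Λ' bb' E' ∧ (X : ℝ) ^ (e / 10) * (Λ * bb) < Λ' * bb' := by
  classical
  by_cases hN : NoAPH G (dl th e) X (wSI G th e X Λ bb) E ρ
  · exfalso
    set z : ℕ → ℂ := fun n => PhI G ww gg X w V (wSI G th e X Λ bb) n with hz
    set ph : ℕ → ℂ := fun n => if z n = 0 then 0 else (starRingEnd ℂ) (z n) / (‖z n‖ : ℂ) with hph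
    have hez : ∀ n, ph n * z n = (‖z n‖ : ℂ) := by
      intro n
      by_cases h0 : z n = 0
      · simp only [hph, h0, if_true, norm_zero, zero_mul, Complex.ofReal_zero]
      · have h1 : (‖z n‖ : ℂ) ≠ 0 := by
          rw [Ne, Complex.ofReal_eq_zero, norm_eq_zero]
          exact h0
        have h2 : (starRingEnd ℂ) (z n) * z n = (‖z n‖ : ℂ) * ‖z n‖ := by
          rw [mul_comm, Complex.mul_conj, Complex.normSq_eq_norm_sq]
          push_cast
          ring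
        simp only [hph, h0, if_false]
        rw [div_mul_eq_mul_div, h2, mul_div_assoc, div_self h1, mul_one]
    have hen : ∀ n, ‖ph n‖ ≤ 1 := by
      intro n
      by_cases h0 : z n = 0
      · simp only [hph, h0, if_true, norm_zero]
        exact zero_le_one
      · simp only [hph, h0, if_false]
        rw [norm_div, RCLike.norm_conj, Complex.norm_real, norm_norm]
        exact div_self_le_one _
    have h1 := hst hN ph hen
    have h2 : ∑ n ∈ E, ph n * PhI G ww gg X w V (wSI G th e X Λ bb) n = ((∑ n ∈ E, ‖z n‖ : ℝ) : ℂ) := by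
      rw [Complex.ofReal_sum]
      exact Finset.sum_congr rfl fun n _ => hez n
    rw [h2, Complex.norm_real, Real.norm_eq_abs,
      abs_of_nonneg (Finset.sum_nonneg fun n _ => norm_nonneg _)] at h1
    have h3 : ∑ _n ∈ E, Q < ∑ n ∈ E, ‖z n‖ := Finset.sum_lt_sum_of_nonempty hE hQ
    rw [Finset.sum_const, nsmul_eq_mul] at h3
    linarith
  · unfold NoAPH at hN
    push Not at hN
    obtain ⟨j, hj, d, hd, t, ht1, ht2, c, hc⟩ := hN
    have hd1 : 1 ≤ d := ((apd_mem (dl th e) X (al G j) d).1 hd).1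
    have hd0 : (0 : ℝ) < d := by exact_mod_cast hd1
    have hS : ¬ SSI th e X Λ bb (al G j) := by
      intro hS
      apply hj
      unfold wSI
      rw [if_pos hS]
    have hlt : (X : ℝ) ^ (e / 10) * Λ * bb <
        (Nat.lcm Λ d : ℝ) * max bb (HX.hd X (al G j) d / d) := by
      by_contra hcon
      exact hS ⟨d, hd, not_lt.1 hcon⟩
    refine ⟨inAP E c d (X / (16 * 2 ^ t)), Nat.lcm Λ d, max bb (HX.hd X (al G j) d / d), ?_, hc,
      Nat.lcm_pos hΛ hd1, le_max_of_le_left hb, ?_, ?_⟩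
    · exact filter_subset _ _
    · intro n hn n' hn' hnn
      obtain ⟨hnE, i, hi, hni⟩ := mem_filter.1 hn
      obtain ⟨hnE', i', hi', hni'⟩ := mem_filter.1 hn'
      obtain ⟨h1, h2⟩ := hT n hnE n' hnE' hnn
      have h3 : ((n' - n : ℕ) : ℤ) = ((i' : ℤ) - i) * d := by
        rw [Nat.cast_sub hnn, hni, hni']
        ring
      have h4 : d ∣ n' - n := by
        have : (d : ℤ) ∣ ((n' - n : ℕ) : ℤ) := ⟨(i' : ℤ) - i, by rw [h3]; ring⟩
        exact_mod_cast this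
      refine ⟨Nat.lcm_dvd h1 h4, ?_⟩
      have hnn0 : (0 : ℝ) ≤ (n' : ℝ) - n := by
        have : (n : ℝ) ≤ n' := by exact_mod_cast hnn
        linarith
      rw [mul_max_of_nonneg _ _ hnn0]
      refine max_le h2 ?_
      have h5 : (n' : ℝ) - n ≤ ((X / (16 * 2 ^ t) : ℕ) : ℝ) * d := by
        have h6 : (n' : ℝ) - n = ((i' : ℝ) - i) * d := by
          have h7 : (((n' - n : ℕ) : ℤ) : ℝ) = ((((i' : ℤ) - i) * d : ℤ) : ℝ) := by rw [h3]
          rw [Int.cast_natCast, Nat.cast_sub hnn] at h7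
          rw [h7]
          push_cast
          ring
        rw [h6]
        refine mul_le_mul_of_nonneg_right ?_ hd0.le
        have h8 : (i' : ℝ) ≤ ((X / (16 * 2 ^ t) : ℕ) : ℝ) := by exact_mod_cast hi'.le
        have h9 : (0 : ℝ) ≤ i := Nat.cast_nonneg _
        linarith
      have hX0 : (0 : ℝ) ≤ X := Nat.cast_nonneg _
      have h6 : ((X / (16 * 2 ^ t) : ℕ) : ℝ) ≤ (X : ℝ) / (16 * 2 ^ t) := by
        have := Nat.cast_div_le (α := ℝ) (m := X) (n := 16 * 2 ^ t)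
        push_cast at this
        exact this
      have hh0 : 0 ≤ HX.hd X (al G j) d := (by positivity : (0 : ℝ) ≤ 2 ^ t).trans ht1
      calc ((n' : ℝ) - n) * (HX.hd X (al G j) d / d)
          ≤ (((X / (16 * 2 ^ t) : ℕ) : ℝ) * d) * (HX.hd X (al G j) d / d) :=
            mul_le_mul_of_nonneg_right h5 (div_nonneg hh0 hd0.le)
        _ = ((X / (16 * 2 ^ t) : ℕ) : ℝ) * HX.hd X (al G j) d := by field_simp
        _ ≤ ((X : ℝ) / (16 * 2 ^ t)) * 2 ^ (t + 1) :=
            mul_le_mul h6 ht2.le hh0 (by positivity)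
        _ = X / 8 := by rw [pow_succ]; field_simp; norm_num
        _ ≤ X := by linarith
    · rw [← mul_assoc]
      exact hlt

end Pool.MP_dd84fd_nt.IX
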