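import Pool.Agent.Lib.MP_dd84fd_nt.IX.FaDefs
import Pool.Agent.Lib.MP_dd84fd_nt.LS.Four
import Pool.Agent.Lib.MP_dd84fd_nt.E2.FBound
import Pool.Agent.Lib.MP_dd84fd_nt.FA.Lip

/-!
# IX-FaFacts: elementary facts about `WI` and `FFI`
-/

set_option autoImplicit false

namespace Pool.MP_dd84fd_nt.IX

open Finset Pool.MP_67663b_nt.Odd Pool.MP_dd84fd_nt.En Pool.MP_dd84fd_nt.E2 Pool.MP_dd84fd_nt.LS
  Pool.MP_dd84fd_nt.GX Pool.MP_dd84fd_nt.HX

open Pool.MP_dd84fd_nt.L2G (nrm)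

open Pool.MP_dd84fd_nt.PL (rr)

private theorem fa_wX_le (D' X : ℕ) : ((wX D' X : ℕ) : ℝ) ≤ (Real.log X) ^ D' := by
  unfold wX
  exact Nat.floor_le (pow_nonneg (Real.log_natCast_nonneg X) _)

private theorem fa_rg_le (z n : ℕ) : 0 ≤ rg z n ∧ rg z n ≤ 1 := by
  unfold rg
  split_ifs <;> constructor <;> norm_num

private theorem fa_logbig (K : ℝ) : ∃ X0 : ℕ, ∀ X : ℕ, X0 ≤ X → K ≤ Real.log (X : ℝ) := by
  have h : Filter.Tendsto (fun n : ℕ => Real.log (n : ℝ)) Filter.atTop Filter.atTop :=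
    Real.tendsto_log_atTop.comp tendsto_natCast_atTop_atTop
  exact Filter.eventually_atTop.1 (h.eventually_ge_atTop K)

theorem coefI (K0 C1 : ℕ) (ww gg : ℕ → ℕ → ℝ) (hW : W1 K0 C1 ww gg) (D' : ℕ) :
    ∃ X0 : ℕ, ∀ X : ℕ, X0 ≤ X → ∀ s : ℝ, |s| ≤ 1 → ∀ n,
      |ww X n + s * fI gg X (wX D' X) n| ≤ (Real.log X) ^ 2 := by
  obtain ⟨X1, hX1⟩ := f1_le D'
  obtain ⟨X2, hX2⟩ := hW
  obtain ⟨X4, hX4⟩ := fa_logbig (2 * K0 + 1)
  refine ⟨max (max X1 X2) X4, fun X hX s hs n => ?_⟩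
  have h1 : X1 ≤ X := (le_max_left _ _).trans ((le_max_left _ _).trans hX)
  have h2 : X2 ≤ X := (le_max_right _ _).trans ((le_max_left _ _).trans hX)
  have h4 : X4 ≤ X := (le_max_right _ _).trans hX
  have hLK := hX4 X h4
  set L : ℝ := Real.log (X : ℝ) with hLdef
  have hK0 : (0 : ℝ) ≤ K0 := Nat.cast_nonneg _
  have hL1 : 1 ≤ L := by linarith
  obtain ⟨_, hf⟩ := hX1 X h1 (wX D' X) (fa_wX_le D' X)
  obtain ⟨hwg, _⟩ := hX2 X h2
  obtain ⟨hw, hg⟩ := hwg n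
  have hw' : |ww X n| ≤ K0 := by
    refine hw.trans ?_
    have h5 := (fa_rg_le (zI X) n).2
    calc (K0 : ℝ) * rg (zI X) n ≤ K0 * 1 := mul_le_mul_of_nonneg_left h5 hK0
      _ = K0 := mul_one _
  have hfa : |fI gg X (wX D' X) n| ≤ K0 * L := by
    unfold fI
    rw [abs_mul, abs_of_nonneg (f1_nonneg (wX D' X) n)]
    exact mul_le_mul hg (hf n) (f1_nonneg _ _) hK0
  have hsf : |s * fI gg X (wX D' X) n| ≤ K0 * L := by
    rw [abs_mul]
    calc |s| * |fI gg X (wX D' X) n| ≤ 1 * |fI gg X (wX D' X) n| :=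
          mul_le_mul_of_nonneg_right hs (abs_nonneg _)
      _ ≤ _ := by rw [one_mul]; exact hfa
  calc |ww X n + s * fI gg X (wX D' X) n| ≤ |ww X n| + |s * fI gg X (wX D' X) n| := abs_add_le _ _
    _ ≤ K0 * L + K0 * L := by
        refine add_le_add (hw'.trans ?_) hsf
        nlinarith
    _ = (2 * K0) * L := by ring
    _ ≤ L * L := mul_le_mul_of_nonneg_right (by linarith) (by linarith)
    _ = L ^ 2 := by ring

private theorem fa_ee_cont : Continuous (fun x : ℝ => ee x) := by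
  unfold ee
  fun_prop

theorem wi_cont (ww gg : ℕ → ℕ → ℝ) (s : ℝ) (w X : ℕ) : Continuous (WI ww gg s w X) := by
  unfold WI
  refine continuous_finsetSum _ fun n _ => ?_
  exact continuous_const.mul (fa_ee_cont.comp (continuous_const.mul continuous_id))

theorem tr_uI (G : ℕ) [NeZero G] (ww gg : ℕ → ℕ → ℝ) (X w : ℕ) (j : ZMod G) :
    tr G X (uI ww gg X w) j = WI ww gg (-1) w X (al G j) := by
  rw [tr_ee]
  unfold WI al
  refine Finset.sum_congr rfl fun n _ => ?_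
  unfold uI
  congr 2
  ring

theorem tr_upI (G : ℕ) [NeZero G] (ww gg : ℕ → ℕ → ℝ) (X w : ℕ) (j : ZMod G) :
    tr G X (upI ww gg X w) j = WI ww gg 1 w X (al G j) := by
  rw [tr_ee]
  unfold WI al
  refine Finset.sum_congr rfl fun n _ => ?_
  unfold upI
  congr 2
  ring

theorem ffi_grid (G : ℕ) [NeZero G] (ww gg : ℕ → ℕ → ℝ) (X w n : ℕ) (j : ZMod G) :
    tr G X (uI ww gg X w) j * tr G X (upI ww gg X w) j * ZMod.stdAddChar (-((n : ZMod G) * j)) =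
      FFI ww gg w X n (al G j) := by
  have h : (ZMod.stdAddChar (-((n : ZMod G) * j)) : ℂ) = ee (-((n : ℝ) * al G j)) := by
    rw [← conj_chi, chi_ee]
    unfold ee al
    rw [← Complex.exp_conj]
    congr 1
    simp only [map_mul, Complex.conj_I, Complex.conj_ofReal, map_ofNat]
    push_cast
    ring
  unfold FFI
  rw [tr_uI, tr_upI, h]

private theorem fa_wi (K0 C1 : ℕ) (ww gg : ℕ → ℕ → ℝ) (hW : W1 K0 C1 ww gg) (D' : ℕ) :
    ∃ X0 : ℕ, ∀ X : ℕ, X0 ≤ X →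
    ∀ s : ℝ, |s| ≤ 1 → (∀ x, WI ww gg s (wX D' X) X (x + 1) = WI ww gg s (wX D' X) X x) ∧
      (∀ x, ‖WI ww gg s (wX D' X) X x‖ ≤ X * (Real.log X) ^ 2) ∧
      (∀ x y, ‖WI ww gg s (wX D' X) X x - WI ww gg s (wX D' X) X y‖ ≤
        7 * (X : ℝ) ^ 2 * (Real.log X) ^ 2 * |x - y|) := by
  obtain ⟨X1, hX1⟩ := coefI K0 C1 ww gg hW D'
  refine ⟨X1, fun X hX s hs => ?_⟩
  have hc := hX1 X hX s hs
  refine ⟨?_, ?_, ?_⟩
  · intro x
    unfold WI
    refine Finset.sum_congr rfl fun m _ => ?_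
    congr 1
    have : (m : ℝ) * (x + 1) = (m : ℝ) * x + ((m : ℤ) : ℝ) := by push_cast; ring
    rw [this, ee_add_int]
  · intro x
    unfold WI
    refine (norm_sum_le _ _).trans ?_
    have h1 : ∑ m ∈ Icc 1 X, ‖((ww X m + s * fI gg X (wX D' X) m : ℝ) : ℂ) * ee ((m : ℝ) * x)‖ ≤
        ∑ _m ∈ Icc 1 X, (Real.log X) ^ 2 := by
      refine Finset.sum_le_sum fun m hm => ?_
      rw [norm_mul, norm_ee, mul_one, Complex.norm_real, Real.norm_eq_abs]
      exact hc m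
    refine h1.trans (le_of_eq ?_)
    rw [Finset.sum_const, Nat.card_Icc, nsmul_eq_mul, Nat.add_sub_cancel]
  · intro x y
    unfold WI
    rw [← Finset.sum_sub_distrib]
    refine (norm_sum_le _ _).trans ?_
    have h1 : ∑ m ∈ Icc 1 X, ‖((ww X m + s * fI gg X (wX D' X) m : ℝ) : ℂ) * ee ((m : ℝ) * x) -
        ((ww X m + s * fI gg X (wX D' X) m : ℝ) : ℂ) * ee ((m : ℝ) * y)‖ ≤
        ∑ _m ∈ Icc 1 X, (Real.log X) ^ 2 * (7 * (X * |x - y|)) := by
      refine Finset.sum_le_sum fun m hm => ?_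
      obtain ⟨hm1, hm2⟩ := Finset.mem_Icc.mp hm
      rw [← mul_sub, norm_mul, Complex.norm_real, Real.norm_eq_abs]
      refine mul_le_mul (hc m) ?_ (norm_nonneg _) (by positivity)
      refine (FA.ee_lip _ _).trans ?_
      rw [← mul_sub, abs_mul, abs_of_nonneg (Nat.cast_nonneg m)]
      have : (m : ℝ) ≤ X := by exact_mod_cast hm2
      gcongr
    refine h1.trans (le_of_eq ?_)
    rw [Finset.sum_const, Nat.card_Icc, nsmul_eq_mul, Nat.add_sub_cancel]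
    ring

theorem ffi_facts (K0 C1 : ℕ) (ww gg : ℕ → ℕ → ℝ) (hW : W1 K0 C1 ww gg) (D' : ℕ) :
    ∃ X0 : ℕ, ∀ X : ℕ, X0 ≤ X →
    ∀ n : ℕ, n ≤ X → (∀ x, FFI ww gg (wX D' X) X n (x + 1) = FFI ww gg (wX D' X) X n x) ∧
      (∀ x y, ‖FFI ww gg (wX D' X) X n x - FFI ww gg (wX D' X) X n y‖ ≤ (X : ℝ) ^ 4 * |x - y|) ∧
      ∀ x, ‖FFI ww gg (wX D' X) X n x‖ ≤ (X : ℝ) ^ 3 := by
  obtain ⟨X1, hX1⟩ := fa_wi K0 C1 ww gg hW D'
  obtain ⟨X2, hX2⟩ := MP_log_pow 21 4 (show (0 : ℝ) < 1 by norm_num)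
  refine ⟨max (max X1 X2) 1, fun X hX n hn => ?_⟩
  have h1 : X1 ≤ X := (le_max_left _ _).trans ((le_max_left _ _).trans hX)
  have h2 : X2 ≤ X := (le_max_right _ _).trans ((le_max_left _ _).trans hX)
  have h3 : 1 ≤ X := (le_max_right _ _).trans hX
  obtain ⟨p1, b1, l1⟩ := hX1 X h1 (-1) (by norm_num)
  obtain ⟨p2, b2, l2⟩ := hX1 X h1 1 (by norm_num)
  have hlog : 21 * Real.log (X : ℝ) ^ 4 ≤ X := by
    have := hX2 X h2
    rwa [Real.rpow_one] at this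
  have hL0 : 0 ≤ Real.log (X : ℝ) := Real.log_natCast_nonneg X
  have hX0 : (0 : ℝ) < X := by exact_mod_cast h3
  have hnX : (n : ℝ) ≤ X := by exact_mod_cast hn
  set w := wX D' X with hw
  refine ⟨?_, ?_, ?_⟩
  · intro x
    unfold FFI
    rw [p1, p2]
    congr 1
    have : -((n : ℝ) * (x + 1)) = -((n : ℝ) * x) + ((-(n : ℤ) : ℤ) : ℝ) := by push_cast; ring
    rw [this, ee_add_int]
  · intro x y
    unfold FFI
    have e : WI ww gg (-1) w X x * WI ww gg 1 w X x * ee (-((n : ℝ) * x)) -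
        WI ww gg (-1) w X y * WI ww gg 1 w X y * ee (-((n : ℝ) * y)) =
        (WI ww gg (-1) w X x - WI ww gg (-1) w X y) * WI ww gg 1 w X x * ee (-((n : ℝ) * x)) +
        WI ww gg (-1) w X y * (WI ww gg 1 w X x - WI ww gg 1 w X y) * ee (-((n : ℝ) * x)) +
        WI ww gg (-1) w X y * WI ww gg 1 w X y * (ee (-((n : ℝ) * x)) - ee (-((n : ℝ) * y))) := by ring
    rw [e]
    refine norm_add₃_le.trans ?_
    have c1 : ‖(WI ww gg (-1) w X x - WI ww gg (-1) w X y) * WI ww gg 1 w X x * ee (-((n : ℝ) * x))‖ ≤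
        (7 * (X : ℝ) ^ 2 * Real.log X ^ 2 * |x - y|) * (X * Real.log X ^ 2) := by
      rw [norm_mul, norm_ee, mul_one, norm_mul]
      exact mul_le_mul (l1 x y) (b2 x) (norm_nonneg _) (by positivity)
    have c2 : ‖WI ww gg (-1) w X y * (WI ww gg 1 w X x - WI ww gg 1 w X y) * ee (-((n : ℝ) * x))‖ ≤
        (X * Real.log X ^ 2) * (7 * (X : ℝ) ^ 2 * Real.log X ^ 2 * |x - y|) := by
      rw [norm_mul, norm_ee, mul_one, norm_mul]
      exact mul_le_mul (b1 y) (l2 x y) (norm_nonneg _) (by positivity)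
    have c3 : ‖WI ww gg (-1) w X y * WI ww gg 1 w X y * (ee (-((n : ℝ) * x)) - ee (-((n : ℝ) * y)))‖ ≤
        (X * Real.log X ^ 2) * (X * Real.log X ^ 2) * (7 * (X * |x - y|)) := by
      rw [norm_mul, norm_mul]
      refine mul_le_mul (mul_le_mul (b1 y) (b2 y) (norm_nonneg _) (by positivity)) ?_
        (norm_nonneg _) (by positivity)
      refine (FA.ee_lip _ _).trans ?_
      have e2 : -((n : ℝ) * x) - -((n : ℝ) * y) = -((n : ℝ) * (x - y)) := by ring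
      rw [e2, abs_neg, abs_mul, abs_of_nonneg (Nat.cast_nonneg n)]
      gcongr
    have habs := abs_nonneg (x - y)
    calc _ ≤ (7 * (X : ℝ) ^ 2 * Real.log X ^ 2 * |x - y|) * (X * Real.log X ^ 2) +
          (X * Real.log X ^ 2) * (7 * (X : ℝ) ^ 2 * Real.log X ^ 2 * |x - y|) +
          (X * Real.log X ^ 2) * (X * Real.log X ^ 2) * (7 * (X * |x - y|)) :=
          add_le_add (add_le_add c1 c2) c3
      _ = (21 * Real.log (X : ℝ) ^ 4) * ((X : ℝ) ^ 3 * |x - y|) := by ring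
      _ ≤ X * ((X : ℝ) ^ 3 * |x - y|) := by gcongr
      _ = _ := by ring
  · intro x
    unfold FFI
    rw [norm_mul, norm_ee, mul_one, norm_mul]
    calc ‖WI ww gg (-1) w X x‖ * ‖WI ww gg 1 w X x‖ ≤ (X * Real.log X ^ 2) * (X * Real.log X ^ 2) :=
          mul_le_mul (b1 x) (b2 x) (norm_nonneg _) (by positivity)
      _ = (1 * Real.log (X : ℝ) ^ 4) * (X : ℝ) ^ 2 := by ring
      _ ≤ (21 * Real.log (X : ℝ) ^ 4) * (X : ℝ) ^ 2 := by gcongr; norm_num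
      _ ≤ X * (X : ℝ) ^ 2 := by gcongr
      _ = _ := by ring


theorem nm2_uI (K0 C1 : ℕ) (ww gg : ℕ → ℕ → ℝ) (hW : W1 K0 C1 ww gg) (D' : ℕ) :
    ∃ X0 : ℕ, ∀ X : ℕ, X0 ≤ X → ∀ (G : ℕ) [NeZero G], 3 * X ≤ G →
      nm2 G (tr G X (uI ww gg X (wX D' X))) ≤ X * (Real.log X) ^ 4 := by
  obtain ⟨X1, hX1⟩ := coefI K0 C1 ww gg hW D'
  refine ⟨max X1 1, fun X hX G hGz hG => ?_⟩
  have h1 : X1 ≤ X := (le_max_left _ _).trans hX
  have h4 : 1 ≤ X := (le_max_right _ _).trans hX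
  have hXG : X < G := by omega
  unfold nm2
  rw [parseval G X hXG]
  have h5 : ∑ n ∈ Icc 1 X, (uI ww gg X (wX D' X) n) ^ 2 ≤ ∑ _n ∈ Icc 1 X, (Real.log X) ^ 4 := by
    refine Finset.sum_le_sum fun n hn => ?_
    have h6 := hX1 X h1 (-1) (by norm_num) n
    have h7 : |uI ww gg X (wX D' X) n| ≤ (Real.log X) ^ 2 := by
      unfold uI
      have : ww X n - fI gg X (wX D' X) n = ww X n + -1 * fI gg X (wX D' X) n := by ring
      rw [this]
      exact h6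
    calc (uI ww gg X (wX D' X) n) ^ 2 = |uI ww gg X (wX D' X) n| ^ 2 := (sq_abs _).symm
      _ ≤ ((Real.log X) ^ 2) ^ 2 := pow_le_pow_left₀ (abs_nonneg _) h7 2
      _ = _ := by ring
  refine h5.trans (le_of_eq ?_)
  rw [Finset.sum_const, Nat.card_Icc, nsmul_eq_mul, Nat.add_sub_cancel]

theorem tr_sub' (G X : ℕ) [NeZero G] (f h : ℕ → ℝ) (j : ZMod G) :
    tr G X (fun n => f n - h n) j = tr G X f j - tr G X h j := by
  unfold tr
  rw [← Finset.sum_sub_distrib]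
  refine Finset.sum_congr rfl fun m _ => ?_
  push_cast
  ring

/-- the bounds for `V_s = tr (ww + f - err)` -/
theorem vbi_up (K0 C1 : ℕ) (ww gg : ℕ → ℕ → ℝ) (hW : W1 K0 C1 ww gg) (th e : ℝ) (hA : Adm th e)
    (D' : ℕ) : ∃ X0 : ℕ, ∀ X : ℕ, X0 ≤ X → ∀ err : ℕ → ℝ, ∑ n ∈ Icc 1 X, err n ^ 2 ≤ X →
    (∀ θ : ℝ, (X : ℝ) ^ (th - 4 * e) ≤ ht X θ →
      ‖∑ n ∈ Icc 1 X, ((ww X n + 1 * fI gg X (wX D' X) n - err n : ℝ) : ℂ) *
        ee ((n : ℝ) * θ)‖ ≤ (X : ℝ) ^ ((3 + th) / 4)) →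
    ∀ (G : ℕ) [NeZero G], 3 * X ≤ G →
      VBI G th e X 5 (tr G X (fun n => upI ww gg X (wX D' X) n - err n)) := by
  obtain ⟨X1, hX1⟩ := coefI K0 C1 ww gg hW D'
  obtain ⟨X3, hX3⟩ := fa_logbig 4
  obtain ⟨X5, hX5⟩ : ∃ X5 : ℕ, ∀ X : ℕ, X5 ≤ X → 4 ≤ (X : ℝ) ^ e := by
    have h1 := ((tendsto_rpow_atTop hA.2.2.1).comp
      (tendsto_natCast_atTop_atTop (R := ℝ))).eventually_ge_atTop 4
    exact Filter.eventually_atTop.1 h1
  refine ⟨max (max X1 X5) (max X3 1), fun X hX err herr hsup G hGz hG => ?_⟩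
  have h1 : X1 ≤ X := (le_max_left _ _).trans ((le_max_left _ _).trans hX)
  have h2 : X5 ≤ X := (le_max_right _ _).trans ((le_max_left _ _).trans hX)
  have h3 : X3 ≤ X := (le_max_left _ _).trans ((le_max_right _ _).trans hX)
  have h4 : 1 ≤ X := (le_max_right _ _).trans ((le_max_right _ _).trans hX)
  have hL := hX3 X h3
  have h4e := hX5 X h2
  have hXr : (1 : ℝ) ≤ X := by exact_mod_cast h4
  have hX0 : (0 : ℝ) < X := by linarith
  have hXG : X < G := by omega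
  set L : ℝ := Real.log (X : ℝ) with hLd
  have hc : ∀ n, |upI ww gg X (wX D' X) n| ≤ L ^ 2 := by
    intro n
    have h6 := hX1 X h1 1 (by norm_num) n
    rw [one_mul] at h6
    exact h6
  have hsq : ∑ n ∈ Icc 1 X, (upI ww gg X (wX D' X) n - err n) ^ 2 ≤ X * (2 * L ^ 4 + 2) := by
    have h5 : ∀ n ∈ Icc 1 X, (upI ww gg X (wX D' X) n - err n) ^ 2 ≤
        2 * L ^ 4 + 2 * err n ^ 2 := by
      intro n _
      have h7 : (upI ww gg X (wX D' X) n) ^ 2 ≤ L ^ 4 := by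
        calc (upI ww gg X (wX D' X) n) ^ 2 = |upI ww gg X (wX D' X) n| ^ 2 := (sq_abs _).symm
          _ ≤ (L ^ 2) ^ 2 := pow_le_pow_left₀ (abs_nonneg _) (hc n) 2
          _ = _ := by ring
      have h8 : 0 ≤ (upI ww gg X (wX D' X) n + err n) ^ 2 := sq_nonneg _
      nlinarith
    refine (Finset.sum_le_sum h5).trans ?_
    have h9 : ∑ n ∈ Icc 1 X, 2 * err n ^ 2 = 2 * ∑ n ∈ Icc 1 X, err n ^ 2 :=
      (Finset.mul_sum _ _ _).symm
    rw [Finset.sum_add_distrib, h9, Finset.sum_const, Nat.card_Icc, nsmul_eq_mul,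
      Nat.add_sub_cancel]
    linarith
  have hL4 : 2 * L ^ 4 + 2 ≤ L ^ 5 := by
    have h6 : (1 : ℝ) ≤ L ^ 4 := one_le_pow₀ (by linarith)
    have h7 : L ^ 5 = L * L ^ 4 := by ring
    rw [h7]
    nlinarith
  have hsq5 : ∑ n ∈ Icc 1 X, (upI ww gg X (wX D' X) n - err n) ^ 2 ≤ X * L ^ 5 :=
    hsq.trans (mul_le_mul_of_nonneg_left hL4 hX0.le)
  refine ⟨⟨?_, ?_⟩, ?_⟩
  · unfold nm2
    rw [parseval G X hXG]
    exact hsq5
  · intro j
    have h8 : ‖tr G X (fun n => upI ww gg X (wX D' X) n - err n) j‖ ^ 2 ≤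
        (X * L ^ 5) ^ 2 := by
      have h9 : ‖tr G X (fun n => upI ww gg X (wX D' X) n - err n) j‖ ≤
          ∑ n ∈ Icc 1 X, |upI ww gg X (wX D' X) n - err n| := by
        rw [tr_ee]
        refine (norm_sum_le _ _).trans (le_of_eq ?_)
        refine Finset.sum_congr rfl fun n _ => ?_
        rw [norm_mul, norm_ee, mul_one, Complex.norm_real, Real.norm_eq_abs]
      have h10 : (∑ n ∈ Icc 1 X, |upI ww gg X (wX D' X) n - err n|) ^ 2 ≤
          X * ∑ n ∈ Icc 1 X, (upI ww gg X (wX D' X) n - err n) ^ 2 := by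
        have := sq_sum_le_card_mul_sum_sq (s := Icc 1 X)
          (f := fun n => |upI ww gg X (wX D' X) n - err n|)
        rw [Nat.card_Icc, Nat.add_sub_cancel] at this
        simpa only [sq_abs] using this
      have h11 : 1 ≤ L ^ 5 := one_le_pow₀ (by linarith)
      calc ‖tr G X (fun n => upI ww gg X (wX D' X) n - err n) j‖ ^ 2 ≤
            (∑ n ∈ Icc 1 X, |upI ww gg X (wX D' X) n - err n|) ^ 2 :=
            pow_le_pow_left₀ (norm_nonneg _) h9 2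
        _ ≤ X * ∑ n ∈ Icc 1 X, (upI ww gg X (wX D' X) n - err n) ^ 2 := h10
        _ ≤ X * (X * L ^ 5) := mul_le_mul_of_nonneg_left hsq5 hX0.le
        _ = (X * X * L ^ 5) * 1 := by ring
        _ ≤ (X * X * L ^ 5) * L ^ 5 := mul_le_mul_of_nonneg_left h11 (by positivity)
        _ = (X * L ^ 5) ^ 2 := by ring
    exact (sq_le_sq₀ (norm_nonneg _) (by positivity)).1 h8
  · intro j hj
    have h12 : (X : ℝ) ^ (th - 4 * e) ≤ (X : ℝ) / (4 * y3 (dl th e) X) := by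
      rw [y3_dl, le_div_iff₀ (by positivity)]
      have h13 : (X : ℝ) ^ (th - 4 * e) * (4 * (X : ℝ) ^ (1 - th + 3 * e)) ≤
          (X : ℝ) ^ (th - 4 * e) * ((X : ℝ) ^ e * (X : ℝ) ^ (1 - th + 3 * e)) := by
        refine mul_le_mul_of_nonneg_left ?_ (by positivity)
        exact mul_le_mul_of_nonneg_right h4e (by positivity)
      refine h13.trans (le_of_eq ?_)
      rw [← Real.rpow_add hX0, ← Real.rpow_add hX0]
      conv_rhs => rw [← Real.rpow_one (X : ℝ)]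
      congr 1
      ring
    have h14 := hsup (al G j) (h12.trans hj)
    rw [tr_ee]
    refine le_trans (le_of_eq ?_) h14
    congr 1
    refine Finset.sum_congr rfl fun n _ => ?_
    congr 2
    unfold upI
    ring

theorem repI (ww gg : ℕ → ℕ → ℝ) (X G w : ℕ) [NeZero G] (hG : 3 * X ≤ G) (n : ℕ) (h1 : 1 ≤ n)
    (hn : n ≤ X) :
    PhI G ww gg X w (tr G X (upI ww gg X w)) (fun _ => 1) n =
      ((cvv (ww X) (ww X) n - cvv (fI gg X w) (fI gg X w) n : ℝ) : ℂ) := by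
  have hX : 2 * X < G := by omega
  have hsub : ∀ j : ZMod G, tr G X (uI ww gg X w) j = tr G X (ww X) j - tr G X (fI gg X w) j := by
    intro j
    unfold tr
    rw [← Finset.sum_sub_distrib]
    refine Finset.sum_congr rfl fun m _ => ?_
    unfold uI
    push_cast
    ring
  have hadd : ∀ j : ZMod G, tr G X (upI ww gg X w) j = tr G X (ww X) j + tr G X (fI gg X w) j := by
    intro j
    unfold tr
    rw [← Finset.sum_add_distrib]
    refine Finset.sum_congr rfl fun m _ => ?_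
    unfold upI
    push_cast
    ring
  have h2 : PhI G ww gg X w (tr G X (upI ww gg X w)) (fun _ => 1) n =
      co G (fun j => tr G X (ww X) j ^ 2 - tr G X (fI gg X w) j ^ 2) n := by
    unfold PhI co
    congr 1
    refine Finset.sum_congr rfl fun j _ => ?_
    rw [hsub, hadd, one_mul]
    ring
  rw [h2, co_sub, co_sq G X hX (ww X) n hn, co_sq G X hX (fI gg X w) n hn]
  unfold cvv
  push_cast
  ring

/-- Cauchy for the error part of `V` -/
theorem ph_cauchy (G : ℕ) [NeZero G] (ww gg : ℕ → ℕ → ℝ) (X w : ℕ) (V ω : ZMod G → ℂ)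
    (hω : ∀ j, ‖ω j‖ ≤ 1) (n : ℕ) :
    ‖PhI G ww gg X w V ω n‖ ^ 2 ≤ nm2 G (tr G X (uI ww gg X w)) * nm2 G V := by
  have hG : 0 < G := Nat.pos_of_ne_zero (NeZero.ne G)
  have hGr : (0 : ℝ) < G := by exact_mod_cast hG
  have h1 : ‖PhI G ww gg X w V ω n‖ ≤ (1 / (G : ℝ)) *
      ∑ j : ZMod G, ‖tr G X (uI ww gg X w) j‖ * ‖V j‖ := by
    unfold PhI
    rw [norm_mul]
    have e1 : ‖(1 / (G : ℂ))‖ = 1 / (G : ℝ) := by
      rw [norm_div, norm_one, Complex.norm_natCast]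
    rw [e1]
    refine mul_le_mul_of_nonneg_left ?_ (by positivity)
    refine (norm_sum_le _ _).trans (Finset.sum_le_sum fun j _ => ?_)
    rw [norm_mul, norm_mul, norm_mul]
    have e2 : ‖(ZMod.stdAddChar (-((n : ZMod G) * j)) : ℂ)‖ = 1 := by
      rw [← conj_chi, chi_ee]
      rw [RCLike.norm_conj]
      exact norm_ee _
    rw [e2, mul_one]
    have h5 : ‖ω j‖ * ‖tr G X (uI ww gg X w) j‖ ≤ 1 * ‖tr G X (uI ww gg X w) j‖ :=
      mul_le_mul_of_nonneg_right (hω j) (norm_nonneg _)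
    rw [one_mul] at h5
    exact mul_le_mul_of_nonneg_right h5 (norm_nonneg _)
  have h2 : (∑ j : ZMod G, ‖tr G X (uI ww gg X w) j‖ * ‖V j‖) ^ 2 ≤
      (∑ j : ZMod G, ‖tr G X (uI ww gg X w) j‖ ^ 2) * ∑ j : ZMod G, ‖V j‖ ^ 2 :=
    Finset.sum_mul_sq_le_sq_mul_sq _ _ _
  calc ‖PhI G ww gg X w V ω n‖ ^ 2 ≤ ((1 / (G : ℝ)) *
      ∑ j : ZMod G, ‖tr G X (uI ww gg X w) j‖ * ‖V j‖) ^ 2 := pow_le_pow_left₀ (norm_nonneg _) h1 2
    _ = (1 / (G : ℝ)) ^ 2 * (∑ j : ZMod G, ‖tr G X (uI ww gg X w) j‖ * ‖V j‖) ^ 2 := by ring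
    _ ≤ (1 / (G : ℝ)) ^ 2 * ((∑ j : ZMod G, ‖tr G X (uI ww gg X w) j‖ ^ 2) *
        ∑ j : ZMod G, ‖V j‖ ^ 2) := mul_le_mul_of_nonneg_left h2 (by positivity)
    _ = nm2 G (tr G X (uI ww gg X w)) * nm2 G V := by
        unfold nm2
        ring

end Pool.MP_dd84fd_nt.IX
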