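import Pool.Agent.Lib.MP_dd84fd_nt.IX.GrDefs
import Pool.Agent.Lib.MP_dd84fd_nt.PL.Overlap

/-!
# IX-GrErr (0.5 h): error terms over a family

`WtE_err`: `‖ES c1‖ ‖ES c2‖ ≤ (T ‖ES c1‖² + ‖ES c2‖²/T)/2 =: F`, `PL.overlap` with `s = -r/X`, `t = r/X`: `(2 r/X) N + 1 ≤ 2`, `∫_0^1 F = (T ∑ c1² + ∑ c2²/T)/2` (`ES_l2`) (see `gc_arc`, `hov`, `hFint` in `HX/GrCo.lean`).
If `QQ = ∅` trivial, otherwise `N ≥ lcm(q,q) ≥ 1`. `WtE_split3`: pointwise `‖ES c1‖‖ES c2‖ ≤ ‖ES s1‖‖ES s2‖ + ‖ES (c1-s1)‖‖ES c2‖ + ‖ES s1‖‖ES (c2-s2)‖` (`ES c = ES s + ES (c - s)`), integrate, sum.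
-/

set_option autoImplicit false

namespace Pool.MP_dd84fd_nt.IX

open Finset Pool.MP_67663b_nt.Odd Pool.MP_dd84fd_nt.En Pool.MP_dd84fd_nt.E2 Pool.MP_dd84fd_nt.LS
open Pool.MP_dd84fd_nt.L2G (nrm)
open Pool.MP_dd84fd_nt.GX Pool.MP_dd84fd_nt.HX
open Pool.MP_dd84fd_nt.PL (rr Fam)

theorem WtE_err (X : ℕ) (hX : 1 ≤ X) (r : ℝ) (hr : 0 ≤ r) (QQ : Finset ℕ) (N : ℝ)
    (hF : Fam QQ N) (hN : 2 * r * N ≤ X) (c1 c2 : ℕ → ℝ) (T : ℝ) (hT : 0 < T) :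
    ∑ q ∈ QQ, WtE X c1 c2 r q ≤
      T * ∑ n ∈ Icc 1 X, c1 n ^ 2 + (∑ n ∈ Icc 1 X, c2 n ^ 2) / T := by
  have hX0 : (0 : ℝ) < X := by exact_mod_cast hX
  have h1n : 0 ≤ ∑ n ∈ Icc 1 X, c1 n ^ 2 := sum_nonneg fun _ _ => sq_nonneg _
  have h2n : 0 ≤ ∑ n ∈ Icc 1 X, c2 n ^ 2 := sum_nonneg fun _ _ => sq_nonneg _
  rcases Finset.eq_empty_or_nonempty QQ with hemp | ⟨q0, hq0⟩
  · rw [hemp, Finset.sum_empty]
    positivity
  have hN1 : 1 ≤ N := by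
    have g1 := hF.2 q0 hq0 q0 hq0
    rw [Nat.lcm_self] at g1
    have g2 : (1 : ℝ) ≤ q0 := by exact_mod_cast hF.1 q0 hq0
    linarith
  have hrX : 0 ≤ r / (X : ℝ) := by positivity
  have hle : -r / (X : ℝ) ≤ r / X := by rw [neg_div]; linarith
  set F : ℝ → ℝ := fun θ => (T * ‖ES X c1 θ‖ ^ 2 + ‖ES X c2 θ‖ ^ 2 / T) / 2 with hFd
  have hF0 : ∀ θ, 0 ≤ F θ := fun θ => by rw [hFd]; positivity
  have hFc : Continuous F :=
    (((continuous_const.mul ((ES_cont X c1).norm.pow 2)).add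
      (((ES_cont X c2).norm.pow 2).div_const T)).div_const 2)
  have hFp : ∀ θ, F (θ + 1) = F θ := fun θ => by
    rw [hFd]
    dsimp only
    rw [ES_per, ES_per]
  have harc : ∀ x0 : ℝ, arcE X c1 c2 r x0 ≤ ∫ x in (-r / X)..(r / X), F (x0 + x) := by
    intro x0
    unfold arcE
    have hadd : Continuous (fun x : ℝ => x0 + x) := continuous_const.add continuous_id
    refine intervalIntegral.integral_mono_on hle
      ((((ES_cont X c1).comp hadd).norm.mul ((ES_cont X c2).comp hadd).norm).intervalIntegrable _ _)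
      ((hFc.comp hadd).intervalIntegrable _ _) ?_
    intro x _
    have h6 : 0 ≤ (T * ‖ES X c1 (x0 + x)‖ - ‖ES X c2 (x0 + x)‖) ^ 2 / T := by positivity
    have h7 : (T * ‖ES X c1 (x0 + x)‖ - ‖ES X c2 (x0 + x)‖) ^ 2 / T =
        T * ‖ES X c1 (x0 + x)‖ ^ 2 - 2 * (‖ES X c1 (x0 + x)‖ * ‖ES X c2 (x0 + x)‖) +
          ‖ES X c2 (x0 + x)‖ ^ 2 / T := by
      field_simp
      ring
    rw [h7] at h6
    show ‖ES X c1 (x0 + x)‖ * ‖ES X c2 (x0 + x)‖ ≤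
      (T * ‖ES X c1 (x0 + x)‖ ^ 2 + ‖ES X c2 (x0 + x)‖ ^ 2 / T) / 2
    linarith
  have hov := PL.overlap QQ N hF hN1 F hFc hF0 hFp (-r / X) (r / X) hle
  have hFint : ∫ x in (0 : ℝ)..1, F x = (T * ∑ n ∈ Icc 1 X, c1 n ^ 2 +
      (∑ n ∈ Icc 1 X, c2 n ^ 2) / T) / 2 := by
    rw [← ES_l2 X c1, ← ES_l2 X c2, hFd]
    have e1 : Continuous (fun x : ℝ => T * ‖ES X c1 x‖ ^ 2) :=
      continuous_const.mul ((ES_cont X c1).norm.pow 2)
    have e2 : Continuous (fun x : ℝ => ‖ES X c2 x‖ ^ 2 / T) :=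
      ((ES_cont X c2).norm.pow 2).div_const T
    rw [intervalIntegral.integral_div, intervalIntegral.integral_add (e1.intervalIntegrable _ _)
      (e2.intervalIntegrable _ _), intervalIntegral.integral_const_mul,
      intervalIntegral.integral_div]
  have hlen : (r / X - -r / X) * N + 1 ≤ 2 := by
    have g1 : (r / X - -r / X) * N = 2 * r * N / X := by ring
    have g2 : 2 * r * N / X ≤ 1 := by
      rw [div_le_one hX0]
      exact hN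
    rw [g1]
    linarith
  have hI0 : 0 ≤ ∫ x in (0 : ℝ)..1, F x :=
    intervalIntegral.integral_nonneg zero_le_one fun x _ => hF0 x
  calc ∑ q ∈ QQ, WtE X c1 c2 r q
      ≤ ∑ q ∈ QQ, ∑ a ∈ rr q, ∫ x in (-r / X)..(r / X), F ((a : ℝ) / q + x) :=
        sum_le_sum fun q _ => sum_le_sum fun a _ => harc _
    _ ≤ ((r / X - -r / X) * N + 1) * ∫ x in (0 : ℝ)..1, F x := hov
    _ ≤ 2 * ∫ x in (0 : ℝ)..1, F x := mul_le_mul_of_nonneg_right hlen hI0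
    _ = T * ∑ n ∈ Icc 1 X, c1 n ^ 2 + (∑ n ∈ Icc 1 X, c2 n ^ 2) / T := by
        rw [hFint]; ring

theorem WtE_split3 (X : ℕ) (hX : 1 ≤ X) (r : ℝ) (hr : 0 ≤ r) (c1 c2 s1 s2 : ℕ → ℝ) (q : ℕ) :
    WtE X c1 c2 r q ≤ WtE X s1 s2 r q + WtE X (fun n => c1 n - s1 n) c2 r q +
      WtE X s1 (fun n => c2 n - s2 n) r q := by
  have hX0 : (0 : ℝ) < X := by exact_mod_cast hX
  have hrX : 0 ≤ r / (X : ℝ) := by positivity
  have hle : -r / (X : ℝ) ≤ r / X := by rw [neg_div]; linarith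
  have e1 : ∀ θ, ES X c1 θ = ES X s1 θ + ES X (fun n => c1 n - s1 n) θ := by
    intro θ
    rw [← ES_add]
    congr 1
    funext n
    ring
  have e2 : ∀ θ, ES X c2 θ = ES X s2 θ + ES X (fun n => c2 n - s2 n) θ := by
    intro θ
    rw [← ES_add]
    congr 1
    funext n
    ring
  have hc : ∀ (a b : ℕ → ℝ) (x0 : ℝ), Continuous (fun x : ℝ => ‖ES X a (x0 + x)‖ *
      ‖ES X b (x0 + x)‖) := fun a b x0 =>
    (((ES_cont X a).comp (continuous_const.add continuous_id)).norm).mul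
      (((ES_cont X b).comp (continuous_const.add continuous_id)).norm)
  unfold WtE
  rw [← sum_add_distrib, ← sum_add_distrib]
  refine sum_le_sum fun a _ => ?_
  unfold arcE
  have c3 : Continuous (fun x : ℝ => ‖ES X s1 ((a : ℝ) / q + x)‖ * ‖ES X s2 ((a : ℝ) / q + x)‖ +
      ‖ES X (fun n => c1 n - s1 n) ((a : ℝ) / q + x)‖ * ‖ES X c2 ((a : ℝ) / q + x)‖) :=
    (hc _ _ _).add (hc _ _ _)
  rw [← intervalIntegral.integral_add ((hc _ _ _).intervalIntegrable _ _)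
    ((hc _ _ _).intervalIntegrable _ _), ← intervalIntegral.integral_add
    (c3.intervalIntegrable _ _) ((hc _ _ _).intervalIntegrable _ _)]
  refine intervalIntegral.integral_mono_on hle ((hc _ _ _).intervalIntegrable _ _)
    ((c3.add (hc _ _ _)).intervalIntegrable _ _) ?_
  intro x _
  set θ := (a : ℝ) / q + x with hθ
  have k1 : ‖ES X c1 θ‖ ≤ ‖ES X s1 θ‖ + ‖ES X (fun n => c1 n - s1 n) θ‖ := by
    rw [e1 θ]; exact norm_add_le _ _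
  have k2 : ‖ES X c2 θ‖ ≤ ‖ES X s2 θ‖ + ‖ES X (fun n => c2 n - s2 n) θ‖ := by
    rw [e2 θ]; exact norm_add_le _ _
  have n1 := norm_nonneg (ES X s1 θ)
  have n2 := norm_nonneg (ES X c2 θ)
  calc ‖ES X c1 θ‖ * ‖ES X c2 θ‖
      ≤ (‖ES X s1 θ‖ + ‖ES X (fun n => c1 n - s1 n) θ‖) * ‖ES X c2 θ‖ :=
        mul_le_mul_of_nonneg_right k1 n2
    _ = ‖ES X s1 θ‖ * ‖ES X c2 θ‖ + ‖ES X (fun n => c1 n - s1 n) θ‖ * ‖ES X c2 θ‖ := by ring
    _ ≤ ‖ES X s1 θ‖ * (‖ES X s2 θ‖ + ‖ES X (fun n => c2 n - s2 n) θ‖) +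
          ‖ES X (fun n => c1 n - s1 n) θ‖ * ‖ES X c2 θ‖ :=
        add_le_add (mul_le_mul_of_nonneg_left k2 n1) le_rfl
    _ = ‖ES X s1 θ‖ * ‖ES X s2 θ‖ + ‖ES X (fun n => c1 n - s1 n) θ‖ * ‖ES X c2 θ‖ +
          ‖ES X s1 θ‖ * ‖ES X (fun n => c2 n - s2 n) θ‖ := by ring

end Pool.MP_dd84fd_nt.IX
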