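import Pool.Agent.Lib.MP_dd84fd_nt.IX.Defs
import Pool.Agent.Lib.MP_dd84fd_nt.HX.GrNrm

/-!
# Theorem I, section 5 (greedy, centre): definitions and first facts

`ES X c θ = Σ_{n ≤ X} c n e(n θ)`; `arcE`: the integral of `|ES c1| |ES c2|` over the arc of radius `r/X`
around `x0`; `WtE`: sum over the reduced fractions with denominator `q`; `cfI`: the coefficients of `WI`.
`P0I = X^(1-th+3e/2)`.
-/

set_option autoImplicit false

namespace Pool.MP_dd84fd_nt.IX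

open Finset Pool.MP_67663b_nt.Odd Pool.MP_dd84fd_nt.En Pool.MP_dd84fd_nt.E2 Pool.MP_dd84fd_nt.LS
open Pool.MP_dd84fd_nt.L2G (nrm)
open Pool.MP_dd84fd_nt.GX Pool.MP_dd84fd_nt.HX
open Pool.MP_dd84fd_nt.PL (rr Fam)

/-- exponential sum with real coefficients -/
noncomputable def ES (X : ℕ) (c : ℕ → ℝ) (θ : ℝ) : ℂ :=
  ∑ n ∈ Icc 1 X, (c n : ℂ) * ee ((n : ℝ) * θ)

/-- the integral of `|ES c1| |ES c2|` over the arc of radius `r/X` around `x0` -/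
noncomputable def arcE (X : ℕ) (c1 c2 : ℕ → ℝ) (r x0 : ℝ) : ℝ :=
  ∫ x in (-r / X)..(r / X), ‖ES X c1 (x0 + x)‖ * ‖ES X c2 (x0 + x)‖

/-- the mass of the arcs of radius `r/X` around the reduced fractions with denominator `q` -/
noncomputable def WtE (X : ℕ) (c1 c2 : ℕ → ℝ) (r : ℝ) (q : ℕ) : ℝ :=
  ∑ a ∈ rr q, arcE X c1 c2 r ((a : ℝ) / q)

/-- the coefficients of `WI` -/
noncomputable def cfI (ww gg : ℕ → ℕ → ℝ) (s : ℝ) (w X n : ℕ) : ℝ := ww X n + s * fI gg X w n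

/-- `X^(1-th+3e/2)` -/
noncomputable def P0I (th e : ℝ) (X : ℕ) : ℝ := (X : ℝ) ^ (1 - th + 3 / 2 * e)

theorem WI_ES (ww gg : ℕ → ℕ → ℝ) (s : ℝ) (w X : ℕ) (θ : ℝ) :
    WI ww gg s w X θ = ES X (cfI ww gg s w X) θ := rfl

theorem ES_cont (X : ℕ) (c : ℕ → ℝ) : Continuous (ES X c) := by
  unfold ES
  refine continuous_finsetSum _ fun k _ => ?_
  have : Continuous ee := by unfold ee; fun_prop
  exact continuous_const.mul (this.comp (continuous_const.mul continuous_id))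

theorem ES_per (X : ℕ) (c : ℕ → ℝ) (x : ℝ) : ES X c (x + 1) = ES X c x := by
  unfold ES
  refine sum_congr rfl fun n _ => ?_
  congr 1
  unfold ee
  have h : (2 * (Real.pi : ℂ) * (((n : ℝ) * (x + 1) : ℝ) : ℂ) * Complex.I) =
      2 * (Real.pi : ℂ) * (((n : ℝ) * x : ℝ) : ℂ) * Complex.I +
        ((n : ℤ) : ℂ) * (2 * Real.pi * Complex.I) := by
    push_cast
    ring
  rw [h, Complex.exp_add, Complex.exp_int_mul_two_pi_mul_I, mul_one]

theorem ES_add (X : ℕ) (c d : ℕ → ℝ) (θ : ℝ) :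
    ES X (fun n => c n + d n) θ = ES X c θ + ES X d θ := by
  unfold ES
  rw [← sum_add_distrib]
  refine sum_congr rfl fun n _ => ?_
  push_cast
  ring

theorem ES_l2 (X : ℕ) (c : ℕ → ℝ) :
    ∫ x in (0 : ℝ)..1, ‖ES X c x‖ ^ 2 = ∑ n ∈ Icc 1 X, c n ^ 2 := exp_l2 X c

theorem arcE_nonneg (X : ℕ) (c1 c2 : ℕ → ℝ) (r x0 : ℝ) (hr : 0 ≤ r) : 0 ≤ arcE X c1 c2 r x0 := by
  unfold arcE
  refine intervalIntegral.integral_nonneg ?_ fun x _ => by positivity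
  have h1 : 0 ≤ r / (X : ℝ) := by positivity
  rw [neg_div]
  linarith

theorem WtE_nonneg (X : ℕ) (c1 c2 : ℕ → ℝ) (r : ℝ) (hr : 0 ≤ r) (q : ℕ) : 0 ≤ WtE X c1 c2 r q :=
  sum_nonneg fun _ _ => arcE_nonneg X c1 c2 r _ hr

end Pool.MP_dd84fd_nt.IX
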