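import Pool.Agent.Lib.MP_dd84fd_nt.IX.GrDefs
import Pool.Agent.Lib.MP_dd84fd_nt.HX.GrBV
import Pool.Agent.Lib.MP_dd84fd_nt.GX.Den2

/-!
# IX-GrBV (0.6 h): type I sums with a weight of bounded variation

Adapt `gw_exp` (end of `HX/GrBV.lean`) and `fa_exp` (`HX/GrFa.lean`). `∑_{n ≤ X} γ n (∑_{l ∣ n} α l) e(nθ) = ∑_{l ≤ X} α l ∑_{k ≤ X/l} γ(lk) e(lkθ)` (swap as `VTail_swap` in `GX/VTail.lean` or in `HX/GrFa.lean`).
For `1 ≤ l ≤ X`: `bv_abel` (public, `HX/GrBV.lean`): the variation of `k ↦ γ(lk)` on `[1, X/l]` is at most that of `γ` on `[1, X]` (triangle inequality, disjoint intervals; see `gw_exp`), and the sup is `≤ T`, so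
the inner sum is `≤ 2 T mn(X/l)(lθ)` (`L2G.geo_sum` as in `gw_exp`). Only `l ≤ R` count. `typeI_ker`: `∑_{l ≤ R} mn(X/l)(lθ) ≤ C (X/ht + R) log X`.
-/

set_option autoImplicit false

namespace Pool.MP_dd84fd_nt.IX

open Finset Pool.MP_67663b_nt.Odd Pool.MP_dd84fd_nt.En Pool.MP_dd84fd_nt.E2 Pool.MP_dd84fd_nt.LS
open Pool.MP_dd84fd_nt.L2G (nrm)
open Pool.MP_dd84fd_nt.GX Pool.MP_dd84fd_nt.HX
open Pool.MP_dd84fd_nt.PL (rr Fam)

private theorem ixgb_swap (N : ℕ) (F : ℕ → ℕ → ℂ) :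
    ∑ n ∈ Icc 1 N, ∑ d ∈ n.divisors, F d (n / d) =
      ∑ d ∈ Icc 1 N, ∑ e ∈ Icc 1 (N / d), F d e := by
  rw [Finset.sum_sigma', Finset.sum_sigma']
  refine Finset.sum_bij' (fun p _ => (⟨p.2, p.1 / p.2⟩ : Σ _ : ℕ, ℕ))
    (fun p _ => (⟨p.1 * p.2, p.1⟩ : Σ _ : ℕ, ℕ)) ?_ ?_ ?_ ?_ ?_
  · rintro ⟨n, d⟩ h
    rw [Finset.mem_sigma, Finset.mem_Icc, Nat.mem_divisors] at h
    obtain ⟨⟨h1, h2⟩, h3, h4⟩ := h
    simp only at h1 h2 h3 h4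
    rw [Finset.mem_sigma, Finset.mem_Icc, Finset.mem_Icc]
    have hd : 0 < d := Nat.pos_of_dvd_of_pos h3 (by omega)
    have hdn : d ≤ n := Nat.le_of_dvd (by omega) h3
    refine ⟨⟨hd, by simp only; omega⟩, ?_, ?_⟩
    · exact Nat.div_pos hdn hd
    · exact Nat.div_le_div_right h2
  · rintro ⟨d, e⟩ h
    rw [Finset.mem_sigma, Finset.mem_Icc, Finset.mem_Icc] at h
    obtain ⟨⟨h1, h2⟩, h3, h4⟩ := h
    simp only at h1 h2 h3 h4
    rw [Finset.mem_sigma, Finset.mem_Icc, Nat.mem_divisors]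
    have hde : d * e ≤ N := by
      calc d * e ≤ d * (N / d) := Nat.mul_le_mul_left _ h4
        _ ≤ N := Nat.mul_div_le N d
    refine ⟨⟨Nat.mul_pos h1 h3, hde⟩, Dvd.intro _ rfl, ?_⟩
    exact (Nat.mul_pos h1 h3).ne'
  · rintro ⟨n, d⟩ h
    rw [Finset.mem_sigma, Finset.mem_Icc, Nat.mem_divisors] at h
    obtain ⟨⟨h1, h2⟩, h3, h4⟩ := h
    simp only at h3
    simp only [Nat.mul_div_cancel' h3]
  · rintro ⟨d, e⟩ h
    rw [Finset.mem_sigma, Finset.mem_Icc, Finset.mem_Icc] at h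
    obtain ⟨⟨h1, h2⟩, h3, h4⟩ := h
    simp only at h1
    simp only [Nat.mul_div_cancel_left e (show 0 < d from h1)]
  · rintro ⟨n, d⟩ h
    rfl

private theorem ixgb_sub (g : ℕ → ℝ) (d m : ℕ) (hm : 1 ≤ m) :
    ∑ k ∈ Ico 1 m, |g (d * (k + 1)) - g (d * k)| ≤
      ∑ n ∈ Ico d (d * m), |g (n + 1) - g n| := by
  induction m, hm using Nat.le_induction with
  | base => simp
  | succ l hl ih =>
    rw [Finset.sum_Ico_succ_top hl]
    have h1 : ∑ n ∈ Ico d (d * l), |g (n + 1) - g n| +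
        ∑ n ∈ Ico (d * l) (d * (l + 1)), |g (n + 1) - g n| =
        ∑ n ∈ Ico d (d * (l + 1)), |g (n + 1) - g n| :=
      Finset.sum_Ico_consecutive _ (Nat.le_mul_of_pos_right d hl)
        (Nat.mul_le_mul_left d (Nat.le_succ l))
    rw [← h1]
    refine add_le_add ih ?_
    have h2 := dist_le_Ico_sum_dist g (Nat.mul_le_mul_left d (Nat.le_succ l))
    simp only [Real.dist_eq] at h2
    rw [abs_sub_comm]
    refine h2.trans (le_of_eq (Finset.sum_congr rfl fun n _ => abs_sub_comm _ _))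

private theorem ixgb_inner {X : ℕ} {γ : ℕ → ℝ} {T : ℝ} (ha : ∀ n, |γ n| ≤ T)
    (hb : ∑ n ∈ Ico 1 X, |γ (n + 1) - γ n| ≤ T) (d : ℕ) (θ : ℝ) (hd : 1 ≤ d) (hdX : d ≤ X) :
    ‖∑ k ∈ Icc 1 (X / d), ((γ (d * k) : ℝ) : ℂ) * ee (((d * k : ℕ) : ℝ) * θ)‖ ≤
      2 * T * L2G.mn ((X : ℝ) / d) ((d : ℝ) * θ) := by
  have hm1 : 1 ≤ X / d := (Nat.one_le_div_iff hd).2 hdX
  have hmX : d * (X / d) ≤ X := Nat.mul_div_le X d
  refine bv_abel (X / d) (fun k => γ (d * k)) (fun k => ee (((d * k : ℕ) : ℝ) * θ))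
    (L2G.mn ((X : ℝ) / d) ((d : ℝ) * θ)) (2 * T) ?_ ?_
  · intro l hl
    have hd0 : (0 : ℝ) < d := by exact_mod_cast hd
    have hlX : (l : ℝ) ≤ (X : ℝ) / d := by
      rw [le_div_iff₀ hd0]
      have : l * d ≤ X := by nlinarith
      exact_mod_cast this
    have h3 := L2G.geo_sum 0 l ((X : ℝ) / d) ((d : ℝ) * θ) (by simpa using hlX)
      ((Nat.cast_nonneg l).trans hlX)
    have e : Ioc 0 l = Icc 1 l := by
      ext k
      simp only [Finset.mem_Ioc, Finset.mem_Icc]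
      omega
    rw [e] at h3
    refine le_trans (le_of_eq ?_) h3
    congr 1
    refine Finset.sum_congr rfl fun k _ => ?_
    congr 1
    push_cast
    ring
  · have h4 : |γ (d * (X / d))| ≤ T := ha _
    have h5 : ∑ k ∈ Ico 1 (X / d), |γ (d * (k + 1)) - γ (d * k)| ≤ T := by
      refine (ixgb_sub γ d (X / d) hm1).trans (le_trans ?_ hb)
      refine Finset.sum_le_sum_of_subset_of_nonneg ?_ (fun _ _ _ => abs_nonneg _)
      exact Finset.Ico_subset_Ico hd hmX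
    have h6 : (fun k => γ (d * k)) (X / d) = γ (d * (X / d)) := rfl
    linarith

theorem bv_type1 : ∃ C : ℝ, 0 < C ∧ ∃ X0 : ℕ, ∀ X : ℕ, X0 ≤ X → ∀ (γ α : ℕ → ℝ) (T T' : ℝ)
    (R : ℕ), R ≤ X → (∀ n, |γ n| ≤ T) → ∑ n ∈ Ico 1 X, |γ (n + 1) - γ n| ≤ T →
    (∀ l, |α l| ≤ T') → (∀ l, R < l → α l = 0) → ∀ θ : ℝ,
    ‖ES X (fun n => γ n * ∑ l ∈ n.divisors, α l) θ‖ ≤
      C * T * T' * ((X : ℝ) / ht X θ + R) * Real.log X := by
  obtain ⟨C3, hC3, X4, hX4⟩ := typeI_ker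
  refine ⟨2 * C3, by positivity, X4, fun X hX γ α T T' R hRX ha hb hα hα0 θ => ?_⟩
  have hT : 0 ≤ T := (abs_nonneg _).trans (ha 0)
  have hT' : 0 ≤ T' := (abs_nonneg _).trans (hα 0)
  have h3 : ES X (fun n => γ n * ∑ l ∈ n.divisors, α l) θ =
      ∑ d ∈ Icc 1 X, ((α d : ℝ) : ℂ) * ∑ k ∈ Icc 1 (X / d),
        ((γ (d * k) : ℝ) : ℂ) * ee (((d * k : ℕ) : ℝ) * θ) := by
    have h4 := ixgb_swap X (fun d k => ((α d : ℝ) : ℂ) *
      (((γ (d * k) : ℝ) : ℂ) * ee (((d * k : ℕ) : ℝ) * θ)))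
    simp only [← Finset.mul_sum] at h4
    rw [← h4]
    unfold ES
    refine Finset.sum_congr rfl fun n hn => ?_
    have h5 : ∀ d ∈ n.divisors, ((α d : ℝ) : ℂ) *
        (((γ (d * (n / d)) : ℝ) : ℂ) * ee (((d * (n / d) : ℕ) : ℝ) * θ)) =
        ((α d : ℝ) : ℂ) * (((γ n : ℝ) : ℂ) * ee ((n : ℝ) * θ)) := by
      intro d hd
      rw [Nat.mul_div_cancel' (Nat.dvd_of_mem_divisors hd)]
    rw [Finset.sum_congr rfl h5, ← Finset.sum_mul]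
    push_cast
    ring
  have h7 : ∑ d ∈ Icc 1 X, ((α d : ℝ) : ℂ) * ∑ k ∈ Icc 1 (X / d),
        ((γ (d * k) : ℝ) : ℂ) * ee (((d * k : ℕ) : ℝ) * θ) =
      ∑ d ∈ Icc 1 R, ((α d : ℝ) : ℂ) * ∑ k ∈ Icc 1 (X / d),
        ((γ (d * k) : ℝ) : ℂ) * ee (((d * k : ℕ) : ℝ) * θ) := by
    symm
    refine Finset.sum_subset (Finset.Icc_subset_Icc le_rfl hRX) fun d hd hd' => ?_
    have h8 : R < d := by
      rw [mem_Icc] at hd hd'
      omega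
    rw [hα0 d h8]
    simp
  rw [h3, h7]
  have h10 : ‖∑ d ∈ Icc 1 R, ((α d : ℝ) : ℂ) * ∑ k ∈ Icc 1 (X / d),
        ((γ (d * k) : ℝ) : ℂ) * ee (((d * k : ℕ) : ℝ) * θ)‖ ≤
      ∑ d ∈ Icc 1 R, T' * (2 * T * L2G.mn ((X : ℝ) / d) ((d : ℝ) * θ)) := by
    refine norm_sum_le_of_le _ fun d hd => ?_
    rw [mem_Icc] at hd
    rw [norm_mul, Complex.norm_real, Real.norm_eq_abs]
    exact mul_le_mul (hα d) (ixgb_inner ha hb d θ hd.1 (hd.2.trans hRX)) (norm_nonneg _) hT'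
  refine h10.trans ?_
  rw [← Finset.mul_sum, ← Finset.mul_sum]
  have h11 := hX4 X hX θ R hRX
  calc T' * (2 * T * ∑ d ∈ Icc 1 R, L2G.mn ((X : ℝ) / d) ((d : ℝ) * θ))
      ≤ T' * (2 * T * (C3 * ((X : ℝ) / ht X θ + R) * Real.log X)) :=
        mul_le_mul_of_nonneg_left (mul_le_mul_of_nonneg_left h11 (by positivity)) hT'
    _ = 2 * C3 * T * T' * ((X : ℝ) / ht X θ + R) * Real.log X := by ring

end Pool.MP_dd84fd_nt.IX
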