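import Pool.Agent.Lib.MP_dd84fd_nt.IX.FaFacts

/-!
# IX-FaAnn (0.5 h): discs, annuli and absolute values

`dsc_split`: induction on `T`; the step is `dsc F X q r = ann F X q (r/2) r + dsc F X q (r/2)`: for each `a` split `∫_{-r/X}^{r/X} = ∫_{-r/X}^{-(r/2)/X} + ∫_{-(r/2)/X}^{(r/2)/X} + ∫_{(r/2)/X}^{r/X}` and substitute `x → -x` in the first
(`intervalIntegral.integral_comp_neg`). `dsc_le`, `ann_le`: `‖FFH θ‖ = ‖WH (-1) θ‖ ‖WH 1 θ‖` (`‖ee‖ = 1`), larger interval, nonnegative integrand (compare `FA/ArcN`).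
-/

set_option autoImplicit false

namespace Pool.MP_dd84fd_nt.IX

open Finset Pool.MP_67663b_nt.Odd Pool.MP_dd84fd_nt.En Pool.MP_dd84fd_nt.E2 Pool.MP_dd84fd_nt.LS
  Pool.MP_dd84fd_nt.GX Pool.MP_dd84fd_nt.HX

open Pool.MP_dd84fd_nt.L2G (nrm)

open Pool.MP_dd84fd_nt.PL (rr)

theorem faAnn_step (F : ℝ → ℂ) (hF : Continuous F) (X q : ℕ) (r : ℝ) :
    dsc F X q (2 * r) = ann F X q r (2 * r) + dsc F X q r := by
  unfold dsc ann
  rw [← sum_add_distrib]
  refine sum_congr rfl fun a _ => ?_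
  obtain ⟨g, hg⟩ : ∃ g : ℝ → ℂ, g = fun x : ℝ => F ((a : ℝ) / q + x) := ⟨_, rfl⟩
  have hgc : Continuous g := by
    rw [hg]
    fun_prop
  have hi : ∀ s t : ℝ, IntervalIntegrable g MeasureTheory.volume s t := fun s t =>
    hgc.intervalIntegrable s t
  have e1 : ∀ s t : ℝ, ∫ x in s..t, F ((a : ℝ) / q + x) = ∫ x in s..t, g x := by
    intro s t
    rw [hg]
  have e2 : ∫ x in (r / X)..(2 * r / X), F ((a : ℝ) / q - x) =
      ∫ x in (-(2 * r / X))..(-(r / X)), g x := by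
    rw [← intervalIntegral.integral_comp_neg (f := g)]
    apply intervalIntegral.integral_congr
    intro x _
    simp only
    rw [hg]
    simp only
    rw [← sub_eq_add_neg]
  rw [e1, e1, e1, e2]
  have h5 := intervalIntegral.integral_add_adjacent_intervals (hi (-(2 * r / X)) (-(r / X)))
    (hi (-(r / X)) (r / X))
  have h6 := intervalIntegral.integral_add_adjacent_intervals (hi (-(2 * r / X)) (r / X))
    (hi (r / X) (2 * r / X))
  rw [← h6, ← h5]
  ring

theorem dsc_split (F : ℝ → ℂ) (hF : Continuous F) (X q : ℕ) (r : ℝ) (T : ℕ) :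
    dsc F X q r = ∑ t ∈ range T, ann F X q (r / 2 ^ (t + 1)) (2 * (r / 2 ^ (t + 1))) +
      dsc F X q (r / 2 ^ T) := by
  induction T with
  | zero => simp
  | succ T ih =>
    rw [sum_range_succ, ih, add_assoc]
    congr 1
    have h : r / 2 ^ T = 2 * (r / 2 ^ (T + 1)) := by
      rw [pow_succ]
      field_simp
    rw [h, faAnn_step F hF X q]

theorem faAnn_norm (ww gg : ℕ → ℕ → ℝ) (X w n : ℕ) (θ : ℝ) :
    ‖FFI ww gg w X n θ‖ = ‖WI ww gg (-1) w X θ‖ * ‖WI ww gg 1 w X θ‖ := by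
  unfold FFI
  rw [norm_mul, norm_ee, mul_one, norm_mul]

theorem faAnn_cont (ww gg : ℕ → ℕ → ℝ) (X w q a : ℕ) : Continuous (fun x : ℝ =>
    ‖WI ww gg (-1) w X ((a : ℝ) / q + x)‖ * ‖WI ww gg 1 w X ((a : ℝ) / q + x)‖) := by
  have h1 := wi_cont ww gg (-1) w X
  have h2 := wi_cont ww gg 1 w X
  fun_prop

theorem dsc_le (ww gg : ℕ → ℕ → ℝ) (X w n q : ℕ) (hX : 1 ≤ X) (v v' : ℝ) (hv : 0 ≤ v) (hv' : v ≤ v') :
    ‖dsc (FFI ww gg w X n) X q v‖ ≤ dscNI ww gg w X q v' := by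
  have hX0 : (0 : ℝ) < X := by exact_mod_cast hX
  unfold dsc dscNI
  refine (norm_sum_le _ _).trans (sum_le_sum fun a _ => ?_)
  obtain ⟨g, hg⟩ : ∃ g : ℝ → ℝ, g = fun x : ℝ =>
    ‖WI ww gg (-1) w X ((a : ℝ) / q + x)‖ * ‖WI ww gg 1 w X ((a : ℝ) / q + x)‖ := ⟨_, rfl⟩
  have hgc : Continuous g := by rw [hg]; exact faAnn_cont ww gg X w q a
  have hg0 : ∀ x, 0 ≤ g x := fun x => by rw [hg]; positivity
  have hi : ∀ s t : ℝ, IntervalIntegrable g MeasureTheory.volume s t := fun s t =>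
    hgc.intervalIntegrable s t
  have hvX : v / X ≤ v' / X := div_le_div_of_nonneg_right hv' hX0.le
  have hv0 : 0 ≤ v / X := by positivity
  have h1 : ‖∫ x in (-(v / X))..(v / X), FFI ww gg w X n ((a : ℝ) / q + x)‖ ≤
      ∫ x in (-(v / X))..(v / X), g x := by
    refine (intervalIntegral.norm_integral_le_integral_norm (by linarith)).trans (le_of_eq ?_)
    apply intervalIntegral.integral_congr
    intro x _
    simp only
    rw [faAnn_norm, hg]
  have h3 : ∫ x in (-(v / X))..(v / X), g x ≤ ∫ x in (-(v' / X))..(v' / X), g x :=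
    intervalIntegral.integral_mono_interval (by linarith) (by linarith) hvX
      (Filter.Eventually.of_forall hg0) (hi _ _)
  have e : -(v') / (X : ℝ) = -(v' / X) := neg_div _ _
  rw [e]
  have e4 : ∫ x in (-(v' / X))..(v' / X), ‖WI ww gg (-1) w X ((a : ℝ) / q + x)‖ *
      ‖WI ww gg 1 w X ((a : ℝ) / q + x)‖ = ∫ x in (-(v' / X))..(v' / X), g x := by
    rw [hg]
  rw [e4]
  exact h1.trans h3

theorem ann_le (ww gg : ℕ → ℕ → ℝ) (X w n q : ℕ) (hX : 1 ≤ X) (u v v' : ℝ) (hu : 0 ≤ u) (huv : u ≤ v)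
    (hv : v ≤ v') : ‖ann (FFI ww gg w X n) X q u v‖ ≤ dscNI ww gg w X q v' := by
  have hX0 : (0 : ℝ) < X := by exact_mod_cast hX
  unfold ann dscNI
  refine (norm_sum_le _ _).trans (sum_le_sum fun a _ => ?_)
  obtain ⟨g, hg⟩ : ∃ g : ℝ → ℝ, g = fun x : ℝ =>
    ‖WI ww gg (-1) w X ((a : ℝ) / q + x)‖ * ‖WI ww gg 1 w X ((a : ℝ) / q + x)‖ := ⟨_, rfl⟩
  have hgc : Continuous g := by rw [hg]; exact faAnn_cont ww gg X w q a
  have hg0 : ∀ x, 0 ≤ g x := fun x => by rw [hg]; positivity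
  have hi : ∀ s t : ℝ, IntervalIntegrable g MeasureTheory.volume s t := fun s t =>
    hgc.intervalIntegrable s t
  have huX : 0 ≤ u / X := by positivity
  have huvX : u / X ≤ v / X := div_le_div_of_nonneg_right huv hX0.le
  have hvX : v / X ≤ v' / X := div_le_div_of_nonneg_right hv hX0.le
  have h1 : ‖∫ x in (u / X)..(v / X), FFI ww gg w X n ((a : ℝ) / q + x)‖ ≤
      ∫ x in (u / X)..(v / X), g x := by
    refine (intervalIntegral.norm_integral_le_integral_norm huvX).trans (le_of_eq ?_)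
    apply intervalIntegral.integral_congr
    intro x _
    simp only
    rw [faAnn_norm, hg]
  have h2 : ‖∫ x in (u / X)..(v / X), FFI ww gg w X n ((a : ℝ) / q - x)‖ ≤
      ∫ x in (-(v / X))..(-(u / X)), g x := by
    refine (intervalIntegral.norm_integral_le_integral_norm huvX).trans (le_of_eq ?_)
    rw [← intervalIntegral.integral_comp_neg (f := g)]
    apply intervalIntegral.integral_congr
    intro x _
    simp only
    rw [faAnn_norm, hg]
    simp only
    rw [← sub_eq_add_neg]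
  have h3 : ∫ x in (u / X)..(v / X), g x ≤ ∫ x in (0 : ℝ)..(v' / X), g x :=
    intervalIntegral.integral_mono_interval huX huvX hvX (Filter.Eventually.of_forall hg0) (hi _ _)
  have h4 : ∫ x in (-(v / X))..(-(u / X)), g x ≤ ∫ x in (-(v' / X))..(0 : ℝ), g x :=
    intervalIntegral.integral_mono_interval (by linarith) (by linarith) (by linarith)
      (Filter.Eventually.of_forall hg0) (hi _ _)
  have h5 := intervalIntegral.integral_add_adjacent_intervals (hi (-(v' / X)) 0) (hi 0 (v' / X))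
  have e : -(v') / (X : ℝ) = -(v' / X) := neg_div _ _
  rw [e]
  have e4 : ∫ x in (-(v' / X))..(v' / X), ‖WI ww gg (-1) w X ((a : ℝ) / q + x)‖ *
      ‖WI ww gg 1 w X ((a : ℝ) / q + x)‖ = ∫ x in (-(v' / X))..(v' / X), g x := by
    rw [hg]
  rw [e4]
  refine (norm_add_le _ _).trans ?_
  linarith

theorem dscNI_nonneg (ww gg : ℕ → ℕ → ℝ) (w X q : ℕ) (v : ℝ) (hv : 0 ≤ v) : 0 ≤ dscNI ww gg w X q v := by
  unfold dscNI
  refine sum_nonneg fun a _ => ?_
  apply intervalIntegral.integral_nonneg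
  · have h1 : 0 ≤ v / X := by positivity
    have e : -(v) / (X : ℝ) = -(v / X) := neg_div _ _
    rw [e]
    linarith
  · intro x _
    positivity

end Pool.MP_dd84fd_nt.IX
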