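import Pool.Agent.Lib.MP_dd84fd_nt.IX.FaDefs
import Pool.Agent.Lib.MP_dd84fd_nt.GX.DivPow

/-!
# IX-FaQQ (0.7 h): the denominators of the discs

`L = log X`, `e' = δ/10`, `q ∈ QQi`: `q ≤ y3 = X^(1/2+3δ)`, `lcm(Λ, q) ≤ X^e' Λ`. `rd ≥ 1`: `X^e' Λ bb/lcm ≥ bb ≥ 1` and `y3/q ≥ 1`. `rd ≤ X^e' Λ bb/lcm ≤ X^e' bb` (`lcm ≥ Λ`), so
`X^(δ/5) Λ rd ≤ X^(δ/5+δ/10) Λ bb ≤ 2 X^(1/2+2δ+3δ/10) ≤ X^(1/2+5δ/2)` for `X^(δ/5) ≥ 2`. `q rd ≤ y3` by the second entry of the minimum. `Λ ≤ Λ bb` gives the last one.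
`lcm(q, q')`: `lcm(Λ, q) = Λ u`, `lcm(Λ, q') = Λ u'`, `u, u' ≤ X^e'`, and `lcm(q, q') ∣ Λ u u'`, so `≤ X^(2 e') Λ`.
Cardinality: `q ∈ QQi` divides `Λ u` with `u = lcm(Λ, q)/Λ ∈ [1, X^e']` (natural numbers `u ≤ ⌊X^e'⌋₊`), so `QQi ⊆ ⋃_u divisors (Λ u)`, `Λ u ≤ 2 X^(1/2+2δ+δ/10) ≤ X`, and `card divisors ≤ C (Λ u)^(1/200) ≤ C X^(1/200)` (`GX.div_pow (1/200)`):
`card QQi ≤ X^(1/20000) C X^(1/200) ≤ X^(1/50)` (`e' ≤ 1/20000`).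
-/

set_option autoImplicit false

namespace Pool.MP_dd84fd_nt.IX

open Finset Pool.MP_67663b_nt.Odd Pool.MP_dd84fd_nt.En Pool.MP_dd84fd_nt.E2 Pool.MP_dd84fd_nt.LS
  Pool.MP_dd84fd_nt.GX Pool.MP_dd84fd_nt.HX

open Pool.MP_dd84fd_nt.L2G (nrm)

open Pool.MP_dd84fd_nt.PL (rr)

private lemma qq_ev (e C : ℝ) (hδ : 0 < e) : ∃ X0 : ℕ, ∀ X : ℕ, X0 ≤ X →
    1 ≤ X ∧ 2 ≤ (X : ℝ) ^ (e / 5) ∧ C ≤ (X : ℝ) ^ (1 / 100 : ℝ) := by
  have h1 := ((tendsto_rpow_atTop (show 0 < e / 5 by positivity)).comp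
    (tendsto_natCast_atTop_atTop (R := ℝ))).eventually_ge_atTop 2
  have h2 := ((tendsto_rpow_atTop (show (0 : ℝ) < 1 / 100 by norm_num)).comp
    (tendsto_natCast_atTop_atTop (R := ℝ))).eventually_ge_atTop C
  obtain ⟨X1, hX1⟩ := Filter.eventually_atTop.1 (h1.and h2)
  exact ⟨max X1 1, fun X hX => ⟨(le_max_right _ _).trans hX,
    (hX1 X ((le_max_left _ _).trans hX)).1, (hX1 X ((le_max_left _ _).trans hX)).2⟩⟩

private lemma qq_mem (th e : ℝ) (X Λ q : ℕ) : q ∈ QQi th e X Λ ↔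
    1 ≤ q ∧ (q : ℝ) ≤ y3 (dl th e) X ∧ (Nat.lcm Λ q : ℝ) ≤ (X : ℝ) ^ (e / 10) * Λ := by
  classical
  unfold QQi
  have hy : 0 ≤ y3 (dl th e) X := Real.rpow_nonneg (Nat.cast_nonneg _) _
  rw [Finset.mem_filter, Finset.mem_Icc, Nat.le_floor_iff hy]
  tauto

private lemma qq_lcm (Λ q q' : ℕ) (hΛ : 1 ≤ Λ) (hq : 1 ≤ q) (hq' : 1 ≤ q') :
    Nat.lcm q q' * Λ ≤ Nat.lcm Λ q * Nat.lcm Λ q' := by
  have ha : 0 < Nat.lcm Λ q := Nat.lcm_pos (by omega) (by omega)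
  have hb : 0 < Nat.lcm Λ q' := Nat.lcm_pos (by omega) (by omega)
  have h1 : Nat.lcm q q' ≤ Nat.lcm (Nat.lcm Λ q) (Nat.lcm Λ q') :=
    Nat.le_of_dvd (Nat.lcm_pos ha hb) (Nat.lcm_dvd
      ((Nat.dvd_lcm_right Λ q).trans (Nat.dvd_lcm_left _ _))
      ((Nat.dvd_lcm_right Λ q').trans (Nat.dvd_lcm_right _ _)))
  have h2 : Λ ≤ Nat.gcd (Nat.lcm Λ q) (Nat.lcm Λ q') :=
    Nat.le_of_dvd (Nat.gcd_pos_of_pos_left _ ha)
      (Nat.dvd_gcd (Nat.dvd_lcm_left Λ q) (Nat.dvd_lcm_left Λ q'))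
  calc Nat.lcm q q' * Λ ≤ Nat.lcm (Nat.lcm Λ q) (Nat.lcm Λ q') *
        Nat.gcd (Nat.lcm Λ q) (Nat.lcm Λ q') := Nat.mul_le_mul h1 h2
    _ = Nat.lcm Λ q * Nat.lcm Λ q' := by rw [mul_comm, Nat.gcd_mul_lcm]

theorem qq_facts (th e : ℝ) (hA : Adm th e) : ∃ X0 : ℕ, ∀ X : ℕ, X0 ≤ X →
    ∀ (Λ : ℕ) (bb : ℝ), 1 ≤ Λ → 1 ≤ bb → Λ * bb ≤ 2 * (X : ℝ) ^ (1 - th + e) →
    (∀ q ∈ QQi th e X Λ, 1 ≤ q ∧ 1 ≤ rdi th e X Λ bb q ∧ (q : ℝ) * rdi th e X Λ bb q ≤ y3 (dl th e) X ∧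
      (X : ℝ) ^ (e / 5) * Λ * rdi th e X Λ bb q ≤ (X : ℝ) ^ (1 - th + 3 / 2 * e)) ∧
    (∀ q ∈ QQi th e X Λ, ∀ q' ∈ QQi th e X Λ, (Nat.lcm q q' : ℝ) ≤ (X : ℝ) ^ (e / 5) * Λ) ∧
    ((QQi th e X Λ).card : ℝ) ≤ (X : ℝ) ^ (1 / 50 : ℝ) ∧
    (X : ℝ) ^ (e / 5) * Λ ≤ (X : ℝ) ^ (1 - th + 3 / 2 * e) := by
  obtain ⟨C, hC, hdiv⟩ := Pool.MP_dd84fd_nt.GX.div_pow (1 / 200) (by norm_num)
  obtain ⟨hA1, hA2, hA3, hA4⟩ := hA
  obtain ⟨X0, hX0⟩ := qq_ev e C hA3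
  refine ⟨X0, fun X hX Λ bb hΛ hbb hΛb => ?_⟩
  obtain ⟨hX1, hX2, hXC⟩ := hX0 X hX
  have hx1 : (1 : ℝ) ≤ X := by exact_mod_cast hX1
  have hx0 : (0 : ℝ) < X := by linarith
  have hΛ1 : (1 : ℝ) ≤ Λ := by exact_mod_cast hΛ
  have hΛ0 : (0 : ℝ) < Λ := by linarith
  have hbb0 : (0 : ℝ) < bb := by linarith
  obtain ⟨P, hP⟩ : ∃ P : ℝ, P = (X : ℝ) ^ (e / 10) := ⟨_, rfl⟩
  have hP1 : 1 ≤ P := by rw [hP]; exact Real.one_le_rpow hx1 (by positivity)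
  have hP0 : 0 < P := by linarith
  have hPP : (X : ℝ) ^ (e / 5) = P ^ 2 := by
    rw [hP, ← Real.rpow_natCast, ← Real.rpow_mul hx0.le]
    congr 1
    push_cast
    ring
  have hy0 : 0 < y3 (dl th e) X := Real.rpow_pos_of_pos hx0 _
  -- the main numeric inequality
  have hnum : P ^ 2 * (P * (2 * (X : ℝ) ^ (1 - th + e))) ≤ (X : ℝ) ^ (1 - th + 3 / 2 * e) := by
    calc P ^ 2 * (P * (2 * (X : ℝ) ^ (1 - th + e))) ≤
          P ^ 2 * (P * (P ^ 2 * (X : ℝ) ^ (1 - th + e))) := by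
          refine mul_le_mul_of_nonneg_left (mul_le_mul_of_nonneg_left
            (mul_le_mul_of_nonneg_right ?_ (by positivity)) hP0.le) (by positivity)
          rw [← hPP]
          exact hX2
      _ = P ^ 5 * (X : ℝ) ^ (1 - th + e) := by ring
      _ = (X : ℝ) ^ (1 - th + 3 / 2 * e) := by
          rw [hP, ← Real.rpow_natCast, ← Real.rpow_mul hx0.le, ← Real.rpow_add hx0]
          congr 1
          push_cast
          ring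
  have hPΛ : P * (Λ * bb) ≤ P * (2 * (X : ℝ) ^ (1 - th + e)) :=
    mul_le_mul_of_nonneg_left hΛb hP0.le
  refine ⟨?_, ?_, ?_, ?_⟩
  · intro q hq
    rw [qq_mem, ← hP] at hq
    obtain ⟨h1, h2, h3⟩ := hq
    have hq0 : (0 : ℝ) < q := by exact_mod_cast h1
    have hl0 : 0 < Nat.lcm Λ q := Nat.lcm_pos (by omega) (by omega)
    have hl : (0 : ℝ) < (Nat.lcm Λ q : ℝ) := by exact_mod_cast hl0
    have hlΛ : (Λ : ℝ) ≤ (Nat.lcm Λ q : ℝ) := by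
      exact_mod_cast Nat.le_of_dvd hl0 (Nat.dvd_lcm_left Λ q)
    have hr1 : rdi th e X Λ bb q ≤ P * Λ * bb / (Nat.lcm Λ q : ℝ) := by
      rw [hP]
      exact min_le_left _ _
    have hr2 : rdi th e X Λ bb q ≤ y3 (dl th e) X / q := min_le_right _ _
    have hr3 : 1 ≤ rdi th e X Λ bb q := by
      unfold rdi
      rw [← hP]
      refine le_min ?_ ?_
      · rw [le_div_iff₀ hl, one_mul]
        calc (Nat.lcm Λ q : ℝ) ≤ P * Λ := h3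
          _ = P * Λ * 1 := by ring
          _ ≤ P * Λ * bb := mul_le_mul_of_nonneg_left hbb (by positivity)
      · rw [le_div_iff₀ hq0, one_mul]
        exact h2
    refine ⟨h1, hr3, ?_, ?_⟩
    · calc (q : ℝ) * rdi th e X Λ bb q ≤ q * (y3 (dl th e) X / q) := mul_le_mul_of_nonneg_left hr2 hq0.le
        _ = y3 (dl th e) X := by field_simp
    · rw [hPP]
      have h4 : (Λ : ℝ) * rdi th e X Λ bb q ≤ P * (Λ * bb) := by
        calc (Λ : ℝ) * rdi th e X Λ bb q ≤ (Nat.lcm Λ q : ℝ) * (P * Λ * bb / (Nat.lcm Λ q : ℝ)) :=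
              mul_le_mul hlΛ hr1 (by linarith) hl.le
          _ = P * (Λ * bb) := by field_simp
      calc P ^ 2 * Λ * rdi th e X Λ bb q = P ^ 2 * (Λ * rdi th e X Λ bb q) := by ring
        _ ≤ P ^ 2 * (P * (2 * (X : ℝ) ^ (1 - th + e))) :=
            mul_le_mul_of_nonneg_left (h4.trans hPΛ) (by positivity)
        _ ≤ _ := hnum
  · intro q hq q' hq'
    rw [qq_mem, ← hP] at hq hq'
    have h1 := qq_lcm Λ q q' hΛ hq.1 hq'.1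
    have h2 : (Nat.lcm q q' : ℝ) * Λ ≤ (Nat.lcm Λ q : ℝ) * (Nat.lcm Λ q' : ℝ) := by
      exact_mod_cast h1
    have h3 : (Nat.lcm q q' : ℝ) * Λ ≤ (P ^ 2 * Λ) * Λ := by
      refine h2.trans ?_
      calc (Nat.lcm Λ q : ℝ) * (Nat.lcm Λ q' : ℝ) ≤ (P * Λ) * (P * Λ) :=
            mul_le_mul hq.2.2 hq'.2.2 (Nat.cast_nonneg _) (by positivity)
        _ = (P ^ 2 * Λ) * Λ := by ring
    rw [hPP]
    exact le_of_mul_le_mul_right h3 hΛ0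
  · have hsub : QQi th e X Λ ⊆ (Icc 1 ⌊P⌋₊).biUnion (fun u => (Λ * u).divisors) := by
      intro q hq
      rw [qq_mem, ← hP] at hq
      obtain ⟨h1, h2, h3⟩ := hq
      obtain ⟨u, hu⟩ := Nat.dvd_lcm_left Λ q
      have hl0 : 0 < Nat.lcm Λ q := Nat.lcm_pos (by omega) (by omega)
      have hu0 : 1 ≤ u := by
        rcases Nat.eq_zero_or_pos u with h | h
        · rw [h, mul_zero] at hu
          omega
        · exact h
      rw [Finset.mem_biUnion]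
      refine ⟨u, ?_, ?_⟩
      · rw [Finset.mem_Icc, Nat.le_floor_iff hP0.le]
        refine ⟨hu0, ?_⟩
        rw [hu] at h3
        push_cast at h3
        have h4 : (Λ : ℝ) * u ≤ Λ * P := by linarith
        exact le_of_mul_le_mul_left h4 hΛ0
      · rw [Nat.mem_divisors]
        refine ⟨?_, ?_⟩
        · rw [← hu]
          exact Nat.dvd_lcm_right Λ q
        · rw [← hu]
          exact hl0.ne'
    have hcard : ((QQi th e X Λ).card : ℝ) ≤ ∑ u ∈ Icc 1 ⌊P⌋₊, ((Λ * u).divisors.card : ℝ) := by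
      have h1 := (Finset.card_le_card hsub).trans Finset.card_biUnion_le
      exact_mod_cast h1
    have hterm : ∀ u ∈ Icc 1 ⌊P⌋₊, ((Λ * u).divisors.card : ℝ) ≤
        (X : ℝ) ^ (1 / 100 : ℝ) * (X : ℝ) ^ (1 / 200 : ℝ) := by
      intro u hu
      rw [Finset.mem_Icc, Nat.le_floor_iff hP0.le] at hu
      have h1 : 1 ≤ Λ * u := Nat.one_le_iff_ne_zero.2 (Nat.mul_ne_zero (by omega) (by omega))
      have h2 := hdiv (Λ * u) h1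
      have h3 : ((Λ * u : ℕ) : ℝ) ≤ X := by
        push_cast
        calc (Λ : ℝ) * u ≤ Λ * P := mul_le_mul_of_nonneg_left hu.2 hΛ0.le
          _ = P * (Λ * 1) := by ring
          _ ≤ P * (Λ * bb) := mul_le_mul_of_nonneg_left
              (mul_le_mul_of_nonneg_left hbb hΛ0.le) hP0.le
          _ ≤ P * (2 * (X : ℝ) ^ (1 - th + e)) := hPΛ
          _ = 1 * (P * (2 * (X : ℝ) ^ (1 - th + e))) := by ring
          _ ≤ P ^ 2 * (P * (2 * (X : ℝ) ^ (1 - th + e))) :=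
              mul_le_mul_of_nonneg_right (by nlinarith) (by positivity)
          _ ≤ (X : ℝ) ^ (1 - th + 3 / 2 * e) := hnum
          _ ≤ (X : ℝ) ^ (1 : ℝ) := Real.rpow_le_rpow_of_exponent_le hx1 (by linarith)
          _ = X := Real.rpow_one _
      refine h2.trans ?_
      refine mul_le_mul hXC (Real.rpow_le_rpow (Nat.cast_nonneg _) h3 (by norm_num))
        (by positivity) (by positivity)
    calc ((QQi th e X Λ).card : ℝ) ≤ ∑ u ∈ Icc 1 ⌊P⌋₊, ((Λ * u).divisors.card : ℝ) := hcard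
      _ ≤ ∑ _u ∈ Icc 1 ⌊P⌋₊, (X : ℝ) ^ (1 / 100 : ℝ) * (X : ℝ) ^ (1 / 200 : ℝ) :=
          Finset.sum_le_sum hterm
      _ = (⌊P⌋₊ : ℝ) * ((X : ℝ) ^ (1 / 100 : ℝ) * (X : ℝ) ^ (1 / 200 : ℝ)) := by
          rw [Finset.sum_const, Nat.card_Icc, nsmul_eq_mul, Nat.add_sub_cancel]
      _ ≤ P * ((X : ℝ) ^ (1 / 100 : ℝ) * (X : ℝ) ^ (1 / 200 : ℝ)) :=
          mul_le_mul_of_nonneg_right (Nat.floor_le hP0.le) (by positivity)
      _ = (X : ℝ) ^ (e / 10 + (1 / 100 + 1 / 200)) := by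
          rw [hP, ← Real.rpow_add hx0, ← Real.rpow_add hx0]
      _ ≤ (X : ℝ) ^ (1 / 50 : ℝ) := Real.rpow_le_rpow_of_exponent_le hx1 (by linarith)
  · rw [hPP]
    calc P ^ 2 * Λ = P ^ 2 * (1 * (Λ * 1)) := by ring
      _ ≤ P ^ 2 * (P * (Λ * bb)) := by
          refine mul_le_mul_of_nonneg_left (mul_le_mul hP1
            (mul_le_mul_of_nonneg_left hbb hΛ0.le) (by positivity) hP0.le) (by positivity)
      _ ≤ P ^ 2 * (P * (2 * (X : ℝ) ^ (1 - th + e))) :=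
          mul_le_mul_of_nonneg_left hPΛ (by positivity)
      _ ≤ _ := hnum

end Pool.MP_dd84fd_nt.IX
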