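import Pool.Agent.Lib.MP_dd84fd_nt.IX.FaArcs
import Pool.Agent.Lib.MP_dd84fd_nt.IX.FaBound

/-!
# IX-FaFin: GEN from the tree theorem, the sup bound, the pointwise lemma, greedy and centre

`V = tr (ww + f) = V_s + V_e`, `V_s = tr (ww + f - err)` (`SupI`); `TreeI` for `V_s` gives the
exceptional set; for the other `n`: `ww*ww - f*f = Ph[V, 1] = Ph[V, 1 - w] + Ph[V_s, w] + Ph[V_e, w]`,
`w = wSI Λ b`; the first is a sum over discs (`ph_discs`, `discs_boundI`), the third is small by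
Cauchy (`ph_cauchy`).
-/

set_option autoImplicit false

namespace Pool.MP_dd84fd_nt.IX

open Finset Pool.MP_67663b_nt.Odd Pool.MP_dd84fd_nt.En Pool.MP_dd84fd_nt.E2 Pool.MP_dd84fd_nt.LS
  Pool.MP_dd84fd_nt.GX Pool.MP_dd84fd_nt.HX

open Pool.MP_dd84fd_nt.L2G (nrm)

open Pool.MP_dd84fd_nt.PL (rr)

private theorem fn_logbig (K : ℝ) : ∃ X0 : ℕ, ∀ X : ℕ, X0 ≤ X → K ≤ Real.log (X : ℝ) := by
  have h : Filter.Tendsto (fun n : ℕ => Real.log (n : ℝ)) Filter.atTop Filter.atTop :=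
    Real.tendsto_log_atTop.comp tendsto_natCast_atTop_atTop
  exact Filter.eventually_atTop.1 (h.eventually_ge_atTop K)

private theorem fn_logpow (A : ℕ) : ∃ X0 : ℕ, ∀ X : ℕ, X0 ≤ X → (Real.log (X : ℝ)) ^ A ≤ X := by
  have h3 : ∀ᶠ x : ℝ in Filter.atTop, (Real.log x) ^ A ≤ x := by
    have h4 := (Real.isLittleO_pow_log_id_atTop (n := A)).bound one_pos
    filter_upwards [h4, Filter.eventually_ge_atTop 1] with x hx hx1
    rw [one_mul, Real.norm_eq_abs, Real.norm_eq_abs, id, abs_of_pos (by linarith : 0 < x)] at hx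
    exact (le_abs_self _).trans hx
  exact Filter.eventually_atTop.1 ((tendsto_natCast_atTop_atTop (R := ℝ)).eventually h3)

/-- `DecI` is monotone in `B` -/
theorem decI_mono {B B' C2 : ℕ} {th e : ℝ} {ww : ℕ → ℕ → ℝ} (hB : B' ≤ B)
    (h : DecI B C2 th e ww) : DecI B' C2 th e ww := by
  obtain ⟨X0, hX0⟩ := h
  obtain ⟨X1, hX1⟩ := fn_logbig 1
  refine ⟨max X0 X1, fun X hX => ?_⟩
  obtain ⟨I, γ, α, M, K, a, c, err, h1, h2, h3, h4, h5, h6, h7, h8, h9⟩ :=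
    hX0 X ((le_max_left _ _).trans hX)
  have hL := hX1 X ((le_max_right _ _).trans hX)
  refine ⟨I, γ, α, M, K, a, c, err, h1, h2, h3, h4, h5, h6, h7, h8, h9.trans ?_⟩
  exact div_le_div_of_nonneg_left (Nat.cast_nonneg _) (by positivity)
    (pow_le_pow_right₀ hL hB)

private theorem wSI_le (G : ℕ) (th e : ℝ) (X Λ : ℕ) (bb : ℝ) (j : ZMod G) :
    ‖wSI G th e X Λ bb j‖ ≤ 1 := by
  unfold wSI
  split_ifs <;> simp

theorem gen_i (hT : TreeI) (hS : SupI) (hP : PlI) (hG : GreedyI) (hC : CentreI) : GenI := by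
  classical
  intro A
  obtain ⟨A1, hA1⟩ : ∃ A1 : ℕ, A1 = A + 2 := ⟨_, rfl⟩
  obtain ⟨Bt, ht⟩ := hT A1 5
  obtain ⟨Bs, hs⟩ := hS (2 * A1 + 6)
  obtain ⟨Bd, hd⟩ := discs_boundI hP hC A1
  obtain ⟨Bg, hg⟩ := hG (A1 + 4)
  refine ⟨max (max Bt Bs) (max Bd Bg), fun K0 C1 C2 => ?_⟩
  obtain ⟨K1, K2, hd⟩ := hd K0 C1 C2
  obtain ⟨C, hg⟩ := hg K0 C1 C2 K1 K2
  refine ⟨C, fun th e hA ww gg hW hDec hMaj K => ?_⟩
  have hDt : DecI Bt C2 th e ww := decI_mono ((le_max_left _ _).trans (le_max_left _ _)) hDec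
  have hDs : DecI Bs C2 th e ww := decI_mono ((le_max_right _ _).trans (le_max_left _ _)) hDec
  have hDd : DecI Bd C2 th e ww := decI_mono ((le_max_left _ _).trans (le_max_right _ _)) hDec
  have hDg : DecI Bg C2 th e ww := decI_mono ((le_max_right _ _).trans (le_max_right _ _)) hDec
  obtain ⟨D0, hg⟩ := hg K th e hA ww gg hW hDg hMaj
  refine ⟨max D0 1, fun D' hD' => ?_⟩
  have hD0 : D0 ≤ D' := (le_max_left _ _).trans hD'
  have hD1 : 1 ≤ D' := (le_max_right _ _).trans hD'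
  obtain ⟨Xt, hXt⟩ := ht K0 C1 C2 th e hA ww gg hW hDt D' hD1
  obtain ⟨Xs, hXs⟩ := hs K0 C1 C2 th e hA ww gg hW hDs D' hD1
  obtain ⟨Xd, hXd⟩ := hd th e hA ww gg hW hDd D' hD1
  obtain ⟨Xg, hXg⟩ := hg D' hD0
  obtain ⟨Xp, hXp⟩ := ph_discs K0 C1 ww gg hW th e hA D'
  obtain ⟨Xv, hXv⟩ := vbi_up K0 C1 ww gg hW th e hA D'
  obtain ⟨Xn, hXn⟩ := nm2_uI K0 C1 ww gg hW D'
  obtain ⟨Xl, hXl⟩ := fn_logbig 4
  obtain ⟨Xm, hXm⟩ := fn_logpow A1
  refine ⟨max (max (max Xt Xs) (max Xd Xg)) (max (max Xp Xv) (max (max Xn Xl) (max Xm 2))),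
    fun X hX => ?_⟩
  have g1 : Xt ≤ X := by omega
  have g2 : Xs ≤ X := by omega
  have g3 : Xd ≤ X := by omega
  have g4 : Xg ≤ X := by omega
  have g5 : Xp ≤ X := by omega
  have g6 : Xv ≤ X := by omega
  have g7 : Xn ≤ X := by omega
  have g8 : Xl ≤ X := by omega
  have g9 : Xm ≤ X := by omega
  have g10 : 2 ≤ X := by omega
  have hL := hXl X g8
  have hLm := hXm X g9
  obtain ⟨D, hDcard, hDmem, hDgood⟩ := hXg X g4
  obtain ⟨err, herr, hsup⟩ := hXs X g2 1 (by norm_num)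
  obtain ⟨w, hw⟩ : ∃ w : ℕ, w = wX D' X := ⟨_, rfl⟩
  set L : ℝ := Real.log (X : ℝ) with hLd
  have hX1 : (1 : ℝ) ≤ X := by exact_mod_cast (by omega : 1 ≤ X)
  have hX0 : (0 : ℝ) < X := by linarith
  have hL0 : 0 < L := by linarith
  have hXz : X ≠ 0 := by omega
  -- the modulus
  obtain ⟨G, hGe⟩ : ∃ G : ℕ, G = X ^ 10 := ⟨_, rfl⟩
  have hGz : NeZero G := ⟨by rw [hGe]; positivity⟩
  have hG3 : 3 * X ≤ G := by
    rw [hGe]
    have h1 : 2 ^ 9 ≤ X ^ 9 := Nat.pow_le_pow_left g10 9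
    calc 3 * X ≤ X ^ 9 * X := Nat.mul_le_mul_right X (by omega)
      _ = X ^ 10 := by ring
  have herrX : ∑ n ∈ Icc 1 X, err n ^ 2 ≤ X := by
    refine herr.trans (div_le_self hX0.le ?_)
    exact one_le_pow₀ (by linarith)
  obtain ⟨Vs, hVs⟩ : ∃ Vs : ZMod G → ℂ, Vs = tr G X (fun n => upI ww gg X w n - err n) := ⟨_, rfl⟩
  have hvb : VBI G th e X 5 Vs := by
    rw [hVs, hw]
    exact hXv X g6 err herrX hsup G hG3
  obtain ⟨Ex, hEx⟩ : ∃ Ex : Finset ℕ, Ex = (Icc 1 X).filter (fun n => ∀ (Λ : ℕ) (bb : ℝ),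
      1 ≤ Λ → 1 ≤ bb → (Λ : ℝ) * bb ≤ 2 * (X : ℝ) ^ (1 - th + e) →
      (X : ℝ) / L ^ A1 < ‖PhI G ww gg X w Vs (wSI G th e X Λ bb) n‖) := ⟨_, rfl⟩
  refine ⟨D, Ex, hDcard, hDmem, ?_, ?_⟩
  · refine hXt X g1 G hG3 Vs hvb Ex ?_ ?_
    · rw [hEx]
      exact Finset.filter_subset _ _
    · intro n hn Λ bb h1 h2 h3
      rw [hEx, Finset.mem_filter] at hn
      rw [← hw]
      exact hn.2 Λ bb h1 h2 h3
  · intro n hn1 hn2 _ hnEx hnD
    have hn0 : 1 ≤ n := by omega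
    have hex : ∃ (Λ : ℕ) (bb : ℝ), 1 ≤ Λ ∧ 1 ≤ bb ∧ (Λ : ℝ) * bb ≤ 2 * (X : ℝ) ^ (1 - th + e) ∧
        ‖PhI G ww gg X w Vs (wSI G th e X Λ bb) n‖ ≤ (X : ℝ) / L ^ A1 := by
      by_contra hc
      apply hnEx
      rw [hEx, Finset.mem_filter]
      refine ⟨Finset.mem_Icc.2 ⟨hn0, hn2⟩, fun Λ bb h1 h2 h3 => ?_⟩
      by_contra h4
      exact hc ⟨Λ, bb, h1, h2, h3, not_lt.1 h4⟩
    obtain ⟨Λ, bb, hΛ, hbb, hΛb, hsmall⟩ := hex
    have hgood : GoodNI th e ww gg w X n (A1 + 4) K1 K2 := by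
      rw [hw]
      intro QQ N h1 h2 h3
      exact hDgood n (Finset.mem_Icc.2 ⟨hn0, hn2⟩) hnD QQ N h1 h2 h3
    have hdisc := hXd X g3 n hn1 hn2 (by rw [← hw]; exact hgood) Λ bb hΛ hbb hΛb
    rw [← hw] at hdisc
    have hph := hXp X g5 Λ bb hΛ hbb hΛb G (by rw [hGe]) n hn2
    rw [← hw] at hph
    have hrep := repI ww gg X G w hG3 n hn0 hn2
    have hone := ph_one G ww gg th e X w Λ n bb (tr G X (upI ww gg X w))
    have hV := ph_V G ww gg X w n (tr G X (upI ww gg X w)) (tr G X err) (wSI G th e X Λ bb)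
    have hVs' : (fun j => tr G X (upI ww gg X w) j - tr G X err j) = Vs := by
      rw [hVs]
      funext j
      exact (tr_sub' G X _ _ j).symm
    rw [hVs'] at hV
    -- the error part
    have hXG : X < G := by omega
    have hca := ph_cauchy G ww gg X w (tr G X err) (wSI G th e X Λ bb)
      (fun j => wSI_le G th e X Λ bb j) n
    have hU := hXn X g7 G hG3
    rw [← hw] at hU
    have hE : nm2 G (tr G X err) ≤ X / L ^ (2 * A1 + 6) := by
      unfold nm2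
      rw [parseval G X hXG]
      exact herr
    have hE0 : 0 ≤ nm2 G (tr G X err) := by
      unfold nm2
      positivity
    have hVe : ‖PhI G ww gg X w (tr G X err) (wSI G th e X Λ bb) n‖ ≤ X / L ^ A1 := by
      have h1 : ‖PhI G ww gg X w (tr G X err) (wSI G th e X Λ bb) n‖ ^ 2 ≤ (X / L ^ (A1 + 1)) ^ 2 := by
        calc ‖PhI G ww gg X w (tr G X err) (wSI G th e X Λ bb) n‖ ^ 2 ≤
              nm2 G (tr G X (uI ww gg X w)) * nm2 G (tr G X err) := hca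
          _ ≤ (X * L ^ 4) * (X / L ^ (2 * A1 + 6)) := mul_le_mul hU hE hE0 (by positivity)
          _ = (X / L ^ (A1 + 1)) ^ 2 := by
              have h2 : L ^ (2 * A1 + 6) = L ^ 4 * (L ^ (A1 + 1)) ^ 2 := by
                rw [← pow_mul, ← pow_add]
                congr 1
                ring
              rw [h2]
              field_simp
      have h3 : ‖PhI G ww gg X w (tr G X err) (wSI G th e X Λ bb) n‖ ≤ X / L ^ (A1 + 1) :=
        (sq_le_sq₀ (norm_nonneg _) (by positivity)).1 h1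
      refine h3.trans ?_
      exact div_le_div_of_nonneg_left hX0.le (by positivity)
        (pow_le_pow_right₀ (by linarith) (by omega))
    have hE1 : 1 ≤ X / L ^ A1 := by
      rw [le_div_iff₀ (by positivity), one_mul]
      exact hLm
    have htot : ‖PhI G ww gg X w (tr G X (upI ww gg X w)) (fun _ => 1) n‖ ≤ 4 * (X / L ^ A1) := by
      rw [hone, hV]
      have h5 : ‖PhI G ww gg X w (tr G X (upI ww gg X w)) (fun j => 1 - wSI G th e X Λ bb j) n‖ ≤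
          1 + X / L ^ A1 := by
        have h6 : PhI G ww gg X w (tr G X (upI ww gg X w)) (fun j => 1 - wSI G th e X Λ bb j) n =
            (PhI G ww gg X w (tr G X (upI ww gg X w)) (fun j => 1 - wSI G th e X Λ bb j) n -
              ∑ q ∈ QQi th e X Λ, dsc (FFI ww gg w X n) X q (rdi th e X Λ bb q)) +
            ∑ q ∈ QQi th e X Λ, dsc (FFI ww gg w X n) X q (rdi th e X Λ bb q) := by ring
        rw [h6]
        exact (norm_add_le _ _).trans (add_le_add hph hdisc)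
      refine (norm_add_le _ _).trans ?_
      have h7 := norm_add_le (PhI G ww gg X w Vs (wSI G th e X Λ bb) n)
        (PhI G ww gg X w (tr G X err) (wSI G th e X Λ bb) n)
      linarith
    rw [hrep, Complex.norm_real, Real.norm_eq_abs] at htot
    rw [← hw]
    refine htot.trans ?_
    have h8 : L ^ A1 = L ^ 2 * L ^ A := by
      rw [hA1]
      ring
    rw [h8, mul_div_assoc', div_le_div_iff₀ (by positivity) (by positivity)]
    have h9 : 4 ≤ L ^ 2 := by nlinarith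
    have h10 : 0 ≤ X * L ^ A := by positivity
    calc 4 * (X : ℝ) * L ^ A = 4 * (X * L ^ A) := by ring
      _ ≤ L ^ 2 * (X * L ^ A) := mul_le_mul_of_nonneg_right h9 h10
      _ = X * (L ^ 2 * L ^ A) := by ring

end Pool.MP_dd84fd_nt.IX
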