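import Pool.Agent.Lib.MP_dd84fd_nt.IX.PlSig

/-!
# PL_I-Fin: the pointwise lemma PL_I

As `HXP.pl_h` (`HX/PlFin.lean`): `B, K1, K2` from `pl_sigma_i (A+1)`; `QQ = ∅` trivial, otherwise `N ≥ 1`; `StdI` for `σ = ±1`.
-/

set_option autoImplicit false

namespace Pool.MP_dd84fd_nt.IXP

open Finset Pool.MP_67663b_nt.Odd Pool.MP_dd84fd_nt.PL Pool.MP_dd84fd_nt.HX Pool.MP_dd84fd_nt.HXP
open Pool.MP_dd84fd_nt.E2 (wX)

theorem pl_i : Pool.MP_dd84fd_nt.IX.PlI := by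
  intro A
  obtain ⟨B, hB⟩ := pl_sigma_i (A + 1)
  refine ⟨B, fun K0 C1 C2 => ?_⟩
  obtain ⟨K1, K2, h⟩ := hB K0 C1 C2
  refine ⟨K1, K2, fun th e hadm ww gg hw1 hdec D' A0 hD => ?_⟩
  obtain ⟨X1, hX1⟩ := h th e hadm ww gg hw1 hdec A0 D' hD
  refine ⟨max X1 8, fun X hX n hn1 hn2 QQ N b bq hq hlcm hcard hb hNb hor => ?_⟩
  have hXX1 : X1 ≤ X := (le_max_left _ _).trans hX
  have hX8 : 8 ≤ X := (le_max_right _ _).trans hX
  have hX0 : (0 : ℝ) < X := by exact_mod_cast (by omega : 0 < X)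
  have hL2 : 2 ≤ Real.log (X : ℝ) := by
    rw [Real.le_log_iff_exp_le hX0]
    have h1 : Real.exp 2 = Real.exp 1 * Real.exp 1 := by
      rw [← Real.exp_add]; norm_num
    have h2 := Real.exp_one_lt_d9
    have h3 : (8 : ℝ) ≤ X := by exact_mod_cast hX8
    have h4 : 0 < Real.exp 1 := Real.exp_pos 1
    rw [h1]
    nlinarith
  have hL0 : 0 < Real.log (X : ℝ) := by linarith
  rcases QQ.eq_empty_or_nonempty with hQ | ⟨q0, hq0⟩
  · rw [hQ, Finset.sum_empty]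
    positivity
  have hN1 : 1 ≤ N := by
    have h5 := hlcm q0 hq0 q0 hq0
    have h6 : 1 ≤ Nat.lcm q0 q0 := by
      rw [Nat.lcm_self]
      exact (hq q0 hq0).1
    have h7 : (1 : ℝ) ≤ (Nat.lcm q0 q0 : ℝ) := by exact_mod_cast h6
    linarith
  have hb' : (Real.log (X : ℝ)) ^ (-(A0 : ℝ)) ≤ b := by
    rw [Real.rpow_neg hL0.le, Real.rpow_natCast, ← one_div]
    exact hb
  have hstd : ∀ σ : ℝ, (σ = 1 ∨ σ = -1) → StdI X n th e A0 b N σ QQ bq := by
    intro σ hσ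
    exact ⟨hn1, hn2, hσ, hb', hN1, hNb, ⟨fun q hqq => (hq q hqq).1, hlcm⟩, hcard,
      fun q hqq => (hq q hqq).2⟩
  have r1 := hX1 X hXX1 n b N 1 QQ bq (hstd 1 (Or.inl rfl)) hor
  have r2 := hX1 X hXX1 n b N (-1) QQ bq (hstd (-1) (Or.inr rfl)) hor
  have key : ∀ q ∈ QQ, ‖∑ a ∈ rr q, ((∫ x in (bq q / X)..(2 * bq q / X),
        IX.FFI ww gg (wX D' X) X n ((a : ℝ) / q + x)) +
        ∫ x in (bq q / X)..(2 * bq q / X), IX.FFI ww gg (wX D' X) X n ((a : ℝ) / q - x))‖ ≤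
      ‖Bq X (bq q) 1 n q (WIa ww gg (-1) 1 (wX D' X) X q) (WIa ww gg 1 1 (wX D' X) X q)‖ +
      ‖Bq X (bq q) (-1) n q (WIa ww gg (-1) (-1) (wX D' X) X q)
        (WIa ww gg 1 (-1) (wX D' X) X q)‖ := by
    intro q _
    rw [Finset.sum_add_distrib]
    refine (norm_add_le _ _).trans (le_of_eq ?_)
    congr 2
    · unfold Bq
      refine Finset.sum_congr rfl fun a _ => ?_
      refine intervalIntegral.integral_congr fun x _ => ?_
      simp only [WIa, IX.FFI, one_mul]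
    · unfold Bq
      refine Finset.sum_congr rfl fun a _ => ?_
      refine intervalIntegral.integral_congr fun x _ => ?_
      simp only [WIa, IX.FFI, neg_mul, one_mul, ← sub_eq_add_neg]
  refine (Finset.sum_le_sum key).trans ?_
  rw [Finset.sum_add_distrib]
  have h8 : (X : ℝ) / (Real.log X) ^ (A + 1) + X / (Real.log X) ^ (A + 1) ≤ X / (Real.log X) ^ A := by
    have h9 : (X : ℝ) / (Real.log X) ^ (A + 1) + X / (Real.log X) ^ (A + 1) =
        X / (Real.log X) ^ A * (2 / Real.log X) := by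
      rw [pow_succ]
      field_simp
      ring
    rw [h9]
    have h10 : 2 / Real.log (X : ℝ) ≤ 1 := by
      rw [div_le_one hL0]
      exact hL2
    exact mul_le_of_le_one_right (by positivity) h10
  linarith

end Pool.MP_dd84fd_nt.IXP
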