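import Pool.Agent.Lib.MP_dd84fd_nt.IX.KsDefs
import Pool.Agent.Lib.MP_dd84fd_nt.HX.KsApd1
import Pool.Agent.Lib.MP_dd84fd_nt.HX.KsCc
import Pool.Agent.Lib.MP_dd84fd_nt.GX.RelCnt

/-!
# IX-KsCc2 (1.2 h): sharp count of the coincidences

Compare `HX.cc_pair` (`HX/KsCc.lean`), which loses a factor. Let `H = y3 δ X ≥ 1`. By symmetry `d' < d`. For `j` in the set put `α = al G j ∈ [0, 1)`, `a = round (d α) ∈ [0, d]`, `a' = round (d' α)`,
`v = d a' - d' a`. `HX.ap_det_ne`, `HX.ap_det_le`: `v ≠ 0`, `|v| ≤ (d + d') H/X ≤ 2 d H / X =: V`.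
Let `g = gcd(d, d')`. `g ∣ v`; so `v = g w`, `1 ≤ |w| ≤ V/g`: at most `2V/g` values of `w`. For given `v`, `d' a ≡ -v mod d`, i.e. `(d'/g) a ≡ -w mod (d/g)` with `d'/g`, `d/g` coprime: the `a ∈ [0, d]` lie in one
class modulo `d/g`: at most `g + 1 ≤ 2g` values of `a`. So at most `(2V/g)(2g) = 4V` values of `a` occur (for all `j` in the set).
For given `a` the `j` satisfy `|d α - a| ≤ H/X` (`X nrm (d α) ≤ H`): `j = G α` lies in an interval of length `2 G H/(d X)`: at most `2GH/(dX) + 1 ≤ 3 G H/(d X)` values (`GH/(dX) ≥ 3 H/d ≥ 3`; counting lemma `GX.relcnt_Icc`).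
Total `≤ 4V · 3GH/(dX) = 24 G H²/X² ≤ 100 (H/X)² G`.
Lean hint: bound the card of the set by `Σ_{a ∈ A} card (fibre)` with `A` = the set of the `a` (`card_le_mul_card_image` or `card_eq_sum_card_fiberwise`); bound `A` by injecting `a ↦ (w, a / (d/g))` (natural numbers; two `a` with
the same `w` are congruent mod `d/g`, so they are equal if the quotients `a / (d/g)` agree), `w` ranges over integers `1 ≤ |w| ≤ V/g`, `a / (d/g) ∈ [0, g]`.
-/

set_option autoImplicit false

namespace Pool.MP_dd84fd_nt.IX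

open Finset Pool.MP_67663b_nt.Odd Pool.MP_dd84fd_nt.En Pool.MP_dd84fd_nt.E2 Pool.MP_dd84fd_nt.LS
open Pool.MP_dd84fd_nt.L2G (nrm)
open Pool.MP_dd84fd_nt.GX Pool.MP_dd84fd_nt.HX

private theorem cc2_fib {α β : Type*} [DecidableEq β] (s : Finset α) (f : α → β) (c : ℝ)
    (h : ∀ b ∈ s.image f, ((s.filter (fun x => f x = b)).card : ℝ) ≤ c) :
    (s.card : ℝ) ≤ c * (s.image f).card := by
  rw [card_eq_sum_card_image f s]
  push_cast
  have := sum_le_card_nsmul (s.image f) (fun b => ((s.filter (fun x => f x = b)).card : ℝ)) c h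
  rw [nsmul_eq_mul] at this
  linarith [this]

private theorem cc2_ap (S : Finset ℤ) (d m : ℤ) (hm : 0 < m) (hd : 0 ≤ d)
    (h : ∀ x ∈ S, 0 ≤ x ∧ x ≤ d)
    (hdiv : ∀ x ∈ S, ∀ y ∈ S, m ∣ x - y) : (S.card : ℝ) ≤ (d : ℝ) / m + 1 := by
  have hm' : (0 : ℝ) < m := by exact_mod_cast hm
  have hd' : (0 : ℝ) ≤ d := by exact_mod_cast hd
  rcases S.eq_empty_or_nonempty with h0 | ⟨x0, hx0⟩
  · rw [h0]
    simp
    positivity
  · have h1 : S.card ≤ (Icc ⌈-((x0 : ℝ) / m)⌉ ⌊((d : ℝ) - x0) / m⌋).card := by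
      apply card_le_card_of_injOn (fun x => (x - x0) / m)
      · intro x hx
        obtain ⟨k, hk⟩ := hdiv x hx x0 hx0
        have h2 : (x - x0) / m = k := by
          rw [hk]
          exact Int.mul_ediv_cancel_left k hm.ne'
        have h3 := h x hx
        have hkr : (m : ℝ) * k = x - x0 := by exact_mod_cast hk.symm
        have h5 : (0 : ℝ) ≤ x := by exact_mod_cast h3.1
        have h6 : (x : ℝ) ≤ d := by exact_mod_cast h3.2
        simp only [coe_Icc, Set.mem_Icc, h2]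
        constructor
        · apply Int.ceil_le.mpr
          rw [neg_le, ← sub_nonneg]
          have : (x0 : ℝ) / m - -(k : ℝ) = (x0 + m * k) / m := by
            field_simp
            ring
          rw [this, hkr]
          apply div_nonneg _ hm'.le
          linarith
        · apply Int.le_floor.mpr
          rw [le_div_iff₀ hm']
          linarith [mul_comm (k : ℝ) m]
      · intro x hx y hy hxy
        obtain ⟨k, hk⟩ := hdiv x hx x0 hx0
        obtain ⟨l, hl⟩ := hdiv y hy x0 hx0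
        simp only [hk, hl, Int.mul_ediv_cancel_left _ hm.ne'] at hxy
        rw [hxy] at hk
        linarith
    have h2 := relcnt_Icc (-((x0 : ℝ) / m)) (((d : ℝ) - x0) / m) (by
      have := h x0 hx0
      have h5 : (0 : ℝ) ≤ x0 := by exact_mod_cast this.1
      have h6 : (x0 : ℝ) ≤ d := by exact_mod_cast this.2
      have h7 : 0 ≤ (x0 : ℝ) / m := by positivity
      have h8 : 0 ≤ ((d : ℝ) - x0) / m := div_nonneg (by linarith) hm'.le
      linarith)
    have h3 : (S.card : ℝ) ≤ ((Icc ⌈-((x0 : ℝ) / m)⌉ ⌊((d : ℝ) - x0) / m⌋).card : ℝ) := by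
      exact_mod_cast h1
    have h4 : ((d : ℝ) - x0) / m - -((x0 : ℝ) / m) = d / m := by ring
    linarith

private theorem cc2_al (G : ℕ) [NeZero G] (j : ZMod G) : 0 ≤ al G j ∧ al G j ≤ 1 := by
  have hG : (0 : ℝ) < G := by exact_mod_cast Nat.pos_of_ne_zero (NeZero.ne G)
  unfold al
  constructor
  · positivity
  · rw [div_le_one hG]
    exact_mod_cast (ZMod.val_lt j).le

private theorem cc2_round (d : ℕ) (α : ℝ) (h0 : 0 ≤ α) (h1 : α ≤ 1) :
    0 ≤ round ((d : ℝ) * α) ∧ round ((d : ℝ) * α) ≤ d := by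
  have hd : (0 : ℝ) ≤ d := by positivity
  constructor
  · rw [round_eq]
    apply Int.le_floor.mpr
    push_cast
    have := mul_nonneg hd h0
    linarith
  · rw [round_eq]
    have h2 : (d : ℝ) * α ≤ d := mul_le_of_le_one_right hd h1
    have h3 : ⌊(d : ℝ) * α + 1 / 2⌋ < (d : ℤ) + 1 := by
      apply Int.floor_lt.mpr
      push_cast
      linarith
    linarith

open Classical in
private theorem cc2_fiber (δ : ℝ) (X G : ℕ) [NeZero G] (hX : 1 ≤ X) (d : ℕ) (hd : 1 ≤ d)
    (a : ℤ) :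
    ((((univ : Finset (ZMod G)).filter
      (fun j => (X : ℝ) * nrm ((d : ℝ) * al G j) ≤ y3 δ X ∧
        round ((d : ℝ) * al G j) = a)).card : ℕ) : ℝ) ≤
      2 * ((G : ℝ) / d * (y3 δ X / X)) + 1 := by
  have hX' : (0 : ℝ) < X := by exact_mod_cast hX
  have hG' : (0 : ℝ) < G := by exact_mod_cast Nat.pos_of_ne_zero (NeZero.ne G)
  have hy : 0 < y3 δ X := by unfold y3; positivity
  have hd0 : (0 : ℝ) < d := by exact_mod_cast hd
  set c : ℝ := (G : ℝ) * a / d with hc
  set r : ℝ := (G : ℝ) / d * (y3 δ X / X) with hr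
  have hr0 : 0 ≤ r := by positivity
  have h1 : (((univ : Finset (ZMod G)).filter
      (fun j => (X : ℝ) * nrm ((d : ℝ) * al G j) ≤ y3 δ X ∧
        round ((d : ℝ) * al G j) = a)).card) ≤ (Icc ⌈c - r⌉ ⌊c + r⌋).card := by
    apply card_le_card_of_injOn (fun j => (j.val : ℤ))
    · intro j hj
      simp only [coe_filter, mem_univ, true_and, Set.mem_ofPred_eq] at hj
      obtain ⟨h2, h3⟩ := hj
      unfold L2G.nrm at h2
      rw [h3] at h2
      have h4 : |(d : ℝ) * al G j - a| ≤ y3 δ X / X := by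
        rw [le_div_iff₀ hX']
        linarith [mul_comm (X : ℝ) |(d : ℝ) * al G j - a|]
      have h5 : (j.val : ℝ) = G * al G j := by
        unfold al
        field_simp
      have h6 : |(j.val : ℝ) - c| ≤ r := by
        have h7 : (j.val : ℝ) - c = (G : ℝ) / d * ((d : ℝ) * al G j - a) := by
          rw [h5, hc]
          field_simp
        rw [h7, abs_mul, abs_of_pos (by positivity : (0 : ℝ) < (G : ℝ) / d), hr]
        exact mul_le_mul_of_nonneg_left h4 (by positivity)
      rw [abs_le] at h6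
      simp only [coe_Icc, Set.mem_Icc]
      constructor
      · apply Int.ceil_le.mpr
        push_cast
        linarith [h6.1]
      · apply Int.le_floor.mpr
        push_cast
        linarith [h6.2]
    · intro x hx y hy' hxy
      simp only [Nat.cast_inj] at hxy
      exact ZMod.val_injective G hxy
  have h2 := relcnt_Icc (c - r) (c + r) (by linarith)
  have h3 : ((((univ : Finset (ZMod G)).filter
      (fun j => (X : ℝ) * nrm ((d : ℝ) * al G j) ≤ y3 δ X ∧
        round ((d : ℝ) * al G j) = a)).card : ℕ) : ℝ) ≤ ((Icc ⌈c - r⌉ ⌊c + r⌋).card : ℝ) := by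
    exact_mod_cast h1
  linarith

open Classical in
private theorem cc2_aux (δ : ℝ) (X G : ℕ) [NeZero G] (hX : 1 ≤ X)
    (hG : 3 * X ≤ G) (d d' : ℕ) (hlt : d' < d) :
    ((((univ : Finset (ZMod G)).filter
      (fun j => d ∈ Apd δ X (al G j) ∧ d' ∈ Apd δ X (al G j))).card : ℕ) : ℝ) ≤
      100 * (y3 δ X / X) ^ 2 * G := by
  have hX' : (0 : ℝ) < X := by exact_mod_cast hX
  have hG' : (0 : ℝ) < G := by exact_mod_cast Nat.pos_of_ne_zero (NeZero.ne G)
  have hne : d ≠ d' := by omega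
  set S := ((univ : Finset (ZMod G)).filter
      (fun j => d ∈ Apd δ X (al G j) ∧ d' ∈ Apd δ X (al G j))) with hS
  rcases S.eq_empty_or_nonempty with h0 | ⟨j0, hj0⟩
  · rw [h0]
    simp only [card_empty, Nat.cast_zero]
    positivity
  have hmem : ∀ j ∈ S, d ∈ Apd δ X (al G j) ∧ d' ∈ Apd δ X (al G j) := by
    intro j hj
    rw [hS, mem_filter] at hj
    exact hj.2
  obtain ⟨hj1, hj2⟩ := hmem j0 hj0
  have hd1 : 1 ≤ d := ((apd_mem δ X (al G j0) d).mp hj1).1
  have hdH : (d : ℝ) ≤ y3 δ X := ((apd_mem δ X (al G j0) d).mp hj1).2.1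
  have hdr : (0 : ℝ) < d := by exact_mod_cast hd1
  have hH : 0 < y3 δ X := hdr.trans_le hdH
  have hdpos : 0 < d := by omega
  -- the two maps
  set a : ZMod G → ℤ := fun j => round ((d : ℝ) * al G j) with ha
  set a' : ZMod G → ℤ := fun j => round ((d' : ℝ) * al G j) with ha'
  set v : ZMod G → ℤ := fun j => (d : ℤ) * a' j - d' * a j with hv
  set T := S.image (fun j => (v j, a j)) with hT
  have hstep1 : (S.card : ℝ) ≤ (2 * ((G : ℝ) / d * (y3 δ X / X)) + 1) * T.card := by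
    apply cc2_fib
    intro b hb
    refine le_trans ?_ (cc2_fiber δ X G hX d hd1 b.2)
    have : ((S.filter (fun x => (v x, a x) = b)).card) ≤ (((univ : Finset (ZMod G)).filter
      (fun j => (X : ℝ) * nrm ((d : ℝ) * al G j) ≤ y3 δ X ∧
        round ((d : ℝ) * al G j) = b.2)).card) := by
      apply card_le_card
      intro j hj
      rw [mem_filter] at hj
      rw [mem_filter]
      refine ⟨mem_univ _, ?_, ?_⟩
      · exact ((apd_mem δ X (al G j) d).mp (hmem j hj.1).1).2.2.1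
      · rw [← hj.2]
    exact_mod_cast this
  have hg0 : 0 < Nat.gcd d d' := Nat.gcd_pos_of_pos_left _ hdpos
  have hgr : (1 : ℝ) ≤ (Nat.gcd d d' : ℝ) := by exact_mod_cast hg0
  set V : ℝ := 2 * d * (y3 δ X / X) with hVdef
  have hV0 : 0 < V := by positivity
  have hvle : ∀ j ∈ S, |(v j : ℝ)| ≤ V := by
    intro j hj
    have h1 := ap_det_le δ X hX (al G j) d d' (hmem j hj).1 (hmem j hj).2
    rw [hv]
    push_cast
    refine h1.trans ?_
    have h2 : (d' : ℝ) ≤ d := by exact_mod_cast hlt.le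
    have h3 : 0 ≤ y3 δ X / X := by positivity
    calc ((d : ℝ) + d') * y3 δ X / X = ((d : ℝ) + d') * (y3 δ X / X) := by ring
      _ ≤ (2 * d) * (y3 δ X / X) := mul_le_mul_of_nonneg_right (by linarith) h3
      _ = V := by rw [hVdef]
  have hvne : ∀ j ∈ S, v j ≠ 0 := by
    intro j hj
    exact ap_det_ne δ X (al G j) d d' (hmem j hj).1 (hmem j hj).2 hne
  have hvg : ∀ j ∈ S, ((Nat.gcd d d' : ℕ) : ℤ) ∣ v j := by
    intro j _
    have h3 : ((Nat.gcd d d' : ℕ) : ℤ) ∣ (d : ℤ) := by exact_mod_cast Nat.gcd_dvd_left d d'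
    have h4 : ((Nat.gcd d d' : ℕ) : ℤ) ∣ (d' : ℤ) := by exact_mod_cast Nat.gcd_dvd_right d d'
    exact dvd_sub (h3.mul_right _) (h4.mul_right _)
  have hgV : (Nat.gcd d d' : ℝ) ≤ V := by
    have h3 : ((Nat.gcd d d' : ℕ) : ℤ) ≤ |v j0| := by
      apply Int.le_of_dvd (abs_pos.mpr (hvne j0 hj0))
      rw [dvd_abs]
      exact hvg j0 hj0
    have h4 : ((Nat.gcd d d' : ℕ) : ℝ) ≤ |(v j0 : ℝ)| := by exact_mod_cast h3
    exact h4.trans (hvle j0 hj0)
  -- number of pairs (v, a)
  have hstep2 : (T.card : ℝ) ≤ ((Nat.gcd d d' : ℝ) + 1) * (T.image Prod.fst).card := by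
    apply cc2_fib
    intro b hb
    obtain ⟨m, hm⟩ := Nat.gcd_dvd_left d d'
    obtain ⟨m', hm'⟩ := Nat.gcd_dvd_right d d'
    have hm0 : 0 < m := by
      rcases Nat.eq_zero_or_pos m with h | h
      · rw [h] at hm
        omega
      · exact h
    have hcop : Nat.Coprime m m' := by
      have h1 := Nat.coprime_div_gcd_div_gcd hg0
      have h2 : d / Nat.gcd d d' = m := Nat.div_eq_of_eq_mul_right hg0 hm
      have h3 : d' / Nat.gcd d d' = m' := Nat.div_eq_of_eq_mul_right hg0 hm'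
      rwa [h2, h3] at h1
    have hcard : (T.filter (fun x => x.1 = b)).card ≤
        ((T.filter (fun x => x.1 = b)).image Prod.snd).card := by
      rw [card_image_of_injOn]
      intro x hx y hy hxy
      simp only [coe_filter, Set.mem_ofPred_eq] at hx hy
      exact Prod.ext (hx.2.trans hy.2.symm) hxy
    have h1 : (((T.filter (fun x => x.1 = b)).image Prod.snd).card : ℝ) ≤
        ((d : ℤ) : ℝ) / ((m : ℤ) : ℝ) + 1 := by
      apply cc2_ap _ _ _ (by exact_mod_cast hm0) (by positivity)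
      · intro x hx
        rw [mem_image] at hx
        obtain ⟨p, hp, rfl⟩ := hx
        rw [mem_filter, hT, mem_image] at hp
        obtain ⟨⟨j, hj, rfl⟩, -⟩ := hp
        exact cc2_round d (al G j) (cc2_al G j).1 (cc2_al G j).2
      · intro x hx y hy
        rw [mem_image] at hx hy
        obtain ⟨p, hp, rfl⟩ := hx
        obtain ⟨q, hq, rfl⟩ := hy
        rw [mem_filter, hT, mem_image] at hp hq
        obtain ⟨⟨j, hj, rfl⟩, hpb⟩ := hp
        obtain ⟨⟨k, hk, rfl⟩, hqb⟩ := hq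
        simp only at hpb hqb ⊢
        have h2 : v j = v k := hpb.trans hqb.symm
        rw [hv] at h2
        simp only at h2
        have h3 : (d : ℤ) * (a' j - a' k) = d' * (a j - a k) := by linarith
        have h4 : (m : ℤ) * (a' j - a' k) = m' * (a j - a k) := by
          have h5 : (d : ℤ) = (Nat.gcd d d' : ℤ) * m := by exact_mod_cast hm
          have h6 : (d' : ℤ) = (Nat.gcd d d' : ℤ) * m' := by exact_mod_cast hm'
          rw [h5, h6] at h3
          have h7 : ((Nat.gcd d d' : ℕ) : ℤ) ≠ 0 := by exact_mod_cast hg0.ne'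
          apply mul_left_cancel₀ h7
          have h8 : (Nat.gcd (Nat.gcd d d' * m) (Nat.gcd d d' * m')) = Nat.gcd d d' := by
            rw [← hm, ← hm']
          linarith
        have h5 : (m : ℤ) ∣ m' * (a j - a k) := ⟨_, h4.symm⟩
        exact (Nat.isCoprime_iff_coprime.mpr hcop).dvd_of_dvd_mul_left h5
    have h2 : ((d : ℤ) : ℝ) / ((m : ℤ) : ℝ) = (Nat.gcd d d' : ℝ) := by
      have h3 : (m : ℝ) ≠ 0 := by exact_mod_cast hm0.ne'
      have h4 : (d : ℝ) = (Nat.gcd d d' : ℝ) * m := by exact_mod_cast hm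
      push_cast
      rw [div_eq_iff h3]
      exact h4
    rw [h2] at h1
    have h3 : ((T.filter (fun x => x.1 = b)).card : ℝ) ≤
        (((T.filter (fun x => x.1 = b)).image Prod.snd).card : ℝ) := by exact_mod_cast hcard
    linarith
  have hstep3 : ((T.image Prod.fst).card : ℝ) ≤ 2 * (V / (Nat.gcd d d' : ℝ)) + 1 := by
    have hgz : ((Nat.gcd d d' : ℕ) : ℤ) ≠ 0 := by exact_mod_cast hg0.ne'
    have hgr0 : (0 : ℝ) < (Nat.gcd d d' : ℝ) := by linarith
    have key : ∀ x ∈ T.image Prod.fst, ((Nat.gcd d d' : ℕ) : ℤ) ∣ x ∧ |(x : ℝ)| ≤ V := by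
      intro x hx
      rw [mem_image] at hx
      obtain ⟨p, hp, rfl⟩ := hx
      rw [hT, mem_image] at hp
      obtain ⟨j, hj, rfl⟩ := hp
      exact ⟨hvg j hj, hvle j hj⟩
    have h1 : (T.image Prod.fst).card ≤
        (Icc ⌈-(V / (Nat.gcd d d' : ℝ))⌉ ⌊V / (Nat.gcd d d' : ℝ)⌋).card := by
      apply card_le_card_of_injOn (fun x => x / ((Nat.gcd d d' : ℕ) : ℤ))
      · intro x hx
        obtain ⟨⟨w, hw⟩, hxV⟩ := key x hx
        have h2 : x / ((Nat.gcd d d' : ℕ) : ℤ) = w := by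
          rw [hw]
          exact Int.mul_ediv_cancel_left w hgz
        have h3 : (x : ℝ) = (Nat.gcd d d' : ℝ) * w := by exact_mod_cast hw
        rw [h3, abs_mul, abs_of_pos hgr0] at hxV
        have h4 : |(w : ℝ)| ≤ V / (Nat.gcd d d' : ℝ) := by
          rw [le_div_iff₀ hgr0]
          linarith [mul_comm (Nat.gcd d d' : ℝ) |(w : ℝ)|]
        rw [abs_le] at h4
        simp only [coe_Icc, Set.mem_Icc, h2]
        exact ⟨Int.ceil_le.mpr h4.1, Int.le_floor.mpr h4.2⟩
      · intro x hx y hy hxy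
        obtain ⟨⟨w, hw⟩, -⟩ := key x hx
        obtain ⟨⟨w', hw'⟩, -⟩ := key y hy
        simp only [hw, hw', Int.mul_ediv_cancel_left _ hgz] at hxy
        rw [hw, hw', hxy]
    have h2 := relcnt_Icc (-(V / (Nat.gcd d d' : ℝ))) (V / (Nat.gcd d d' : ℝ)) (by
      have : 0 ≤ V / (Nat.gcd d d' : ℝ) := by positivity
      linarith)
    have h3 : ((T.image Prod.fst).card : ℝ) ≤
        ((Icc ⌈-(V / (Nat.gcd d d' : ℝ))⌉ ⌊V / (Nat.gcd d d' : ℝ)⌋).card : ℝ) := by
      exact_mod_cast h1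
    linarith
  have hTV : (T.card : ℝ) ≤ 6 * V := by
    have hgr0 : (0 : ℝ) < (Nat.gcd d d' : ℝ) := by linarith
    have h1 : 1 ≤ V / (Nat.gcd d d' : ℝ) := by
      rw [le_div_iff₀ hgr0, one_mul]
      exact hgV
    have h2 : ((T.image Prod.fst).card : ℝ) ≤ 3 * (V / (Nat.gcd d d' : ℝ)) := by linarith
    calc (T.card : ℝ) ≤ ((Nat.gcd d d' : ℝ) + 1) * (T.image Prod.fst).card := hstep2
      _ ≤ (2 * (Nat.gcd d d' : ℝ)) * (3 * (V / (Nat.gcd d d' : ℝ))) :=
          mul_le_mul (by linarith) h2 (by positivity) (by positivity)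
      _ = 6 * V := by
          field_simp
          ring
  have hr : 3 ≤ (G : ℝ) / d * (y3 δ X / X) := by
    have h3 : (3 * X : ℝ) ≤ G := by exact_mod_cast hG
    have h4 : (G : ℝ) / d * (y3 δ X / X) = (G : ℝ) / X * (y3 δ X / d) := by
      field_simp
    have h5 : 3 ≤ (G : ℝ) / X := by
      rw [le_div_iff₀ hX']
      exact h3
    have h6 : 1 ≤ y3 δ X / d := by
      rw [le_div_iff₀ hdr, one_mul]
      exact hdH
    rw [h4]
    calc (3 : ℝ) = 3 * 1 := by ring
      _ ≤ (G : ℝ) / X * (y3 δ X / d) := mul_le_mul h5 h6 zero_le_one (by positivity)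
  calc (S.card : ℝ) ≤ (2 * ((G : ℝ) / d * (y3 δ X / X)) + 1) * T.card := hstep1
    _ ≤ (3 * ((G : ℝ) / d * (y3 δ X / X))) * (6 * V) :=
        mul_le_mul (by linarith) hTV (by positivity) (by positivity)
    _ = 36 * (y3 δ X / X) ^ 2 * G := by
        rw [hVdef]
        field_simp
        ring
    _ ≤ 100 * (y3 δ X / X) ^ 2 * G := by
        have h7 : 0 ≤ (y3 δ X / X) ^ 2 * G := by positivity
        nlinarith

theorem cc2 (δ : ℝ) (hδ : 0 < δ) (X G : ℕ) [NeZero G] (hX : 1 ≤ X) (hG : 3 * X ≤ G)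
    (d d' : ℕ) (hne : d ≠ d') :
    ((((univ : Finset (ZMod G)).filter
      (fun j => d ∈ Apd δ X (al G j) ∧ d' ∈ Apd δ X (al G j))).card : ℕ) : ℝ) ≤
      100 * (y3 δ X / X) ^ 2 * G := by
  rcases lt_or_gt_of_ne hne with h | h
  · have h1 := cc2_aux δ X G hX hG d' d h
    have h2 : ((univ : Finset (ZMod G)).filter
        (fun j => d ∈ Apd δ X (al G j) ∧ d' ∈ Apd δ X (al G j))) =
        ((univ : Finset (ZMod G)).filter
        (fun j => d' ∈ Apd δ X (al G j) ∧ d ∈ Apd δ X (al G j))) := by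
      apply filter_congr
      intro j _
      exact and_comm
    rw [h2]
    exact h1
  · exact cc2_aux δ X G hX hG d d' h

end Pool.MP_dd84fd_nt.IX
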