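import Pool.Agent.Lib.MP_dd84fd_nt.IX.KsPar
import Pool.Agent.Lib.MP_dd84fd_nt.IX.KsCc2
import Pool.Agent.Lib.MP_dd84fd_nt.HX.KsApd2
import Pool.Agent.Lib.MP_dd84fd_nt.E2.MinorP

/-!
# IX-KsBad (1.2 h): few bad pairs

`J_p = Jdt G (dl th e) X 1 p.1 p.2`. `bad_uniq`: for fixed `d` and `j` the `t` is unique (`2^t ≤ hd < 2^(t+1)`); so two different pairs with a common `j` have `d ≠ d'`.
* `bad_sum`: for a finite set `S` of pairs: `Σ_{p ∈ S} 1[j ∈ J_p] ≤ 1 + Σ_{p ∈ S} Σ_{p' ∈ S, p' ≠ p} 1[j ∈ J_p ∩ J_p']` (if `c` is the left side, the right side is `1 + c(c-1) ≥ c`). Multiply by `‖V_j‖²` and sum: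
`Σ_S mass(J_p) ≤ nm2 V + Σ_{p ≠ p'} (1/G) Σ_{J_p ∩ J_p'} ‖V_j‖²`. If `j ∈ J_p ∩ J_p'` then `d ≠ d'` are both in `Apd`, so (`HX.apd_ht`) `ht ≥ X/(4 y3)`, `‖V_j‖² ≤ X^((3+th)/2)` (`VBI`), and (`cc2`) the number of such `j` is
`≤ 100 (y3/X)² G`, `(y3/X)² = X^(-2th+6e)`: each term `≤ 100 X^(-2th+6e) X^((3+th)/2) = 100 X^((3-3th)/2+6e) ≤ 100 X^(9/10+6e)`.
* `bad_card`: if `#BadI > X^(2e)`, take `S ⊆ BadI` with `#S = ⌈X^(2e)⌉ ≤ 2X^(2e)` (`Finset.exists_subset_card_eq`): `X^(2e) X^(1-e) ≤ #S X^(1-e) ≤ X L^CV + 400 X^(9/10+10e)`; but `X^(1+e)` is larger than the right side for `X ≥ X0`.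
* `bad_coi`: `#PBI ≤ #BadI` (`card_image_le`); the set is covered by the sets of `cc2` for the pairs `d ≠ d'` in `PBI`: `(1/G) # ≤ X^(4e) 100 X^(-2th+6e) ≤ X^(-2th+11e)`.
-/

set_option autoImplicit false

namespace Pool.MP_dd84fd_nt.IX

open Finset Pool.MP_67663b_nt.Odd Pool.MP_dd84fd_nt.En Pool.MP_dd84fd_nt.E2 Pool.MP_dd84fd_nt.LS
open Pool.MP_dd84fd_nt.L2G (nrm)
open Pool.MP_dd84fd_nt.GX Pool.MP_dd84fd_nt.HX

private theorem t_uniq (x : ℝ) (t t' : ℕ) (h1 : (2 : ℝ) ^ t ≤ x) (h2 : x < 2 ^ (t + 1))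
    (h3 : (2 : ℝ) ^ t' ≤ x) (h4 : x < 2 ^ (t' + 1)) : t = t' := by
  rcases lt_trichotomy t t' with h | h | h
  · exfalso
    have h5 : (2 : ℝ) ^ (t + 1) ≤ 2 ^ t' := pow_le_pow_right₀ (by norm_num) (by omega)
    linarith
  · exact h
  · exfalso
    have h5 : (2 : ℝ) ^ (t' + 1) ≤ 2 ^ t := pow_le_pow_right₀ (by norm_num) (by omega)
    linarith

theorem bad_uniq (G : ℕ) [NeZero G] (th e : ℝ) (X : ℕ) (V : ZMod G → ℂ) (j : ZMod G)
    (hj : ¬ Coi G (dl th e) X (PBI G th e X V) j) (ω : ZMod G → ℂ) (p p' : ℕ × ℕ)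
    (hp : p ∈ BadI G th e X V) (hp' : p' ∈ BadI G th e X V)
    (h1 : j ∈ Jdt G (dl th e) X ω p.1 p.2) (h2 : j ∈ Jdt G (dl th e) X ω p'.1 p'.2) : p = p' := by
  unfold Jdt at h1 h2
  rw [mem_filter] at h1 h2
  obtain ⟨_, _, a1, a2, a3⟩ := h1
  obtain ⟨_, _, b1, b2, b3⟩ := h2
  have hd : p.1 = p'.1 := by
    by_contra hne
    exact hj ⟨p.1, mem_image_of_mem _ hp, p'.1, mem_image_of_mem _ hp', hne, a1, b1⟩
  rw [← hd] at b2 b3
  exact Prod.ext hd (t_uniq _ _ _ a2 a3 b2 b3)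

private theorem y3X (th e : ℝ) (X : ℕ) (hX : 1 ≤ X) :
    (y3 (dl th e) X / X) ^ 2 = (X : ℝ) ^ (-(2 * th) + 6 * e) := by
  have hXp : (0 : ℝ) < (X : ℝ) := by exact_mod_cast (by omega : 0 < X)
  rw [y3_dl]
  nth_rewrite 2 [← Real.rpow_one (X : ℝ)]
  rw [← Real.rpow_sub hXp, ← Real.rpow_natCast, ← Real.rpow_mul hXp.le]
  congr 1
  push_cast
  ring

open Classical in
private theorem pair_le (CV : ℕ) (th e : ℝ) (hA : Adm th e) (X : ℕ) (hX : 1 ≤ X) (G : ℕ) [NeZero G]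
    (hG : 3 * X ≤ G) (V : ZMod G → ℂ) (hV : VBI G th e X CV V) (p p' : ℕ × ℕ) (hne : p ≠ p') :
    (1 / (G : ℝ)) * ∑ j : ZMod G, (if j ∈ Jdt G (dl th e) X (fun _ => 1) p.1 p.2 then (1 : ℝ) else 0) *
      (if j ∈ Jdt G (dl th e) X (fun _ => 1) p'.1 p'.2 then (1 : ℝ) else 0) * ‖V j‖ ^ 2 ≤
      100 * (X : ℝ) ^ ((3 - 3 * th) / 2 + 6 * e) := by
  have hXp : (0 : ℝ) < (X : ℝ) := by exact_mod_cast (by omega : 0 < X)
  have hGp : (0 : ℝ) < (G : ℝ) := by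
    have : 0 < G := Nat.pos_of_ne_zero (NeZero.ne G)
    exact_mod_cast this
  obtain ⟨hd0, hd1, he0, he1, ht1, ht2, _⟩ := par_i th e hA
  by_cases hd : p.1 = p'.1
  · have hz : ∀ j ∈ (univ : Finset (ZMod G)),
        (if j ∈ Jdt G (dl th e) X (fun _ => 1) p.1 p.2 then (1 : ℝ) else 0) *
        (if j ∈ Jdt G (dl th e) X (fun _ => 1) p'.1 p'.2 then (1 : ℝ) else 0) * ‖V j‖ ^ 2 = 0 := by
      intro j _
      by_cases h1 : j ∈ Jdt G (dl th e) X (fun _ => 1) p.1 p.2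
      · by_cases h2 : j ∈ Jdt G (dl th e) X (fun _ => 1) p'.1 p'.2
        · exfalso
          apply hne
          unfold Jdt at h1 h2
          rw [mem_filter] at h1 h2
          obtain ⟨_, _, a1, a2, a3⟩ := h1
          obtain ⟨_, _, b1, b2, b3⟩ := h2
          rw [← hd] at b2 b3
          exact Prod.ext hd (t_uniq _ _ _ a2 a3 b2 b3)
        · rw [if_neg h2]
          ring
      · rw [if_neg h1]
        ring
    rw [sum_eq_zero hz, mul_zero]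
    positivity
  · have hcc := cc2 (dl th e) hd0 X G hX hG p.1 p'.1 hd
    set T := (univ : Finset (ZMod G)).filter
      (fun j => p.1 ∈ Apd (dl th e) X (al G j) ∧ p'.1 ∈ Apd (dl th e) X (al G j)) with hT
    have hb : ∀ j ∈ (univ : Finset (ZMod G)),
        (if j ∈ Jdt G (dl th e) X (fun _ => 1) p.1 p.2 then (1 : ℝ) else 0) *
        (if j ∈ Jdt G (dl th e) X (fun _ => 1) p'.1 p'.2 then (1 : ℝ) else 0) * ‖V j‖ ^ 2 ≤
        if j ∈ T then (X : ℝ) ^ ((3 + th) / 2) else 0 := by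
      intro j _
      by_cases h1 : j ∈ Jdt G (dl th e) X (fun _ => 1) p.1 p.2
      · by_cases h2 : j ∈ Jdt G (dl th e) X (fun _ => 1) p'.1 p'.2
        · rw [if_pos h1, if_pos h2, one_mul, one_mul]
          unfold Jdt at h1 h2
          rw [mem_filter] at h1 h2
          obtain ⟨_, _, a1, a2, a3⟩ := h1
          obtain ⟨_, _, b1, b2, b3⟩ := h2
          have hjT : j ∈ T := by
            rw [hT, mem_filter]
            exact ⟨mem_univ _, a1, b1⟩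
          rw [if_pos hjT]
          have h3 := hV.2 j (apd_ht (dl th e) hd0.le X hX (al G j) p.1 p'.1 a1 b1 hd)
          calc ‖V j‖ ^ 2 ≤ ((X : ℝ) ^ ((3 + th) / 4)) ^ 2 := pow_le_pow_left₀ (norm_nonneg _) h3 2
            _ = (X : ℝ) ^ ((3 + th) / 2) := by
                rw [← Real.rpow_natCast, ← Real.rpow_mul hXp.le]
                congr 1
                push_cast
                ring
        · rw [if_neg h2, mul_zero, zero_mul]
          split_ifs <;> positivity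
      · rw [if_neg h1, zero_mul, zero_mul]
        split_ifs <;> positivity
    have hs := sum_le_sum hb
    rw [← sum_filter, sum_const, nsmul_eq_mul] at hs
    have hTT : (univ : Finset (ZMod G)).filter (fun j => j ∈ T) = T := by
      ext j
      simp
    rw [hTT] at hs
    rw [y3X th e X hX] at hcc
    calc (1 / (G : ℝ)) * _ ≤ (1 / (G : ℝ)) * ((T.card : ℝ) * (X : ℝ) ^ ((3 + th) / 2)) := by
          gcongr
      _ ≤ (1 / (G : ℝ)) * ((100 * (X : ℝ) ^ (-(2 * th) + 6 * e) * G) * (X : ℝ) ^ ((3 + th) / 2)) := by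
          gcongr
      _ = 100 * ((X : ℝ) ^ (-(2 * th) + 6 * e) * (X : ℝ) ^ ((3 + th) / 2)) := by
          field_simp
      _ = 100 * (X : ℝ) ^ ((3 - 3 * th) / 2 + 6 * e) := by
          rw [← Real.rpow_add hXp]
          congr 2
          ring

theorem bad_sum (CV : ℕ) (th e : ℝ) (hA : Adm th e) (X : ℕ) (hX : 1 ≤ X) (G : ℕ) [NeZero G]
    (hG : 3 * X ≤ G) (V : ZMod G → ℂ) (hV : VBI G th e X CV V) (S : Finset (ℕ × ℕ)) :
    ∑ p ∈ S, (1 / (G : ℝ)) * ∑ j ∈ Jdt G (dl th e) X (fun _ => 1) p.1 p.2, ‖V j‖ ^ 2 ≤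
      X * (Real.log X) ^ CV + (S.card : ℝ) ^ 2 * (100 * (X : ℝ) ^ ((3 - 3 * th) / 2 + 6 * e)) := by
  classical
  have hGp : (0 : ℝ) < (G : ℝ) := by
    have : 0 < G := Nat.pos_of_ne_zero (NeZero.ne G)
    exact_mod_cast this
  set f : ℕ × ℕ → ZMod G → ℝ := fun p j =>
    if j ∈ Jdt G (dl th e) X (fun _ => 1) p.1 p.2 then (1 : ℝ) else 0 with hf
  have hff : ∀ p j, f p j * f p j = f p j := by
    intro p j
    simp only [hf]
    split_ifs <;> norm_num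
  have h1 : ∀ p : ℕ × ℕ, ∑ j ∈ Jdt G (dl th e) X (fun _ => 1) p.1 p.2, ‖V j‖ ^ 2 =
      ∑ j : ZMod G, f p j * ‖V j‖ ^ 2 := by
    intro p
    simp only [hf, ite_mul, one_mul, zero_mul]
    rw [← sum_filter]
    apply sum_congr _ (fun _ _ => rfl)
    ext j
    simp
  have h2 : ∑ p ∈ S, (1 / (G : ℝ)) * ∑ j ∈ Jdt G (dl th e) X (fun _ => 1) p.1 p.2, ‖V j‖ ^ 2 =
      (1 / (G : ℝ)) * ∑ j : ZMod G, (∑ p ∈ S, f p j) * ‖V j‖ ^ 2 := by
    rw [← mul_sum]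
    congr 1
    rw [sum_congr rfl (fun p _ => h1 p), sum_comm]
    apply sum_congr rfl
    intro j _
    rw [sum_mul]
  rw [h2]
  have h3 : ∀ j : ZMod G, ∑ p ∈ S, f p j ≤ 1 + ∑ p ∈ S, ∑ p' ∈ S.erase p, f p j * f p' j := by
    intro j
    have h4 : (∑ p ∈ S, f p j) * (∑ p ∈ S, f p j) =
        ∑ p ∈ S, f p j + ∑ p ∈ S, ∑ p' ∈ S.erase p, f p j * f p' j := by
      rw [sum_mul_sum, ← sum_add_distrib]
      apply sum_congr rfl
      intro p hp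
      rw [← add_sum_erase S _ hp, hff]
    nlinarith [sq_nonneg (∑ p ∈ S, f p j - 1)]
  have h5 : (1 / (G : ℝ)) * ∑ j : ZMod G, (∑ p ∈ S, f p j) * ‖V j‖ ^ 2 ≤
      (1 / (G : ℝ)) * ∑ j : ZMod G, (1 + ∑ p ∈ S, ∑ p' ∈ S.erase p, f p j * f p' j) * ‖V j‖ ^ 2 := by
    gcongr with j _
    exact h3 j
  refine h5.trans ?_
  have h6 : (1 / (G : ℝ)) * ∑ j : ZMod G, (1 + ∑ p ∈ S, ∑ p' ∈ S.erase p, f p j * f p' j) *
      ‖V j‖ ^ 2 = nm2 G V + ∑ p ∈ S, ∑ p' ∈ S.erase p,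
        ((1 / (G : ℝ)) * ∑ j : ZMod G, f p j * f p' j * ‖V j‖ ^ 2) := by
    unfold nm2
    simp only [add_mul, one_mul, sum_add_distrib, mul_add]
    congr 1
    simp only [sum_mul]
    rw [sum_comm, mul_sum]
    apply sum_congr rfl
    intro p _
    rw [sum_comm, mul_sum]
  rw [h6]
  have h7 : ∑ p ∈ S, ∑ p' ∈ S.erase p,
        ((1 / (G : ℝ)) * ∑ j : ZMod G, f p j * f p' j * ‖V j‖ ^ 2) ≤
      (S.card : ℝ) ^ 2 * (100 * (X : ℝ) ^ ((3 - 3 * th) / 2 + 6 * e)) := by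
    calc ∑ p ∈ S, ∑ p' ∈ S.erase p, ((1 / (G : ℝ)) * ∑ j : ZMod G, f p j * f p' j * ‖V j‖ ^ 2)
        ≤ ∑ p ∈ S, ∑ p' ∈ S.erase p, 100 * (X : ℝ) ^ ((3 - 3 * th) / 2 + 6 * e) := by
          apply sum_le_sum
          intro p _
          apply sum_le_sum
          intro p' hp'
          exact pair_le CV th e hA X hX G hG V hV p p' (ne_of_mem_erase hp').symm
      _ ≤ ∑ p ∈ S, (S.card : ℝ) * (100 * (X : ℝ) ^ ((3 - 3 * th) / 2 + 6 * e)) := by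
          apply sum_le_sum
          intro p _
          rw [sum_const, nsmul_eq_mul]
          have : ((S.erase p).card : ℝ) ≤ S.card := by exact_mod_cast card_erase_le
          gcongr
      _ = (S.card : ℝ) ^ 2 * (100 * (X : ℝ) ^ ((3 - 3 * th) / 2 + 6 * e)) := by
          rw [sum_const, nsmul_eq_mul]
          ring
  have h8 := hV.1.1
  linarith

theorem bad_card (CV : ℕ) (th e : ℝ) (hA : Adm th e) : ∃ X0 : ℕ, ∀ X : ℕ, X0 ≤ X →
    ∀ (G : ℕ) [NeZero G], 3 * X ≤ G → ∀ V : ZMod G → ℂ, VBI G th e X CV V →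
    ((BadI G th e X V).card : ℝ) ≤ (X : ℝ) ^ (2 * e) := by
  obtain ⟨hd0, hd1, he0, he1, ht1, ht2, _⟩ := par_i th e hA
  obtain ⟨X1, hX1⟩ := MP_log_pow 3 CV he0
  obtain ⟨X2, hX2⟩ := MP_log_pow 1200 0 (show (0 : ℝ) < 1 / 20 by norm_num)
  refine ⟨max (max X1 X2) 1, fun X hX G _ hG V hV => ?_⟩
  simp only [max_le_iff] at hX
  obtain ⟨⟨g1, g2⟩, g3⟩ := hX
  have e1 := hX1 X g1
  have e2 := hX2 X g2
  rw [pow_zero, mul_one] at e2
  have hXr : (1 : ℝ) ≤ (X : ℝ) := by exact_mod_cast g3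
  have hXp : (0 : ℝ) < (X : ℝ) := by linarith
  by_contra hcon
  rw [not_le] at hcon
  have hc1 : ⌈(X : ℝ) ^ (2 * e)⌉₊ ≤ (BadI G th e X V).card := Nat.ceil_le.2 hcon.le
  obtain ⟨S, hS, hSc⟩ := exists_subset_card_eq hc1
  have hSl : (X : ℝ) ^ (2 * e) ≤ S.card := by
    rw [hSc]
    exact Nat.le_ceil _
  have h2e : (1 : ℝ) ≤ (X : ℝ) ^ (2 * e) := Real.one_le_rpow hXr (by linarith)
  have hSu : (S.card : ℝ) ≤ 2 * (X : ℝ) ^ (2 * e) := by
    rw [hSc]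
    have := Nat.ceil_lt_add_one (by positivity : 0 ≤ (X : ℝ) ^ (2 * e))
    linarith
  have hlow : (S.card : ℝ) * (X : ℝ) ^ (1 - e) ≤
      ∑ p ∈ S, (1 / (G : ℝ)) * ∑ j ∈ Jdt G (dl th e) X (fun _ => 1) p.1 p.2, ‖V j‖ ^ 2 := by
    rw [← nsmul_eq_mul, ← sum_const]
    apply sum_le_sum
    intro p hp
    have h3 := hS hp
    unfold BadI at h3
    rw [mem_filter] at h3
    exact h3.2
  have hup := bad_sum CV th e hA X g3 G hG V hV S
  have h4 : (X : ℝ) ^ (1 + e) ≤ (S.card : ℝ) * (X : ℝ) ^ (1 - e) := by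
    calc (X : ℝ) ^ (1 + e) = (X : ℝ) ^ (2 * e) * (X : ℝ) ^ (1 - e) := by
          rw [← Real.rpow_add hXp]
          congr 1
          ring
      _ ≤ _ := by gcongr
  have h5 : 3 * ((X : ℝ) * (Real.log X) ^ CV) ≤ (X : ℝ) ^ (1 + e) := by
    calc 3 * ((X : ℝ) * (Real.log X) ^ CV) = (X : ℝ) * (3 * (Real.log X) ^ CV) := by ring
      _ ≤ (X : ℝ) * (X : ℝ) ^ e := by gcongr
      _ = (X : ℝ) ^ (1 + e) := by
          rw [Real.rpow_add hXp, Real.rpow_one]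
  have h6 : (S.card : ℝ) ^ 2 * (100 * (X : ℝ) ^ ((3 - 3 * th) / 2 + 6 * e)) ≤
      400 * (X : ℝ) ^ (91 / 100 : ℝ) := by
    calc (S.card : ℝ) ^ 2 * (100 * (X : ℝ) ^ ((3 - 3 * th) / 2 + 6 * e))
        ≤ (2 * (X : ℝ) ^ (2 * e)) ^ 2 * (100 * (X : ℝ) ^ ((3 - 3 * th) / 2 + 6 * e)) := by gcongr
      _ = 400 * ((X : ℝ) ^ (2 * e) * (X : ℝ) ^ (2 * e) *
            (X : ℝ) ^ ((3 - 3 * th) / 2 + 6 * e)) := by ring
      _ = 400 * (X : ℝ) ^ (2 * e + 2 * e + ((3 - 3 * th) / 2 + 6 * e)) := by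
          rw [← Real.rpow_add hXp, ← Real.rpow_add hXp]
      _ ≤ 400 * (X : ℝ) ^ (91 / 100 : ℝ) := by
          have := Real.rpow_le_rpow_of_exponent_le hXr
            (show 2 * e + 2 * e + ((3 - 3 * th) / 2 + 6 * e) ≤ 91 / 100 by linarith)
          linarith
  have h7 : 1200 * (X : ℝ) ^ (91 / 100 : ℝ) ≤ (X : ℝ) ^ (1 + e) := by
    calc 1200 * (X : ℝ) ^ (91 / 100 : ℝ) ≤ (X : ℝ) ^ (1 / 20 : ℝ) * (X : ℝ) ^ (91 / 100 : ℝ) := by
          gcongr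
      _ = (X : ℝ) ^ (1 / 20 + 91 / 100 : ℝ) := by rw [← Real.rpow_add hXp]
      _ ≤ (X : ℝ) ^ (1 + e) := Real.rpow_le_rpow_of_exponent_le hXr (by linarith)
  have h8 : 0 < (X : ℝ) ^ (1 + e) := by positivity
  linarith

open Classical in
theorem bad_coi (CV : ℕ) (th e : ℝ) (hA : Adm th e) : ∃ X0 : ℕ, ∀ X : ℕ, X0 ≤ X →
    ∀ (G : ℕ) [NeZero G], 3 * X ≤ G → ∀ V : ZMod G → ℂ, VBI G th e X CV V →
    (1 / (G : ℝ)) * ((((univ : Finset (ZMod G)).filter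
      (fun j => Coi G (dl th e) X (PBI G th e X V) j)).card : ℕ) : ℝ) ≤
      (X : ℝ) ^ (-(2 * th) + 11 * e) := by
  obtain ⟨hd0, hd1, he0, he1, ht1, ht2, _⟩ := par_i th e hA
  obtain ⟨X1, hX1⟩ := bad_card CV th e hA
  obtain ⟨X2, hX2⟩ := MP_log_pow 100 0 he0
  refine ⟨max (max X1 X2) 1, fun X hX G _ hG V hV => ?_⟩
  simp only [max_le_iff] at hX
  obtain ⟨⟨g1, g2⟩, g3⟩ := hX
  have e1 := hX1 X g1 G hG V hV
  have e2 := hX2 X g2
  rw [pow_zero, mul_one] at e2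
  have hXr : (1 : ℝ) ≤ (X : ℝ) := by exact_mod_cast g3
  have hXp : (0 : ℝ) < (X : ℝ) := by linarith
  have hGp : (0 : ℝ) < (G : ℝ) := by
    have : 0 < G := Nat.pos_of_ne_zero (NeZero.ne G)
    exact_mod_cast this
  have hP : ((PBI G th e X V).card : ℝ) ≤ (X : ℝ) ^ (2 * e) := by
    have h1 : (PBI G th e X V).card ≤ (BadI G th e X V).card := card_image_le
    have h2 : ((PBI G th e X V).card : ℝ) ≤ (BadI G th e X V).card := by exact_mod_cast h1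
    linarith
  set P := PBI G th e X V with hPdef
  set I := (P ×ˢ P).filter (fun q : ℕ × ℕ => q.1 ≠ q.2) with hI
  have hsub : (univ : Finset (ZMod G)).filter (fun j => Coi G (dl th e) X P j) ⊆
      I.biUnion (fun q => (univ : Finset (ZMod G)).filter
        (fun j => q.1 ∈ Apd (dl th e) X (al G j) ∧ q.2 ∈ Apd (dl th e) X (al G j))) := by
    intro j hj
    rw [mem_filter] at hj
    obtain ⟨_, d, hd, d', hd', hne, h1, h2⟩ := hj
    rw [mem_biUnion]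
    refine ⟨(d, d'), ?_, ?_⟩
    · rw [hI, mem_filter, mem_product]
      exact ⟨⟨hd, hd'⟩, hne⟩
    · rw [mem_filter]
      exact ⟨mem_univ _, h1, h2⟩
  have hcard : ((((univ : Finset (ZMod G)).filter
      (fun j => Coi G (dl th e) X P j)).card : ℕ) : ℝ) ≤
      (P.card : ℝ) ^ 2 * (100 * (X : ℝ) ^ (-(2 * th) + 6 * e) * G) := by
    have h1 := (card_le_card hsub).trans card_biUnion_le
    have h2 : ((((univ : Finset (ZMod G)).filter
      (fun j => Coi G (dl th e) X P j)).card : ℕ) : ℝ) ≤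
      ∑ q ∈ I, ((((univ : Finset (ZMod G)).filter
        (fun j => q.1 ∈ Apd (dl th e) X (al G j) ∧ q.2 ∈ Apd (dl th e) X (al G j))).card : ℕ) : ℝ) := by
      exact_mod_cast h1
    refine h2.trans ?_
    calc ∑ q ∈ I, ((((univ : Finset (ZMod G)).filter
        (fun j => q.1 ∈ Apd (dl th e) X (al G j) ∧ q.2 ∈ Apd (dl th e) X (al G j))).card : ℕ) : ℝ)
        ≤ ∑ q ∈ I, 100 * (X : ℝ) ^ (-(2 * th) + 6 * e) * G := by
          apply sum_le_sum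
          intro q hq
          rw [hI, mem_filter] at hq
          have h3 := cc2 (dl th e) hd0 X G g3 hG q.1 q.2 hq.2
          rw [y3X th e X g3] at h3
          exact h3
      _ = (I.card : ℝ) * (100 * (X : ℝ) ^ (-(2 * th) + 6 * e) * G) := by
          rw [sum_const, nsmul_eq_mul]
      _ ≤ (P.card : ℝ) ^ 2 * (100 * (X : ℝ) ^ (-(2 * th) + 6 * e) * G) := by
          have h4 : I.card ≤ P.card ^ 2 := by
            refine (card_filter_le _ _).trans ?_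
            rw [card_product, sq]
          have h5 : (I.card : ℝ) ≤ (P.card : ℝ) ^ 2 := by exact_mod_cast h4
          gcongr
  calc (1 / (G : ℝ)) * ((((univ : Finset (ZMod G)).filter
      (fun j => Coi G (dl th e) X P j)).card : ℕ) : ℝ)
      ≤ (1 / (G : ℝ)) * ((P.card : ℝ) ^ 2 * (100 * (X : ℝ) ^ (-(2 * th) + 6 * e) * G)) := by
        gcongr
    _ = (P.card : ℝ) ^ 2 * (100 * (X : ℝ) ^ (-(2 * th) + 6 * e)) := by
        field_simp
    _ ≤ ((X : ℝ) ^ (2 * e)) ^ 2 * ((X : ℝ) ^ e * (X : ℝ) ^ (-(2 * th) + 6 * e)) := by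
        gcongr
    _ = (X : ℝ) ^ (2 * e) * (X : ℝ) ^ (2 * e) * ((X : ℝ) ^ e * (X : ℝ) ^ (-(2 * th) + 6 * e)) := by
        ring
    _ = (X : ℝ) ^ (-(2 * th) + 11 * e) := by
        rw [← Real.rpow_add hXp, ← Real.rpow_add hXp, ← Real.rpow_add hXp]
        congr 1
        ring

end Pool.MP_dd84fd_nt.IX
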