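import Pool.Agent.Lib.MP_dd84fd_nt.IX.KsDefs
import Pool.Agent.Lib.MP_dd84fd_nt.HX.KsMass
import Pool.Agent.Lib.MP_dd84fd_nt.GX.KMass

/-!
# IX-KsPc (0.9 h): the mass of `K` bounded by pair counts

* `kmass2`: copy the proof of `GX.kmass` (`GX/KMass.lean`; copy also its private lemmas). The only change: `Σ_{p ∈ E × range T} #{k ∈ E × range T : p.2 q - p.1 = k.2 q - k.1 in ZMod G} ≤ T pc E q T`
(equality of natural numbers `p.2 q + k.1 = k.2 q + p.1` as there, so `k.1 - p.1 = (k.2 - p.2) q`, `|k.2 - p.2| < T`; for a given pair `(k.1, p.1)` counted by `pc` and given `p.2` there is at most one `k.2`).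
So `(1/G) Σ ≤ (4/T²) T pc = (4/T) pc`.
* `jmass2`: copy the proof of `HX.jmass` (`HX/KsMass.lean`) with `kmass2`.
* `pc_sum`: a pair with `n ≠ n'` counted by `pc E d T` has `d ∣ n - n'`, `n - n' ≠ 0`, `|n - n'| ≤ X`: at most `τ0` values of `d`; the diagonal pairs are at most `|E|` for each `d`.
-/

set_option autoImplicit false

namespace Pool.MP_dd84fd_nt.IX

open Finset Pool.MP_67663b_nt.Odd Pool.MP_dd84fd_nt.En Pool.MP_dd84fd_nt.E2 Pool.MP_dd84fd_nt.LS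
open Pool.MP_dd84fd_nt.L2G (nrm)
open Pool.MP_dd84fd_nt.GX Pool.MP_dd84fd_nt.HX

private theorem gen_parsk (G : ℕ) [NeZero G] {ι : Type*} (I : Finset ι) (c : ι → ℂ)
    (a : ι → ZMod G) :
    ((∑ j : ZMod G, ‖∑ i ∈ I, c i * ZMod.stdAddChar (a i * j)‖ ^ 2 : ℝ) : ℂ) =
      (G : ℂ) * ∑ i ∈ I, ∑ k ∈ I, if a i = a k then c i * (starRingEnd ℂ) (c k) else 0 := by
  have h1 : ∀ j : ZMod G, ((‖∑ i ∈ I, c i * (ZMod.stdAddChar (a i * j) : ℂ)‖ ^ 2 : ℝ) : ℂ) =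
      ∑ i ∈ I, ∑ k ∈ I, c i * (starRingEnd ℂ) (c k) * ZMod.stdAddChar ((a i - a k) * j) := by
    intro j
    rw [← Complex.normSq_eq_norm_sq, ← Complex.mul_conj, map_sum, Finset.sum_mul_sum]
    refine Finset.sum_congr rfl fun i _ => Finset.sum_congr rfl fun k _ => ?_
    have h2 : (a i - a k) * j = a i * j + -(a k * j) := by ring
    rw [RingHom.map_mul, conj_chi, h2, AddChar.map_add_eq_mul]
    ring
  rw [Complex.ofReal_sum, Finset.sum_congr rfl fun j _ => h1 j, Finset.sum_comm, Finset.mul_sum]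
  refine Finset.sum_congr rfl fun i _ => ?_
  rw [Finset.sum_comm, Finset.mul_sum]
  refine Finset.sum_congr rfl fun k _ => ?_
  rw [← Finset.mul_sum, sum_chi]
  by_cases h : a i = a k
  · rw [if_pos h, if_pos (sub_eq_zero.2 h)]
    ring
  · rw [if_neg h, if_neg (fun h' => h (sub_eq_zero.1 h'))]
    ring

private theorem gen_le (G : ℕ) [NeZero G] {ι : Type*} (I : Finset ι) (c : ι → ℂ)
    (a : ι → ZMod G) (hc : ∀ i, ‖c i‖ ≤ 1) :
    ∑ j : ZMod G, ‖∑ i ∈ I, c i * (ZMod.stdAddChar (a i * j) : ℂ)‖ ^ 2 ≤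
      (G : ℝ) * ∑ i ∈ I, ((I.filter fun k => a i = a k).card : ℝ) := by
  have h1 := gen_parsk G I c a
  have h0 : 0 ≤ ∑ j : ZMod G, ‖∑ i ∈ I, c i * (ZMod.stdAddChar (a i * j) : ℂ)‖ ^ 2 :=
    Finset.sum_nonneg fun _ _ => by positivity
  have h2 : ∑ j : ZMod G, ‖∑ i ∈ I, c i * (ZMod.stdAddChar (a i * j) : ℂ)‖ ^ 2 =
      ‖(G : ℂ) * ∑ i ∈ I, ∑ k ∈ I, if a i = a k then c i * (starRingEnd ℂ) (c k) else 0‖ := by
    rw [← h1, Complex.norm_real, Real.norm_of_nonneg h0]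
  rw [h2, norm_mul, Complex.norm_natCast]
  refine mul_le_mul_of_nonneg_left ?_ (by positivity)
  refine (norm_sum_le _ _).trans (Finset.sum_le_sum fun i _ => ?_)
  refine (norm_sum_le _ _).trans ?_
  rw [Finset.card_filter]
  push_cast
  refine Finset.sum_le_sum fun k _ => ?_
  split_ifs
  · rw [norm_mul, RCLike.norm_conj]
    exact mul_le_one₀ (hc i) (norm_nonneg _) (hc k)
  · simp

private theorem pc_count (X G : ℕ) [NeZero G] (hG : 3 * X ≤ G) (E : Finset ℕ) (hE : E ⊆ Icc 1 X)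
    (q T : ℕ) (hq : 1 ≤ q) (hqT : q * T ≤ X) :
    ∑ p ∈ E ×ˢ range T, ((((E ×ˢ range T).filter fun k : ℕ × ℕ =>
      ((p.2 : ZMod G) * (q : ZMod G) - (p.1 : ZMod G)) =
        ((k.2 : ZMod G) * (q : ZMod G) - (k.1 : ZMod G))).card : ℕ) : ℝ) ≤
      (T : ℝ) * (pc E q T : ℝ) := by
  classical
  have hcard : T * pc E q T = ((range T) ×ˢ ((E ×ˢ E).filter (fun p : ℕ × ℕ =>
      ∃ i : ℤ, |i| < T ∧ (p.1 : ℤ) - p.2 = i * q))).card := by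
    rw [card_product, card_range]
    unfold pc
    congr
  have hsum : ∑ p ∈ E ×ˢ range T, (((E ×ˢ range T).filter fun k : ℕ × ℕ =>
      ((p.2 : ZMod G) * (q : ZMod G) - (p.1 : ZMod G)) =
        ((k.2 : ZMod G) * (q : ZMod G) - (k.1 : ZMod G))).card) =
      (((E ×ˢ range T) ×ˢ (E ×ˢ range T)).filter (fun x : (ℕ × ℕ) × (ℕ × ℕ) =>
        ((x.1.2 : ZMod G) * (q : ZMod G) - (x.1.1 : ZMod G)) =
        ((x.2.2 : ZMod G) * (q : ZMod G) - (x.2.1 : ZMod G)))).card := by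
    rw [Finset.card_filter, Finset.sum_product (E ×ˢ range T) (E ×ˢ range T)]
    refine Finset.sum_congr rfl fun p _ => ?_
    rw [Finset.card_filter]
  suffices hN : ∑ p ∈ E ×ˢ range T, (((E ×ˢ range T).filter fun k : ℕ × ℕ =>
      ((p.2 : ZMod G) * (q : ZMod G) - (p.1 : ZMod G)) =
        ((k.2 : ZMod G) * (q : ZMod G) - (k.1 : ZMod G))).card) ≤ T * pc E q T by
    exact_mod_cast hN
  rw [hsum, hcard]
  have key : ∀ x ∈ ((E ×ˢ range T) ×ˢ (E ×ˢ range T)).filter (fun x : (ℕ × ℕ) × (ℕ × ℕ) =>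
        ((x.1.2 : ZMod G) * (q : ZMod G) - (x.1.1 : ZMod G)) =
        ((x.2.2 : ZMod G) * (q : ZMod G) - (x.2.1 : ZMod G))),
      (x.1.1 ∈ E ∧ x.1.2 < T) ∧ (x.2.1 ∈ E ∧ x.2.2 < T) ∧
        x.1.2 * q + x.2.1 = x.2.2 * q + x.1.1 := by
    intro x hx
    rw [Finset.mem_filter, Finset.mem_product, Finset.mem_product, Finset.mem_product,
      Finset.mem_range, Finset.mem_range] at hx
    obtain ⟨⟨⟨hp1, hp2⟩, hk1, hk2⟩, hk3⟩ := hx
    refine ⟨⟨hp1, hp2⟩, ⟨hk1, hk2⟩, ?_⟩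
    have hTq : (T - 1) * q + q ≤ X := by
      have h1 : (T - 1) * q + q = T * q := by
        obtain ⟨T', rfl⟩ : ∃ T', T = T' + 1 := ⟨T - 1, by omega⟩
        simp
        ring
      rw [h1, mul_comm]
      exact hqT
    have hp1' := Finset.mem_Icc.1 (hE hp1)
    have hp2' : x.1.2 * q ≤ (T - 1) * q := Nat.mul_le_mul_right q (by omega)
    have hk1' := Finset.mem_Icc.1 (hE hk1)
    have hk2' : x.2.2 * q ≤ (T - 1) * q := Nat.mul_le_mul_right q (by omega)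
    have h1 : ((x.1.2 * q + x.2.1 : ℕ) : ZMod G) = ((x.2.2 * q + x.1.1 : ℕ) : ZMod G) := by
      push_cast
      rw [sub_eq_sub_iff_add_eq_add] at hk3
      exact hk3
    exact cast_eq_small (by omega) (by omega) h1
  refine Finset.card_le_card_of_injOn
    (fun x : (ℕ × ℕ) × (ℕ × ℕ) => (x.1.2, (x.2.1, x.1.1))) ?_ ?_
  · intro x hx
    obtain ⟨⟨h1, h2⟩, ⟨h3, h4⟩, h5⟩ := key x hx
    rw [Finset.mem_coe, Finset.mem_product, Finset.mem_filter, Finset.mem_product,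
      Finset.mem_range]
    refine ⟨h2, ⟨h3, h1⟩, (x.2.2 : ℤ) - x.1.2, ?_, ?_⟩
    · rw [abs_lt]
      constructor
      · change -(T : ℤ) < (x.2.2 : ℤ) - x.1.2
        omega
      · change (x.2.2 : ℤ) - x.1.2 < (T : ℤ)
        omega
    · have h6 : ((x.1.2 * q + x.2.1 : ℕ) : ℤ) = ((x.2.2 * q + x.1.1 : ℕ) : ℤ) := by rw [h5]
      push_cast at h6
      change (x.2.1 : ℤ) - x.1.1 = ((x.2.2 : ℤ) - x.1.2) * q
      linarith
  · intro x hx y hy hxy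
    obtain ⟨-, -, h5⟩ := key x hx
    obtain ⟨-, -, h5'⟩ := key y hy
    have hxy' : (x.1.2, (x.2.1, x.1.1)) = (y.1.2, (y.2.1, y.1.1)) := hxy
    have e1 : x.1.2 = y.1.2 := (Prod.mk.inj hxy').1
    have e23 := Prod.mk.inj (Prod.mk.inj hxy').2
    have e2 : x.2.1 = y.2.1 := e23.1
    have e3 : x.1.1 = y.1.1 := e23.2
    have e4 : x.2.2 * q = y.2.2 * q := by
      rw [e1, e2, e3] at h5
      omega
    have e5 : x.2.2 = y.2.2 := Nat.eq_of_mul_eq_mul_right (by omega) e4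
    exact Prod.ext (Prod.ext e3 e1) (Prod.ext e2 e5)

theorem kmass2 (X G : ℕ) [NeZero G] (hG : 3 * X ≤ G) (E : Finset ℕ) (hE : E ⊆ Icc 1 X)
    (ph : ℕ → ℂ) (hp : ∀ n, ‖ph n‖ ≤ 1) (q T : ℕ) (hq : 1 ≤ q) (hT : 1 ≤ T) (hqT : q * T ≤ X) :
    (1 / (G : ℝ)) * ∑ j ∈ (univ : Finset (ZMod G)).filter
      (fun j => nrm ((q : ℝ) * al G j) ≤ 1 / (8 * (T : ℝ))), ‖KE G E ph j‖ ^ 2 ≤
      4 / (T : ℝ) * (pc E q T : ℝ) := by
  have hG0 : (0 : ℝ) < G := by exact_mod_cast Nat.pos_of_ne_zero (NeZero.ne G)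
  have hT0 : (0 : ℝ) < T := by exact_mod_cast hT
  -- the product
  have hprod : ∀ j : ZMod G, ‖KE G E ph j‖ ^ 2 *
      ‖∑ i ∈ range T, (ZMod.stdAddChar ((i : ZMod G) * (q : ZMod G) * j) : ℂ)‖ ^ 2 =
      ‖∑ k ∈ E ×ˢ range T, ph k.1 *
        (ZMod.stdAddChar (((k.2 : ZMod G) * (q : ZMod G) - (k.1 : ZMod G)) * j) : ℂ)‖ ^ 2 := by
    intro j
    rw [← mul_pow, ← norm_mul]
    congr 2
    unfold KE
    rw [Finset.sum_mul_sum, Finset.sum_product]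
    refine Finset.sum_congr rfl fun n _ => Finset.sum_congr rfl fun i _ => ?_
    have h1 : ((i : ZMod G) * (q : ZMod G) - (n : ZMod G)) * j =
        -((n : ZMod G) * j) + (i : ZMod G) * (q : ZMod G) * j := by ring
    rw [h1, AddChar.map_add_eq_mul]
    ring
  have hall : ∑ j : ZMod G, ‖KE G E ph j‖ ^ 2 *
      ‖∑ i ∈ range T, (ZMod.stdAddChar ((i : ZMod G) * (q : ZMod G) * j) : ℂ)‖ ^ 2 ≤
      (G : ℝ) * (T * (pc E q T : ℝ)) := by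
    rw [Finset.sum_congr rfl fun j _ => hprod j]
    refine (gen_le G (E ×ˢ range T) (fun k => ph k.1)
      (fun k => (k.2 : ZMod G) * (q : ZMod G) - (k.1 : ZMod G)) (fun k => hp k.1)).trans ?_
    exact mul_le_mul_of_nonneg_left (pc_count X G hG E hE q T hq hqT) hG0.le
  -- the lower bound
  have hlow : ∀ j ∈ (univ : Finset (ZMod G)).filter
      (fun j => nrm ((q : ℝ) * al G j) ≤ 1 / (8 * (T : ℝ))),
      ‖KE G E ph j‖ ^ 2 * ((T : ℝ) ^ 2 / 4) ≤ ‖KE G E ph j‖ ^ 2 *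
      ‖∑ i ∈ range T, (ZMod.stdAddChar ((i : ZMod G) * (q : ZMod G) * j) : ℂ)‖ ^ 2 := by
    intro j hj
    refine mul_le_mul_of_nonneg_left ?_ (by positivity)
    have h1 := fejer T hT _ (Finset.mem_filter.1 hj).2
    have h2 : ∀ i : ℕ, (ZMod.stdAddChar ((i : ZMod G) * (q : ZMod G) * j) : ℂ) =
        ee ((i : ℝ) * ((q : ℝ) * al G j)) := by
      intro i
      have h3 := chi_ee G (i * q) j
      push_cast at h3
      rw [h3]
      congr 1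
      unfold al
      ring
    rw [Finset.sum_congr rfl fun i _ => h2 i]
    exact h1
  have hsum : (∑ j ∈ (univ : Finset (ZMod G)).filter
      (fun j => nrm ((q : ℝ) * al G j) ≤ 1 / (8 * (T : ℝ))), ‖KE G E ph j‖ ^ 2) *
      ((T : ℝ) ^ 2 / 4) ≤ (G : ℝ) * (T * (pc E q T : ℝ)) := by
    rw [Finset.sum_mul]
    refine (Finset.sum_le_sum hlow).trans (le_trans ?_ hall)
    exact Finset.sum_le_sum_of_subset_of_nonneg (Finset.filter_subset _ _)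
      fun _ _ _ => by positivity
  set SS1 := ∑ j ∈ (univ : Finset (ZMod G)).filter
      (fun j => nrm ((q : ℝ) * al G j) ≤ 1 / (8 * (T : ℝ))), ‖KE G E ph j‖ ^ 2 with hS
  have h3 : (1 / (G : ℝ)) * SS1 = (SS1 * ((T : ℝ) ^ 2 / 4)) * (4 / (G * (T : ℝ) ^ 2)) := by
    field_simp
  rw [h3]
  refine (mul_le_mul_of_nonneg_right hsum (by positivity)).trans (le_of_eq ?_)
  field_simp

theorem jmass2 (X G : ℕ) [NeZero G] (hX : 1 ≤ X) (hG : 3 * X ≤ G) (δ : ℝ)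
    (h16 : 16 * y3 δ X ≤ X) (ω : ZMod G → ℂ) (E : Finset ℕ) (hE : E ⊆ Icc 1 X) (ph : ℕ → ℂ)
    (hp : ∀ n, ‖ph n‖ ≤ 1) (d t : ℕ) :
    (1 / (G : ℝ)) * ∑ j ∈ Jdt G δ X ω d t, ‖KE G E ph j‖ ^ 2 ≤
      128 * (2 ^ t / X) * (pc E d (X / (16 * 2 ^ t)) : ℝ) := by
  classical
  have hX0 : (0 : ℝ) < X := by exact_mod_cast hX
  have hG0 : (0 : ℝ) < G := by exact_mod_cast Nat.pos_of_ne_zero (NeZero.ne G)
  rcases (Jdt G δ X ω d t).eq_empty_or_nonempty with h0 | ⟨j0, hj0⟩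
  · rw [h0, sum_empty, mul_zero]
    positivity
  obtain ⟨-, -, k1, k2, k3⟩ : j0 ∈ univ ∧ ω j0 ≠ 0 ∧ d ∈ Apd δ X (al G j0) ∧
      (2 : ℝ) ^ t ≤ hd X (al G j0) d ∧ hd X (al G j0) d < 2 ^ (t + 1) := by
    simpa [Jdt] using hj0
  obtain ⟨b1, b2, b3, b4⟩ := hd_bd δ X _ d k1
  obtain ⟨hd1, -, -, -⟩ := (apd_mem δ X _ d).1 k1
  have hpow : (2 : ℝ) ^ (t + 1) = 2 * 2 ^ t := by ring
  have e1 : 16 * 2 ^ t ≤ X := by
    have h1 : (16 : ℝ) * 2 ^ t ≤ X := by linarith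
    exact_mod_cast h1
  have e2 : d < 2 ^ (t + 1) := by
    have h1 : (d : ℝ) < 2 ^ (t + 1) := lt_of_le_of_lt b3 k3
    exact_mod_cast h1
  obtain ⟨T, hT⟩ : ∃ T : ℕ, T = X / (16 * 2 ^ t) := ⟨_, rfl⟩
  have e3 : T * (16 * 2 ^ t) ≤ X := by
    rw [hT]
    exact Nat.div_mul_le_self _ _
  have e4 : X < (T + 1) * (16 * 2 ^ t) := by
    rw [hT, mul_comm]
    exact Nat.lt_mul_div_succ X (by positivity)
  have e5 : 1 ≤ T := by
    rw [hT]
    exact Nat.div_pos e1 (by positivity)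
  have e6 : d * T ≤ X := by
    have h1 : d * T ≤ 2 ^ (t + 1) * T := Nat.mul_le_mul_right _ e2.le
    have h2 : 2 ^ (t + 1) * T ≤ T * (16 * 2 ^ t) := by
      rw [pow_succ]
      nlinarith [Nat.zero_le (T * 2 ^ t)]
    exact h1.trans (h2.trans e3)
  rw [← hT]
  have hk := kmass2 X G hG E hE ph hp d T hd1 e5 e6
  have hT0 : (0 : ℝ) < T := by exact_mod_cast e5
  have e3R : (T : ℝ) * (16 * 2 ^ t) ≤ X := by exact_mod_cast e3
  have e4R : (X : ℝ) < (T + 1) * (16 * 2 ^ t) := by exact_mod_cast e4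
  have hT1 : (1 : ℝ) ≤ T := by exact_mod_cast e5
  have hsub : Jdt G δ X ω d t ⊆ (univ : Finset (ZMod G)).filter
      (fun j => nrm ((d : ℝ) * al G j) ≤ 1 / (8 * (T : ℝ))) := by
    intro j hj
    obtain ⟨-, -, l1, l2, l3⟩ : j ∈ univ ∧ ω j ≠ 0 ∧ d ∈ Apd δ X (al G j) ∧
        (2 : ℝ) ^ t ≤ hd X (al G j) d ∧ hd X (al G j) d < 2 ^ (t + 1) := by
      simpa [Jdt] using hj
    obtain ⟨-, -, -, c4⟩ := hd_bd δ X _ d l1
    refine mem_filter.2 ⟨mem_univ _, ?_⟩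
    rw [le_div_iff₀ (by positivity)]
    have h1 : (X : ℝ) * (nrm ((d : ℝ) * al G j) * (8 * T)) ≤ X * 1 := by
      have h2 : (X : ℝ) * nrm ((d : ℝ) * al G j) * (8 * T) ≤ (2 * 2 ^ t) * (8 * T) :=
        mul_le_mul_of_nonneg_right (by linarith) (by positivity)
      have h3 : (2 * 2 ^ t) * (8 * (T : ℝ)) = T * (16 * 2 ^ t) := by ring
      linarith
    exact le_of_mul_le_mul_left h1 hX0
  have h1 : (1 / (G : ℝ)) * ∑ j ∈ Jdt G δ X ω d t, ‖KE G E ph j‖ ^ 2 ≤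
      (1 / (G : ℝ)) * ∑ j ∈ (univ : Finset (ZMod G)).filter
        (fun j => nrm ((d : ℝ) * al G j) ≤ 1 / (8 * (T : ℝ))), ‖KE G E ph j‖ ^ 2 :=
    mul_le_mul_of_nonneg_left (sum_le_sum_of_subset_of_nonneg hsub fun _ _ _ => by positivity)
      (by positivity)
  refine h1.trans (hk.trans ?_)
  refine mul_le_mul_of_nonneg_right ?_ (Nat.cast_nonneg _)
  rw [← mul_div_assoc, div_le_div_iff₀ hT0 hX0]
  have h2 : (0 : ℝ) < 2 ^ t := by positivity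
  have h3 : ((T : ℝ) + 1) * (16 * 2 ^ t) ≤ (2 * T) * (16 * 2 ^ t) :=
    mul_le_mul_of_nonneg_right (by linarith) (by positivity)
  have h4 : (2 * (T : ℝ)) * (16 * 2 ^ t) = 32 * 2 ^ t * T := by ring
  linarith

private theorem pc_off (E : Finset ℕ) (d T : ℕ) :
    pc E d T ≤ E.card +
      ((E ×ˢ E).filter (fun p : ℕ × ℕ => p.1 ≠ p.2 ∧ (d : ℤ) ∣ (p.1 : ℤ) - p.2)).card := by
  classical
  unfold pc
  rw [← Finset.diag_card E]
  refine le_trans (Finset.card_le_card ?_) (Finset.card_union_le _ _)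
  intro p hp
  rw [Finset.mem_filter, Finset.mem_product] at hp
  obtain ⟨⟨h1, h2⟩, i, -, h3⟩ := hp
  rw [Finset.mem_union]
  by_cases h : p.1 = p.2
  · left
    rw [Finset.mem_diag]
    exact ⟨h1, h⟩
  · right
    rw [Finset.mem_filter, Finset.mem_product]
    exact ⟨⟨h1, h2⟩, h, ⟨i, by rw [h3, mul_comm]⟩⟩

private theorem off_sum (X : ℕ) (E : Finset ℕ) (hE : E ⊆ Icc 1 X) (τ0 : ℝ)
    (hτ : ∀ n ∈ Icc 1 X, (n.divisors.card : ℝ) ≤ τ0) (h0 : 0 ≤ τ0) (Y : ℕ) :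
    ∑ d ∈ Icc 1 Y, ((((E ×ˢ E).filter
      (fun p : ℕ × ℕ => p.1 ≠ p.2 ∧ (d : ℤ) ∣ (p.1 : ℤ) - p.2)).card : ℕ) : ℝ) ≤
      τ0 * (E.card : ℝ) ^ 2 := by
  have h1 : ∑ d ∈ Icc 1 Y, ((((E ×ˢ E).filter
      (fun p : ℕ × ℕ => p.1 ≠ p.2 ∧ (d : ℤ) ∣ (p.1 : ℤ) - p.2)).card : ℕ) : ℝ) =
      ∑ p ∈ E ×ˢ E, ((((Icc 1 Y).filter
        (fun d : ℕ => p.1 ≠ p.2 ∧ (d : ℤ) ∣ (p.1 : ℤ) - p.2)).card : ℕ) : ℝ) := by
    rw [← Nat.cast_sum, ← Nat.cast_sum]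
    congr 1
    rw [Finset.sum_congr rfl fun d _ => Finset.card_filter _ _, Finset.sum_comm]
    refine Finset.sum_congr rfl fun p _ => ?_
    rw [Finset.card_filter]
  rw [h1]
  have h2 : ∀ p ∈ E ×ˢ E, ((((Icc 1 Y).filter
        (fun d : ℕ => p.1 ≠ p.2 ∧ (d : ℤ) ∣ (p.1 : ℤ) - p.2)).card : ℕ) : ℝ) ≤ τ0 := by
    intro p hp
    rw [Finset.mem_product] at hp
    have hp1 := Finset.mem_Icc.1 (hE hp.1)
    have hp2 := Finset.mem_Icc.1 (hE hp.2)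
    by_cases h : p.1 = p.2
    · rw [Finset.filter_false_of_mem (fun d _ hd => hd.1 h), Finset.card_empty, Nat.cast_zero]
      exact h0
    · have hn0 : ((p.1 : ℤ) - p.2).natAbs ≠ 0 := by omega
      have hn : ((p.1 : ℤ) - p.2).natAbs ∈ Icc 1 X := by
        rw [Finset.mem_Icc]
        omega
      refine le_trans ?_ (hτ _ hn)
      rw [Nat.cast_le]
      refine Finset.card_le_card fun d hd => ?_
      rw [Finset.mem_filter] at hd
      rw [Nat.mem_divisors]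
      exact ⟨Int.natCast_dvd.1 hd.2.2, hn0⟩
  refine (Finset.sum_le_card_nsmul _ _ _ h2).trans (le_of_eq ?_)
  rw [Finset.card_product, nsmul_eq_mul]
  push_cast
  ring

theorem pc_sum (X : ℕ) (E : Finset ℕ) (hE : E ⊆ Icc 1 X) (τ0 : ℝ)
    (hτ : ∀ n ∈ Icc 1 X, (n.divisors.card : ℝ) ≤ τ0) (h0 : 0 ≤ τ0) (Y T : ℕ) :
    ∑ d ∈ Icc 1 Y, ((pc E d T : ℝ) - E.card) ≤ τ0 * (E.card : ℝ) ^ 2 := by
  refine le_trans (Finset.sum_le_sum fun d _ => ?_) (off_sum X E hE τ0 hτ h0 Y)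
  have h1 := pc_off E d T
  have h2 : (pc E d T : ℝ) ≤ (E.card : ℝ) + ((((E ×ˢ E).filter
      (fun p : ℕ × ℕ => p.1 ≠ p.2 ∧ (d : ℤ) ∣ (p.1 : ℤ) - p.2)).card : ℕ) : ℝ) := by
    exact_mod_cast h1
  linarith

/-- the same for nonnegative parts -/
theorem pc_sum' (X : ℕ) (E : Finset ℕ) (hE : E ⊆ Icc 1 X) (τ0 : ℝ)
    (hτ : ∀ n ∈ Icc 1 X, (n.divisors.card : ℝ) ≤ τ0) (h0 : 0 ≤ τ0) (Y T : ℕ) :
    ∑ d ∈ Icc 1 Y, max 0 ((pc E d T : ℝ) - E.card) ≤ τ0 * (E.card : ℝ) ^ 2 := by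
  refine le_trans (Finset.sum_le_sum fun d _ => ?_) (off_sum X E hE τ0 hτ h0 Y)
  have h1 := pc_off E d T
  have h2 : (pc E d T : ℝ) ≤ (E.card : ℝ) + ((((E ×ˢ E).filter
      (fun p : ℕ × ℕ => p.1 ≠ p.2 ∧ (d : ℤ) ∣ (p.1 : ℤ) - p.2)).card : ℕ) : ℝ) := by
    exact_mod_cast h1
  exact max_le (Nat.cast_nonneg _) (by linarith)

end Pool.MP_dd84fd_nt.IX
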