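import Pool.Agent.Lib.MP_dd84fd_nt.IX.KsRS
import Pool.Agent.Lib.MP_dd84fd_nt.IX.KsBad
import Pool.Agent.Lib.MP_dd84fd_nt.IX.KsPc
import Pool.Agent.Lib.MP_dd84fd_nt.GX.DivPow

/-!
# IX-KsRB (1.1 h): bound for the resonance sum

`δ = dl th e`, `L = log X`, `T = Nat.log 2 X + 1`. `res_sum2` with `m d t = X^(-η) |E|²` if `(d,t) ∈ BadI`, `m d t = pc E d (X / (16·2^t))` otherwise. `hm`: not bad: `jmass2`. Bad: `HX.jmass` with `m := X^(-η)|E|`: if
`Jdt G δ X ω d t` is empty the left side is `0`; otherwise take `j` in it: `NoAPH` gives `#inAP ≤ X^(-η)|E|` for every `c`.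
Let `M(d,t) = (1/G) Σ_{Jdt ω d t} ‖V‖²`, `τ(d) ≤ τ0 = C X^(η/32)` for `d ≤ X` (`GX.div_pow`).
* bad part: `Σ_{(d,t) ∈ BadI} M(d,t) ≤ nm2 V ≤ X L^CV`: every `j` lies in at most one `Jdt ω d t`, `(d,t) ∈ BadI` (`bad_uniq`; for `ω_j = 0` in none). So bad part `≤ τ0 X^(-η) |E|² X L^CV`.
* not bad: `M(d,t) ≤ (1/G) Σ_{Jdt 1 d t} ‖V‖² < X^(1-e)` (`Jdt ω ⊆ Jdt 1`; definition of `BadI`, `d ∈ Icc 1 X`, `t < T`). `pc ≤ |E| + max 0 (pc - |E|)`.
 `Σ_{d,t} τ0 max 0 (pc E d T_t - |E|) M(d,t) ≤ τ0 X^(1-e) Σ_{t<T} τ0 |E|²` (`pc_sum'`, `T_t = X/(16·2^t)` does not depend on `d`) `= T τ0² X^(1-e) |E|²`.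
 `Σ_{d,t} τ0 |E| M(d,t) ≤ τ0 |E| (1/G) Σ_j ‖V_j‖² #Apd(al_j) ≤ τ0 |E| X L^CV 128 X^(12 δ)` (for each `j` and `d` at most one `t`; `HX.apd_card`), `12 δ = 2 - 4th + 12e`, and `X^(2-4th+12e) ≤ X^(th-e) X^(-2e) ≤ X^(-2e) |E|`
 because `2 - 4th + 12e ≤ th - 3e` iff `5 th ≥ 2 + 15 e` (`Adm`: `100 e ≤ th - 2/5`).
Total: `128 (1+L) T (1/X) [τ0 X^(1-η) L^CV + T τ0² X^(1-e) + 128 τ0 X^(1-2e) L^CV] |E|² ≤ X^(-3η/4)|E|²` for large `X` (`η ≤ e`, `τ0² = C² X^(η/16)`).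
-/

set_option autoImplicit false

namespace Pool.MP_dd84fd_nt.IX

open Finset Pool.MP_67663b_nt.Odd Pool.MP_dd84fd_nt.En Pool.MP_dd84fd_nt.E2 Pool.MP_dd84fd_nt.LS
open Pool.MP_dd84fd_nt.L2G (nrm)
open Pool.MP_dd84fd_nt.GX Pool.MP_dd84fd_nt.HX

/-- the mass of `V` on `J(d, t)` -/
private noncomputable def Mdt (G : ℕ) [NeZero G] (δ : ℝ) (X : ℕ) (ω V : ZMod G → ℂ) (d t : ℕ) : ℝ :=
  (1 / (G : ℝ)) * ∑ j ∈ Jdt G δ X ω d t, ‖V j‖ ^ 2

private theorem mdt_nn (G : ℕ) [NeZero G] (δ : ℝ) (X : ℕ) (ω V : ZMod G → ℂ) (d t : ℕ) :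
    0 ≤ Mdt G δ X ω V d t := by
  unfold Mdt
  positivity

private theorem t_uniq' (x : ℝ) (t t' : ℕ) (h1 : (2 : ℝ) ^ t ≤ x) (h2 : x < 2 ^ (t + 1))
    (h3 : (2 : ℝ) ^ t' ≤ x) (h4 : x < 2 ^ (t' + 1)) : t = t' := by
  rcases lt_trichotomy t t' with h | h | h
  · exfalso
    have h5 : (2 : ℝ) ^ (t + 1) ≤ 2 ^ t' := pow_le_pow_right₀ (by norm_num) (by omega)
    linarith
  · exact h
  · exfalso
    have h5 : (2 : ℝ) ^ (t' + 1) ≤ 2 ^ t := pow_le_pow_right₀ (by norm_num) (by omega)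
    linarith

/-- double counting of the masses over a set of pairs -/
private theorem mass_count (G : ℕ) [NeZero G] (δ : ℝ) (X : ℕ) (ω V : ZMod G → ℂ)
    (S : Finset (ℕ × ℕ)) (B : ℝ)
    (hB : ∀ j : ZMod G, ((S.filter (fun p => j ∈ Jdt G δ X ω p.1 p.2)).card : ℝ) ≤ B) :
    ∑ p ∈ S, Mdt G δ X ω V p.1 p.2 ≤ B * nm2 G V := by
  classical
  have h1 : ∑ p ∈ S, Mdt G δ X ω V p.1 p.2 =
      (1 / (G : ℝ)) * ∑ j : ZMod G, ((S.filter (fun p => j ∈ Jdt G δ X ω p.1 p.2)).card : ℝ) *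
        ‖V j‖ ^ 2 := by
    unfold Mdt
    rw [← mul_sum]
    congr 1
    have h2 : ∀ p ∈ S, ∑ j ∈ Jdt G δ X ω p.1 p.2, ‖V j‖ ^ 2 =
        ∑ j : ZMod G, if j ∈ Jdt G δ X ω p.1 p.2 then ‖V j‖ ^ 2 else 0 := by
      intro p _
      rw [← Finset.sum_filter]
      congr 1
      ext j
      simp
    rw [Finset.sum_congr rfl h2, Finset.sum_comm]
    refine Finset.sum_congr rfl fun j _ => ?_
    rw [← Finset.sum_filter, Finset.sum_const, nsmul_eq_mul]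
  rw [h1]
  unfold nm2
  calc (1 / (G : ℝ)) * ∑ j : ZMod G,
        ((S.filter (fun p => j ∈ Jdt G δ X ω p.1 p.2)).card : ℝ) * ‖V j‖ ^ 2
      ≤ (1 / (G : ℝ)) * ∑ j : ZMod G, B * ‖V j‖ ^ 2 := by
        refine mul_le_mul_of_nonneg_left (sum_le_sum fun j _ => ?_) (by positivity)
        exact mul_le_mul_of_nonneg_right (hB j) (by positivity)
    _ = B * ((1 / (G : ℝ)) * ∑ j : ZMod G, ‖V j‖ ^ 2) := by
        rw [← mul_sum]
        ring

/-- the bad pairs -/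
private theorem bad_part (G : ℕ) [NeZero G] (th e : ℝ) (X : ℕ) (V ω : ZMod G → ℂ)
    (hCoi : ∀ j, ω j ≠ 0 → ¬ Coi G (dl th e) X (PBI G th e X V) j) :
    ∑ p ∈ BadI G th e X V, Mdt G (dl th e) X ω V p.1 p.2 ≤ nm2 G V := by
  classical
  have h := mass_count G (dl th e) X ω V (BadI G th e X V) 1 (fun j => by
    have : ((BadI G th e X V).filter (fun p => j ∈ Jdt G (dl th e) X ω p.1 p.2)).card ≤ 1 := by
      rw [Finset.card_le_one]
      intro p hp p' hp'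
      rw [Finset.mem_filter] at hp hp'
      have hω : ω j ≠ 0 := by
        have := hp.2
        unfold Jdt at this
        rw [mem_filter] at this
        exact this.2.1
      exact bad_uniq G th e X V j (hCoi j hω) ω p p' hp.1 hp'.1 hp.2 hp'.2
    exact_mod_cast this)
  linarith

/-- all pairs -/
private theorem all_part (G : ℕ) [NeZero G] (δ : ℝ) (hδ : 0 ≤ δ) (X : ℕ) (hX : 1 ≤ X)
    (V ω : ZMod G → ℂ) (S : Finset (ℕ × ℕ)) :
    ∑ p ∈ S, Mdt G δ X ω V p.1 p.2 ≤ 128 * (X : ℝ) ^ (12 * δ) * nm2 G V := by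
  classical
  refine mass_count G δ X ω V S _ (fun j => ?_)
  refine le_trans ?_ (apd_card δ hδ X hX (al G j))
  have : (S.filter (fun p => j ∈ Jdt G δ X ω p.1 p.2)).card ≤ (Apd δ X (al G j)).card := by
    refine Finset.card_le_card_of_injOn Prod.fst ?_ ?_
    · intro p hp
      rw [Finset.mem_coe, Finset.mem_filter] at hp
      have h1 := hp.2
      unfold Jdt at h1
      rw [mem_filter] at h1
      exact h1.2.2.1
    · intro p hp p' hp' hpp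
      rw [Finset.mem_coe, Finset.mem_filter] at hp hp'
      have h1 := hp.2
      have h2 := hp'.2
      unfold Jdt at h1 h2
      rw [mem_filter] at h1 h2
      obtain ⟨_, _, a1, a2, a3⟩ := h1
      obtain ⟨_, _, b1, b2, b3⟩ := h2
      rw [← hpp] at b2 b3
      exact Prod.ext hpp (t_uniq' _ _ _ a2 a3 b2 b3)
  exact_mod_cast this

/-- not bad: the mass is small -/
private theorem not_bad (G : ℕ) [NeZero G] (th e : ℝ) (X : ℕ) (V ω : ZMod G → ℂ) (d t : ℕ)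
    (hd : d ∈ Icc 1 X) (ht : t ∈ range (Nat.log 2 X + 1)) (h : (d, t) ∉ BadI G th e X V) :
    Mdt G (dl th e) X ω V d t ≤ (X : ℝ) ^ (1 - e) := by
  classical
  have h1 : Mdt G (dl th e) X ω V d t ≤ Mdt G (dl th e) X (fun _ => 1) V d t := by
    unfold Mdt
    refine mul_le_mul_of_nonneg_left (sum_le_sum_of_subset_of_nonneg ?_ fun _ _ _ => by positivity)
      (by positivity)
    intro j hj
    unfold Jdt at hj ⊢
    rw [mem_filter] at hj ⊢
    exact ⟨hj.1, one_ne_zero, hj.2.2⟩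
  refine h1.trans ?_
  by_contra hc
  push Not at hc
  apply h
  unfold BadI
  rw [mem_filter, mem_product]
  exact ⟨⟨hd, ht⟩, hc.le⟩

open Classical in
/-- the sum over all pairs -/
private theorem inner_le (G : ℕ) [NeZero G] (th e : ℝ) (X : ℕ) (hX : 1 ≤ X) (hδ : 0 ≤ dl th e)
    (V ω : ZMod G → ℂ) (E : Finset ℕ) (hE : E ⊆ Icc 1 X)
    (hCoi : ∀ j, ω j ≠ 0 → ¬ Coi G (dl th e) X (PBI G th e X V) j) (τ0 η : ℝ) (h0 : 0 ≤ τ0)
    (hτ : ∀ n ∈ Icc 1 X, (n.divisors.card : ℝ) ≤ τ0) (m : ℕ → ℕ → ℝ)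
    (hm : m = fun d t => if (d, t) ∈ BadI G th e X V then (X : ℝ) ^ (-η) * (E.card : ℝ) ^ 2
      else (pc E d (X / (16 * 2 ^ t)) : ℝ)) :
    ∑ d ∈ Icc 1 X, ∑ t ∈ range (Nat.log 2 X + 1), (d.divisors.card : ℝ) * m d t *
      Mdt G (dl th e) X ω V d t ≤
      τ0 * ((X : ℝ) ^ (-η) * (E.card : ℝ) ^ 2 * nm2 G V +
        (X : ℝ) ^ (1 - e) * (((Nat.log 2 X : ℕ) + 1 : ℝ) * (τ0 * (E.card : ℝ) ^ 2)) +
        E.card * (128 * (X : ℝ) ^ (12 * dl th e) * nm2 G V)) := by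
  have hX0 : (0 : ℝ) < X := by exact_mod_cast hX
  have hM := mdt_nn G (dl th e) X ω V
  have hE0 : (0 : ℝ) ≤ E.card := Nat.cast_nonneg _
  have hm0 : ∀ d t, 0 ≤ m d t := by
    intro d t
    rw [hm]
    dsimp only
    split_ifs <;> positivity
  -- pointwise
  have hpt : ∀ d ∈ Icc 1 X, ∀ t ∈ range (Nat.log 2 X + 1),
      (d.divisors.card : ℝ) * m d t * Mdt G (dl th e) X ω V d t ≤
      τ0 * ((if (d, t) ∈ BadI G th e X V then
        (X : ℝ) ^ (-η) * (E.card : ℝ) ^ 2 * Mdt G (dl th e) X ω V d t else 0) +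
        (X : ℝ) ^ (1 - e) * max 0 ((pc E d (X / (16 * 2 ^ t)) : ℝ) - E.card) +
        E.card * Mdt G (dl th e) X ω V d t) := by
    intro d hd t ht
    have h1 : (d.divisors.card : ℝ) * m d t * Mdt G (dl th e) X ω V d t ≤
        τ0 * (m d t * Mdt G (dl th e) X ω V d t) := by
      rw [mul_assoc]
      exact mul_le_mul_of_nonneg_right (hτ d hd) (mul_nonneg (hm0 d t) (hM d t))
    refine h1.trans (mul_le_mul_of_nonneg_left ?_ h0)
    have h2 : (0 : ℝ) ≤ (X : ℝ) ^ (1 - e) * max 0 ((pc E d (X / (16 * 2 ^ t)) : ℝ) - E.card) :=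
      mul_nonneg (by positivity) (le_max_left _ _)
    have h3 : (0 : ℝ) ≤ E.card * Mdt G (dl th e) X ω V d t := mul_nonneg hE0 (hM d t)
    rw [hm]
    dsimp only
    by_cases hb : (d, t) ∈ BadI G th e X V
    · rw [if_pos hb, if_pos hb]
      linarith
    · rw [if_neg hb, if_neg hb, zero_add]
      have h4 := not_bad G th e X V ω d t hd ht hb
      have h5 : (pc E d (X / (16 * 2 ^ t)) : ℝ) ≤
          E.card + max 0 ((pc E d (X / (16 * 2 ^ t)) : ℝ) - E.card) := by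
        have := le_max_right 0 ((pc E d (X / (16 * 2 ^ t)) : ℝ) - E.card)
        linarith
      calc (pc E d (X / (16 * 2 ^ t)) : ℝ) * Mdt G (dl th e) X ω V d t
          ≤ (E.card + max 0 ((pc E d (X / (16 * 2 ^ t)) : ℝ) - E.card)) *
            Mdt G (dl th e) X ω V d t := mul_le_mul_of_nonneg_right h5 (hM d t)
        _ = max 0 ((pc E d (X / (16 * 2 ^ t)) : ℝ) - E.card) * Mdt G (dl th e) X ω V d t +
            E.card * Mdt G (dl th e) X ω V d t := by ring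
        _ ≤ max 0 ((pc E d (X / (16 * 2 ^ t)) : ℝ) - E.card) * (X : ℝ) ^ (1 - e) +
            E.card * Mdt G (dl th e) X ω V d t := by
              have := mul_le_mul_of_nonneg_left h4
                (le_max_left 0 ((pc E d (X / (16 * 2 ^ t)) : ℝ) - E.card))
              linarith
        _ = _ := by ring
  refine (sum_le_sum fun d hd => sum_le_sum fun t ht => hpt d hd t ht).trans ?_
  have e1 : ∑ d ∈ Icc 1 X, ∑ t ∈ range (Nat.log 2 X + 1),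
      τ0 * ((if (d, t) ∈ BadI G th e X V then
        (X : ℝ) ^ (-η) * (E.card : ℝ) ^ 2 * Mdt G (dl th e) X ω V d t else 0) +
        (X : ℝ) ^ (1 - e) * max 0 ((pc E d (X / (16 * 2 ^ t)) : ℝ) - E.card) +
        E.card * Mdt G (dl th e) X ω V d t) =
      τ0 * ((∑ d ∈ Icc 1 X, ∑ t ∈ range (Nat.log 2 X + 1), (if (d, t) ∈ BadI G th e X V then
        (X : ℝ) ^ (-η) * (E.card : ℝ) ^ 2 * Mdt G (dl th e) X ω V d t else 0)) +
        (∑ d ∈ Icc 1 X, ∑ t ∈ range (Nat.log 2 X + 1),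
          (X : ℝ) ^ (1 - e) * max 0 ((pc E d (X / (16 * 2 ^ t)) : ℝ) - E.card)) +
        ∑ d ∈ Icc 1 X, ∑ t ∈ range (Nat.log 2 X + 1), E.card * Mdt G (dl th e) X ω V d t) := by
    rw [← sum_add_distrib, ← sum_add_distrib, mul_sum]
    refine sum_congr rfl fun d _ => ?_
    rw [← sum_add_distrib, ← sum_add_distrib, mul_sum]
  rw [e1]
  refine mul_le_mul_of_nonneg_left ?_ h0
  refine add_le_add (add_le_add ?_ ?_) ?_
  · -- bad
    have h1 : ∑ d ∈ Icc 1 X, ∑ t ∈ range (Nat.log 2 X + 1), (if (d, t) ∈ BadI G th e X V then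
        (X : ℝ) ^ (-η) * (E.card : ℝ) ^ 2 * Mdt G (dl th e) X ω V d t else 0) =
        (X : ℝ) ^ (-η) * (E.card : ℝ) ^ 2 *
          ∑ p ∈ BadI G th e X V, Mdt G (dl th e) X ω V p.1 p.2 := by
      rw [← Finset.sum_product' (Icc 1 X) (range (Nat.log 2 X + 1))
        (fun d t => if (d, t) ∈ BadI G th e X V then
        (X : ℝ) ^ (-η) * (E.card : ℝ) ^ 2 * Mdt G (dl th e) X ω V d t else 0),
        ← Finset.sum_filter, mul_sum]
      refine Finset.sum_congr ?_ fun _ _ => rfl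
      ext p
      rw [Finset.mem_filter]
      constructor
      · exact fun h => h.2
      · intro h
        refine ⟨?_, h⟩
        unfold BadI at h
        exact (mem_filter.1 h).1
    rw [h1]
    exact mul_le_mul_of_nonneg_left (bad_part G th e X V ω hCoi) (by positivity)
  · rw [Finset.sum_comm]
    calc ∑ t ∈ range (Nat.log 2 X + 1), ∑ d ∈ Icc 1 X,
          (X : ℝ) ^ (1 - e) * max 0 ((pc E d (X / (16 * 2 ^ t)) : ℝ) - E.card)
        ≤ ∑ t ∈ range (Nat.log 2 X + 1), (X : ℝ) ^ (1 - e) * (τ0 * (E.card : ℝ) ^ 2) := by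
          refine sum_le_sum fun t _ => ?_
          rw [← mul_sum]
          exact mul_le_mul_of_nonneg_left (pc_sum' X E hE τ0 hτ h0 X _) (by positivity)
      _ = _ := by
          rw [sum_const, card_range, nsmul_eq_mul]
          push_cast
          ring
  · have h1 : ∑ d ∈ Icc 1 X, ∑ t ∈ range (Nat.log 2 X + 1),
        (E.card : ℝ) * Mdt G (dl th e) X ω V d t =
        E.card * ∑ p ∈ (Icc 1 X) ×ˢ (range (Nat.log 2 X + 1)),
          Mdt G (dl th e) X ω V p.1 p.2 := by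
      rw [Finset.sum_product, mul_sum]
      refine Finset.sum_congr rfl fun d _ => ?_
      rw [mul_sum]
    rw [h1]
    exact mul_le_mul_of_nonneg_left (all_part G (dl th e) hδ X hX V ω _) hE0

theorem res_bound2 (CV : ℕ) (th e η : ℝ) (hA : Adm th e) (hη : 0 < η) (hη' : η ≤ e) :
    ∃ X0 : ℕ, ∀ X : ℕ, X0 ≤ X → ∀ (G : ℕ) [NeZero G], 3 * X ≤ G →
    ∀ V : ZMod G → ℂ, VBI G th e X CV V → ∀ ω : ZMod G → ℂ, (∀ j, ‖ω j‖ ≤ 1) → ∀ E : Finset ℕ,
    E ⊆ Icc 1 X → (X : ℝ) ^ (th - e) ≤ E.card → ∀ ph : ℕ → ℂ, (∀ n, ‖ph n‖ ≤ 1) →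
    NoAPH G (dl th e) X ω E ((X : ℝ) ^ (-η)) →
    (∀ j, ω j ≠ 0 → ¬ Coi G (dl th e) X (PBI G th e X V) j) →
    (1 / (G : ℝ)) ^ 2 * ∑ j : ZMod G, ∑ j' : ZMod G, ‖xx G V ω E ph j‖ * ‖xx G V ω E ph j'‖ *
      Res (dl th e) X (al G j) (al G j') ≤ (X : ℝ) ^ (-(3 / 4 * η)) * (E.card : ℝ) ^ 2 := by
  classical
  obtain ⟨hδ0, hδ1, he0, he1, ht1, ht2, ht3⟩ := par_i th e hA
  obtain ⟨C, hC, hCd⟩ := div_pow (η / 32) (by positivity)
  obtain ⟨X1, hX1⟩ := MP_log_pow (128 * 6 * 132 * C ^ 2) (CV + 3) (ε := 3 / 16 * η) (by positivity)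
  obtain ⟨X2, hX2⟩ := MP_log_large 1
  obtain ⟨X3, hX33, hX3⟩ := par_X
  refine ⟨max (max X1 X2) X3,
    fun X hX G _ hG V hV ω hω E hE hEc ph hp hNo hCoi => ?_⟩
  have hXX1 : X1 ≤ X := ((le_max_left _ _).trans (le_max_left _ _)).trans hX
  have hXX2 : X2 ≤ X := ((le_max_right _ _).trans (le_max_left _ _)).trans hX
  have hXX3 : X3 ≤ X := (le_max_right _ _).trans hX
  have hXn3 : 3 ≤ X := hX33.trans hXX3
  have hXn1 : 1 ≤ X := by omega
  have hX1r : (1 : ℝ) ≤ X := by exact_mod_cast hXn1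
  have hX0 : (0 : ℝ) < X := by linarith
  obtain ⟨h16, -, -, -⟩ := hX3 X hXX3 th e hA
  have hL := hX2 X hXX2
  have hlog := hX1 X hXX1
  set L := Real.log (X : ℝ) with hLdef
  -- the divisor bound
  obtain ⟨τ0, hτ0⟩ : ∃ τ0 : ℝ, τ0 = C * (X : ℝ) ^ (η / 32) := ⟨_, rfl⟩
  have hP1 : (1 : ℝ) ≤ (X : ℝ) ^ (η / 32) := Real.one_le_rpow hX1r (by positivity)
  have hτ1 : 1 ≤ τ0 := by
    rw [hτ0]
    nlinarith
  have hτ : ∀ n ∈ Icc 1 X, (n.divisors.card : ℝ) ≤ τ0 := by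
    intro n hn
    rw [mem_Icc] at hn
    rw [hτ0]
    refine (hCd n hn.1).trans ?_
    refine mul_le_mul_of_nonneg_left ?_ (by linarith)
    exact Real.rpow_le_rpow (Nat.cast_nonneg n) (by exact_mod_cast hn.2) (by linarith)
  -- the masses
  obtain ⟨m, hm⟩ : ∃ m : ℕ → ℕ → ℝ, m = fun d t => if (d, t) ∈ BadI G th e X V then
      (X : ℝ) ^ (-η) * (E.card : ℝ) ^ 2 else (pc E d (X / (16 * 2 ^ t)) : ℝ) := ⟨_, rfl⟩
  have hm0 : ∀ d t, 0 ≤ m d t := by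
    intro d t
    rw [hm]
    dsimp only
    split_ifs <;> positivity
  have hmm : ∀ d t, (1 / (G : ℝ)) * ∑ j ∈ Jdt G (dl th e) X ω d t, ‖KE G E ph j‖ ^ 2 ≤
      128 * (2 ^ t / X) * m d t := by
    intro d t
    rw [hm]
    dsimp only
    split_ifs with hb
    · rcases (Jdt G (dl th e) X ω d t).eq_empty_or_nonempty with h0 | ⟨j0, hj0⟩
      · rw [h0, sum_empty, mul_zero]
        positivity
      · unfold Jdt at hj0
        rw [mem_filter] at hj0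
        obtain ⟨-, k0, k1, k2, k3⟩ := hj0
        have h1 := jmass X G hXn1 hG (dl th e) h16 ω E hE ph hp d t ((X : ℝ) ^ (-η) * E.card)
          (fun c => hNo j0 k0 d k1 t k2 k3 c)
        refine h1.trans (le_of_eq ?_)
        ring
    · exact jmass2 X G hXn1 hG (dl th e) h16 ω E hE ph hp d t
  have hres := res_sum2 X G hXn3 hG (dl th e) hδ0.le h16 V ω hω E hE ph hp m hm0 hmm
  refine hres.trans ?_
  have hin := inner_le G th e X hXn1 hδ0.le V ω E hE hCoi τ0 η (by linarith) hτ m hm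
  -- the logarithms
  have hlog2 : ((Nat.log 2 X : ℕ) : ℝ) + 1 ≤ 3 * L := by
    have c1 : 2 ^ Nat.log 2 X ≤ X := Nat.pow_log_le_self 2 (by omega)
    have c2 : ((2 : ℝ)) ^ Nat.log 2 X ≤ X := by exact_mod_cast c1
    have c3 := Real.log_le_log (by positivity) c2
    rw [Real.log_pow] at c3
    have c4 := Real.log_two_gt_d9
    have c5 : (0 : ℝ) ≤ (Nat.log 2 X : ℕ) := Nat.cast_nonneg _
    nlinarith
  have hfac : 128 * (1 + L) * ((Nat.log 2 X : ℕ) + 1 : ℝ) ≤ 128 * 6 * L ^ 2 := by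
    have d1 : (1 + L) * ((Nat.log 2 X : ℕ) + 1 : ℝ) ≤ (2 * L) * (3 * L) :=
      mul_le_mul (by linarith) hlog2 (by positivity) (by linarith)
    nlinarith
  -- powers of X
  have hL0 : 0 ≤ L := by linarith
  have hLC : (1 : ℝ) ≤ L ^ CV := one_le_pow₀ hL
  have hnm : nm2 G V ≤ X * L ^ CV := hV.1.1
  obtain ⟨P, hP⟩ : ∃ P : ℝ, P = (X : ℝ) ^ (-η) := ⟨_, rfl⟩
  have hP0 : 0 < P := by rw [hP]; positivity
  have hE0 : (0 : ℝ) ≤ E.card := Nat.cast_nonneg _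
  have hp1 : (X : ℝ) ^ (1 - e) ≤ X * P := by
    have h1 : (X : ℝ) * P = (X : ℝ) ^ (1 - η) := by
      rw [hP, Real.rpow_sub hX0, Real.rpow_one, Real.rpow_neg hX0.le]
      rfl
    rw [h1]
    exact Real.rpow_le_rpow_of_exponent_le hX1r (by linarith)
  have hp2 : (X : ℝ) ^ (12 * dl th e) ≤ P * E.card := by
    have h1 : (X : ℝ) ^ (12 * dl th e) ≤ P * (X : ℝ) ^ (th - e) := by
      rw [hP, ← Real.rpow_add hX0]
      refine Real.rpow_le_rpow_of_exponent_le hX1r ?_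
      unfold dl
      linarith
    exact h1.trans (mul_le_mul_of_nonneg_left hEc hP0.le)
  have hnn : 0 ≤ nm2 G V := by
    unfold nm2
    positivity
  have hb1 : (X : ℝ) ^ (-η) * (E.card : ℝ) ^ 2 * nm2 G V ≤
      X * P * (E.card : ℝ) ^ 2 * (τ0 * L ^ (CV + 1)) := by
    rw [← hP]
    have h1 : L ^ CV ≤ τ0 * L ^ (CV + 1) := by
      rw [pow_succ]
      nlinarith [mul_le_mul hτ1 hL (by norm_num) (by linarith : (0:ℝ) ≤ τ0)]
    calc P * (E.card : ℝ) ^ 2 * nm2 G V ≤ P * (E.card : ℝ) ^ 2 * (X * L ^ CV) :=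
          mul_le_mul_of_nonneg_left hnm (by positivity)
      _ = X * P * (E.card : ℝ) ^ 2 * L ^ CV := by ring
      _ ≤ _ := mul_le_mul_of_nonneg_left h1 (by positivity)
  have hb2 : (X : ℝ) ^ (1 - e) * (((Nat.log 2 X : ℕ) + 1 : ℝ) * (τ0 * (E.card : ℝ) ^ 2)) ≤
      3 * (X * P * (E.card : ℝ) ^ 2 * (τ0 * L ^ (CV + 1))) := by
    have h1 : ((Nat.log 2 X : ℕ) + 1 : ℝ) ≤ 3 * L ^ (CV + 1) := by
      refine hlog2.trans ?_
      rw [pow_succ]
      nlinarith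
    calc (X : ℝ) ^ (1 - e) * (((Nat.log 2 X : ℕ) + 1 : ℝ) * (τ0 * (E.card : ℝ) ^ 2))
        ≤ (X * P) * ((3 * L ^ (CV + 1)) * (τ0 * (E.card : ℝ) ^ 2)) := by
          refine mul_le_mul hp1 ?_ (by positivity) (by positivity)
          exact mul_le_mul_of_nonneg_right h1 (by positivity)
      _ = _ := by ring
  have hb3 : E.card * (128 * (X : ℝ) ^ (12 * dl th e) * nm2 G V) ≤
      128 * (X * P * (E.card : ℝ) ^ 2 * (τ0 * L ^ (CV + 1))) := by
    have h1 : L ^ CV ≤ τ0 * L ^ (CV + 1) := by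
      rw [pow_succ]
      nlinarith [mul_le_mul hτ1 hL (by norm_num) (by linarith : (0:ℝ) ≤ τ0)]
    calc E.card * (128 * (X : ℝ) ^ (12 * dl th e) * nm2 G V)
        ≤ E.card * (128 * (P * E.card) * (X * L ^ CV)) := by
          refine mul_le_mul_of_nonneg_left ?_ hE0
          refine mul_le_mul ?_ hnm hnn (by positivity)
          exact mul_le_mul_of_nonneg_left hp2 (by norm_num)
      _ = 128 * (X * P * (E.card : ℝ) ^ 2) * L ^ CV := by ring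
      _ ≤ 128 * (X * P * (E.card : ℝ) ^ 2) * (τ0 * L ^ (CV + 1)) :=
          mul_le_mul_of_nonneg_left h1 (by positivity)
      _ = _ := by ring
  have hin2 : ∑ d ∈ Icc 1 X, ∑ t ∈ range (Nat.log 2 X + 1), (d.divisors.card : ℝ) * m d t *
      ((1 / (G : ℝ)) * ∑ j ∈ Jdt G (dl th e) X ω d t, ‖V j‖ ^ 2) ≤
      132 * τ0 ^ 2 * L ^ (CV + 1) * (X * P * (E.card : ℝ) ^ 2) := by
    refine hin.trans ?_
    have h1 : τ0 * ((X : ℝ) ^ (-η) * (E.card : ℝ) ^ 2 * nm2 G V +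
        (X : ℝ) ^ (1 - e) * (((Nat.log 2 X : ℕ) + 1 : ℝ) * (τ0 * (E.card : ℝ) ^ 2)) +
        E.card * (128 * (X : ℝ) ^ (12 * dl th e) * nm2 G V)) ≤
        τ0 * (132 * (X * P * (E.card : ℝ) ^ 2 * (τ0 * L ^ (CV + 1)))) :=
      mul_le_mul_of_nonneg_left (by linarith) (by linarith)
    refine h1.trans (le_of_eq ?_)
    ring
  have hτsq : τ0 ^ 2 = C ^ 2 * (X : ℝ) ^ (η / 16) := by
    rw [hτ0, mul_pow, ← Real.rpow_natCast ((X : ℝ) ^ (η / 32)), ← Real.rpow_mul hX0.le]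
    congr 2
    push_cast
    ring
  have hpow : (X : ℝ) ^ (3 / 16 * η) * ((X : ℝ) ^ (η / 16) * P) = (X : ℝ) ^ (-(3 / 4 * η)) := by
    rw [hP, ← Real.rpow_add hX0, ← Real.rpow_add hX0]
    congr 1
    ring
  calc 128 * (1 + L) * ((Nat.log 2 X : ℕ) + 1 : ℝ) * (1 / X) *
        ∑ d ∈ Icc 1 X, ∑ t ∈ range (Nat.log 2 X + 1), (d.divisors.card : ℝ) * m d t *
          ((1 / (G : ℝ)) * ∑ j ∈ Jdt G (dl th e) X ω d t, ‖V j‖ ^ 2)
      ≤ 128 * 6 * L ^ 2 * (1 / X) *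
        (132 * τ0 ^ 2 * L ^ (CV + 1) * (X * P * (E.card : ℝ) ^ 2)) := by
        refine mul_le_mul ?_ hin2 ?_ (by positivity)
        · exact mul_le_mul_of_nonneg_right hfac (by positivity)
        · refine sum_nonneg fun d _ => sum_nonneg fun t _ => ?_
          refine mul_nonneg (mul_nonneg (Nat.cast_nonneg _) (hm0 d t)) (by positivity)
    _ = (128 * 6 * 132 * C ^ 2 * L ^ (CV + 3)) * ((X : ℝ) ^ (η / 16) * P * (E.card : ℝ) ^ 2) := by
        rw [hτsq]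
        field_simp
        ring
    _ ≤ (X : ℝ) ^ (3 / 16 * η) * ((X : ℝ) ^ (η / 16) * P * (E.card : ℝ) ^ 2) :=
        mul_le_mul_of_nonneg_right hlog (by positivity)
    _ = (X : ℝ) ^ (-(3 / 4 * η)) * (E.card : ℝ) ^ 2 := by
        rw [← hpow]
        ring

end Pool.MP_dd84fd_nt.IX
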