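import Pool.Agent.Lib.MP_dd84fd_nt.IX.KsDefs
import Pool.Agent.Lib.MP_dd84fd_nt.E2.MinorP

/-!
# IX-KsPar (0.4 h): elementary facts on the parameters

`Adm th e`: `2/5 < th ≤ 1/2`, `0 < e ≤ (th - 2/5)/100 ≤ 1/1000`; `dl = (1/2-th)/3 + e ≤ 1/30 + 1/1000 ≤ 1/20`; `y3 (dl th e) X = X^(1-th+3e)` (`y3_dl`), exponent in
`[1/2, 61/100]` (`1 - th + 3e < 3/5 + 3/1000`). `par_X`: `16 X^(61/100) ≤ X` for `X ≥ X0` (`16 ≤ X^(39/100)`, e.g. `X0 = 16^3 = 4096`), `X^(1-th+3e) ≤ X^(61/100)`.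
`par_nK`: `2^J ≤ ⌊k0⌋ ≤ k0`, `J = Nat.log 2 ⌊k0⌋`, `k0 = X^((1-th)/2) ≥ 1` (`Nat.pow_log_le_self`, `Nat.lt_pow_succ_log_self`, `Nat.floor_le`, `Nat.lt_floor_add_one`).
-/

set_option autoImplicit false

namespace Pool.MP_dd84fd_nt.IX

open Finset Pool.MP_67663b_nt.Odd Pool.MP_dd84fd_nt.En Pool.MP_dd84fd_nt.E2 Pool.MP_dd84fd_nt.LS
open Pool.MP_dd84fd_nt.L2G (nrm)
open Pool.MP_dd84fd_nt.GX Pool.MP_dd84fd_nt.HX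

theorem par_i (th e : ℝ) (h : Adm th e) : 0 < dl th e ∧ dl th e ≤ 1 / 20 ∧ 0 < e ∧ e ≤ 1 / 1000 ∧
    2 / 5 < th ∧ th ≤ 1 / 2 ∧ 100 * e ≤ th - 2 / 5 := by
  obtain ⟨h1, h2, h3, h4⟩ := h
  unfold dl
  refine ⟨?_, ?_, h3, ?_, h1, h2, ?_⟩ <;> linarith

theorem par_X : ∃ X0 : ℕ, 3 ≤ X0 ∧ ∀ X : ℕ, X0 ≤ X → ∀ th e : ℝ, Adm th e →
    16 * y3 (dl th e) X ≤ X ∧ 4 * y3 (dl th e) X < X ∧ 1 ≤ y3 (dl th e) X ∧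
      Real.sqrt X ≤ y3 (dl th e) X := by
  refine ⟨4096, by norm_num, fun X hX th e hA => ?_⟩
  obtain ⟨_, _, he0, he1, ht1, ht2, _⟩ := par_i th e hA
  have hXr : (4096 : ℝ) ≤ (X : ℝ) := by exact_mod_cast hX
  have hX1 : (1 : ℝ) ≤ (X : ℝ) := by linarith
  have hXp : (0 : ℝ) < (X : ℝ) := by linarith
  rw [y3_dl]
  have hy : (X : ℝ) ^ (1 - th + 3 * e) ≤ (X : ℝ) ^ (61 / 100 : ℝ) :=
    Real.rpow_le_rpow_of_exponent_le hX1 (by linarith)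
  have hy0 : 0 < (X : ℝ) ^ (1 - th + 3 * e) := by positivity
  have h16 : (16 : ℝ) ≤ (X : ℝ) ^ (39 / 100 : ℝ) := by
    calc (16 : ℝ) = (4096 : ℝ) ^ (1 / 3 : ℝ) := by
          have : (4096 : ℝ) = 16 ^ (3 : ℕ) := by norm_num
          rw [this, ← Real.rpow_natCast, ← Real.rpow_mul (by norm_num)]
          norm_num
      _ ≤ (X : ℝ) ^ (1 / 3 : ℝ) := Real.rpow_le_rpow (by norm_num) hXr (by norm_num)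
      _ ≤ (X : ℝ) ^ (39 / 100 : ℝ) := Real.rpow_le_rpow_of_exponent_le hX1 (by norm_num)
  have hmain : 16 * (X : ℝ) ^ (1 - th + 3 * e) ≤ X := by
    calc 16 * (X : ℝ) ^ (1 - th + 3 * e) ≤ (X : ℝ) ^ (39 / 100 : ℝ) * (X : ℝ) ^ (61 / 100 : ℝ) :=
          mul_le_mul h16 hy hy0.le (by positivity)
      _ = X := by
          rw [← Real.rpow_add hXp]
          norm_num
  refine ⟨hmain, by linarith, Real.one_le_rpow hX1 (by linarith), ?_⟩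
  rw [Real.sqrt_eq_rpow]
  exact Real.rpow_le_rpow_of_exponent_le hX1 (by linarith)

/-- the scales of `RkI`: `2^i ≤ 8 k0` for `i < nK`, and `k0 < 2^(nK - 3)` -/
theorem par_nK (th : ℝ) (h1 : 0 ≤ (1 - th) / 2) (X : ℕ) (hX : 1 ≤ X) :
    (∀ i ∈ range (nK th X), (2 : ℝ) ^ i ≤ 8 * (X : ℝ) ^ ((1 - th) / 2)) ∧
      (X : ℝ) ^ ((1 - th) / 2) < 2 ^ (nK th X - 3) ∧ 4 ≤ nK th X := by
  have hX1 : (1 : ℝ) ≤ (X : ℝ) := by exact_mod_cast hX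
  have hk : (1 : ℝ) ≤ (X : ℝ) ^ ((1 - th) / 2) := Real.one_le_rpow hX1 h1
  have hf : 1 ≤ ⌊(X : ℝ) ^ ((1 - th) / 2)⌋₊ := Nat.le_floor (by simpa using hk)
  refine ⟨?_, ?_, ?_⟩
  · intro i hi
    rw [mem_range, nK] at hi
    have h2 : 2 ^ i ≤ 2 ^ (Nat.log 2 ⌊(X : ℝ) ^ ((1 - th) / 2)⌋₊ + 3) :=
      Nat.pow_le_pow_right (by norm_num) (by omega)
    have h3 : 2 ^ Nat.log 2 ⌊(X : ℝ) ^ ((1 - th) / 2)⌋₊ ≤ ⌊(X : ℝ) ^ ((1 - th) / 2)⌋₊ :=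
      Nat.pow_log_le_self 2 (by omega)
    have h4 : 2 ^ i ≤ 8 * ⌊(X : ℝ) ^ ((1 - th) / 2)⌋₊ := by
      rw [pow_add] at h2
      omega
    have h5 : (2 : ℝ) ^ i ≤ 8 * (⌊(X : ℝ) ^ ((1 - th) / 2)⌋₊ : ℝ) := by exact_mod_cast h4
    have h6 : (⌊(X : ℝ) ^ ((1 - th) / 2)⌋₊ : ℝ) ≤ (X : ℝ) ^ ((1 - th) / 2) :=
      Nat.floor_le (by positivity)
    linarith
  · have h2 : nK th X - 3 = Nat.log 2 ⌊(X : ℝ) ^ ((1 - th) / 2)⌋₊ + 1 := by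
      unfold nK
      omega
    rw [h2]
    have h3 : ⌊(X : ℝ) ^ ((1 - th) / 2)⌋₊ < 2 ^ (Nat.log 2 ⌊(X : ℝ) ^ ((1 - th) / 2)⌋₊ + 1) :=
      Nat.lt_pow_succ_log_self (by norm_num) _
    have h4 := Nat.lt_floor_add_one ((X : ℝ) ^ ((1 - th) / 2))
    have h5 : (⌊(X : ℝ) ^ ((1 - th) / 2)⌋₊ : ℝ) + 1 ≤
        2 ^ (Nat.log 2 ⌊(X : ℝ) ^ ((1 - th) / 2)⌋₊ + 1) := by exact_mod_cast h3
    linarith
  · unfold nK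
    omega

end Pool.MP_dd84fd_nt.IX
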