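import Pool.Agent.Lib.MP_dd84fd_nt.IX.KsRelK
import Pool.Agent.Lib.MP_dd84fd_nt.IX.KsPar
import Pool.Agent.Lib.MP_dd84fd_nt.HX.KsNorm
import Pool.Agent.Lib.MP_dd84fd_nt.GX.DivPow
import Pool.Agent.Lib.MP_dd84fd_nt.E2.MinorP

/-!
# IX-KsRelS (1 h): the rank one kernel sum by pair counting

`x = xx G V ω E ph`, `x_j = ω_j V_j K_j`, so `‖x_j‖ ‖x_j'‖ ≤ (‖V_j‖² ‖K_j'‖² + ‖V_j'‖² ‖K_j‖²)/2`.
`pv_sum`: `Σ_{v ≤ k} pv E v ≤ k |E| + τ0 |E|²`: the diagonal pairs give `|E|` for each `v`, a pair `n ≠ n'` is counted for the divisors `v` of `|n - n'| ∈ [1, X]`.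
`rel_one`: `rel X k` (symmetric: `GX.rel_symm`) holds only if `nrm (u al_j - v al_j') ≤ k/X` for some `u, v ∈ [1, k]`. So
`(1/G)² Σ ‖x‖‖x'‖ 1[rel X k] ≤ (1/G)² Σ_j ‖V_j‖² Σ_j' ‖K_j'‖² 1[rel X k al_j al_j'] ≤ Σ_{u,v ≤ k} (1/G) Σ_j ‖V_j‖² 64 (k/X) pv E v` (`relK` with `c = u al_j`) `= 64 (k²/X) nm2 V Σ_{v ≤ k} pv E v`.
`rel_sum_i`: `RkI` is the sum over `i < nK th X`, `k = 2^i ≤ 8 k0`, `k0 = X^((1-th)/2) ≤ X^(3/10)` (`16 k ≤ X` for large `X`), weight `X/2^i`: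
`Σ_i (X/2^i) 64 (4^i/X) X L^CV (2^i |E| + τ0 |E|²) = 64 X L^CV Σ_i (4^i |E| + 2^i τ0 |E|²)`, number of `i` is `nK ≤ 2 L + 4`; `4^i ≤ 64 k0²`, `k0 ≤ X^(3/10) ≤ |E|` (`th - e > 3/10`), so `4^i |E| ≤ 64 k0 |E|²`;
`τ0 ≤ C X^(e/4)` (`GX.div_pow`). Total `≤ 64 X L^CV (2L+4) k0 (64 + 8 C X^(e/4)) |E|² ≤ X^(1+(1-th)/2+e) |E|²` for large `X` (`E2`: `MP_log_pow`).
-/

set_option autoImplicit false

namespace Pool.MP_dd84fd_nt.IX

open Finset Pool.MP_67663b_nt.Odd Pool.MP_dd84fd_nt.En Pool.MP_dd84fd_nt.E2 Pool.MP_dd84fd_nt.LS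
open Pool.MP_dd84fd_nt.L2G (nrm)
open Pool.MP_dd84fd_nt.GX Pool.MP_dd84fd_nt.HX

theorem pv_sum (X : ℕ) (E : Finset ℕ) (hE : E ⊆ Icc 1 X) (τ0 : ℝ)
    (hτ : ∀ n ∈ Icc 1 X, (n.divisors.card : ℝ) ≤ τ0) (h0 : 0 ≤ τ0) (k : ℕ) :
    ∑ v ∈ Icc 1 k, (pv E v : ℝ) ≤ k * E.card + τ0 * (E.card : ℝ) ^ 2 := by
  classical
  have h1 : ∀ v, (pv E v : ℝ) = ∑ p ∈ E ×ˢ E, if ((v : ℤ) ∣ (p.1 : ℤ) - p.2) then (1 : ℝ) else 0 := by
    intro v
    unfold pv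
    rw [Finset.sum_boole]
  simp only [h1]
  rw [Finset.sum_comm]
  have h2 : ∀ p ∈ E ×ˢ E, (∑ v ∈ Icc 1 k, if ((v : ℤ) ∣ (p.1 : ℤ) - p.2) then (1 : ℝ) else 0) ≤
      (if p.1 = p.2 then (k : ℝ) else 0) + τ0 := by
    intro p hp
    rw [Finset.mem_product] at hp
    rw [Finset.sum_boole]
    by_cases h : p.1 = p.2
    · rw [if_pos h]
      have h3 : ((Icc 1 k).filter (fun v : ℕ => (v : ℤ) ∣ (p.1 : ℤ) - p.2)).card ≤ k := by
        refine (Finset.card_filter_le _ _).trans ?_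
        rw [Nat.card_Icc]
        omega
      have h4 : ((((Icc 1 k).filter (fun v : ℕ => (v : ℤ) ∣ (p.1 : ℤ) - p.2)).card : ℕ) : ℝ) ≤ k := by
        exact_mod_cast h3
      linarith
    · rw [if_neg h, zero_add]
      have ha := Finset.mem_Icc.1 (hE hp.1)
      have hb := Finset.mem_Icc.1 (hE hp.2)
      have h5 : ((p.1 : ℤ) - p.2).natAbs ∈ Icc 1 X := by
        rw [Finset.mem_Icc]
        omega
      refine le_trans ?_ (hτ _ h5)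
      have h6 : ((Icc 1 k).filter (fun v : ℕ => (v : ℤ) ∣ (p.1 : ℤ) - p.2)) ⊆
          ((p.1 : ℤ) - p.2).natAbs.divisors := by
        intro v hv
        rw [Finset.mem_filter] at hv
        rw [Nat.mem_divisors]
        rw [Finset.mem_Icc] at h5
        exact ⟨Int.natCast_dvd.1 hv.2, by omega⟩
      exact_mod_cast Finset.card_le_card h6
  refine (Finset.sum_le_sum h2).trans ?_
  rw [Finset.sum_add_distrib]
  have h3 : ∑ p ∈ E ×ˢ E, (if p.1 = p.2 then (k : ℝ) else 0) = k * E.card := by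
    rw [Finset.sum_product]
    have : ∀ x ∈ E, ∑ y ∈ E, (if x = y then (k : ℝ) else 0) = k := by
      intro x hx
      rw [Finset.sum_ite_eq, if_pos hx]
    rw [Finset.sum_congr rfl this, Finset.sum_const, nsmul_eq_mul]
    ring
  have h4 : ∑ p ∈ E ×ˢ E, τ0 = τ0 * (E.card : ℝ) ^ 2 := by
    rw [Finset.sum_const, Finset.card_product, nsmul_eq_mul]
    push_cast
    ring
  rw [h3, h4]

theorem rel_one (X G : ℕ) [NeZero G] (hX : 1 ≤ X) (hG : 3 * X ≤ G) (V ω : ZMod G → ℂ)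
    (hω : ∀ j, ‖ω j‖ ≤ 1) (E : Finset ℕ) (hE : E ⊆ Icc 1 X) (ph : ℕ → ℂ) (hp : ∀ n, ‖ph n‖ ≤ 1)
    (k : ℕ) (hk1 : 1 ≤ k) (hk : 16 * k ≤ X) :
    (1 / (G : ℝ)) ^ 2 * ∑ j : ZMod G, ∑ j' : ZMod G,
      ‖xx G V ω E ph j‖ * ‖xx G V ω E ph j'‖ * ind (rel X k (al G j) (al G j')) ≤
      64 * ((k : ℝ) ^ 2 / X) * nm2 G V * ∑ v ∈ Icc 1 k, (pv E v : ℝ) := by
  classical
  have hG0 : (0 : ℝ) < G := by
    have : 0 < G := by omega
    exact_mod_cast this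
  have hX0 : (0 : ℝ) < X := by exact_mod_cast hX
  have hi0 : ∀ p : Prop, 0 ≤ ind p := by
    intro p
    unfold ind
    split_ifs <;> norm_num
  have hx : ∀ j, ‖xx G V ω E ph j‖ ≤ ‖V j‖ * ‖KE G E ph j‖ := by
    intro j
    unfold xx
    rw [norm_mul, norm_mul]
    have h1 : ‖ω j‖ * ‖V j‖ ≤ 1 * ‖V j‖ :=
      mul_le_mul_of_nonneg_right (hω j) (norm_nonneg _)
    rw [one_mul] at h1
    exact mul_le_mul_of_nonneg_right h1 (norm_nonneg _)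
  obtain ⟨r, hr⟩ : ∃ r : ZMod G → ZMod G → ℝ, r = fun j j' => ind (rel X k (al G j) (al G j')) :=
    ⟨_, rfl⟩
  have hr0 : ∀ j j', 0 ≤ r j j' := by
    intro j j'
    rw [hr]
    exact hi0 _
  have hrs : ∀ j j', r j j' = r j' j := by
    intro j j'
    rw [hr]
    show ind (rel X k (al G j) (al G j')) = ind (rel X k (al G j') (al G j))
    unfold ind
    by_cases h : rel X k (al G j) (al G j')
    · rw [if_pos h, if_pos (rel_symm X k _ _ h)]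
    · rw [if_neg h, if_neg fun h' => h (rel_symm X k _ _ h')]
  have h1 : ∀ j j', ‖xx G V ω E ph j‖ * ‖xx G V ω E ph j'‖ * ind (rel X k (al G j) (al G j')) ≤
      (1 / 2) * (‖V j‖ ^ 2 * (‖KE G E ph j'‖ ^ 2 * r j j')) +
        (1 / 2) * (‖V j'‖ ^ 2 * (‖KE G E ph j‖ ^ 2 * r j' j)) := by
    intro j j'
    rw [← hrs j j']
    have h2 : ind (rel X k (al G j) (al G j')) = r j j' := by rw [hr]
    rw [h2]
    have h3 : ‖xx G V ω E ph j‖ * ‖xx G V ω E ph j'‖ ≤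
        (‖V j‖ * ‖KE G E ph j‖) * (‖V j'‖ * ‖KE G E ph j'‖) :=
      mul_le_mul (hx j) (hx j') (norm_nonneg _) (by positivity)
    have h4 : (‖V j‖ * ‖KE G E ph j‖) * (‖V j'‖ * ‖KE G E ph j'‖) ≤
        (1 / 2) * (‖V j‖ ^ 2 * ‖KE G E ph j'‖ ^ 2) + (1 / 2) * (‖V j'‖ ^ 2 * ‖KE G E ph j‖ ^ 2) := by
      nlinarith [sq_nonneg (‖V j‖ * ‖KE G E ph j'‖ - ‖V j'‖ * ‖KE G E ph j‖)]
    have h5 := mul_le_mul_of_nonneg_right (h3.trans h4) (hr0 j j')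
    refine h5.trans (le_of_eq ?_)
    ring
  have h2 : ∑ j : ZMod G, ∑ j' : ZMod G,
      ‖xx G V ω E ph j‖ * ‖xx G V ω E ph j'‖ * ind (rel X k (al G j) (al G j')) ≤
      ∑ j : ZMod G, ‖V j‖ ^ 2 * ∑ j' : ZMod G, ‖KE G E ph j'‖ ^ 2 * r j j' := by
    refine (Finset.sum_le_sum fun j _ => Finset.sum_le_sum fun j' _ => h1 j j').trans
      (le_of_eq ?_)
    have h3 : ∑ j : ZMod G, ∑ j' : ZMod G, ‖V j'‖ ^ 2 * (‖KE G E ph j‖ ^ 2 * r j' j) =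
        ∑ j : ZMod G, ‖V j‖ ^ 2 * ∑ j' : ZMod G, ‖KE G E ph j'‖ ^ 2 * r j j' := by
      rw [Finset.sum_comm]
      exact Finset.sum_congr rfl fun j _ => (Finset.mul_sum _ _ _).symm
    have h5 : ∀ j : ZMod G, ∑ j' : ZMod G, ((1 / 2) * (‖V j‖ ^ 2 * (‖KE G E ph j'‖ ^ 2 * r j j')) +
        (1 / 2) * (‖V j'‖ ^ 2 * (‖KE G E ph j‖ ^ 2 * r j' j))) = (1 / 2) * (‖V j‖ ^ 2 *
        ∑ j' : ZMod G, ‖KE G E ph j'‖ ^ 2 * r j j') +
        (1 / 2) * ∑ j' : ZMod G, ‖V j'‖ ^ 2 * (‖KE G E ph j‖ ^ 2 * r j' j) := by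
      intro j
      rw [Finset.sum_add_distrib, ← Finset.mul_sum, ← Finset.mul_sum,
        ← Finset.mul_sum]
    rw [Finset.sum_congr rfl fun j _ => h5 j, Finset.sum_add_distrib,
      ← Finset.mul_sum, ← Finset.mul_sum, h3]
    ring
  obtain ⟨P, hP⟩ : ∃ P : ℝ, P = ∑ v ∈ Icc 1 k, (pv E v : ℝ) := ⟨_, rfl⟩
  have h3 : ∀ j : ZMod G, (1 / (G : ℝ)) * ∑ j' : ZMod G, ‖KE G E ph j'‖ ^ 2 * r j j' ≤
      64 * ((k : ℝ) ^ 2 / X) * P := by
    intro j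
    have h4 : ∀ j', ‖KE G E ph j'‖ ^ 2 * r j j' ≤ ∑ u ∈ Icc 1 k, ∑ v ∈ Icc 1 k,
        (if nrm (((u : ℝ) * al G j) - v * al G j') ≤ (k : ℝ) / X then ‖KE G E ph j'‖ ^ 2 else 0) := by
      intro j'
      have hnn : ∀ u ∈ Icc 1 k, ∀ v ∈ Icc 1 k, (0 : ℝ) ≤
          (if nrm (((u : ℝ) * al G j) - v * al G j') ≤ (k : ℝ) / X then ‖KE G E ph j'‖ ^ 2 else 0) := by
        intro u _ v _
        split_ifs <;> positivity
      by_cases h : rel X k (al G j) (al G j')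
      · have h5 : r j j' = 1 := by
          rw [hr]
          show ind _ = 1
          unfold ind
          rw [if_pos h]
        rw [h5, mul_one]
        obtain ⟨u, v, hu, huk, hv, hvk, h⟩ := h
        have h6 : ‖KE G E ph j'‖ ^ 2 = (if nrm (((u : ℝ) * al G j) - v * al G j') ≤ (k : ℝ) / X then
            ‖KE G E ph j'‖ ^ 2 else 0) := by rw [if_pos h]
        have h7 := Finset.single_le_sum (f := fun v : ℕ => if nrm (((u : ℝ) * al G j) - v * al G j') ≤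
          (k : ℝ) / X then ‖KE G E ph j'‖ ^ 2 else 0) (hnn u (Finset.mem_Icc.2 ⟨hu, huk⟩))
          (Finset.mem_Icc.2 ⟨hv, hvk⟩)
        have h8 := Finset.single_le_sum (f := fun u : ℕ => ∑ v ∈ Icc 1 k,
          if nrm (((u : ℝ) * al G j) - v * al G j') ≤ (k : ℝ) / X then ‖KE G E ph j'‖ ^ 2 else 0)
          (fun u hu => Finset.sum_nonneg (hnn u hu)) (Finset.mem_Icc.2 ⟨hu, huk⟩)
        calc _ = _ := h6
          _ ≤ _ := h7
          _ ≤ _ := h8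
      · have h5 : r j j' = 0 := by
          rw [hr]
          show ind _ = 0
          unfold ind
          rw [if_neg h]
        rw [h5, mul_zero]
        exact Finset.sum_nonneg fun u hu => Finset.sum_nonneg (hnn u hu)
    have h5 : ∑ j' : ZMod G, ‖KE G E ph j'‖ ^ 2 * r j j' ≤ ∑ u ∈ Icc 1 k, ∑ v ∈ Icc 1 k,
        ∑ j' : ZMod G, (if nrm (((u : ℝ) * al G j) - v * al G j') ≤ (k : ℝ) / X then
          ‖KE G E ph j'‖ ^ 2 else 0) := by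
      refine (Finset.sum_le_sum fun j' _ => h4 j').trans (le_of_eq ?_)
      rw [Finset.sum_comm]
      exact Finset.sum_congr rfl fun u _ => Finset.sum_comm
    have h6 : ∀ u ∈ Icc 1 k, ∀ v ∈ Icc 1 k, (1 / (G : ℝ)) * ∑ j' : ZMod G,
        (if nrm (((u : ℝ) * al G j) - v * al G j') ≤ (k : ℝ) / X then ‖KE G E ph j'‖ ^ 2 else 0) ≤
        64 * ((k : ℝ) / X) * (pv E v : ℝ) := by
      intro u _ v hv
      rw [Finset.mem_Icc] at hv
      rw [← Finset.sum_filter]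
      exact relK X G hG E hE ph hp k v hv.1 hv.2 hk ((u : ℝ) * al G j)
    calc (1 / (G : ℝ)) * ∑ j' : ZMod G, ‖KE G E ph j'‖ ^ 2 * r j j'
        ≤ (1 / (G : ℝ)) * ∑ u ∈ Icc 1 k, ∑ v ∈ Icc 1 k,
          ∑ j' : ZMod G, (if nrm (((u : ℝ) * al G j) - v * al G j') ≤ (k : ℝ) / X then
          ‖KE G E ph j'‖ ^ 2 else 0) := mul_le_mul_of_nonneg_left h5 (by positivity)
      _ = ∑ u ∈ Icc 1 k, ∑ v ∈ Icc 1 k, (1 / (G : ℝ)) *
          ∑ j' : ZMod G, (if nrm (((u : ℝ) * al G j) - v * al G j') ≤ (k : ℝ) / X then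
          ‖KE G E ph j'‖ ^ 2 else 0) := by
          rw [Finset.mul_sum]
          exact Finset.sum_congr rfl fun u _ => Finset.mul_sum _ _ _
      _ ≤ ∑ u ∈ Icc 1 k, ∑ v ∈ Icc 1 k, 64 * ((k : ℝ) / X) * (pv E v : ℝ) :=
          Finset.sum_le_sum fun u hu => Finset.sum_le_sum fun v hv => h6 u hu v hv
      _ = 64 * ((k : ℝ) ^ 2 / X) * P := by
          rw [Finset.sum_const, Nat.card_Icc, nsmul_eq_mul, ← Finset.mul_sum, ← hP]
          push_cast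
          ring
  have h4 : (1 / (G : ℝ)) ^ 2 * ∑ j : ZMod G, ‖V j‖ ^ 2 * ∑ j' : ZMod G, ‖KE G E ph j'‖ ^ 2 * r j j' =
      (1 / (G : ℝ)) * ∑ j : ZMod G, ‖V j‖ ^ 2 *
        ((1 / (G : ℝ)) * ∑ j' : ZMod G, ‖KE G E ph j'‖ ^ 2 * r j j') := by
    have h5 : ∑ j : ZMod G, ‖V j‖ ^ 2 *
        ((1 / (G : ℝ)) * ∑ j' : ZMod G, ‖KE G E ph j'‖ ^ 2 * r j j') =
        (1 / (G : ℝ)) * ∑ j : ZMod G, ‖V j‖ ^ 2 * ∑ j' : ZMod G, ‖KE G E ph j'‖ ^ 2 * r j j' := by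
      rw [Finset.mul_sum]
      exact Finset.sum_congr rfl fun j _ => by ring
    rw [h5]
    ring
  rw [← hP]
  calc _ ≤ (1 / (G : ℝ)) ^ 2 * ∑ j : ZMod G, ‖V j‖ ^ 2 * ∑ j' : ZMod G, ‖KE G E ph j'‖ ^ 2 * r j j' :=
        mul_le_mul_of_nonneg_left h2 (by positivity)
    _ = _ := h4
    _ ≤ (1 / (G : ℝ)) * ∑ j : ZMod G, ‖V j‖ ^ 2 * (64 * ((k : ℝ) ^ 2 / X) * P) :=
        mul_le_mul_of_nonneg_left (Finset.sum_le_sum fun j _ =>
          mul_le_mul_of_nonneg_left (h3 j) (by positivity)) (by positivity)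
    _ = 64 * ((k : ℝ) ^ 2 / X) * nm2 G V * P := by
        unfold nm2
        rw [← Finset.sum_mul]
        ring

theorem rel_sum_i (CV : ℕ) (th e : ℝ) (hA : Adm th e) : ∃ X0 : ℕ, ∀ X : ℕ, X0 ≤ X →
    ∀ (G : ℕ) [NeZero G], 3 * X ≤ G → ∀ V : ZMod G → ℂ, VBH G X CV V → ∀ ω : ZMod G → ℂ,
    (∀ j, ‖ω j‖ ≤ 1) → ∀ E : Finset ℕ, E ⊆ Icc 1 X → (X : ℝ) ^ (th - e) ≤ E.card →
    ∀ ph : ℕ → ℂ, (∀ n, ‖ph n‖ ≤ 1) →
    (1 / (G : ℝ)) ^ 2 * ∑ j : ZMod G, ∑ j' : ZMod G, ‖xx G V ω E ph j‖ * ‖xx G V ω E ph j'‖ *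
      RkI th X (al G j) (al G j') ≤ (X : ℝ) ^ (1 + (1 - th) / 2 + e) * (E.card : ℝ) ^ 2 := by
  obtain ⟨_, _, he0, he1, ht1, ht2, he2⟩ := par_i th e hA
  obtain ⟨C, hC1, hC⟩ := div_pow (e / 4) (by positivity)
  obtain ⟨X1, hX1⟩ := MP_log_pow (27648 * C) (CV + 1) (show (0 : ℝ) < e / 4 by positivity)
  refine ⟨max X1 1024, fun X hX G _ hG V hV ω hω E hE hcard ph hp => ?_⟩
  have hXa : 1024 ≤ X := (le_max_right _ _).trans hX
  have hXb := hX1 X ((le_max_left _ _).trans hX)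
  have hXr : (1024 : ℝ) ≤ (X : ℝ) := by exact_mod_cast hXa
  have hXp : (0 : ℝ) < (X : ℝ) := by linarith
  have hX1' : (1 : ℝ) ≤ (X : ℝ) := by linarith
  obtain ⟨hK1, _, hK3⟩ := par_nK th (by linarith) X (by omega)
  obtain ⟨k0, hk0⟩ : ∃ k0 : ℝ, k0 = (X : ℝ) ^ ((1 - th) / 2) := ⟨_, rfl⟩
  rw [← hk0] at hK1
  have hk0p : 0 < k0 := by rw [hk0]; positivity
  have hk0a : k0 ≤ (X : ℝ) ^ (3 / 10 : ℝ) := by
    rw [hk0]
    exact Real.rpow_le_rpow_of_exponent_le hX1' (by linarith)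
  obtain ⟨L, hL⟩ : ∃ L : ℝ, L = Real.log X := ⟨_, rfl⟩
  have hL1 : 1 ≤ L := by
    rw [hL, Real.le_log_iff_exp_le hXp]
    have := Real.exp_one_lt_d9
    linarith
  obtain ⟨hV2, _⟩ := hV
  rw [← hL] at hV2 hXb
  obtain ⟨N, hN⟩ : ∃ N : ℝ, N = (E.card : ℝ) := ⟨_, rfl⟩
  rw [← hN] at hcard
  have hNk : k0 ≤ N := by
    refine hk0a.trans (le_trans ?_ hcard)
    exact Real.rpow_le_rpow_of_exponent_le hX1' (by linarith)
  have hN0 : 0 < N := by linarith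
  have h128 : 128 * k0 ≤ X := by
    have h2 : (128 : ℝ) ≤ (X : ℝ) ^ (7 / 10 : ℝ) := by
      calc (128 : ℝ) = (1024 : ℝ) ^ (7 / 10 : ℝ) := by
            have : (1024 : ℝ) = 2 ^ (10 : ℕ) := by norm_num
            rw [this, ← Real.rpow_natCast, ← Real.rpow_mul (by norm_num)]
            norm_num
        _ ≤ (X : ℝ) ^ (7 / 10 : ℝ) := Real.rpow_le_rpow (by norm_num) hXr (by norm_num)
    calc 128 * k0 ≤ (X : ℝ) ^ (7 / 10 : ℝ) * (X : ℝ) ^ (3 / 10 : ℝ) :=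
          mul_le_mul h2 hk0a hk0p.le (by positivity)
      _ = X := by
          rw [← Real.rpow_add hXp]
          norm_num
  have hk16 : ∀ i ∈ range (nK th X), 16 * 2 ^ i ≤ X := by
    intro i hi
    have h2 := hK1 i hi
    have h3 : (16 : ℝ) * 2 ^ i ≤ X := by linarith
    exact_mod_cast h3
  -- number of scales
  have hnK : ((nK th X : ℕ) : ℝ) ≤ 6 * L := by
    have h2 := hK1 (nK th X - 1) (by rw [mem_range]; omega)
    have h3 : k0 ≤ X := by linarith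
    have h4 : (2 : ℝ) ^ (nK th X - 1) ≤ 8 * X := by linarith
    have h5 := Real.log_le_log (by positivity) h4
    rw [Real.log_pow, Real.log_mul (by norm_num) (by positivity), ← hL] at h5
    have h6 : Real.log 8 = 3 * Real.log 2 := by
      rw [show (8 : ℝ) = 2 ^ (3 : ℕ) by norm_num, Real.log_pow]
      push_cast
      ring
    rw [h6] at h5
    have h7 : (((nK th X - 1 : ℕ)) : ℝ) = (nK th X : ℝ) - 1 := by
      rw [Nat.cast_sub (by omega)]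
      simp
    rw [h7] at h5
    have h8 := Real.log_two_gt_d9
    have h9 : ((nK th X : ℝ) - 4) * Real.log 2 ≤ L := by linarith
    have h10 : (4 : ℝ) ≤ nK th X := by exact_mod_cast hK3
    have h11 : ((nK th X : ℝ) - 4) * (1 / 2) ≤ ((nK th X : ℝ) - 4) * Real.log 2 :=
      mul_le_mul_of_nonneg_left (by linarith) (by linarith)
    linarith
  obtain ⟨τ0, hτ0⟩ : ∃ τ0 : ℝ, τ0 = C * (X : ℝ) ^ (e / 4) := ⟨_, rfl⟩
  have hXe : 1 ≤ (X : ℝ) ^ (e / 4) := Real.one_le_rpow hX1' (by positivity)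
  have hτ1 : 1 ≤ τ0 := by
    rw [hτ0]
    nlinarith
  have hτ : ∀ n ∈ Icc 1 X, (n.divisors.card : ℝ) ≤ τ0 := by
    intro n hn
    rw [mem_Icc] at hn
    refine (hC n hn.1).trans ?_
    rw [hτ0]
    refine mul_le_mul_of_nonneg_left ?_ (by linarith)
    exact Real.rpow_le_rpow (by positivity) (by exact_mod_cast hn.2) (by positivity)
  -- swap
  have e1 : ∑ j : ZMod G, ∑ j' : ZMod G, ‖xx G V ω E ph j‖ * ‖xx G V ω E ph j'‖ *
      RkI th X (al G j) (al G j') =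
      ∑ i ∈ range (nK th X), (X : ℝ) / 2 ^ i * ∑ j : ZMod G, ∑ j' : ZMod G,
        ‖xx G V ω E ph j‖ * ‖xx G V ω E ph j'‖ * ind (rel X (2 ^ i) (al G j) (al G j')) := by
    have : ∀ j j' : ZMod G, ‖xx G V ω E ph j‖ * ‖xx G V ω E ph j'‖ *
        RkI th X (al G j) (al G j') =
        ∑ i ∈ range (nK th X), (X : ℝ) / 2 ^ i *
          (‖xx G V ω E ph j‖ * ‖xx G V ω E ph j'‖ * ind (rel X (2 ^ i) (al G j) (al G j'))) := by
      intro j j'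
      unfold RkI ind
      rw [mul_sum]
      refine sum_congr rfl fun i _ => ?_
      split_ifs
      · ring
      · ring
    simp only [this]
    simp only [mul_sum]
    calc ∑ j : ZMod G, ∑ j' : ZMod G, ∑ i ∈ range (nK th X), (X : ℝ) / 2 ^ i *
          (‖xx G V ω E ph j‖ * ‖xx G V ω E ph j'‖ * ind (rel X (2 ^ i) (al G j) (al G j')))
        = ∑ j : ZMod G, ∑ i ∈ range (nK th X), ∑ j' : ZMod G, (X : ℝ) / 2 ^ i *
          (‖xx G V ω E ph j‖ * ‖xx G V ω E ph j'‖ * ind (rel X (2 ^ i) (al G j) (al G j'))) :=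
          sum_congr rfl fun j _ => sum_comm
      _ = _ := sum_comm
  rw [e1, mul_sum]
  have h1 : ∀ i ∈ range (nK th X), (1 / (G : ℝ)) ^ 2 * ((X : ℝ) / 2 ^ i *
      ∑ j : ZMod G, ∑ j' : ZMod G,
        ‖xx G V ω E ph j‖ * ‖xx G V ω E ph j'‖ * ind (rel X (2 ^ i) (al G j) (al G j'))) ≤
      4608 * (k0 * (X * L ^ CV) * τ0 * N ^ 2) := by
    intro i hi
    have h2 := rel_one X G (by omega) hG V ω hω E hE ph hp (2 ^ i) Nat.one_le_two_pow (hk16 i hi)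
    have h3 := pv_sum X E hE τ0 hτ (by linarith) (2 ^ i)
    rw [← hN] at h3
    have h4 := hK1 i hi
    push_cast at h2 h3
    have h2p : (0 : ℝ) < 2 ^ i := by positivity
    have h5 : ∑ v ∈ Icc 1 (2 ^ i), (pv E v : ℝ) ≤ 9 * τ0 * N ^ 2 := by
      have h6 : (2 : ℝ) ^ i * N ≤ 8 * τ0 * N ^ 2 := by
        have h7 : (2 : ℝ) ^ i ≤ 8 * N := by linarith
        have h8 : (2 : ℝ) ^ i * N ≤ 8 * N * N := mul_le_mul_of_nonneg_right h7 hN0.le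
        have h9 : 8 * N * N * 1 ≤ 8 * N * N * τ0 := mul_le_mul_of_nonneg_left hτ1 (by positivity)
        linarith
      linarith
    have h6 : nm2 G V * ∑ v ∈ Icc 1 (2 ^ i), (pv E v : ℝ) ≤ (X * L ^ CV) * (9 * τ0 * N ^ 2) :=
      mul_le_mul hV2 h5 (sum_nonneg fun v _ => by positivity) (by positivity)
    calc (1 / (G : ℝ)) ^ 2 * ((X : ℝ) / 2 ^ i * ∑ j : ZMod G, ∑ j' : ZMod G,
        ‖xx G V ω E ph j‖ * ‖xx G V ω E ph j'‖ * ind (rel X (2 ^ i) (al G j) (al G j')))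
        = (X : ℝ) / 2 ^ i * ((1 / (G : ℝ)) ^ 2 * ∑ j : ZMod G, ∑ j' : ZMod G,
        ‖xx G V ω E ph j‖ * ‖xx G V ω E ph j'‖ * ind (rel X (2 ^ i) (al G j) (al G j'))) := by ring
      _ ≤ (X : ℝ) / 2 ^ i * (64 * (((2 : ℝ) ^ i) ^ 2 / X) * nm2 G V *
          ∑ v ∈ Icc 1 (2 ^ i), (pv E v : ℝ)) := mul_le_mul_of_nonneg_left h2 (by positivity)
      _ = 64 * 2 ^ i * (nm2 G V * ∑ v ∈ Icc 1 (2 ^ i), (pv E v : ℝ)) := by
          field_simp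
      _ ≤ 64 * (8 * k0) * ((X * L ^ CV) * (9 * τ0 * N ^ 2)) := by
          refine mul_le_mul (by linarith) h6 ?_ (by positivity)
          refine mul_nonneg ?_ (sum_nonneg fun v _ => by positivity)
          unfold nm2
          positivity
      _ = _ := by ring
  refine (sum_le_sum h1).trans ?_
  rw [sum_const, card_range, nsmul_eq_mul, ← hN]
  have h2 : (0 : ℝ) ≤ 4608 * (k0 * (X * L ^ CV) * τ0 * N ^ 2) := by positivity
  refine (mul_le_mul_of_nonneg_right hnK h2).trans ?_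
  have h3 : 6 * L * (4608 * (k0 * (X * L ^ CV) * τ0 * N ^ 2)) =
      (27648 * C * L ^ (CV + 1)) * (X ^ (e / 4) * (X * k0)) * N ^ 2 := by
    rw [hτ0, pow_succ]
    ring
  rw [h3]
  refine mul_le_mul_of_nonneg_right ?_ (by positivity)
  calc (27648 * C * L ^ (CV + 1)) * ((X : ℝ) ^ (e / 4) * (X * k0))
      ≤ (X : ℝ) ^ (e / 4) * ((X : ℝ) ^ (e / 4) * (X * k0)) :=
        mul_le_mul_of_nonneg_right hXb (by positivity)
    _ = (X : ℝ) ^ (e / 4 + (e / 4 + (1 + (1 - th) / 2))) := by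
        rw [Real.rpow_add hXp, Real.rpow_add hXp, Real.rpow_add hXp 1, Real.rpow_one, hk0]
    _ ≤ (X : ℝ) ^ (1 + (1 - th) / 2 + e) :=
        Real.rpow_le_rpow_of_exponent_le hX1' (by linarith)

end Pool.MP_dd84fd_nt.IX
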