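import Pool.Agent.Lib.MP_dd84fd_nt.IX.KsKer
import Pool.Agent.Lib.MP_dd84fd_nt.IX.KsRB
import Pool.Agent.Lib.MP_dd84fd_nt.IX.KsRelS
import Pool.Agent.Lib.MP_dd84fd_nt.HX.KsNorm
import Pool.Agent.Lib.MP_dd84fd_nt.GX.TIIexp

/-!
# IX-KsTII (0.9 h): type II bound, main part

Copy the proof of `HX.tii_main` (`HX/KsTII.lean`). `GX.typeII_exp`: `‖.‖² ≤ M (1/G)² Σ ‖x_j‖‖x_j'‖ Bker`, `ker_i`, `δ = dl th e`; `S1 = nm1 x ≤ L^CV (X|E|)^(1/2)` (`norms_h`), `(1/G)² Σ Σ ‖x_j‖‖x_j'‖ = S1²`. `M N ≤ X`, `yA/2 ≤ N ≤ yB`, `M ≤ 2X/yA = 2X^((1+th)/2-4e)`.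
* `M N² S1² ≤ X yB L^(2CV) X |E| = X^(2+th-3e) L^(2CV) |E| ≤ X^(2-2e) L^(2CV) |E|²`.
* `M (N X/y3) S1² ≤ (X²/y3) L^(2CV) X|E|`, `X/y3 = yB`: the same.
* `M X^((1+th)/2) S1² ≤ 2 X^(1+th-4e) L^(2CV) X |E|`: smaller.
* `M N X (1/G)² Σ ‖x‖‖x'‖ Res ≤ X² X^(-3η/4) |E|²` (`res_bound2`).
* `M (1/G)² Σ ‖x‖‖x'‖ RkI ≤ 2 X^((1+th)/2-4e) X^(1+(1-th)/2+e) |E|² = 2 X^(2-3e) |E|²` (`rel_sum_i`).
Total times `C L`: `≤ X^(2-η/2) |E|²` for large `X` (`η ≤ e`); square root.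
-/

set_option autoImplicit false

namespace Pool.MP_dd84fd_nt.IX

open Finset Pool.MP_67663b_nt.Odd Pool.MP_dd84fd_nt.En Pool.MP_dd84fd_nt.E2 Pool.MP_dd84fd_nt.LS
open Pool.MP_dd84fd_nt.L2G (nrm)
open Pool.MP_dd84fd_nt.GX Pool.MP_dd84fd_nt.HX

private theorem tii_split_m {ι : Type} (s : Finset ι) (A R1 R2 : ι → ι → ℝ) (g c p q : ℝ) :
    g * ∑ j ∈ s, ∑ j' ∈ s, A j j' * (c * (p + q * R1 j j' + R2 j j')) =
      c * (p * (g * ∑ j ∈ s, ∑ j' ∈ s, A j j') + q * (g * ∑ j ∈ s, ∑ j' ∈ s, A j j' * R1 j j') +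
        g * ∑ j ∈ s, ∑ j' ∈ s, A j j' * R2 j j') := by
  have h : ∀ j ∈ s, ∀ j' ∈ s, A j j' * (c * (p + q * R1 j j' + R2 j j')) =
      c * p * A j j' + c * q * (A j j' * R1 j j') + c * (A j j' * R2 j j') := by
    intro j _ j' _
    ring
  rw [Finset.sum_congr rfl fun j hj => Finset.sum_congr rfl fun j' hj' => h j hj j' hj']
  simp only [Finset.sum_add_distrib, ← Finset.mul_sum]
  ring

theorem tii_m (CV : ℕ) (th e η : ℝ) (hA : Adm th e) (hη : 0 < η) (hη' : η ≤ e) :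
    ∃ X0 : ℕ, ∀ X : ℕ, X0 ≤ X → ∀ (G : ℕ) [NeZero G], 3 * X ≤ G →
    ∀ V : ZMod G → ℂ, VBI G th e X CV V → ∀ ω : ZMod G → ℂ, (∀ j, ‖ω j‖ ≤ 1) → ∀ E : Finset ℕ,
    E ⊆ Icc 1 X → (X : ℝ) ^ (th - e) ≤ E.card → ∀ ph : ℕ → ℂ, (∀ n, ‖ph n‖ ≤ 1) →
    NoAPH G (dl th e) X ω E ((X : ℝ) ^ (-η)) →
    (∀ j, ω j ≠ 0 → ¬ Coi G (dl th e) X (PBI G th e X V) j) →
    TII2 th e X (FF G (xx G V ω E ph)) ((X : ℝ) ^ (1 - η / 4) * E.card) := by
  obtain ⟨C, hC, X1, hker⟩ := ker_i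
  obtain ⟨X2, hres⟩ := res_bound2 CV th e η hA hη hη'
  obtain ⟨X3, hrel⟩ := rel_sum_i CV th e hA
  obtain ⟨X4, hlog⟩ := E2.MP_log_pow (7 * C) (2 * CV + 1) (ε := η / 4) (by positivity)
  obtain ⟨hA1, hA2, hA3, hA4⟩ := id hA
  refine ⟨max (max X1 X2) (max X3 (max X4 8)), ?_⟩
  intro X hX G _ hG V hV ω hω E hE hEc ph hp hNo hCoi M N t a b ht ha hb hM hNU hN2 hMN
  have hX1 : X1 ≤ X := by omega
  have hX2 : X2 ≤ X := by omega
  have hX3 : X3 ≤ X := by omega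
  have hX4 : X4 ≤ X := by omega
  have hX8 : 8 ≤ X := by omega
  have hXr : (8 : ℝ) ≤ X := by exact_mod_cast hX8
  have hX0 : (0 : ℝ) < X := by linarith
  have hX1' : (1 : ℝ) ≤ X := by linarith
  -- logarithm
  set L : ℝ := Real.log X with hL
  have hL1 : 1 ≤ L := by
    rw [hL, Real.le_log_iff_exp_le hX0]
    have := Real.exp_one_lt_d9
    linarith
  have hL0 : 0 < L := by linarith
  -- N ≥ 1
  have hNr : (X : ℝ) ^ ((1 - th) / 2 + 4 * e) / 2 ≤ N := hNU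
  have hN0 : (0 : ℝ) < N := by
    have : 0 < (X : ℝ) ^ ((1 - th) / 2 + 4 * e) := by positivity
    linarith
  have hN1 : 1 ≤ N := by
    have : 0 < N := by exact_mod_cast hN0
    omega
  have hM0 : (0 : ℝ) < M := by exact_mod_cast hM
  have hMNr : (M : ℝ) * N ≤ X := by exact_mod_cast hMN
  -- the norms
  obtain ⟨hn1, hn2, -⟩ := norms_h X G CV (by omega) hG V ω hV.1 hω E hE ph hp
  set x := xx G V ω E ph with hx
  set S1 := nm1 G x with hS1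
  have hS1eq : (1 / (G : ℝ)) ^ 2 * ∑ j : ZMod G, ∑ j' : ZMod G, ‖x j‖ * ‖x j'‖ = S1 ^ 2 := by
    rw [hS1]
    unfold nm1
    rw [mul_pow, sq (∑ j : ZMod G, ‖x j‖), Finset.sum_mul_sum]
  have hS10 : 0 ≤ S1 := by rw [hS1]; unfold nm1; positivity
  have hEc0 : (0 : ℝ) ≤ E.card := by positivity
  have hS1sq : S1 ^ 2 ≤ L ^ (2 * CV) * ((X : ℝ) * E.card) := by
    calc S1 ^ 2 ≤ (L ^ CV * Real.sqrt ((X : ℝ) * E.card)) ^ 2 := pow_le_pow_left₀ hS10 hn1 2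
      _ = L ^ (2 * CV) * ((X : ℝ) * E.card) := by
          rw [mul_pow, Real.sq_sqrt (by positivity), ← pow_mul, mul_comm CV 2]
  have hy3 : 0 < y3 (dl th e) X := by unfold y3; positivity
  -- kernel
  have hexp := typeII_exp G x M N t a b ha hb
  have hsum : (1 / (G : ℝ)) ^ 2 * ∑ j : ZMod G, ∑ j' : ZMod G,
      ‖x j‖ * ‖x j'‖ * Bker M N (al G j) (al G j') ≤
      C * L * (((N : ℝ) ^ 2 + N * X / y3 (dl th e) X + (X : ℝ) ^ ((1 + th) / 2)) * S1 ^ 2 +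
        N * X * ((X : ℝ) ^ (-(3 / 4 * η)) * (E.card : ℝ) ^ 2) +
        (X : ℝ) ^ (1 + (1 - th) / 2 + e) * (E.card : ℝ) ^ 2) := by
    have h1 : (1 / (G : ℝ)) ^ 2 * ∑ j : ZMod G, ∑ j' : ZMod G,
        ‖x j‖ * ‖x j'‖ * Bker M N (al G j) (al G j') ≤
        (1 / (G : ℝ)) ^ 2 * ∑ j : ZMod G, ∑ j' : ZMod G,
        ‖x j‖ * ‖x j'‖ * (C * L * ((N : ℝ) ^ 2 + N * X / y3 (dl th e) X +
          (X : ℝ) ^ ((1 + th) / 2) +
          N * X * Res (dl th e) X (al G j) (al G j') + RkI th X (al G j) (al G j'))) := by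
      refine mul_le_mul_of_nonneg_left (Finset.sum_le_sum fun j _ => Finset.sum_le_sum fun j' _ =>
        mul_le_mul_of_nonneg_left (hker X hX1 th e hA M N hM hN1 hMN _ _) (by positivity))
        (by positivity)
    rw [tii_split_m univ (fun j j' => ‖x j‖ * ‖x j'‖)
      (fun j j' => Res (dl th e) X (al G j) (al G j'))
      (fun j j' => RkI th X (al G j) (al G j')), hS1eq] at h1
    refine h1.trans (mul_le_mul_of_nonneg_left (add_le_add (add_le_add le_rfl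
      (mul_le_mul_of_nonneg_left
        (hres X hX2 G hG V hV ω hω E hE hEc ph hp hNo hCoi) (by positivity)))
      (hrel X hX3 G hG V hV.1 ω hω E hE hEc ph hp)) (by positivity))
  -- powers of X
  have hEge : (X : ℝ) ^ (2 + th - 3 * e) * E.card ≤ (X : ℝ) ^ (2 - 3 / 4 * η) * (E.card : ℝ) ^ 2 := by
    calc (X : ℝ) ^ (2 + th - 3 * e) * E.card
        = (X : ℝ) ^ (2 - 2 * e) * (X : ℝ) ^ (th - e) * E.card := by
          rw [← Real.rpow_add hX0]; congr 2; ring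
      _ ≤ (X : ℝ) ^ (2 - 3 / 4 * η) * E.card * E.card := by
          refine mul_le_mul_of_nonneg_right (mul_le_mul (Real.rpow_le_rpow_of_exponent_le hX1'
            (by linarith)) hEc (by positivity) (by positivity)) hEc0
      _ = _ := by ring
  have hNy : (N : ℝ) ≤ (X : ℝ) ^ (th - 3 * e) := hN2
  have hM2 : (M : ℝ) ≤ 2 * (X : ℝ) ^ ((1 + th) / 2 - 4 * e) := by
    have h1 : (M : ℝ) * ((X : ℝ) ^ ((1 - th) / 2 + 4 * e) / 2) ≤ X :=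
      (mul_le_mul_of_nonneg_left hNr hM0.le).trans hMNr
    have h2 : (X : ℝ) = (X : ℝ) ^ ((1 + th) / 2 - 4 * e) * (X : ℝ) ^ ((1 - th) / 2 + 4 * e) := by
      rw [← Real.rpow_add hX0]
      rw [show (1 + th) / 2 - 4 * e + ((1 - th) / 2 + 4 * e) = 1 by ring, Real.rpow_one]
    have h3 : 0 < (X : ℝ) ^ ((1 - th) / 2 + 4 * e) := by positivity
    have h4 : (M : ℝ) * (X : ℝ) ^ ((1 - th) / 2 + 4 * e) ≤
        2 * (X : ℝ) ^ ((1 + th) / 2 - 4 * e) * (X : ℝ) ^ ((1 - th) / 2 + 4 * e) := by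
      rw [mul_assoc, ← h2]
      linarith
    exact le_of_mul_le_mul_right h4 h3
  have hT1 : (M : ℝ) * ((N : ℝ) ^ 2 * S1 ^ 2) ≤
      L ^ (2 * CV) * ((X : ℝ) ^ (2 + th - 3 * e) * E.card) := by
    calc (M : ℝ) * ((N : ℝ) ^ 2 * S1 ^ 2) = (M * N) * N * S1 ^ 2 := by ring
      _ ≤ X * (X : ℝ) ^ (th - 3 * e) * (L ^ (2 * CV) * ((X : ℝ) * E.card)) := by
          refine mul_le_mul (mul_le_mul hMNr hNy hN0.le hX0.le) hS1sq (by positivity)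
            (by positivity)
      _ = L ^ (2 * CV) * ((X : ℝ) ^ (2 : ℝ) * (X : ℝ) ^ (th - 3 * e) * E.card) := by
          rw [Real.rpow_two]; ring
      _ = _ := by rw [← Real.rpow_add hX0]; congr 3; ring
  have hT2 : (M : ℝ) * (N * X / y3 (dl th e) X * S1 ^ 2) ≤
      L ^ (2 * CV) * ((X : ℝ) ^ (2 + th - 3 * e) * E.card) := by
    have h1 : (X : ℝ) / y3 (dl th e) X = (X : ℝ) ^ (th - 3 * e) := by
      rw [y3_dl]
      nth_rewrite 1 [← Real.rpow_one (X : ℝ)]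
      rw [← Real.rpow_sub hX0]
      congr 1
      ring
    calc (M : ℝ) * (N * X / y3 (dl th e) X * S1 ^ 2) =
          (M * N) * (X / y3 (dl th e) X) * S1 ^ 2 := by ring
      _ ≤ X * (X : ℝ) ^ (th - 3 * e) * (L ^ (2 * CV) * ((X : ℝ) * E.card)) := by
          rw [h1]
          refine mul_le_mul (mul_le_mul_of_nonneg_right hMNr (by positivity)) hS1sq
            (by positivity) (by positivity)
      _ = L ^ (2 * CV) * ((X : ℝ) ^ (2 : ℝ) * (X : ℝ) ^ (th - 3 * e) * E.card) := by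
          rw [Real.rpow_two]; ring
      _ = _ := by rw [← Real.rpow_add hX0]; congr 3; ring
  have hT3 : (M : ℝ) * ((X : ℝ) ^ ((1 + th) / 2) * S1 ^ 2) ≤
      2 * L ^ (2 * CV) * ((X : ℝ) ^ (2 + th - 3 * e) * E.card) := by
    calc (M : ℝ) * ((X : ℝ) ^ ((1 + th) / 2) * S1 ^ 2)
        ≤ 2 * (X : ℝ) ^ ((1 + th) / 2 - 4 * e) *
          ((X : ℝ) ^ ((1 + th) / 2) * (L ^ (2 * CV) * ((X : ℝ) * E.card))) :=
          mul_le_mul hM2 (mul_le_mul_of_nonneg_left hS1sq (by positivity)) (by positivity)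
            (by positivity)
      _ = 2 * L ^ (2 * CV) * ((X : ℝ) ^ ((1 + th) / 2 - 4 * e) * (X : ℝ) ^ ((1 + th) / 2) *
          (X : ℝ) ^ (1 : ℝ) * E.card) := by rw [Real.rpow_one]; ring
      _ ≤ _ := by
          rw [← Real.rpow_add hX0, ← Real.rpow_add hX0]
          refine mul_le_mul_of_nonneg_left (mul_le_mul_of_nonneg_right
            (Real.rpow_le_rpow_of_exponent_le hX1' (by linarith)) (by positivity)) (by positivity)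
  have hT4 : (M : ℝ) * (N * X * ((X : ℝ) ^ (-(3 / 4 * η)) * (E.card : ℝ) ^ 2)) ≤
      (X : ℝ) ^ (2 - 3 / 4 * η) * (E.card : ℝ) ^ 2 := by
    calc (M : ℝ) * (N * X * ((X : ℝ) ^ (-(3 / 4 * η)) * (E.card : ℝ) ^ 2))
        = (M * N) * (X * ((X : ℝ) ^ (-(3 / 4 * η)) * (E.card : ℝ) ^ 2)) := by ring
      _ ≤ X * (X * ((X : ℝ) ^ (-(3 / 4 * η)) * (E.card : ℝ) ^ 2)) :=
          mul_le_mul_of_nonneg_right hMNr (by positivity)
      _ = (X : ℝ) ^ (2 : ℝ) * (X : ℝ) ^ (-(3 / 4 * η)) * (E.card : ℝ) ^ 2 := by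
          rw [Real.rpow_two]; ring
      _ = _ := by rw [← Real.rpow_add hX0]; congr 2
  have hT5 : (M : ℝ) * ((X : ℝ) ^ (1 + (1 - th) / 2 + e) * (E.card : ℝ) ^ 2) ≤
      2 * ((X : ℝ) ^ (2 - 3 / 4 * η) * (E.card : ℝ) ^ 2) := by
    calc (M : ℝ) * ((X : ℝ) ^ (1 + (1 - th) / 2 + e) * (E.card : ℝ) ^ 2)
        ≤ 2 * (X : ℝ) ^ ((1 + th) / 2 - 4 * e) *
          ((X : ℝ) ^ (1 + (1 - th) / 2 + e) * (E.card : ℝ) ^ 2) :=
          mul_le_mul_of_nonneg_right hM2 (by positivity)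
      _ = 2 * ((X : ℝ) ^ ((1 + th) / 2 - 4 * e) * (X : ℝ) ^ (1 + (1 - th) / 2 + e) *
          (E.card : ℝ) ^ 2) := by ring
      _ ≤ 2 * ((X : ℝ) ^ (2 - 3 / 4 * η) * (E.card : ℝ) ^ 2) := by
          rw [← Real.rpow_add hX0]
          refine mul_le_mul_of_nonneg_left (mul_le_mul_of_nonneg_right
            (Real.rpow_le_rpow_of_exponent_le hX1' (by linarith)) (by positivity)) (by positivity)
  set Z : ℝ := (X : ℝ) ^ (2 - 3 / 4 * η) * (E.card : ℝ) ^ 2 with hZ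
  have hZ0 : 0 ≤ Z := by rw [hZ]; positivity
  have hL2 : 1 ≤ L ^ (2 * CV) := one_le_pow₀ hL1
  have hfin : ‖∑ l ∈ Ioc M (2 * M), ∑ s ∈ (Ioc N (2 * N)).filter (fun s => l * s ≤ t),
      a l * b s * FF G x (l * s)‖ ^ 2 ≤ ((X : ℝ) ^ (1 - η / 4) * E.card) ^ 2 := by
    have hstep : (M : ℝ) * (C * L * (((N : ℝ) ^ 2 + N * X / y3 (dl th e) X +
        (X : ℝ) ^ ((1 + th) / 2)) *
        S1 ^ 2 + N * X * ((X : ℝ) ^ (-(3 / 4 * η)) * (E.card : ℝ) ^ 2) +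
        (X : ℝ) ^ (1 + (1 - th) / 2 + e) * (E.card : ℝ) ^ 2)) ≤
        7 * C * L ^ (2 * CV + 1) * Z := by
      have e1 : (M : ℝ) * (C * L * (((N : ℝ) ^ 2 + N * X / y3 (dl th e) X +
        (X : ℝ) ^ ((1 + th) / 2)) *
        S1 ^ 2 + N * X * ((X : ℝ) ^ (-(3 / 4 * η)) * (E.card : ℝ) ^ 2) +
        (X : ℝ) ^ (1 + (1 - th) / 2 + e) * (E.card : ℝ) ^ 2)) =
        C * L * ((M : ℝ) * ((N : ℝ) ^ 2 * S1 ^ 2) + (M : ℝ) * (N * X / y3 (dl th e) X * S1 ^ 2) +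
          (M : ℝ) * ((X : ℝ) ^ ((1 + th) / 2) * S1 ^ 2) +
          (M : ℝ) * (N * X * ((X : ℝ) ^ (-(3 / 4 * η)) * (E.card : ℝ) ^ 2)) +
          (M : ℝ) * ((X : ℝ) ^ (1 + (1 - th) / 2 + e) * (E.card : ℝ) ^ 2)) := by ring
      rw [e1]
      have e2 : 7 * C * L ^ (2 * CV + 1) * Z = C * L * (7 * L ^ (2 * CV) * Z) := by
        rw [pow_succ]; ring
      rw [e2]
      refine mul_le_mul_of_nonneg_left ?_ (by positivity)
      have f1 : L ^ (2 * CV) * ((X : ℝ) ^ (2 + th - 3 * e) * E.card) ≤ L ^ (2 * CV) * Z :=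
        mul_le_mul_of_nonneg_left hEge (by positivity)
      have f3 : 1 * Z ≤ L ^ (2 * CV) * Z := mul_le_mul_of_nonneg_right hL2 hZ0
      linarith
    refine hexp.trans ((mul_le_mul_of_nonneg_left hsum hM0.le).trans (hstep.trans ?_))
    calc 7 * C * L ^ (2 * CV + 1) * Z ≤ (X : ℝ) ^ (η / 4) * Z :=
          mul_le_mul_of_nonneg_right (hlog X hX4) hZ0
      _ = (X : ℝ) ^ (2 - η / 2) * (E.card : ℝ) ^ 2 := by
          rw [hZ, ← mul_assoc, ← Real.rpow_add hX0]; congr 2; ring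
      _ = ((X : ℝ) ^ (1 - η / 4) * E.card) ^ 2 := by
          rw [mul_pow, ← Real.rpow_natCast ((X : ℝ) ^ (1 - η / 4)) 2, ← Real.rpow_mul hX0.le]
          congr 2
          push_cast
          ring
  exact le_of_sq_le_sq hfin (by positivity)

end Pool.MP_dd84fd_nt.IX
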