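import Pool.Agent.Lib.MP_dd84fd_nt.IX.KsBad
import Pool.Agent.Lib.MP_dd84fd_nt.HX.KsTIIc

/-!
# IX-KsTIIo (0.7 h): type II bound on the coincidence set

Copy the proof of `HX.tii_cc` (`HX/KsTIIc.lean`). `x_j ≠ 0` only if `ω_j ≠ 0`, so `j ∈ O` (`Coi`), two elements of `Apd`, `ht ≥ X/(4 y3)` (`HX.apd_ht`), `‖V_j‖ ≤ X^((3+th)/4)` (`VBI`), `‖x_j‖ ≤ X^((3+th)/4) |E|`.
Exchange: the sum is `(1/G) Σ_j x_j (type II sum of χ)`; `HX.typeII_pt`: `‖.‖² ≤ C L X (M + N + X/ht)`, `M ≤ X/N ≤ 2X/yA = 2 X^((1+th)/2-4e)`, `N ≤ X^th`, `X/ht ≤ 4 y3 = 4 X^(1-th+3e)`: all `≤ 4 X^((1+th)/2)` (`1 - th + 3e ≤ (1+th)/2` as `th > 2/5`),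
so `‖.‖ ≤ X^((3+th)/4 + e)`. With `bad_coi`: total `≤ X^(-2th+11e) X^((3+th)/4)|E| X^((3+th)/4+e) = X^(3/2-3th/2+12e)|E| ≤ X^(9/10+12e)|E| ≤ X^(1-e)|E|`.
-/

set_option autoImplicit false

namespace Pool.MP_dd84fd_nt.IX

open Finset Pool.MP_67663b_nt.Odd Pool.MP_dd84fd_nt.En Pool.MP_dd84fd_nt.E2 Pool.MP_dd84fd_nt.LS
open Pool.MP_dd84fd_nt.L2G (nrm)
open Pool.MP_dd84fd_nt.GX Pool.MP_dd84fd_nt.HX

private theorem tiio_expand (G : ℕ) [NeZero G] (x : ZMod G → ℂ) (M N t : ℕ) (a b : ℕ → ℂ) :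
    ∑ l ∈ Ioc M (2 * M), ∑ s ∈ (Ioc N (2 * N)).filter (fun s => l * s ≤ t),
      a l * b s * FF G x (l * s) =
    (1 / (G : ℂ)) * ∑ j : ZMod G, x j * ∑ l ∈ Ioc M (2 * M),
      ∑ s ∈ (Ioc N (2 * N)).filter (fun s => l * s ≤ t),
      a l * b s * ZMod.stdAddChar (((l * s : ℕ) : ZMod G) * j) := by
  unfold FF
  have h1 : ∀ j : ZMod G, x j * ∑ l ∈ Ioc M (2 * M),
      ∑ s ∈ (Ioc N (2 * N)).filter (fun s => l * s ≤ t),
      a l * b s * ZMod.stdAddChar (((l * s : ℕ) : ZMod G) * j) =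
      ∑ l ∈ Ioc M (2 * M), ∑ s ∈ (Ioc N (2 * N)).filter (fun s => l * s ≤ t),
      x j * (a l * b s * ZMod.stdAddChar (((l * s : ℕ) : ZMod G) * j)) := by
    intro j
    rw [mul_sum]
    refine sum_congr rfl fun l _ => ?_
    rw [mul_sum]
  simp_rw [h1]
  rw [sum_comm, mul_sum]
  refine sum_congr rfl fun l _ => ?_
  rw [sum_comm, mul_sum]
  refine sum_congr rfl fun s _ => ?_
  rw [mul_sum, mul_sum, mul_sum]
  refine sum_congr rfl fun j _ => ?_
  ring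

theorem tii_o (CV : ℕ) (th e : ℝ) (hA : Adm th e) : ∃ X0 : ℕ, ∀ X : ℕ,
    X0 ≤ X → ∀ (G : ℕ) [NeZero G], 3 * X ≤ G →
    ∀ V : ZMod G → ℂ, VBI G th e X CV V → ∀ ω : ZMod G → ℂ, (∀ j, ‖ω j‖ ≤ 1) → ∀ E : Finset ℕ,
    E ⊆ Icc 1 X → ∀ ph : ℕ → ℂ, (∀ n, ‖ph n‖ ≤ 1) →
    (∀ j, ω j ≠ 0 → Coi G (dl th e) X (PBI G th e X V) j) →
    TII2 th e X (FF G (xx G V ω E ph)) ((X : ℝ) ^ (1 - e) * E.card) := by
  classical
  obtain ⟨hdl0, hdl1, he0, he1, ht1, ht2, het⟩ := par_i th e hA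
  obtain ⟨C, hC, X1, h1⟩ := typeII_pt
  obtain ⟨X3, h3⟩ := bad_coi CV th e hA
  obtain ⟨X4, h4⟩ := MP_log_pow (3 * Real.sqrt C) 1 he0
  refine ⟨max X1 (max (max X3 X4) 64), ?_⟩
  intro X hX G _ hG V hV ω hω E hE ph hph hCoi M N t a b htX ha hb hM hN1 hN2 hMN
  have hX1 : X1 ≤ X := le_trans (le_max_left _ _) hX
  have hX3 : X3 ≤ X :=
    le_trans (le_trans (le_trans (le_max_left _ _) (le_max_left _ _)) (le_max_right _ _)) hX
  have hX4 : X4 ≤ X :=
    le_trans (le_trans (le_trans (le_max_right _ _) (le_max_left _ _)) (le_max_right _ _)) hX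
  have hX64 : 64 ≤ X := le_trans (le_trans (le_max_right _ _) (le_max_right _ _)) hX
  have hXr : (64 : ℝ) ≤ X := by exact_mod_cast hX64
  have hX0 : (0 : ℝ) < X := by linarith
  have hX1r : (1 : ℝ) ≤ X := by linarith
  have hL : 1 ≤ Real.log X := by
    rw [Real.le_log_iff_exp_le hX0]
    linarith [Real.exp_one_lt_d9]
  have hL0 : 0 ≤ Real.log X := by linarith
  -- the size of `N`
  have hyApos : 0 < yA th e X := by
    unfold yA
    exact Real.rpow_pos_of_pos hX0 _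
  have hNpos : 1 ≤ N := by
    have h5 : (0 : ℝ) < N := by linarith
    exact_mod_cast h5
  set Y : ℝ := (X : ℝ) ^ ((1 + th) / 2) with hY
  have hY0 : 0 < Y := Real.rpow_pos_of_pos hX0 _
  have hMN' : (M : ℝ) * N ≤ X := by exact_mod_cast hMN
  have hM0 : (0 : ℝ) ≤ M := Nat.cast_nonneg _
  have hYA : (X : ℝ) ≤ yA th e X * Y := by
    unfold yA
    rw [hY, ← Real.rpow_add hX0]
    calc (X : ℝ) = (X : ℝ) ^ (1 : ℝ) := (Real.rpow_one _).symm
      _ ≤ _ := Real.rpow_le_rpow_of_exponent_le hX1r (by linarith)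
  have hMup : (M : ℝ) ≤ 2 * Y := by
    have h5 : (M : ℝ) * (yA th e X / 2) ≤ X :=
      le_trans (mul_le_mul_of_nonneg_left hN1 hM0) hMN'
    have h6 : (M : ℝ) * yA th e X ≤ 2 * Y * yA th e X := by nlinarith
    exact le_of_mul_le_mul_right h6 hyApos
  have hNup : (N : ℝ) ≤ Y := by
    refine le_trans hN2 ?_
    unfold yB
    exact Real.rpow_le_rpow_of_exponent_le hX1r (by linarith)
  have hy3 : y3 (dl th e) X ≤ Y := by
    rw [y3_dl]
    exact Real.rpow_le_rpow_of_exponent_le hX1r (by linarith)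
  have hy3pos : 0 < y3 (dl th e) X := by
    rw [y3_dl]
    exact Real.rpow_pos_of_pos hX0 _
  -- the pointwise bound
  set Q : ℝ := (X : ℝ) ^ ((3 + th) / 4) with hQ
  have hQ0 : 0 < Q := Real.rpow_pos_of_pos hX0 _
  have hQQ : Q ^ 2 = (X : ℝ) * Y := by
    rw [hQ, hY, ← Real.rpow_natCast, ← Real.rpow_mul hX0.le]
    have h6 : (X : ℝ) * (X : ℝ) ^ ((1 + th) / 2) = (X : ℝ) ^ (1 + (1 + th) / 2) := by
      rw [Real.rpow_add hX0, Real.rpow_one]
    rw [h6]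
    congr 1
    push_cast
    ring
  set B : ℝ := 3 * Real.sqrt C * Real.log X * Q with hB
  have hB0 : 0 ≤ B := by
    rw [hB]
    have := Real.sqrt_nonneg C
    positivity
  have hBsq : B ^ 2 = 9 * C * (Real.log X) ^ 2 * (X : ℝ) * Y := by
    have h7 : Real.sqrt C ^ 2 = C := Real.sq_sqrt hC.le
    rw [hB, mul_pow, mul_pow, mul_pow, hQQ, h7]
    ring
  have hht : ∀ j : ZMod G, ω j ≠ 0 →
      (X : ℝ) / (4 * y3 (dl th e) X) ≤ GX.ht X (al G j) := by
    intro j hj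
    obtain ⟨d, -, d', -, hne, hd, hd'⟩ := hCoi j hj
    exact apd_ht (dl th e) hdl0.le X (by omega) (al G j) d d' hd hd' hne
  have hS : ∀ j : ZMod G, ω j ≠ 0 → ‖∑ l ∈ Ioc M (2 * M),
      ∑ s ∈ (Ioc N (2 * N)).filter (fun s => l * s ≤ t),
      a l * b s * ZMod.stdAddChar (((l * s : ℕ) : ZMod G) * j)‖ ≤ B := by
    intro j hj
    have h5 := hht j hj
    have h6 := h1 X hX1 G j M N t a b ha hb hM hNpos hMN
    have hhtpos : 0 < GX.ht X (al G j) := lt_of_lt_of_le (by positivity) h5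
    have h7 : (X : ℝ) / GX.ht X (al G j) ≤ 4 * Y := by
      rw [div_le_iff₀ hhtpos]
      rw [div_le_iff₀ (by positivity)] at h5
      nlinarith
    have h8 : (M : ℝ) + N + (X : ℝ) / GX.ht X (al G j) ≤ 9 * Y := by linarith
    have h9 : C * Real.log X * X * (M + N + (X : ℝ) / GX.ht X (al G j)) ≤ B ^ 2 := by
      rw [hBsq]
      have h10 : C * Real.log X * X * (M + N + (X : ℝ) / GX.ht X (al G j)) ≤
          C * Real.log X * X * (9 * Y) :=
        mul_le_mul_of_nonneg_left h8 (by positivity)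
      refine le_trans h10 ?_
      have h11 : C * Real.log X * X * (9 * Y) * 1 ≤
          C * Real.log X * X * (9 * Y) * Real.log X :=
        mul_le_mul_of_nonneg_left hL (by positivity)
      calc C * Real.log X * X * (9 * Y)
          = C * Real.log X * X * (9 * Y) * 1 := by ring
        _ ≤ C * Real.log X * X * (9 * Y) * Real.log X := h11
        _ = _ := by ring
    exact (pow_le_pow_iff_left₀ (norm_nonneg _) hB0 two_ne_zero).1 (h6.trans h9)
  have hnorm : ∀ j : ZMod G, ω j ≠ 0 → ‖xx G V ω E ph j‖ ≤ Q * E.card := by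
    intro j hj
    have h5 := hV.2 j (hht j hj)
    have h6 := ke_sup G E ph hph j
    unfold xx
    rw [norm_mul, norm_mul]
    have h7 : ‖ω j‖ * ‖V j‖ ≤ 1 * Q := mul_le_mul (hω j) h5 (norm_nonneg _) zero_le_one
    rw [one_mul] at h7
    exact mul_le_mul h7 h6 (norm_nonneg _) hQ0.le
  have hE0 : (0 : ℝ) ≤ E.card := Nat.cast_nonneg _
  set W : ℝ := Q * E.card with hW
  have hW0 : 0 ≤ W := by
    rw [hW]
    exact mul_nonneg hQ0.le hE0
  have hWB0 : 0 ≤ W * B := mul_nonneg hW0 hB0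
  rw [tiio_expand]
  have hGpos : (0 : ℝ) < G := by
    have : 0 < G := by omega
    exact_mod_cast this
  have hcount := h3 X hX3 G hG V hV
  set J := (univ : Finset (ZMod G)).filter (fun j => Coi G (dl th e) X (PBI G th e X V) j) with hJ
  have hsum : ‖∑ j : ZMod G, xx G V ω E ph j * ∑ l ∈ Ioc M (2 * M),
      ∑ s ∈ (Ioc N (2 * N)).filter (fun s => l * s ≤ t),
      a l * b s * ZMod.stdAddChar (((l * s : ℕ) : ZMod G) * j)‖ ≤ J.card * (W * B) := by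
    refine (norm_sum_le _ _).trans ?_
    have h5 : ∀ j : ZMod G, ‖xx G V ω E ph j * ∑ l ∈ Ioc M (2 * M),
        ∑ s ∈ (Ioc N (2 * N)).filter (fun s => l * s ≤ t),
        a l * b s * ZMod.stdAddChar (((l * s : ℕ) : ZMod G) * j)‖ ≤
        if Coi G (dl th e) X (PBI G th e X V) j then W * B else 0 := by
      intro j
      by_cases hj : ω j = 0
      · have h6 : xx G V ω E ph j = 0 := by
          unfold xx
          rw [hj, zero_mul, zero_mul]
        rw [h6, zero_mul, norm_zero]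
        split_ifs
        · exact hWB0
        · exact le_rfl
      · rw [if_pos (hCoi j hj), norm_mul]
        exact mul_le_mul (hnorm j hj) (hS j hj) (norm_nonneg _) hW0
    refine (sum_le_sum fun j _ => h5 j).trans ?_
    rw [← sum_filter, sum_const, nsmul_eq_mul]
  rw [norm_mul]
  have hG1 : ‖(1 / (G : ℂ))‖ = 1 / (G : ℝ) := by
    rw [norm_div, norm_one, Complex.norm_natCast]
  rw [hG1]
  have h5 : 1 / (G : ℝ) * ‖∑ j : ZMod G, xx G V ω E ph j * ∑ l ∈ Ioc M (2 * M),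
      ∑ s ∈ (Ioc N (2 * N)).filter (fun s => l * s ≤ t),
      a l * b s * ZMod.stdAddChar (((l * s : ℕ) : ZMod G) * j)‖ ≤
      (X : ℝ) ^ (-(2 * th) + 11 * e) * (W * B) := by
    refine (mul_le_mul_of_nonneg_left hsum (by positivity)).trans ?_
    rw [← mul_assoc]
    exact mul_le_mul_of_nonneg_right hcount hWB0
  refine h5.trans ?_
  have h6 := h4 X hX4
  rw [pow_one] at h6
  have h7 : (X : ℝ) ^ (-(2 * th) + 11 * e) * (W * B) =
      (3 * Real.sqrt C * Real.log X) *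
        ((X : ℝ) ^ (-(2 * th) + 11 * e) * (X : ℝ) ^ ((3 + th) / 4) * (X : ℝ) ^ ((3 + th) / 4)) *
          E.card := by
    rw [hW, hB]
    ring
  rw [h7, ← Real.rpow_add hX0, ← Real.rpow_add hX0]
  refine mul_le_mul_of_nonneg_right ?_ hE0
  calc (3 * Real.sqrt C * Real.log X) *
        (X : ℝ) ^ (-(2 * th) + 11 * e + (3 + th) / 4 + (3 + th) / 4)
      ≤ (X : ℝ) ^ e * (X : ℝ) ^ (-(2 * th) + 11 * e + (3 + th) / 4 + (3 + th) / 4) :=
        mul_le_mul_of_nonneg_right h6 (by positivity)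
    _ = (X : ℝ) ^ (e + (-(2 * th) + 11 * e + (3 + th) / 4 + (3 + th) / 4)) :=
        (Real.rpow_add hX0 _ _).symm
    _ ≤ (X : ℝ) ^ (1 - e) := Real.rpow_le_rpow_of_exponent_le hX1r (by linarith)

end Pool.MP_dd84fd_nt.IX
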