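import Pool.Agent.Lib.MP_dd84fd_nt.IX.KsTI
import Pool.Agent.Lib.MP_dd84fd_nt.IX.KsTII
import Pool.Agent.Lib.MP_dd84fd_nt.IX.KsTIIo
import Pool.Agent.Lib.MP_dd84fd_nt.HX.StFin

/-!
# IX-StFin (0.9 h): the structure theorem

Copy `HX/StFin.lean`. `pair_i`: exchange of sums as in `HX.pair_h`. `tii_i`: split `ω = ω' + ω''`, `ω'' = ω` on the set where `Coi G (dl th e) X (PBI G th e X V) j`, `0` elsewhere; `xx`, `FF` are additive in `ω`; `tii_m` for `ω'`
(`NoAPH` is inherited by `ω'`: its support is smaller), `tii_o` for `ω''`; `X^(1-η/4) + X^(1-e) ≤ X^(1-η/8)` for large `X`.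
`st_i`: `RedI` with `A + 1`, `F = FF x`; `B1 = X^(1-η/8)|E|`, `B2` the same (`ti_i`: `X^(1-η/4) ≤ X^(1-η/8)`), `B3 = |E| (X L^CV)^(1/2)` (`Σ_{n ≤ X} ‖F n‖² ≤ nm2 x`: `GX/FFb`, `norms_h`), `B4 = nm1 x ≤ L^CV (X|E|)^(1/2)`;
`L^C √X B4 ≤ L^(C+CV) X |E|^(1/2) ≤ X|E|/(4 L^A)` as `|E| ≥ X^(th-e) ≥ X^(1/4)`; `√X B3 / L^A' = X |E| L^(CV/2) / L^A'`: so apply `RedI` with `A' = A + CV + 2` (`B` of `StI` is `B` of `RedI` for this `A'`).
-/

set_option autoImplicit false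

namespace Pool.MP_dd84fd_nt.IX

open Finset Pool.MP_67663b_nt.Odd Pool.MP_dd84fd_nt.En Pool.MP_dd84fd_nt.E2 Pool.MP_dd84fd_nt.LS
open Pool.MP_dd84fd_nt.L2G (nrm)
open Pool.MP_dd84fd_nt.GX Pool.MP_dd84fd_nt.HX

theorem pair_i (X G w : ℕ) [NeZero G] (ww gg : ℕ → ℕ → ℝ) (V ω : ZMod G → ℂ) (E : Finset ℕ)
    (ph : ℕ → ℂ) :
    ∑ n ∈ E, ph n * PhI G ww gg X w V ω n =
      ∑ n ∈ Icc 1 X, ((uI ww gg X w n : ℝ) : ℂ) * FF G (xx G V ω E ph) n := by
  have hL : ∑ n ∈ E, ph n * PhI G ww gg X w V ω n =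
      (1 / (G : ℂ)) * ∑ j : ZMod G, xx G V ω E ph j * tr G X (uI ww gg X w) j := by
    have h1 : ∀ n ∈ E, ph n * PhI G ww gg X w V ω n = (1 / (G : ℂ)) * ∑ j : ZMod G,
        (ω j * V j * tr G X (uI ww gg X w) j) * (ph n * ZMod.stdAddChar (-((n : ZMod G) * j))) := by
      intro n _
      unfold PhI
      rw [mul_left_comm, Finset.mul_sum]
      congr 1
      refine Finset.sum_congr rfl fun j _ => ?_
      ring
    rw [Finset.sum_congr rfl h1, ← Finset.mul_sum, Finset.sum_comm]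
    congr 1
    refine Finset.sum_congr rfl fun j _ => ?_
    rw [← Finset.mul_sum]
    unfold xx KE
    ring
  have hR : ∑ n ∈ Icc 1 X, ((uI ww gg X w n : ℝ) : ℂ) * FF G (xx G V ω E ph) n =
      (1 / (G : ℂ)) * ∑ j : ZMod G, xx G V ω E ph j * tr G X (uI ww gg X w) j := by
    have h1 : ∀ n ∈ Icc 1 X, ((uI ww gg X w n : ℝ) : ℂ) * FF G (xx G V ω E ph) n =
        (1 / (G : ℂ)) * ∑ j : ZMod G, xx G V ω E ph j *
          (((uI ww gg X w n : ℝ) : ℂ) * ZMod.stdAddChar ((n : ZMod G) * j)) := by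
      intro n _
      unfold FF
      rw [mul_left_comm, Finset.mul_sum]
      congr 1
      refine Finset.sum_congr rfl fun j _ => ?_
      ring
    rw [Finset.sum_congr rfl h1, ← Finset.mul_sum, Finset.sum_comm]
    congr 1
    refine Finset.sum_congr rfl fun j _ => ?_
    rw [← Finset.mul_sum]
    rfl
  rw [hL, hR]

private theorem stfin_split (G : ℕ) [NeZero G] (V ω ω1 ω2 : ZMod G → ℂ) (h : ∀ j, ω j = ω1 j + ω2 j)
    (E : Finset ℕ) (e : ℕ → ℂ) (n : ℕ) :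
    FF G (xx G V ω E e) n = FF G (xx G V ω1 E e) n + FF G (xx G V ω2 E e) n := by
  unfold FF xx
  rw [← mul_add, ← Finset.sum_add_distrib]
  congr 1
  refine Finset.sum_congr rfl fun j _ => ?_
  rw [h j]
  ring

theorem tii_i (CV : ℕ) (th e η : ℝ) (hA : Adm th e) (hη : 0 < η) (hη' : η ≤ e) :
    ∃ X0 : ℕ, ∀ X : ℕ, X0 ≤ X → ∀ (G : ℕ) [NeZero G], 3 * X ≤ G →
    ∀ V : ZMod G → ℂ, VBI G th e X CV V → ∀ ω : ZMod G → ℂ, (∀ j, ‖ω j‖ ≤ 1) → ∀ E : Finset ℕ,
    E ⊆ Icc 1 X → (X : ℝ) ^ (th - e) ≤ E.card → ∀ ph : ℕ → ℂ, (∀ n, ‖ph n‖ ≤ 1) →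
    NoAPH G (dl th e) X ω E ((X : ℝ) ^ (-η)) →
    TII2 th e X (FF G (xx G V ω E ph)) ((X : ℝ) ^ (1 - η / 8) * E.card) := by
  classical
  obtain ⟨X1, hX1⟩ := tii_m CV th e η hA hη hη'
  obtain ⟨X2, hX2⟩ := tii_o CV th e hA
  obtain ⟨X3, hX3⟩ := MP_log_pow 2 0 (ε := η / 8) (by linarith)
  refine ⟨max (max X1 X2) (max X3 1), ?_⟩
  intro X hX G _ hG V hV ω hω E hE hcard ph he hN
  have hXX1 : X1 ≤ X := (le_max_left _ _).trans ((le_max_left _ _).trans hX)
  have hXX2 : X2 ≤ X := (le_max_right _ _).trans ((le_max_left _ _).trans hX)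
  have hXX3 : X3 ≤ X := (le_max_left _ _).trans ((le_max_right _ _).trans hX)
  have hXp : 1 ≤ X := (le_max_right _ _).trans ((le_max_right _ _).trans hX)
  have hX0 : (0 : ℝ) < X := by exact_mod_cast hXp
  have hX1r : (1 : ℝ) ≤ X := by exact_mod_cast hXp
  set ω1 : ZMod G → ℂ := fun j => if Coi G (dl th e) X (PBI G th e X V) j then 0 else ω j with hω1
  set ω2 : ZMod G → ℂ := fun j => if Coi G (dl th e) X (PBI G th e X V) j then ω j else 0 with hω2
  have h1 : ∀ j, ‖ω1 j‖ ≤ 1 := by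
    intro j
    rw [hω1]
    simp only
    split_ifs
    · simp
    · exact hω j
  have h2 : ∀ j, ‖ω2 j‖ ≤ 1 := by
    intro j
    rw [hω2]
    simp only
    split_ifs
    · exact hω j
    · simp
  have hs : ∀ j, ω j = ω1 j + ω2 j := by
    intro j
    rw [hω1, hω2]
    simp only
    split_ifs
    · simp
    · simp
  have hne1 : ∀ j, ω1 j ≠ 0 → ω j ≠ 0 ∧ ¬ Coi G (dl th e) X (PBI G th e X V) j := by
    intro j hj
    rw [hω1] at hj
    simp only at hj
    split_ifs at hj with hc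
    · exact absurd rfl hj
    · exact ⟨hj, hc⟩
  have hne2 : ∀ j, ω2 j ≠ 0 → Coi G (dl th e) X (PBI G th e X V) j := by
    intro j hj
    rw [hω2] at hj
    simp only at hj
    split_ifs at hj with hc
    · exact hc
    · exact absurd rfl hj
  have hN1 : NoAPH G (dl th e) X ω1 E ((X : ℝ) ^ (-η)) := fun j hj => hN j (hne1 j hj).1
  have hT1 := hX1 X hXX1 G hG V hV ω1 h1 E hE hcard ph he hN1 (fun j hj => (hne1 j hj).2)
  have hT2 := hX2 X hXX2 G hG V hV ω2 h2 E hE ph he hne2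
  intro M N t a b ht ha hb hM hN' hN'' hMN
  have hT1' := hT1 M N t a b ht ha hb hM hN' hN'' hMN
  have hT2' := hT2 M N t a b ht ha hb hM hN' hN'' hMN
  have hsum : ∑ l ∈ Ioc M (2 * M), ∑ s ∈ (Ioc N (2 * N)).filter (fun s => l * s ≤ t),
      a l * b s * FF G (xx G V ω E ph) (l * s) =
      ∑ l ∈ Ioc M (2 * M), ∑ s ∈ (Ioc N (2 * N)).filter (fun s => l * s ≤ t),
        a l * b s * FF G (xx G V ω1 E ph) (l * s) +
      ∑ l ∈ Ioc M (2 * M), ∑ s ∈ (Ioc N (2 * N)).filter (fun s => l * s ≤ t),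
        a l * b s * FF G (xx G V ω2 E ph) (l * s) := by
    rw [← Finset.sum_add_distrib]
    refine Finset.sum_congr rfl fun l _ => ?_
    rw [← Finset.sum_add_distrib]
    refine Finset.sum_congr rfl fun s _ => ?_
    rw [stfin_split G V ω ω1 ω2 hs E ph (l * s)]
    ring
  rw [hsum]
  refine (norm_add_le _ _).trans ((add_le_add hT1' hT2').trans ?_)
  have h3 : (X : ℝ) ^ (1 - e) ≤ (X : ℝ) ^ (1 - η / 4) :=
    Real.rpow_le_rpow_of_exponent_le hX1r (by linarith)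
  have h4 := hX3 X hXX3
  rw [pow_zero, mul_one] at h4
  have h5 : 2 * (X : ℝ) ^ (1 - η / 4) ≤ (X : ℝ) ^ (1 - η / 8) := by
    calc 2 * (X : ℝ) ^ (1 - η / 4) ≤ (X : ℝ) ^ (η / 8) * (X : ℝ) ^ (1 - η / 4) :=
          mul_le_mul_of_nonneg_right h4 (Real.rpow_nonneg hX0.le _)
      _ = (X : ℝ) ^ (1 - η / 8) := by
          rw [← Real.rpow_add hX0]
          congr 1
          ring
  have h6 : (0 : ℝ) ≤ E.card := Nat.cast_nonneg _
  calc (X : ℝ) ^ (1 - η / 4) * E.card + (X : ℝ) ^ (1 - e) * E.card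
      ≤ (2 * (X : ℝ) ^ (1 - η / 4)) * E.card := by
        have := mul_le_mul_of_nonneg_right h3 h6
        linarith
    _ ≤ (X : ℝ) ^ (1 - η / 8) * E.card := mul_le_mul_of_nonneg_right h5 h6

theorem st_i (h : RedI) : StI := by
  intro A CV
  obtain ⟨B, hB⟩ := h (A + CV + 1)
  refine ⟨B, ?_⟩
  intro K0 C1 C2 th e η hA hη hη' ww gg hW hDec D' hD'
  obtain ⟨C, hC⟩ := hB K0 C1 C2
  obtain ⟨hA1, hA2, hA3, hA4⟩ := id hA
  obtain ⟨X1, hX1⟩ := hC th e hA ww gg hW hDec D' hD'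
  obtain ⟨X2, hX2⟩ := ti_i CV th e η hA hη hη'
  obtain ⟨X3, hX3⟩ := tii_i CV th e η hA hη hη'
  obtain ⟨X4, hX4⟩ := MP_log_pow 6 (C + CV + A) (ε := η / 8) (by linarith)
  refine ⟨max (max (max X1 X2) (max X3 X4)) 8, ?_⟩
  intro X hX G _ hG V hV ω hω E hE hcard ph he hN
  have hXa := (le_max_left _ _).trans hX
  have hX8 : 8 ≤ X := (le_max_right _ _).trans hX
  have hXX1 : X1 ≤ X := (le_max_left _ _).trans ((le_max_left _ _).trans hXa)
  have hXX2 : X2 ≤ X := (le_max_right _ _).trans ((le_max_left _ _).trans hXa)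
  have hXX3 : X3 ≤ X := (le_max_left _ _).trans ((le_max_right _ _).trans hXa)
  have hXX4 : X4 ≤ X := (le_max_right _ _).trans ((le_max_right _ _).trans hXa)
  have hXp : 1 ≤ X := by omega
  have hX0 : (0 : ℝ) < X := by exact_mod_cast hXp
  have hX1r : (1 : ℝ) ≤ X := by exact_mod_cast hXp
  set L : ℝ := Real.log X with hLdef
  have hL2 : 2 ≤ L := by
    have h1 : Real.log 8 ≤ L := Real.log_le_log (by norm_num) (by exact_mod_cast hX8)
    have h2 : Real.log 8 = 3 * Real.log 2 := by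
      rw [show (8 : ℝ) = 2 ^ 3 by norm_num, Real.log_pow]
      norm_num
    have h3 := Real.log_two_gt_d9
    linarith
  have hL1 : 1 ≤ L := by linarith
  have hL0 : 0 < L := by linarith
  have hE1 : 1 ≤ (E.card : ℝ) := by
    refine le_trans ?_ hcard
    exact Real.one_le_rpow hX1r (by linarith)
  have hE0 : (0 : ℝ) < E.card := by linarith
  obtain ⟨hn1, hn2, hn3⟩ := norms_h X G CV (by omega) hG V ω hV.1 hω E hE ph he
  have hB3 : ∑ n ∈ Icc 1 X, ‖FF G (xx G V ω E ph) n‖ ^ 2 ≤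
      (Real.sqrt (X * L ^ CV) * E.card) ^ 2 := by
    refine (ff_l2 X G hG _).trans (hn2.trans (le_of_eq ?_))
    rw [mul_pow, Real.sq_sqrt (by positivity)]
  have hB4 : ∀ n, ‖FF G (xx G V ω E ph) n‖ ≤ L ^ CV * Real.sqrt ((X : ℝ) * E.card) :=
    fun n => (ff_sup G _ n).trans hn1
  have hmain := hX1 X hXX1 (FF G (xx G V ω E ph)) _ _ (Real.sqrt (X * L ^ CV) * E.card)
    (L ^ CV * Real.sqrt ((X : ℝ) * E.card))
    (hX2 X hXX2 G hG V hV.1 ω hω E hE hcard ph he hN)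
    (hX3 X hXX3 G hG V hV ω hω E hE hcard ph he hN) hB3 hB4 (by positivity)
  rw [pair_i]
  refine hmain.trans ?_
  -- the powers
  have hq := hX4 X hXX4
  have hsX : Real.sqrt X * Real.sqrt X = X := Real.mul_self_sqrt hX0.le
  have hP : (X : ℝ) ^ (1 - η / 4) ≤ (X : ℝ) ^ (1 - η / 8) :=
    Real.rpow_le_rpow_of_exponent_le hX1r (by linarith)
  have hLCV : 1 ≤ L ^ CV := one_le_pow₀ hL1
  have hsE : Real.sqrt X * Real.sqrt ((X : ℝ) * E.card) ≤ (X : ℝ) ^ (1 - η / 8) * E.card := by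
    have h1 : Real.sqrt ((X : ℝ) * E.card) = Real.sqrt X * Real.sqrt E.card :=
      Real.sqrt_mul hX0.le _
    have h2 : (X : ℝ) ^ ((th - e) / 2) ≤ Real.sqrt E.card := by
      apply Real.le_sqrt_of_sq_le
      refine le_trans (le_of_eq ?_) hcard
      rw [← Real.rpow_natCast, ← Real.rpow_mul hX0.le]
      congr 1
      push_cast
      ring
    have h3 : Real.sqrt E.card * Real.sqrt E.card = E.card := Real.mul_self_sqrt hE0.le
    have h4 : (X : ℝ) = (X : ℝ) ^ (1 - (th - e) / 2) * (X : ℝ) ^ ((th - e) / 2) := by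
      rw [← Real.rpow_add hX0]
      have : 1 - (th - e) / 2 + ((th - e) / 2) = 1 := by ring
      rw [this, Real.rpow_one]
    have h5 : (X : ℝ) ^ (1 - (th - e) / 2) ≤ (X : ℝ) ^ (1 - η / 8) :=
      Real.rpow_le_rpow_of_exponent_le hX1r (by linarith)
    calc Real.sqrt X * Real.sqrt ((X : ℝ) * E.card)
        = X * Real.sqrt E.card := by rw [h1, ← mul_assoc, hsX]
      _ = (X : ℝ) ^ (1 - (th - e) / 2) * ((X : ℝ) ^ ((th - e) / 2) * Real.sqrt E.card) := by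
          rw [← mul_assoc, ← h4]
      _ ≤ (X : ℝ) ^ (1 - (th - e) / 2) * (Real.sqrt E.card * Real.sqrt E.card) :=
          mul_le_mul_of_nonneg_left (mul_le_mul_of_nonneg_right h2 (Real.sqrt_nonneg _))
            (Real.rpow_nonneg hX0.le _)
      _ = (X : ℝ) ^ (1 - (th - e) / 2) * E.card := by rw [h3]
      _ ≤ _ := mul_le_mul_of_nonneg_right h5 hE0.le
  have hpow0 : 0 ≤ (X : ℝ) ^ (1 - η / 8) := Real.rpow_nonneg hX0.le _
  have hpart1 : L ^ C * ((X : ℝ) ^ (1 - η / 4) * E.card + (X : ℝ) ^ (1 - η / 8) * E.card +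
      Real.sqrt X * (L ^ CV * Real.sqrt ((X : ℝ) * E.card))) ≤
      3 * L ^ (C + CV) * ((X : ℝ) ^ (1 - η / 8) * E.card) := by
    have h1 : (X : ℝ) ^ (1 - η / 4) * E.card ≤ L ^ CV * ((X : ℝ) ^ (1 - η / 8) * E.card) := by
      calc (X : ℝ) ^ (1 - η / 4) * E.card ≤ (X : ℝ) ^ (1 - η / 8) * E.card :=
            mul_le_mul_of_nonneg_right hP hE0.le
        _ = 1 * ((X : ℝ) ^ (1 - η / 8) * E.card) := by ring
        _ ≤ _ := mul_le_mul_of_nonneg_right hLCV (by positivity)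
    have h2 : (X : ℝ) ^ (1 - η / 8) * E.card ≤ L ^ CV * ((X : ℝ) ^ (1 - η / 8) * E.card) := by
      calc (X : ℝ) ^ (1 - η / 8) * E.card = 1 * ((X : ℝ) ^ (1 - η / 8) * E.card) := by ring
        _ ≤ _ := mul_le_mul_of_nonneg_right hLCV (by positivity)
    have h3 : Real.sqrt X * (L ^ CV * Real.sqrt ((X : ℝ) * E.card)) ≤
        L ^ CV * ((X : ℝ) ^ (1 - η / 8) * E.card) := by
      calc Real.sqrt X * (L ^ CV * Real.sqrt ((X : ℝ) * E.card))
          = L ^ CV * (Real.sqrt X * Real.sqrt ((X : ℝ) * E.card)) := by ring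
        _ ≤ _ := mul_le_mul_of_nonneg_left hsE (by positivity)
    calc L ^ C * ((X : ℝ) ^ (1 - η / 4) * E.card + (X : ℝ) ^ (1 - η / 8) * E.card +
        Real.sqrt X * (L ^ CV * Real.sqrt ((X : ℝ) * E.card)))
        ≤ L ^ C * (3 * (L ^ CV * ((X : ℝ) ^ (1 - η / 8) * E.card))) :=
          mul_le_mul_of_nonneg_left (by linarith) (by positivity)
      _ = _ := by rw [pow_add]; ring
  have hhalf1 : 3 * L ^ (C + CV) * ((X : ℝ) ^ (1 - η / 8) * E.card) ≤
      1 / 2 * (X * E.card / L ^ A) := by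
    have h1 : (X : ℝ) ^ (η / 8) * (X : ℝ) ^ (1 - η / 8) = X := by
      rw [← Real.rpow_add hX0]
      have : η / 8 + (1 - η / 8) = 1 := by ring
      rw [this, Real.rpow_one]
    have h2 : 1 / 2 * ((X : ℝ) * E.card / L ^ A) = (X : ℝ) * E.card / (2 * L ^ A) := by
      field_simp
    rw [h2, le_div_iff₀ (by positivity)]
    calc 3 * L ^ (C + CV) * ((X : ℝ) ^ (1 - η / 8) * E.card) * (2 * L ^ A)
        = (6 * L ^ (C + CV + A)) * ((X : ℝ) ^ (1 - η / 8) * E.card) := by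
          rw [pow_add L (C + CV) A]; ring
      _ ≤ (X : ℝ) ^ (η / 8) * ((X : ℝ) ^ (1 - η / 8) * E.card) :=
          mul_le_mul_of_nonneg_right hq (by positivity)
      _ = (X : ℝ) * E.card := by rw [← mul_assoc, h1]
  have hhalf2 : Real.sqrt X * (Real.sqrt (X * L ^ CV) * E.card) / L ^ (A + CV + 1) ≤
      1 / 2 * (X * E.card / L ^ A) := by
    have h1 : Real.sqrt (X * L ^ CV) ≤ Real.sqrt X * L ^ CV := by
      rw [Real.sqrt_mul hX0.le]
      refine mul_le_mul_of_nonneg_left ?_ (Real.sqrt_nonneg _)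
      rw [Real.sqrt_le_left (by positivity)]
      nlinarith
    have h2 : 1 / 2 * ((X : ℝ) * E.card / L ^ A) = (X : ℝ) * E.card / (2 * L ^ A) := by
      field_simp
    rw [h2, div_le_div_iff₀ (by positivity) (by positivity)]
    calc Real.sqrt X * (Real.sqrt (X * L ^ CV) * E.card) * (2 * L ^ A)
        ≤ Real.sqrt X * ((Real.sqrt X * L ^ CV) * E.card) * (2 * L ^ A) := by
          refine mul_le_mul_of_nonneg_right ?_ (by positivity)
          refine mul_le_mul_of_nonneg_left ?_ (Real.sqrt_nonneg _)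
          exact mul_le_mul_of_nonneg_right h1 hE0.le
      _ = (Real.sqrt X * Real.sqrt X) * E.card * (2 * (L ^ A * L ^ CV)) := by ring
      _ = X * E.card * (2 * (L ^ A * L ^ CV)) := by rw [hsX]
      _ ≤ X * E.card * (L * (L ^ A * L ^ CV)) := by
          refine mul_le_mul_of_nonneg_left ?_ (by positivity)
          exact mul_le_mul_of_nonneg_right hL2 (by positivity)
      _ = X * E.card * L ^ (A + CV + 1) := by
          rw [pow_succ, pow_add]; ring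
  linarith

end Pool.MP_dd84fd_nt.IX
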