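import Pool.Agent.Lib.MP_dd84fd_nt.IX.KsDefs
import Pool.Agent.Lib.MP_dd84fd_nt.HX.StTII

/-!
# IX-StTII (0.9 h): one type II block

Write the sum as `Σ_{k ∈ Icc 1 K} Σ_{m ∈ Ioc M (2M)} a m c k F(m k)` (for `a m ≠ 0`, `k ≤ K`: `m k ≤ m K ≤ X`; `n ↦ (m, n/m)`; compare `HX/StTII.lean`).
`k = 1`: at most `M ≤ yB ≤ √X` values of `m` (`th - 3e ≤ 1/2`): `≤ Q² √X B4`. `k ∈ (2^i, 2^(i+1)]`, `i ≤ Nat.log 2 K`, `2^i < K`: `TII2` with its `(M, N, t) := (2^i, M, X)`, its `a l := c l / Q` if `l ≤ K` else `0`, its `b s := a s / Q` (if `Q = 0` all is `0`);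
`2^i M ≤ K M ≤ X`; the condition `l s ≤ X` holds for all terms with nonzero coefficient. So each is `≤ Q² B2`. The number of `i` is `≤ Nat.log 2 X + 1 ≤ 2 L + 1` (`i ≤ Nat.log 2 K`, `K ≤ K M ≤ X` as `M ≥ 1`, `log 2 > 1/2`).
-/

set_option autoImplicit false

namespace Pool.MP_dd84fd_nt.IX

open Finset Pool.MP_67663b_nt.Odd Pool.MP_dd84fd_nt.En Pool.MP_dd84fd_nt.E2 Pool.MP_dd84fd_nt.LS
open Pool.MP_dd84fd_nt.L2G (nrm)
open Pool.MP_dd84fd_nt.GX Pool.MP_dd84fd_nt.HX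

/-- the divisor sum as a sum over pairs -/
private theorem st_pairs (t : ℕ) (a c : ℕ → ℝ) (F : ℕ → ℂ) :
    ∑ n ∈ Icc 1 t, ((∑ m ∈ n.divisors, a m * c (n / m) : ℝ) : ℂ) * F n =
      ∑ p ∈ (Icc 1 t ×ˢ Icc 1 t).filter (fun p : ℕ × ℕ => p.1 * p.2 ≤ t),
        ((a p.1 : ℝ) : ℂ) * ((c p.2 : ℝ) : ℂ) * F (p.1 * p.2) := by
  have h0 : ∀ n ∈ Icc 1 t, ((∑ m ∈ n.divisors, a m * c (n / m) : ℝ) : ℂ) * F n =
      ∑ z ∈ n.divisorsAntidiagonal, ((a z.1 : ℝ) : ℂ) * ((c z.2 : ℝ) : ℂ) * F n := by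
    intro n _
    rw [← Nat.sum_divisorsAntidiagonal (fun x y => a x * c y), ← Finset.sum_mul]
    congr 1
    push_cast
    rfl
  rw [Finset.sum_congr rfl h0, Finset.sum_sigma']
  refine Finset.sum_bij' (fun p _ => (p.2 : ℕ × ℕ))
    (fun p _ => (⟨p.1 * p.2, (p.1, p.2)⟩ : Σ _ : ℕ, ℕ × ℕ)) ?_ ?_ ?_ ?_ ?_
  · rintro ⟨n, m, k⟩ h
    rw [Finset.mem_sigma, Finset.mem_Icc, Nat.mem_divisorsAntidiagonal] at h
    obtain ⟨⟨h1, h2⟩, h3, h4⟩ := h
    simp only at h1 h2 h3 h4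
    have hm : 0 < m := by
      rcases Nat.eq_zero_or_pos m with h | h
      · rw [h, zero_mul] at h3
        omega
      · exact h
    have hk : 0 < k := by
      rcases Nat.eq_zero_or_pos k with h | h
      · rw [h, mul_zero] at h3
        omega
      · exact h
    rw [Finset.mem_filter, Finset.mem_product, Finset.mem_Icc, Finset.mem_Icc]
    have h5 : m ≤ m * k := Nat.le_mul_of_pos_right _ hk
    have h6 : k ≤ m * k := Nat.le_mul_of_pos_left _ hm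
    refine ⟨⟨⟨hm, ?_⟩, hk, ?_⟩, ?_⟩
    · show m ≤ t
      omega
    · show k ≤ t
      omega
    · show m * k ≤ t
      omega
  · rintro ⟨m, k⟩ h
    rw [Finset.mem_filter, Finset.mem_product, Finset.mem_Icc, Finset.mem_Icc] at h
    obtain ⟨⟨⟨h1, h2⟩, h3, h4⟩, h5⟩ := h
    simp only at h1 h2 h3 h4 h5
    rw [Finset.mem_sigma, Finset.mem_Icc, Nat.mem_divisorsAntidiagonal]
    exact ⟨⟨Nat.mul_pos h1 h3, h5⟩, rfl, (Nat.mul_pos h1 h3).ne'⟩
  · rintro ⟨n, m, k⟩ h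
    rw [Finset.mem_sigma, Finset.mem_Icc, Nat.mem_divisorsAntidiagonal] at h
    obtain ⟨⟨h1, h2⟩, h3, h4⟩ := h
    simp only at h3
    simp only [h3]
  · rintro ⟨m, k⟩ h
    rfl
  · rintro ⟨n, m, k⟩ h
    rw [Finset.mem_sigma, Finset.mem_Icc, Nat.mem_divisorsAntidiagonal] at h
    obtain ⟨⟨h1, h2⟩, h3, h4⟩ := h
    simp only at h3
    simp only [h3]

/-- dyadic interval of a number `≥ 2` -/
private theorem st_dy {m : ℕ} (hm : 2 ≤ m) :
    2 ^ (Nat.log 2 (m - 1)) < m ∧ m ≤ 2 * 2 ^ (Nat.log 2 (m - 1)) := by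
  have h1 : 2 ^ (Nat.log 2 (m - 1)) ≤ m - 1 := Nat.pow_log_le_self 2 (by omega)
  have h2 : m - 1 < 2 ^ (Nat.log 2 (m - 1) + 1) := Nat.lt_pow_succ_log_self (by norm_num) _
  rw [pow_succ] at h2
  omega

private theorem st_dy_eq {m i : ℕ} (h1 : 2 ^ i < m) (h2 : m ≤ 2 * 2 ^ i) :
    Nat.log 2 (m - 1) = i := by
  apply Nat.log_eq_of_pow_le_of_lt_pow
  · omega
  · rw [pow_succ]
    omega

/-- the pairs with nonzero terms -/
private theorem sti_pairs (X M K : ℕ) (a c : ℕ → ℝ) (F : ℕ → ℂ)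
    (ha : ∀ m, a m ≠ 0 → M < m ∧ m ≤ 2 * M ∧ m * K ≤ X) :
    ∑ n ∈ Icc 1 X, ((∑ m ∈ n.divisors, (if n / m ≤ K then a m * c (n / m) else 0) : ℝ) : ℂ) *
      F n = ∑ k ∈ Icc 1 K, ∑ m ∈ Ioc M (2 * M), ((a m : ℝ) : ℂ) * ((c k : ℝ) : ℂ) * F (m * k) := by
  set c' : ℕ → ℝ := fun k => if k ≤ K then c k else 0 with hc'
  have h1 : ∀ n ∈ Icc 1 X,
      ((∑ m ∈ n.divisors, (if n / m ≤ K then a m * c (n / m) else 0) : ℝ) : ℂ) * F n =
      ((∑ m ∈ n.divisors, a m * c' (n / m) : ℝ) : ℂ) * F n := by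
    intro n _
    congr 2
    refine Finset.sum_congr rfl (fun m _ => ?_)
    by_cases h : n / m ≤ K
    · rw [if_pos h, hc']
      simp only
      rw [if_pos h]
    · rw [if_neg h, hc']
      simp only
      rw [if_neg h, mul_zero]
  rw [Finset.sum_congr rfl h1, st_pairs]
  set g : ℕ × ℕ → ℂ := fun p => ((a p.1 : ℝ) : ℂ) * ((c' p.2 : ℝ) : ℂ) * F (p.1 * p.2) with hg
  set S0 : Finset (ℕ × ℕ) := (Icc 1 X ×ˢ Icc 1 X).filter (fun p : ℕ × ℕ => p.1 * p.2 ≤ X)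
    with hS0
  set S1 : Finset (ℕ × ℕ) := Ioc M (2 * M) ×ˢ Icc 1 K with hS1
  have h2 : ∑ p ∈ S0 ∩ S1, g p = ∑ p ∈ S0, g p := by
    apply Finset.sum_subset Finset.inter_subset_left
    rintro ⟨m, k⟩ hp hq
    have hp' := hp
    rw [hS0, Finset.mem_filter, Finset.mem_product, Finset.mem_Icc, Finset.mem_Icc] at hp
    obtain ⟨⟨⟨p1, p2⟩, p3, p4⟩, p5⟩ := hp
    simp only at p1 p2 p3 p4 p5
    show ((a m : ℝ) : ℂ) * ((c' k : ℝ) : ℂ) * F (m * k) = 0
    by_cases ham : a m = 0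
    · rw [ham]
      simp
    · have h3 := ha m ham
      by_cases hk : k ≤ K
      · exfalso
        apply hq
        rw [Finset.mem_inter]
        refine ⟨hp', ?_⟩
        rw [hS1, Finset.mem_product, Finset.mem_Ioc, Finset.mem_Icc]
        exact ⟨⟨h3.1, h3.2.1⟩, p3, hk⟩
      · have h4 : c' k = 0 := by
          rw [hc']
          simp only
          rw [if_neg hk]
        rw [h4]
        simp
  have h3 : ∑ p ∈ S0 ∩ S1, g p = ∑ p ∈ S1, g p := by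
    apply Finset.sum_subset Finset.inter_subset_right
    rintro ⟨m, k⟩ hp hq
    have hp' := hp
    rw [hS1, Finset.mem_product, Finset.mem_Ioc, Finset.mem_Icc] at hp
    obtain ⟨⟨p1, p2⟩, p3, p4⟩ := hp
    simp only at p1 p2 p3 p4
    show ((a m : ℝ) : ℂ) * ((c' k : ℝ) : ℂ) * F (m * k) = 0
    by_cases ham : a m = 0
    · rw [ham]
      simp
    · exfalso
      apply hq
      have h4 := ha m ham
      have h5 : m * k ≤ X := (Nat.mul_le_mul_left m p4).trans h4.2.2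
      have h6 : m ≤ m * k := Nat.le_mul_of_pos_right _ p3
      have h7 : k ≤ m * k := Nat.le_mul_of_pos_left _ (by omega)
      rw [Finset.mem_inter]
      refine ⟨?_, hp'⟩
      rw [hS0, Finset.mem_filter, Finset.mem_product, Finset.mem_Icc, Finset.mem_Icc]
      refine ⟨⟨⟨?_, ?_⟩, ?_, ?_⟩, ?_⟩
      · show 1 ≤ m
        omega
      · show m ≤ X
        omega
      · show 1 ≤ k
        omega
      · show k ≤ X
        omega
      · show m * k ≤ X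
        exact h5
  rw [← h2, h3, hS1, Finset.sum_product_right]
  refine Finset.sum_congr rfl (fun k hk => Finset.sum_congr rfl (fun m _ => ?_))
  rw [Finset.mem_Icc] at hk
  show ((a m : ℝ) : ℂ) * ((c' k : ℝ) : ℂ) * F (m * k) = _
  have h4 : c' k = c k := by
    rw [hc']
    simp only
    rw [if_pos hk.2]
  rw [h4]

/-- a block -/
private theorem sti_block (th e : ℝ) (X : ℕ) (F : ℕ → ℂ) (B2 : ℝ) (hB : TII2 th e X F B2)
    (hB2 : 0 ≤ B2) (M K : ℕ) (a c : ℕ → ℝ) (Q : ℝ) (hQ : ∀ n, |a n| ≤ Q ∧ |c n| ≤ Q)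
    (hM1 : yA th e X / 2 ≤ M) (hM2 : (M : ℝ) ≤ yB th e X) (hKM : K * M ≤ X)
    (ha : ∀ m, a m ≠ 0 → m * K ≤ X) (i : ℕ) :
    ‖∑ k ∈ (Icc 2 K).filter (fun k => Nat.log 2 (k - 1) = i),
      ∑ m ∈ Ioc M (2 * M), ((a m : ℝ) : ℂ) * ((c k : ℝ) : ℂ) * F (m * k)‖ ≤ Q ^ 2 * B2 := by
  have hQ0 : 0 ≤ Q := (abs_nonneg _).trans (hQ 0).1
  rcases Finset.eq_empty_or_nonempty ((Icc 2 K).filter (fun k => Nat.log 2 (k - 1) = i)) with
    hemp | ⟨k0, hk0⟩
  · rw [hemp, Finset.sum_empty, norm_zero]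
    positivity
  rcases hQ0.eq_or_lt with hQz | hQp
  · have h1 : ∀ m, a m = 0 := by
      intro m
      have := (hQ m).1
      rw [← hQz] at this
      exact abs_nonpos_iff.mp this
    rw [Finset.sum_eq_zero, norm_zero]
    · positivity
    · intro k _
      apply Finset.sum_eq_zero
      intro m _
      rw [h1 m]
      simp
  rw [Finset.mem_filter, Finset.mem_Icc] at hk0
  obtain ⟨⟨k1, k2⟩, k3⟩ := hk0
  obtain ⟨g1, g2⟩ := st_dy k1
  rw [k3] at g1 g2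
  have hiM : 2 ^ i * M ≤ X := (Nat.mul_le_mul_right M (g1.le.trans k2)).trans hKM
  set c' : ℕ → ℝ := fun k => if k ≤ K then c k else 0 with hc'
  have hc'Q : ∀ n, |c' n| ≤ Q := by
    intro n
    rw [hc']
    simp only
    by_cases h : n ≤ K
    · rw [if_pos h]
      exact (hQ n).2
    · rw [if_neg h, abs_zero]
      exact hQ0
  have key := hB (2 ^ i) M X (fun n => ((c' n / Q : ℝ) : ℂ)) (fun n => ((a n / Q : ℝ) : ℂ)) le_rfl
    (fun n => by
      rw [Complex.norm_real, Real.norm_eq_abs, abs_div, abs_of_pos hQp, div_le_one hQp]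
      exact hc'Q n)
    (fun n => by
      rw [Complex.norm_real, Real.norm_eq_abs, abs_div, abs_of_pos hQp, div_le_one hQp]
      exact (hQ n).1)
    Nat.one_le_two_pow hM1 hM2 hiM
  have heq : ∑ k ∈ (Icc 2 K).filter (fun k => Nat.log 2 (k - 1) = i),
      ∑ m ∈ Ioc M (2 * M), ((a m : ℝ) : ℂ) * ((c k : ℝ) : ℂ) * F (m * k) =
      ((Q ^ 2 : ℝ) : ℂ) * ∑ l ∈ Ioc (2 ^ i) (2 * 2 ^ i),
        ∑ s ∈ (Ioc M (2 * M)).filter (fun s => l * s ≤ X),
          ((c' l / Q : ℝ) : ℂ) * ((a s / Q : ℝ) : ℂ) * F (l * s) := by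
    have hset : (Icc 2 K).filter (fun k => Nat.log 2 (k - 1) = i) =
        (Ioc (2 ^ i) (2 * 2 ^ i)).filter (fun k => k ≤ K) := by
      ext k
      rw [Finset.mem_filter, Finset.mem_filter, Finset.mem_Icc, Finset.mem_Ioc]
      constructor
      · rintro ⟨⟨h1, h2⟩, h3⟩
        obtain ⟨h4, h5⟩ := st_dy h1
        rw [h3] at h4 h5
        exact ⟨⟨h4, h5⟩, h2⟩
      · rintro ⟨⟨h1, h2⟩, h3⟩
        have h4 : 1 ≤ 2 ^ i := Nat.one_le_two_pow
        exact ⟨⟨by omega, h3⟩, st_dy_eq h1 h2⟩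
    rw [hset, Finset.sum_filter, Finset.mul_sum]
    refine Finset.sum_congr rfl (fun l _ => ?_)
    by_cases hl : l ≤ K
    · rw [if_pos hl, Finset.mul_sum, Finset.sum_filter]
      refine Finset.sum_congr rfl (fun m _ => ?_)
      have h1 : c' l = c l := by
        rw [hc']
        simp only
        rw [if_pos hl]
      rw [h1]
      by_cases ham : a m = 0
      · rw [ham]
        simp
      · have h2 : l * m ≤ X := by
          calc l * m ≤ K * m := Nat.mul_le_mul_right m hl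
            _ = m * K := mul_comm _ _
            _ ≤ X := ha m ham
        rw [if_pos h2, mul_comm l m]
        have e2 : ((Q ^ 2 : ℝ) : ℂ) * (((c l / Q : ℝ) : ℂ) * ((a m / Q : ℝ) : ℂ)) =
            ((a m : ℝ) : ℂ) * ((c l : ℝ) : ℂ) := by
          rw [← Complex.ofReal_mul, ← Complex.ofReal_mul, ← Complex.ofReal_mul]
          congr 1
          field_simp
        rw [← e2]
        ring
    · rw [if_neg hl]
      have h1 : c' l = 0 := by
        rw [hc']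
        simp only
        rw [if_neg hl]
      rw [h1]
      simp
  rw [heq, norm_mul, Complex.norm_real, Real.norm_eq_abs, abs_of_pos (by positivity)]
  exact mul_le_mul_of_nonneg_left key (by positivity)

theorem st_tii_i (th e : ℝ) (hA : Adm th e) (X : ℕ) (hX : 3 ≤ X) (F : ℕ → ℂ) (B2 B4 : ℝ)
    (hB : TII2 th e X F B2) (h4 : ∀ n, ‖F n‖ ≤ B4) (M K : ℕ) (a c : ℕ → ℝ) (Q : ℝ)
    (hQ : ∀ n, |a n| ≤ Q ∧ |c n| ≤ Q) (hM1 : yA th e X / 2 ≤ M) (hM2 : (M : ℝ) ≤ yB th e X)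
    (hKM : K * M ≤ X)
    (ha : ∀ m, a m ≠ 0 → M < m ∧ m ≤ 2 * M ∧ (m : ℝ) ≤ yB th e X ∧ m * K ≤ X) :
    ‖∑ n ∈ Icc 1 X, ((∑ m ∈ n.divisors, (if n / m ≤ K then a m * c (n / m) else 0) : ℝ) : ℂ) *
      F n‖ ≤ Q ^ 2 * (2 * Real.log X + 2) * (B2 + Real.sqrt X * B4) := by
  have hA1 := hA.1
  have hA2 := hA.2.1
  have hA3 := hA.2.2.1
  have hA4 := hA.2.2.2
  set L := Real.log X with hL
  have hX1 : (1 : ℝ) ≤ X := by exact_mod_cast (by omega : 1 ≤ X)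
  have hXp : (0 : ℝ) < X := by linarith
  have hL0 : 0 ≤ L := Real.log_nonneg hX1
  have hB4 : 0 ≤ B4 := (norm_nonneg _).trans (h4 0)
  have hyA : 1 ≤ yA th e X := by
    unfold yA
    exact Real.one_le_rpow hX1 (by linarith)
  have hyB : yB th e X ≤ Real.sqrt X := by
    unfold yB
    rw [Real.sqrt_eq_rpow]
    exact Real.rpow_le_rpow_of_exponent_le hX1 (by linarith)
  have hsX : Real.sqrt X ≤ X := by
    rw [Real.sqrt_le_left hXp.le]
    nlinarith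
  have hM0 : 1 ≤ M := by
    by_contra hcon
    have h1 : M = 0 := by omega
    rw [h1] at hM1
    simp at hM1
    linarith
  have hMX : M ≤ X := by
    have : (M : ℝ) ≤ X := hM2.trans (hyB.trans hsX)
    exact_mod_cast this
  have hB2 : 0 ≤ B2 := by
    have h1 := hB 1 M 0 (fun _ => 0) (fun _ => 0) (Nat.zero_le _) (by simp) (by simp)
      le_rfl hM1 hM2 (by omega)
    exact (norm_nonneg _).trans h1
  have hKX : K ≤ X := (Nat.le_mul_of_pos_right _ hM0).trans hKM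
  have hQ0 : 0 ≤ Q := (abs_nonneg _).trans (hQ 0).1
  rw [sti_pairs X M K a c F (fun m hm => ⟨(ha m hm).1, (ha m hm).2.1, (ha m hm).2.2.2⟩)]
  have hfin : 0 ≤ Q ^ 2 * (2 * L + 2) * (B2 + Real.sqrt X * B4) := by positivity
  rcases Nat.eq_zero_or_pos K with hK | hK
  · rw [hK]
    simpa using hfin
  have hset : Icc 1 K = insert 1 (Icc 2 K) := by
    ext k
    rw [Finset.mem_insert, Finset.mem_Icc, Finset.mem_Icc]
    omega
  rw [hset, Finset.sum_insert (by simp)]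
  have hfirst : ‖∑ m ∈ Ioc M (2 * M), ((a m : ℝ) : ℂ) * ((c 1 : ℝ) : ℂ) * F (m * 1)‖ ≤
      Q ^ 2 * (Real.sqrt X * B4) := by
    have e1 : ∑ m ∈ Ioc M (2 * M), ((a m : ℝ) : ℂ) * ((c 1 : ℝ) : ℂ) * F (m * 1) =
        ∑ m ∈ Icc 1 ⌊yB th e X⌋₊ ∩ Ioc M (2 * M),
          ((a m : ℝ) : ℂ) * ((c 1 : ℝ) : ℂ) * F (m * 1) := by
      symm
      apply Finset.sum_subset Finset.inter_subset_right
      intro m h1 h2
      have h3 : a m = 0 := by
        by_contra hc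
        apply h2
        rw [Finset.mem_inter]
        refine ⟨?_, h1⟩
        rw [Finset.mem_Ioc] at h1
        rw [Finset.mem_Icc]
        exact ⟨by omega, Nat.le_floor (ha m hc).2.2.1⟩
      rw [h3]
      simp
    rw [e1]
    calc ‖∑ m ∈ Icc 1 ⌊yB th e X⌋₊ ∩ Ioc M (2 * M),
          ((a m : ℝ) : ℂ) * ((c 1 : ℝ) : ℂ) * F (m * 1)‖
        ≤ ∑ m ∈ Icc 1 ⌊yB th e X⌋₊ ∩ Ioc M (2 * M), (Q ^ 2 * B4) := by
          refine (norm_sum_le _ _).trans (Finset.sum_le_sum (fun m _ => ?_))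
          rw [norm_mul, norm_mul, Complex.norm_real, Complex.norm_real, Real.norm_eq_abs,
            Real.norm_eq_abs]
          have f1 := (hQ m).1
          have f2 := (hQ 1).2
          have f3 := h4 (m * 1)
          have f4 : |a m| * |c 1| ≤ Q * Q := mul_le_mul f1 f2 (abs_nonneg _) hQ0
          calc |a m| * |c 1| * ‖F (m * 1)‖ ≤ (Q * Q) * B4 :=
                mul_le_mul f4 f3 (norm_nonneg _) (by positivity)
            _ = Q ^ 2 * B4 := by ring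
      _ = ((Icc 1 ⌊yB th e X⌋₊ ∩ Ioc M (2 * M)).card : ℝ) * (Q ^ 2 * B4) := by
          rw [Finset.sum_const, nsmul_eq_mul]
      _ ≤ Real.sqrt X * (Q ^ 2 * B4) := by
          have e2 : (Icc 1 ⌊yB th e X⌋₊ ∩ Ioc M (2 * M)).card ≤ ⌊yB th e X⌋₊ := by
            calc (Icc 1 ⌊yB th e X⌋₊ ∩ Ioc M (2 * M)).card ≤ (Icc 1 ⌊yB th e X⌋₊).card :=
                  Finset.card_le_card Finset.inter_subset_left
              _ = ⌊yB th e X⌋₊ := by rw [Nat.card_Icc]; omega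
          have e3 : ((Icc 1 ⌊yB th e X⌋₊ ∩ Ioc M (2 * M)).card : ℝ) ≤ (⌊yB th e X⌋₊ : ℝ) := by
            exact_mod_cast e2
          have e4 : (⌊yB th e X⌋₊ : ℝ) ≤ yB th e X :=
            Nat.floor_le (Real.rpow_nonneg hXp.le _)
          exact mul_le_mul_of_nonneg_right (e3.trans (e4.trans hyB)) (by positivity)
      _ = Q ^ 2 * (Real.sqrt X * B4) := by ring
  have hsecond : ‖∑ k ∈ Icc 2 K, ∑ m ∈ Ioc M (2 * M),
      ((a m : ℝ) : ℂ) * ((c k : ℝ) : ℂ) * F (m * k)‖ ≤ (2 * L + 1) * (Q ^ 2 * B2) := by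
    have hmaps : ∀ k ∈ Icc 2 K, Nat.log 2 (k - 1) ∈ range (Nat.log 2 X + 1) := by
      intro k hk
      rw [Finset.mem_Icc] at hk
      rw [Finset.mem_range]
      have := Nat.log_mono_right (b := 2) (show k - 1 ≤ X by omega)
      omega
    rw [← Finset.sum_fiberwise_of_maps_to hmaps]
    refine (norm_sum_le _ _).trans ?_
    refine (Finset.sum_le_sum (fun i _ => sti_block th e X F B2 hB hB2 M K a c Q hQ hM1 hM2 hKM
      (fun m hm => (ha m hm).2.2.2) i)).trans ?_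
    rw [Finset.sum_const, Finset.card_range, nsmul_eq_mul]
    have h2 : ((Nat.log 2 X : ℕ) : ℝ) ≤ 2 * L := by
      have e1 : 2 ^ (Nat.log 2 X) ≤ X := Nat.pow_log_le_self 2 (by omega)
      have e2 : ((2 : ℝ) ^ (Nat.log 2 X)) ≤ X := by exact_mod_cast e1
      have e3 := Real.log_le_log (by positivity) e2
      rw [Real.log_pow] at e3
      have e4 : (1 / 2 : ℝ) ≤ Real.log 2 := by
        have := Real.log_two_gt_d9
        linarith
      have e5 : (0 : ℝ) ≤ ((Nat.log 2 X : ℕ) : ℝ) := Nat.cast_nonneg _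
      nlinarith
    have h3 : ((Nat.log 2 X + 1 : ℕ) : ℝ) ≤ 2 * L + 1 := by
      push_cast
      linarith
    exact mul_le_mul_of_nonneg_right h3 (by positivity)
  refine (norm_add_le _ _).trans ?_
  refine (add_le_add hfirst hsecond).trans ?_
  have hs : 0 ≤ Real.sqrt X := Real.sqrt_nonneg _
  have k1 : 0 ≤ Q ^ 2 * B2 := by positivity
  have k2 : 0 ≤ Q ^ 2 * (Real.sqrt X * B4) := by positivity
  have k3 : 0 ≤ L * (Q ^ 2 * (Real.sqrt X * B4)) := by positivity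
  have k4 : Q ^ 2 * (2 * L + 2) * (B2 + Real.sqrt X * B4) =
      Q ^ 2 * (Real.sqrt X * B4) + (2 * L + 1) * (Q ^ 2 * B2) + Q ^ 2 * B2 +
        (2 * (L * (Q ^ 2 * (Real.sqrt X * B4))) + Q ^ 2 * (Real.sqrt X * B4)) := by
    ring
  rw [k4]
  linarith

end Pool.MP_dd84fd_nt.IX
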