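import Pool.Agent.Lib.MP_dd84fd_nt.IX.StTI
import Pool.Agent.Lib.MP_dd84fd_nt.IX.StTII
import Pool.Agent.Lib.MP_dd84fd_nt.HX.StF1

/-!
# IX-StRed (0.9 h): the reduction theorem

`B = 2A + 10`, `C` large in terms of `K0, C1, C2`. `u = ww - gg f1`. With `DecI`: `Σ u F = Σ_i [type I] + Σ_i [block] + Σ err F - Σ gg f1 F`.
* type I: `st_ti_i` with `Q = G0 = G1 = L^C2`: `≤ 2 L^(2 C2) B1`, times `I ≤ L^C2`.
* blocks: `st_tii_i` with `Q = L^C2`: `≤ L^(2 C2) (2L+2)(B2 + √X B4)`, times `L^C2`.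
* err: Cauchy-Schwarz: `≤ (X/L^B)^(1/2) B3 ≤ √X B3 / (2 L^A)`.
* model: `HX.st_f1 D'` (`w = wX D' X ≤ L^D'`, `TIH` by `tih_of`): `‖Σ_{n ≤ t} f1 n F n‖ ≤ L B1 + X^(1/2-c) B3` for `t ≤ X`; `HX.abel_bv` with `g = gg X`, `G0 = K0`, `G1 = L^C1`: `≤ (L B1 + X^(1/2-c) B3)(K0 + L^C1)`, and
`X^(1/2-c) (K0 + L^C1) ≤ √X/(2 L^A)` for large `X`. `B1, B2, B4 ≥ 0` follow from the hypotheses (norms are nonnegative; for `TII2` take e.g. `M = 1`, `N = ⌈yA/2⌉`, `t = 0`).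
-/

set_option autoImplicit false

namespace Pool.MP_dd84fd_nt.IX

open Finset Pool.MP_67663b_nt.Odd Pool.MP_dd84fd_nt.En Pool.MP_dd84fd_nt.E2 Pool.MP_dd84fd_nt.LS
open Pool.MP_dd84fd_nt.L2G (nrm)
open Pool.MP_dd84fd_nt.GX Pool.MP_dd84fd_nt.HX

/-- Cauchy-Schwarz for the error term -/
private theorem sriCs (X : ℕ) (err : ℕ → ℝ) (F : ℕ → ℂ) (S B3 : ℝ) (hS : 0 ≤ S)
    (hB3 : 0 ≤ B3) (he : ∑ n ∈ Icc 1 X, err n ^ 2 ≤ S)
    (hF : ∑ n ∈ Icc 1 X, ‖F n‖ ^ 2 ≤ B3 ^ 2) :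
    ‖∑ n ∈ Icc 1 X, ((err n : ℝ) : ℂ) * F n‖ ≤ Real.sqrt S * B3 := by
  have h1 : ‖∑ n ∈ Icc 1 X, ((err n : ℝ) : ℂ) * F n‖ ≤ ∑ n ∈ Icc 1 X, |err n| * ‖F n‖ := by
    refine (norm_sum_le _ _).trans (le_of_eq ?_)
    refine sum_congr rfl fun n _ => ?_
    rw [norm_mul, Complex.norm_real, Real.norm_eq_abs]
  have h2 : (∑ n ∈ Icc 1 X, |err n| * ‖F n‖) ^ 2 ≤ S * B3 ^ 2 := by
    refine (Finset.sum_mul_sq_le_sq_mul_sq _ _ _).trans ?_
    refine mul_le_mul ?_ hF (sum_nonneg fun _ _ => sq_nonneg _) hS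
    exact le_trans (le_of_eq (sum_congr rfl fun n _ => sq_abs _)) he
  refine h1.trans ?_
  have h3 : 0 ≤ Real.sqrt S * B3 := by positivity
  have h4 : (Real.sqrt S * B3) ^ 2 = S * B3 ^ 2 := by
    rw [mul_pow, Real.sq_sqrt hS]
  exact abs_le_of_sq_le_sq' (by rw [h4]; exact h2) h3 |>.2

/-- the type II bound is nonnegative -/
private theorem sriB2 (th e : ℝ) (hA : Adm th e) (X : ℕ) (hX : 16 ≤ X) (F : ℕ → ℂ) (B2 : ℝ)
    (h : TII2 th e X F B2) : 0 ≤ B2 := by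
  obtain ⟨h1, h2, h3, h4⟩ := hA
  have hXR : (16 : ℝ) ≤ X := by exact_mod_cast hX
  have hX1 : (1 : ℝ) ≤ X := by linarith
  have hX0 : (0 : ℝ) < X := by linarith
  have hy2 : 2 ≤ yA th e X := by
    unfold yA
    calc (2 : ℝ) = (16 : ℝ) ^ (1 / 4 : ℝ) := by
          rw [show (16 : ℝ) = 2 ^ (4 : ℝ) by norm_num, ← Real.rpow_mul (by norm_num)]
          norm_num
      _ ≤ (X : ℝ) ^ (1 / 4 : ℝ) := Real.rpow_le_rpow (by norm_num) hXR (by norm_num)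
      _ ≤ (X : ℝ) ^ ((1 - th) / 2 + 4 * e) :=
          Real.rpow_le_rpow_of_exponent_le hX1 (by linarith)
  have hyAB : yA th e X ≤ yB th e X := by
    unfold yA yB
    exact Real.rpow_le_rpow_of_exponent_le hX1 (by linarith)
  have hyBX : yB th e X ≤ X := by
    unfold yB
    calc (X : ℝ) ^ (th - 3 * e) ≤ (X : ℝ) ^ (1 : ℝ) :=
          Real.rpow_le_rpow_of_exponent_le hX1 (by linarith)
      _ = X := Real.rpow_one _
  have hN1 : yA th e X / 2 ≤ ⌈yA th e X / 2⌉₊ := Nat.le_ceil _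
  have hN2 : (⌈yA th e X / 2⌉₊ : ℝ) ≤ yB th e X := by
    have h5 := Nat.ceil_lt_add_one (a := yA th e X / 2) (by linarith)
    linarith
  have h6 := h 1 ⌈yA th e X / 2⌉₊ 0 (fun _ => 0) (fun _ => 0) (Nat.zero_le _) (by simp) (by simp)
    le_rfl hN1 hN2 (by
      rw [one_mul]
      exact_mod_cast hN2.trans hyBX)
  exact (norm_nonneg _).trans h6

theorem red_i : RedI := by
  intro A
  refine ⟨2 * A + 10, fun K0 C1 C2 => ⟨3 * C2 + C1 + 2, fun th e hAd ww gg hW hDec D' hD' => ?_⟩⟩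
  obtain ⟨X1, hX1⟩ := hW
  obtain ⟨X2, hX2⟩ := hDec
  obtain ⟨c, hc, X4, hX4⟩ := st_f1 D' hD'
  obtain ⟨X5, hX5⟩ := MP_log_large (K0 + 4)
  obtain ⟨X6, hX6⟩ := MP_log_pow (2 * (K0 + 1)) (A + C1) hc
  refine ⟨X1 + X2 + X4 + X5 + X6 + 16, fun X hX F B1 B2 B3 B4 hB1 hB2 hB3 hB4 hB30 => ?_⟩
  obtain ⟨hw1, hw2⟩ := hX1 X (by omega)
  obtain ⟨I, γ, α, M, K, a, cc, err, hI, hγ, hα, hαs, hac, hMK, hasup, hdec, herr⟩ :=
    hX2 X (by omega)
  have hX1' : 1 ≤ X := by omega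
  have hf1 := hX4 X (by omega) (wX D' X) (by
    unfold wX
    exact Nat.floor_le (pow_nonneg (Real.log_nonneg (by exact_mod_cast hX1')) _)) F B1 B3
  have hL := hX5 X (by omega)
  have hLX := hX6 X (by omega)
  have hx0 : (0 : ℝ) < X := by exact_mod_cast hX1'
  set L := Real.log X with hLdef
  have hK0 : (0 : ℝ) ≤ K0 := Nat.cast_nonneg _
  have hL4 : 4 ≤ L := by linarith
  have hL0 : 0 < L := by linarith
  have hL1 : 1 ≤ L := by linarith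
  -- nonnegativity
  have hB10 : 0 ≤ B1 := by
    have hz : (0 : ℝ) ≤ ZI th e X := by unfold ZI; positivity
    have := hB1 0 (fun _ => 0) (fun _ => 0) (by simpa using hz) (by simp) (by simp)
    simpa using this
  have hB40 : 0 ≤ B4 := (norm_nonneg _).trans (hB4 0)
  have hB20 : 0 ≤ B2 := sriB2 th e hAd X (by omega) F B2 hB2
  have hs0 : 0 < Real.sqrt X := Real.sqrt_pos.mpr hx0
  set P : ℝ := B2 + Real.sqrt X * B4 with hPdef
  have hP0 : 0 ≤ P := by positivity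
  -- the decomposition
  have e1 : ∑ n ∈ Icc 1 X, ((uI ww gg X (wX D' X) n : ℝ) : ℂ) * F n =
      ∑ i ∈ range I, ∑ n ∈ Icc 1 X, ((γ i n * ∑ l ∈ n.divisors, α i l : ℝ) : ℂ) * F n +
      ∑ i ∈ range I, ∑ n ∈ Icc 1 X, ((∑ m ∈ n.divisors,
        (if n / m ≤ K i then a i m * cc i (n / m) else 0) : ℝ) : ℂ) * F n +
      ∑ n ∈ Icc 1 X, ((err n : ℝ) : ℂ) * F n -
      ∑ n ∈ Icc 1 X, ((gg X n : ℝ) : ℂ) * (((f1 (wX D' X) n : ℝ) : ℂ) * F n) := by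
    rw [Finset.sum_comm (s := range I) (t := Icc 1 X)
        (f := fun i n => ((γ i n * ∑ l ∈ n.divisors, α i l : ℝ) : ℂ) * F n),
      Finset.sum_comm (s := range I) (t := Icc 1 X)
        (f := fun i n => ((∑ m ∈ n.divisors,
          (if n / m ≤ K i then a i m * cc i (n / m) else 0) : ℝ) : ℂ) * F n),
      ← sum_add_distrib, ← sum_add_distrib, ← sum_sub_distrib]
    refine sum_congr rfl fun n hn => ?_
    rw [← Finset.sum_mul, ← Finset.sum_mul, ← Complex.ofReal_sum, ← Complex.ofReal_sum]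
    unfold uI fI
    rw [hdec n hn]
    push_cast
    ring
  -- type I
  have t1 : ‖∑ i ∈ range I, ∑ n ∈ Icc 1 X, ((γ i n * ∑ l ∈ n.divisors, α i l : ℝ) : ℂ) * F n‖ ≤
      2 * L ^ (3 * C2) * B1 := by
    refine (norm_sum_le _ _).trans ?_
    calc ∑ i ∈ range I, ‖∑ n ∈ Icc 1 X, ((γ i n * ∑ l ∈ n.divisors, α i l : ℝ) : ℂ) * F n‖
        ≤ ∑ _i ∈ range I, L ^ C2 * B1 * (L ^ C2 + L ^ C2) := by
          refine sum_le_sum fun i _ => ?_
          exact st_ti_i th e X hX1' F B1 hB1 (γ i) (α i) (L ^ C2) (L ^ C2) (L ^ C2) (hα i) (hαs i)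
            (hγ i).1 (hγ i).2
      _ = (I : ℝ) * (L ^ C2 * B1 * (L ^ C2 + L ^ C2)) := by simp
      _ ≤ L ^ C2 * (L ^ C2 * B1 * (L ^ C2 + L ^ C2)) := by gcongr
      _ = 2 * L ^ (3 * C2) * B1 := by
          rw [show 3 * C2 = C2 + C2 + C2 by ring, pow_add, pow_add]
          ring
  -- type II
  have t2 : ‖∑ i ∈ range I, ∑ n ∈ Icc 1 X, ((∑ m ∈ n.divisors,
      (if n / m ≤ K i then a i m * cc i (n / m) else 0) : ℝ) : ℂ) * F n‖ ≤
      L ^ (3 * C2) * (2 * L + 2) * P := by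
    refine (norm_sum_le _ _).trans ?_
    calc ∑ i ∈ range I, ‖∑ n ∈ Icc 1 X, ((∑ m ∈ n.divisors,
          (if n / m ≤ K i then a i m * cc i (n / m) else 0) : ℝ) : ℂ) * F n‖
        ≤ ∑ _i ∈ range I, (L ^ C2) ^ 2 * (2 * L + 2) * P := by
          refine sum_le_sum fun i _ => ?_
          exact st_tii_i th e hAd X (by omega) F B2 B4 hB2 hB4 (M i) (K i) (a i) (cc i) (L ^ C2)
            (hac i) (hMK i).1 (hMK i).2.1 (hMK i).2.2 (hasup i)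
      _ = (I : ℝ) * ((L ^ C2) ^ 2 * (2 * L + 2) * P) := by simp
      _ ≤ L ^ C2 * ((L ^ C2) ^ 2 * (2 * L + 2) * P) := by gcongr
      _ = L ^ (3 * C2) * (2 * L + 2) * P := by
          rw [show 3 * C2 = C2 + C2 + C2 by ring, pow_add, pow_add]
          ring
  -- error
  set S : ℝ := X / L ^ (2 * A + 10) with hSdef
  have hS0 : 0 ≤ S := by positivity
  have t3 : ‖∑ n ∈ Icc 1 X, ((err n : ℝ) : ℂ) * F n‖ ≤ Real.sqrt S * B3 :=
    sriCs X err F S B3 hS0 hB30 herr hB3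
  -- model
  set Q2 : ℝ := L * B1 + (X : ℝ) ^ (1 / 2 - c) * B3 with hQ2def
  have hQ20 : 0 ≤ Q2 := by positivity
  have t4 : ‖∑ n ∈ Icc 1 X, ((gg X n : ℝ) : ℂ) * (((f1 (wX D' X) n : ℝ) : ℂ) * F n)‖ ≤
      Q2 * (K0 + L ^ C1) := by
    refine abel_bv X hX1' _ (gg X) Q2 K0 (L ^ C1) hQ20 ?_ (fun n _ => (hw1 n).2) hw2
    intro t ht
    exact hf1 hB10 hB30 (tih_of th e hAd X hX1' F B1 hB1) hB3 t (mem_Icc.mp ht).2
  rw [e1]
  have hn4 : ∀ a b c d : ℂ, ‖a + b + c - d‖ ≤ ‖a‖ + ‖b‖ + ‖c‖ + ‖d‖ := by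
    intro a b c d
    exact (norm_sub_le _ _).trans (add_le_add norm_add₃_le le_rfl)
  refine (hn4 _ _ _ _).trans ((add_le_add (add_le_add (add_le_add t1 t2) t3) t4).trans ?_)
  -- final estimate
  have hsqS : Real.sqrt S = Real.sqrt X / L ^ (A + 5) := by
    have : S = (Real.sqrt X / L ^ (A + 5)) ^ 2 := by
      rw [hSdef, div_pow, Real.sq_sqrt hx0.le, ← pow_mul]
      congr 2
      ring
    rw [this, Real.sqrt_sq (by positivity)]
  have b1 : 2 * L ^ (3 * C2) * B1 + L * B1 * (K0 + L ^ C1) ≤ L ^ (3 * C2 + C1 + 2) * B1 := by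
    have c1 : L ^ (3 * C2) ≤ L ^ (3 * C2 + C1 + 1) := pow_le_pow_right₀ hL1 (by omega)
    have c2 : L ≤ L ^ (3 * C2 + C1 + 1) := by
      calc L = L ^ 1 := (pow_one L).symm
        _ ≤ L ^ (3 * C2 + C1 + 1) := pow_le_pow_right₀ hL1 (by omega)
    have c3 : L * L ^ C1 ≤ L ^ (3 * C2 + C1 + 1) := by
      calc L * L ^ C1 = L ^ (C1 + 1) := by ring
        _ ≤ L ^ (3 * C2 + C1 + 1) := pow_le_pow_right₀ hL1 (by omega)
    have c4 : 2 * L ^ (3 * C2) + (K0 * L + L * L ^ C1) ≤ L ^ (3 * C2 + C1 + 2) := by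
      calc 2 * L ^ (3 * C2) + (K0 * L + L * L ^ C1)
          ≤ 2 * L ^ (3 * C2 + C1 + 1) + (K0 * L ^ (3 * C2 + C1 + 1) + L ^ (3 * C2 + C1 + 1)) := by
            gcongr
        _ = (K0 + 3) * L ^ (3 * C2 + C1 + 1) := by ring
        _ ≤ L * L ^ (3 * C2 + C1 + 1) := by
            gcongr
            linarith
        _ = L ^ (3 * C2 + C1 + 2) := by ring
    calc 2 * L ^ (3 * C2) * B1 + L * B1 * (K0 + L ^ C1)
        = (2 * L ^ (3 * C2) + (K0 * L + L * L ^ C1)) * B1 := by ring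
      _ ≤ L ^ (3 * C2 + C1 + 2) * B1 := mul_le_mul_of_nonneg_right c4 hB10
  have b2 : L ^ (3 * C2) * (2 * L + 2) * P ≤ L ^ (3 * C2 + C1 + 2) * P := by
    refine mul_le_mul_of_nonneg_right ?_ hP0
    calc L ^ (3 * C2) * (2 * L + 2) ≤ L ^ (3 * C2) * L ^ 2 := by
          gcongr
          nlinarith
      _ = L ^ (3 * C2 + 2) := by ring
      _ ≤ L ^ (3 * C2 + C1 + 2) := pow_le_pow_right₀ hL1 (by omega)
  have b3 : Real.sqrt S * B3 + (X : ℝ) ^ (1 / 2 - c) * B3 * (K0 + L ^ C1) ≤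
      Real.sqrt X * B3 / L ^ A := by
    have h4 : Real.sqrt S * B3 ≤ Real.sqrt X * B3 / L ^ A / 2 := by
      rw [hsqS]
      have : Real.sqrt X / L ^ (A + 5) * B3 = Real.sqrt X * B3 / L ^ A * (1 / L ^ 5) := by
        rw [pow_add]
        field_simp
      rw [this]
      have h5 : 1 / L ^ 5 ≤ 1 / 2 := by
        rw [div_le_div_iff₀ (by positivity) (by norm_num)]
        have : (4 : ℝ) ^ 5 ≤ L ^ 5 := pow_le_pow_left₀ (by norm_num) hL4 5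
        nlinarith
      have h6 : 0 ≤ Real.sqrt X * B3 / L ^ A := by positivity
      nlinarith
    have h7 : (X : ℝ) ^ (1 / 2 - c) * B3 * (K0 + L ^ C1) ≤ Real.sqrt X * B3 / L ^ A / 2 := by
      have h8 : (X : ℝ) ^ (1 / 2 - c) * (X : ℝ) ^ c = Real.sqrt X := by
        rw [← Real.rpow_add hx0, Real.sqrt_eq_rpow]
        congr 1
        ring
      rw [div_div, le_div_iff₀ (by positivity), ← h8]
      have h9 : 0 ≤ (X : ℝ) ^ (1 / 2 - c) * B3 := by positivity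
      have h10 : (K0 + L ^ C1) * (L ^ A * 2) ≤ 2 * (K0 + 1) * L ^ (A + C1) := by
        have h11 : (K0 : ℝ) ≤ K0 * L ^ C1 := le_mul_of_one_le_right hK0 (one_le_pow₀ hL1)
        calc (K0 + L ^ C1) * (L ^ A * 2) ≤ (K0 * L ^ C1 + L ^ C1) * (L ^ A * 2) := by gcongr
          _ = 2 * (K0 + 1) * L ^ (A + C1) := by rw [pow_add]; ring
      calc (X : ℝ) ^ (1 / 2 - c) * B3 * (K0 + L ^ C1) * (L ^ A * 2)
          = ((X : ℝ) ^ (1 / 2 - c) * B3) * ((K0 + L ^ C1) * (L ^ A * 2)) := by ring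
        _ ≤ ((X : ℝ) ^ (1 / 2 - c) * B3) * (X : ℝ) ^ c :=
            mul_le_mul_of_nonneg_left (h10.trans hLX) h9
        _ = (X : ℝ) ^ (1 / 2 - c) * (X : ℝ) ^ c * B3 := by ring
    linarith
  have e4 : L ^ (3 * C2 + C1 + 2) * (B1 + B2 + Real.sqrt X * B4) =
      L ^ (3 * C2 + C1 + 2) * B1 + L ^ (3 * C2 + C1 + 2) * P := by
    rw [hPdef]; ring
  rw [e4]
  have e5 : Q2 * (K0 + L ^ C1) =
      L * B1 * (K0 + L ^ C1) + (X : ℝ) ^ (1 / 2 - c) * B3 * (K0 + L ^ C1) := by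
    rw [hQ2def]; ring
  rw [e5]
  linarith

end Pool.MP_dd84fd_nt.IX
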