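import Pool.Agent.Lib.MP_dd84fd_nt.IX.TrStep
import Pool.Agent.Lib.MP_dd84fd_nt.IX.KsPar
import Pool.Agent.Lib.MP_dd84fd_nt.HX.TrFin

/-!
# IX-TrFin (0.9 h): the tree theorem

Copy `HX/TrFin.lean` (`HX.tree_h`). `k0 = ⌈10/e⌉ + 1`, `η = e/(2 k0)`. Suppose `#Bx > X^(th-e/4)`. `E_0 = Bx`, `Λ_0 = bb_0 = 1`. Given `E_k` (`k < k0`), thin for `(Λ_k, bb_k)`, `#E_k ≥ X^(th-e/4-kη) ≥ X^(th-3e/4)`, `Λ_k bb_k ≥ X^(k e/10)`:
`HX.tr_card`: `(#E_k - 1) Λ_k bb_k ≤ X`, so `Λ_k bb_k ≤ 2X/#E_k ≤ 2 X^(1-th+e)`; the hypothesis of `TreeI` applies to all `n ∈ E_k`; `StI` with this `η` (`η ≤ e`) and `A`, and `tr_step_i` (`ρ = X^(-η)`, `Q = X/L^A`): `E_(k+1)`.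
At `k = k0`: `Λ bb ≥ X^(k0 e/10) ≥ X` and `≤ 2X^(1-th+e) < X`: contradiction.
-/

set_option autoImplicit false

namespace Pool.MP_dd84fd_nt.IX

open Finset Pool.MP_67663b_nt.Odd Pool.MP_dd84fd_nt.En Pool.MP_dd84fd_nt.E2 Pool.MP_dd84fd_nt.LS
open Pool.MP_dd84fd_nt.L2G (nrm)
open Pool.MP_dd84fd_nt.GX Pool.MP_dd84fd_nt.HX

private theorem trFinI_wS (G : ℕ) (th e : ℝ) (X Λ : ℕ) (bb : ℝ) (j : ZMod G) :
    ‖wSI G th e X Λ bb j‖ ≤ 1 := by
  unfold wSI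
  split_ifs <;> simp

/-- the bound for `Λ bb` -/
private theorem trFinI_bd (t : ℝ) (X : ℕ) (hX : 1 ≤ X) (hX2 : 2 ≤ (X : ℝ) ^ t)
    (E : Finset ℕ) (Λ : ℕ) (bb : ℝ) (hΛ : 1 ≤ Λ) (hb : 1 ≤ bb) (hT : Thin X Λ bb E)
    (hE : (X : ℝ) ^ t ≤ E.card) :
    (Λ : ℝ) * bb ≤ 2 * (X : ℝ) ^ (1 - t) := by
  have hX0 : (0 : ℝ) < X := by exact_mod_cast hX
  have h1 := tr_card X Λ bb hΛ hb E hT
  have hΛR : (1 : ℝ) ≤ Λ := by exact_mod_cast hΛ
  have hm0 : 0 < (Λ : ℝ) * bb := by positivity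
  have h2 : (X : ℝ) ^ t / 2 ≤ (E.card : ℝ) - 1 := by linarith
  have h3 : (X : ℝ) ^ t / 2 * ((Λ : ℝ) * bb) ≤ X :=
    (mul_le_mul_of_nonneg_right h2 hm0.le).trans h1
  have h4 : (X : ℝ) = (X : ℝ) ^ t * (X : ℝ) ^ (1 - t) := by
    rw [← Real.rpow_add hX0]
    have : t + (1 - t) = 1 := by ring
    rw [this, Real.rpow_one]
  have h5 : 0 < (X : ℝ) ^ t := Real.rpow_pos_of_pos hX0 _
  have h6 : (X : ℝ) ^ t * ((Λ : ℝ) * bb) ≤ (X : ℝ) ^ t * (2 * (X : ℝ) ^ (1 - t)) := by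
    have h7 : (X : ℝ) ^ t * (2 * (X : ℝ) ^ (1 - t)) = 2 * X := by
      nth_rewrite 3 [h4]
      ring
    rw [h7]
    linarith
  exact le_of_mul_le_mul_left h6 h5

theorem tree_i (h : StI) : TreeI := by
  intro A CV
  obtain ⟨B0, hB0⟩ := h A CV
  refine ⟨B0, ?_⟩
  intro K0 C1 C2 th e hAdm ww gg hW1 hDec D' hD
  have hAdm0 := hAdm
  obtain ⟨ht1, ht2, he0, he1⟩ := hAdm0
  have he2 : e ≤ 1 / 1000 := by linarith
  obtain ⟨k0, hk0⟩ : ∃ k0 : ℕ, k0 = ⌈10 / e⌉₊ + 1 := ⟨_, rfl⟩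
  have hk0n : 1 ≤ k0 := by omega
  have hk0R : (1 : ℝ) ≤ k0 := by exact_mod_cast hk0n
  have hk0p : (0 : ℝ) < k0 := by linarith
  have hk0c : 10 / e ≤ k0 := by
    rw [hk0]
    push_cast
    have := Nat.le_ceil (10 / e)
    linarith
  obtain ⟨η, hη⟩ : ∃ η : ℝ, η = e / (2 * k0) := ⟨_, rfl⟩
  have hη0 : 0 < η := by rw [hη]; positivity
  have hkη : (k0 : ℝ) * η = e / 2 := by
    rw [hη]
    field_simp
  have hηe : η ≤ e := by
    have h1 : 1 * η ≤ k0 * η := mul_le_mul_of_nonneg_right hk0R hη0.le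
    rw [hkη] at h1
    linarith
  obtain ⟨X1, hX1⟩ := hB0 K0 C1 C2 th e η hAdm hη0 hηe ww gg hW1 hDec D' hD
  refine ⟨X1 + 10000, ?_⟩
  intro X hX G _ hG V hV B hB hbad
  by_contra hlt
  push Not at hlt
  have hX4 : (10000 : ℝ) ≤ X := by
    have : 10000 ≤ X := by omega
    exact_mod_cast this
  have hXn : 1 ≤ X := by omega
  have hX0 : (0 : ℝ) < X := by linarith
  have hX1r : (1 : ℝ) ≤ X := by linarith
  have hpow : (10 : ℝ) ≤ (X : ℝ) ^ (th - 3 * e / 4) := by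
    have e1 : (10 : ℝ) = (10000 : ℝ) ^ (1 / 4 : ℝ) := by
      rw [show (10000 : ℝ) = 10 ^ (4 : ℝ) by norm_num, ← Real.rpow_mul (by norm_num)]
      norm_num
    calc (10 : ℝ) = (10000 : ℝ) ^ (1 / 4 : ℝ) := e1
      _ ≤ (X : ℝ) ^ (1 / 4 : ℝ) := Real.rpow_le_rpow (by norm_num) hX4 (by norm_num)
      _ ≤ (X : ℝ) ^ (th - 3 * e / 4) := Real.rpow_le_rpow_of_exponent_le hX1r (by linarith)
  have key : ∀ k : ℕ, k ≤ k0 → ∃ (E : Finset ℕ) (Λ : ℕ) (bb : ℝ), E ⊆ B ∧ 1 ≤ Λ ∧ 1 ≤ bb ∧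
      Thin X Λ bb E ∧ (X : ℝ) ^ (th - e / 4 - k * η) ≤ E.card ∧
      (X : ℝ) ^ (k * (e / 10)) ≤ (Λ : ℝ) * bb := by
    intro k
    induction k with
    | zero =>
      intro _
      refine ⟨B, 1, 1, subset_rfl, le_rfl, le_rfl, ?_, ?_, ?_⟩
      · intro n hn n' hn' _
        have h1 := Finset.mem_Icc.1 (hB hn)
        have h2 := Finset.mem_Icc.1 (hB hn')
        refine ⟨one_dvd _, ?_⟩
        have h3 : (n' : ℝ) ≤ X := by exact_mod_cast h2.2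
        have h4 : (0 : ℝ) ≤ n := Nat.cast_nonneg n
        linarith
      · rw [Nat.cast_zero, zero_mul, sub_zero]
        exact hlt.le
      · rw [Nat.cast_zero, zero_mul, Real.rpow_zero]
        norm_num
    | succ k ih =>
      intro hk
      obtain ⟨E, Λ, bb, hEB, hΛ, hb, hT, hcard, hm⟩ := ih (by omega)
      have hkR : (k : ℝ) * η ≤ e / 2 := by
        have : (k : ℝ) ≤ k0 := by
          have : k ≤ k0 := by omega
          exact_mod_cast this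
        calc (k : ℝ) * η ≤ k0 * η := mul_le_mul_of_nonneg_right this hη0.le
          _ = e / 2 := hkη
      have hE2 : (X : ℝ) ^ (th - 3 * e / 4) ≤ E.card :=
        (Real.rpow_le_rpow_of_exponent_le hX1r (by linarith)).trans hcard
      have hE3 : (X : ℝ) ^ (th - e) ≤ E.card :=
        (Real.rpow_le_rpow_of_exponent_le hX1r (by linarith)).trans hE2
      have hne : E.Nonempty := by
        rw [← Finset.card_pos]
        have : (0 : ℝ) < E.card := by linarith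
        exact_mod_cast this
      have hbd0 := trFinI_bd (th - 3 * e / 4) X hXn (by linarith) E Λ bb hΛ hb hT hE2
      have hbd : (Λ : ℝ) * bb ≤ 2 * (X : ℝ) ^ (1 - th + e) := by
        refine hbd0.trans ?_
        have := Real.rpow_le_rpow_of_exponent_le hX1r
          (by linarith : 1 - (th - 3 * e / 4) ≤ 1 - th + e)
        linarith
      have hQ : ∀ n ∈ E, (X : ℝ) / (Real.log X) ^ A <
          ‖PhI G ww gg X (wX D' X) V (wSI G th e X Λ bb) n‖ := fun n hn =>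
        hbad n (hEB hn) Λ bb hΛ hb hbd
      have hst : NoAPH G (dl th e) X (wSI G th e X Λ bb) E ((X : ℝ) ^ (-η)) → ∀ ph : ℕ → ℂ,
          (∀ n, ‖ph n‖ ≤ 1) →
          ‖∑ n ∈ E, ph n * PhI G ww gg X (wX D' X) V (wSI G th e X Λ bb) n‖ ≤
            (X : ℝ) / (Real.log X) ^ A * E.card := by
        intro hno ph hph
        have h1 := hX1 X (by omega) G hG V hV (wSI G th e X Λ bb) (trFinI_wS G th e X Λ bb) E
          (hEB.trans hB) hE3 ph hph hno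
        rw [mul_div_right_comm] at h1
        exact h1
      obtain ⟨E', Λ', bb', hE', hc', hΛ', hb', hT', hm'⟩ := tr_step_i G th e X (wX D' X) hXn ww gg
        V E Λ bb hΛ hb hT ((X : ℝ) ^ (-η)) ((X : ℝ) / (Real.log X) ^ A) hne hQ hst
      refine ⟨E', Λ', bb', hE'.trans hEB, hΛ', hb', hT', ?_, ?_⟩
      · refine le_trans ?_ hc'.le
        have e1 : (X : ℝ) ^ (th - e / 4 - ((k + 1 : ℕ) : ℝ) * η) =
            (X : ℝ) ^ (-η) * (X : ℝ) ^ (th - e / 4 - k * η) := by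
          rw [← Real.rpow_add hX0]
          congr 1
          push_cast
          ring
        rw [e1]
        exact mul_le_mul_of_nonneg_left hcard (Real.rpow_nonneg hX0.le _)
      · refine le_trans ?_ hm'.le
        have e1 : (X : ℝ) ^ (((k + 1 : ℕ) : ℝ) * (e / 10)) =
            (X : ℝ) ^ (e / 10) * (X : ℝ) ^ (k * (e / 10)) := by
          rw [← Real.rpow_add hX0]
          congr 1
          push_cast
          ring
        rw [e1]
        exact mul_le_mul_of_nonneg_left hm (Real.rpow_nonneg hX0.le _)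
  obtain ⟨E, Λ, bb, hEB, hΛ, hb, hT, hcard, hm⟩ := key k0 le_rfl
  have hE2 : (X : ℝ) ^ (th - 3 * e / 4) ≤ E.card :=
    (Real.rpow_le_rpow_of_exponent_le hX1r (by rw [hkη]; linarith)).trans hcard
  have hbd := trFinI_bd (th - 3 * e / 4) X hXn (by linarith) E Λ bb hΛ hb hT hE2
  have h1 : (X : ℝ) ≤ (X : ℝ) ^ ((k0 : ℝ) * (e / 10)) := by
    have h2 : (1 : ℝ) ≤ (k0 : ℝ) * (e / 10) := by
      have h3 := mul_le_mul_of_nonneg_right hk0c (by positivity : (0 : ℝ) ≤ e / 10)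
      have h4 : 10 / e * (e / 10) = 1 := by field_simp
      linarith
    calc (X : ℝ) = (X : ℝ) ^ (1 : ℝ) := (Real.rpow_one _).symm
      _ ≤ _ := Real.rpow_le_rpow_of_exponent_le hX1r h2
  have h2 : (X : ℝ) ≤ 2 * (X : ℝ) ^ (1 - (th - 3 * e / 4)) := h1.trans (hm.trans hbd)
  have h4 : (X : ℝ) = (X : ℝ) ^ (th - 3 * e / 4) * (X : ℝ) ^ (1 - (th - 3 * e / 4)) := by
    rw [← Real.rpow_add hX0]
    have : (th - 3 * e / 4) + (1 - (th - 3 * e / 4)) = 1 := by ring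
    rw [this, Real.rpow_one]
  have h5 : 0 < (X : ℝ) ^ (1 - (th - 3 * e / 4)) := Real.rpow_pos_of_pos hX0 _
  have h6 := mul_le_mul_of_nonneg_right hpow h5.le
  rw [← h4] at h6
  linarith

end Pool.MP_dd84fd_nt.IX
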