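import Pool.Agent.Lib.MP_dd84fd_nt.IX.FaFin
import Pool.Agent.Lib.MP_dd84fd_nt.IX.StRed
import Pool.Agent.Lib.MP_dd84fd_nt.IX.StFin
import Pool.Agent.Lib.MP_dd84fd_nt.IX.TrFin
import Pool.Agent.Lib.MP_dd84fd_nt.IX.PlFin
import Pool.Agent.Lib.MP_dd84fd_nt.IX.GrSup
import Pool.Agent.Lib.MP_dd84fd_nt.IX.GrFin
import Pool.Agent.Lib.MP_dd84fd_nt.IX.CeMain

/-!
# GEN, all sections together
-/

set_option autoImplicit false

namespace Pool.MP_dd84fd_nt.IX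

theorem gen_all : GenI :=
  gen_i (tree_i (st_i red_i)) sup_i Pool.MP_dd84fd_nt.IXP.pl_i (greedy_i sup_i) centre_i

end Pool.MP_dd84fd_nt.IX
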