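import Pool.Agent.Lib.MP_dd84fd_nt.IX.GrPair

/-!
# IX-GrCo (0.5 h): coincident fractions

Adapt `HX/GrCoin.lean` (`coin_int`, `coin_large`, `coin_count`). For `(q,a)` coincident with `(q',a')`, `z`: `v = a q' - (a' + z q') q` is a nonzero integer (`fr_dist`), `|v| = q q' |a/q - a'/q' - z| ≤ q q'/X ≤ P²/X`.
`coin_cnt`: `crI X S q ⊆ ⋃_{q' ∈ S} {a ∈ range q : ∃ b, a q' - b q ≠ 0, |.| ≤ P²/X}` (`b = a' + z q'`), each of size `≤ 2 P²/X` (`pair_count`). `coin_lrg`: `1 ≤ |v| ≤ q q'/X ≤ q P/X`.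
-/

set_option autoImplicit false

namespace Pool.MP_dd84fd_nt.IX

open Finset Pool.MP_67663b_nt.Odd Pool.MP_dd84fd_nt.En Pool.MP_dd84fd_nt.E2 Pool.MP_dd84fd_nt.LS
open Pool.MP_dd84fd_nt.L2G (nrm)
open Pool.MP_dd84fd_nt.GX Pool.MP_dd84fd_nt.HX
open Pool.MP_dd84fd_nt.PL (rr Fam)

/-- `a/q` is at distance `≤ 1/X` (mod 1) of a reduced fraction with another denominator in `S` -/
def CoinI (X : ℕ) (S : Finset ℕ) (q a : ℕ) : Prop :=
  ∃ q' ∈ S, q' ≠ q ∧ ∃ a' ∈ rr q', ∃ z : ℤ, |(a : ℝ) / q - (a' : ℝ) / q' - z| ≤ 1 / X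

/-- the numerators of the coincident fractions -/
noncomputable def crI (X : ℕ) (S : Finset ℕ) (q : ℕ) : Finset ℕ :=
  open Classical in (rr q).filter (fun a => CoinI X S q a)

/-- the numerators of the other fractions -/
noncomputable def nrI (X : ℕ) (S : Finset ℕ) (q : ℕ) : Finset ℕ :=
  open Classical in (rr q).filter (fun a => ¬ CoinI X S q a)

/-- the integer attached to a coincidence -/
private theorem coin_intI (X : ℕ) (S : Finset ℕ) (P : ℝ)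
    (hS : ∀ q ∈ S, 1 ≤ q ∧ (q : ℝ) ≤ P) {q a : ℕ} (hq : q ∈ S) (ha : a ∈ crI X S q) :
    ∃ q' ∈ S, ∃ b : ℤ, (a : ℤ) * q' - b * q ≠ 0 ∧
      |(((a : ℤ) * q' - b * q : ℤ) : ℝ)| ≤ (q : ℝ) * q' * (1 / X) := by
  classical
  unfold crI at ha
  rw [mem_filter] at ha
  obtain ⟨har, q', hq', hne, a', ha', z, hz⟩ := ha
  have hq1 := (hS q hq).1
  have hq1' := (hS q' hq').1
  have hqR : (0 : ℝ) < q := by exact_mod_cast hq1
  have hqR' : (0 : ℝ) < q' := by exact_mod_cast hq1'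
  have hd := fr_dist hq1 hq1' har ha' (fun h => hne h.1.symm) z
  have hlcm : (0 : ℝ) < (Nat.lcm q q' : ℝ) := by
    exact_mod_cast Nat.lcm_pos (by omega) (by omega)
  have hpos : 0 < |(a : ℝ) / q - (a' : ℝ) / q' - z| :=
    lt_of_lt_of_le (by positivity) hd
  have hid : ((((a : ℤ) * q' - ((a' : ℤ) + z * q') * q : ℤ)) : ℝ) =
      (q : ℝ) * q' * ((a : ℝ) / q - (a' : ℝ) / q' - z) := by
    push_cast
    field_simp
    ring
  have habs : |((((a : ℤ) * q' - ((a' : ℤ) + z * q') * q : ℤ)) : ℝ)| =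
      (q : ℝ) * q' * |(a : ℝ) / q - (a' : ℝ) / q' - z| := by
    rw [hid, abs_mul, abs_of_pos (mul_pos hqR hqR')]
  refine ⟨q', hq', (a' : ℤ) + z * q', ?_, ?_⟩
  · intro h0
    rw [h0, Int.cast_zero, abs_zero] at habs
    have : 0 < (q : ℝ) * q' * |(a : ℝ) / q - (a' : ℝ) / q' - z| := by positivity
    linarith
  · rw [habs]
    exact mul_le_mul_of_nonneg_left hz (by positivity)

theorem coin_cnt (X : ℕ) (hX : 1 ≤ X) (S : Finset ℕ) (P : ℝ)
    (hS : ∀ q ∈ S, 1 ≤ q ∧ (q : ℝ) ≤ P) :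
    ∑ q ∈ S, ((crI X S q).card : ℝ) ≤ 2 * (P ^ 2 / X) * (S.card : ℝ) ^ 2 := by
  classical
  have hX0 : (0 : ℝ) < X := by exact_mod_cast hX
  have hV : 0 ≤ P ^ 2 / (X : ℝ) := by positivity
  have key : ∀ q ∈ S, ((crI X S q).card : ℝ) ≤ S.card * (2 * (P ^ 2 / X)) := by
    intro q hq
    have hsub : crI X S q ⊆ S.biUnion (fun q' =>
        (range q).filter (fun a : ℕ => ∃ b : ℤ, (a : ℤ) * q' - b * q ≠ 0 ∧
          |(((a : ℤ) * q' - b * q : ℤ) : ℝ)| ≤ P ^ 2 / X)) := by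
      intro a ha
      obtain ⟨q', hq', b, hne, hle⟩ := coin_intI X S P hS hq ha
      rw [mem_biUnion]
      refine ⟨q', hq', ?_⟩
      rw [mem_filter]
      refine ⟨?_, b, hne, hle.trans ?_⟩
      · unfold crI at ha
        have h5 := (mem_filter.1 ha).1
        unfold rr at h5
        exact (mem_filter.1 h5).1
      · rw [mul_one_div]
        have h1 := (hS q hq).2
        have h2 := (hS q' hq').2
        have h3 : (0 : ℝ) ≤ q := Nat.cast_nonneg q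
        have h4 : (0 : ℝ) ≤ q' := Nat.cast_nonneg q'
        gcongr
        nlinarith
    have h1 : (crI X S q).card ≤ ∑ q' ∈ S, ((range q).filter (fun a : ℕ => ∃ b : ℤ,
        (a : ℤ) * q' - b * q ≠ 0 ∧ |(((a : ℤ) * q' - b * q : ℤ) : ℝ)| ≤ P ^ 2 / X)).card :=
      (card_le_card hsub).trans card_biUnion_le
    have h2 : ((crI X S q).card : ℝ) ≤ ∑ q' ∈ S, (((range q).filter (fun a : ℕ => ∃ b : ℤ,
        (a : ℤ) * q' - b * q ≠ 0 ∧ |(((a : ℤ) * q' - b * q : ℤ) : ℝ)| ≤ P ^ 2 / X)).card : ℝ) := by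
      exact_mod_cast h1
    refine h2.trans ?_
    refine (sum_le_card_nsmul _ _ (2 * (P ^ 2 / X)) fun q' hq' => ?_).trans ?_
    · exact pair_count q q' (hS q hq).1 (hS q' hq').1 _ hV
    · rw [nsmul_eq_mul]
  refine (sum_le_card_nsmul _ _ _ key).trans ?_
  rw [nsmul_eq_mul]
  apply le_of_eq
  ring

theorem coin_lrg (X : ℕ) (hX : 1 ≤ X) (S : Finset ℕ) (P : ℝ)
    (hS : ∀ q ∈ S, 1 ≤ q ∧ (q : ℝ) ≤ P) : ∀ q ∈ S, ∀ a ∈ crI X S q, (X : ℝ) ≤ q * P := by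
  intro q hq a ha
  obtain ⟨q', hq', b, hne, hle⟩ := coin_intI X S P hS hq ha
  have hX0 : (0 : ℝ) < X := by exact_mod_cast hX
  have h1 : (1 : ℝ) ≤ |(((a : ℤ) * q' - b * q : ℤ) : ℝ)| := by
    have := Int.one_le_abs hne
    exact_mod_cast this
  have h2 := h1.trans hle
  rw [mul_one_div, le_div_iff₀ hX0, one_mul] at h2
  refine h2.trans ?_
  exact mul_le_mul_of_nonneg_left (hS q' hq').2 (Nat.cast_nonneg q)

end Pool.MP_dd84fd_nt.IX
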