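import Pool.Agent.Lib.MP_dd84fd_nt.IX.GrMul

/-!
# IX-GrHv (0.3 h): the heavy denominators

If `#QS > X^(2e)`, take `S ⊆ QS` with `#S = ⌊X^(2e)⌋₊ + 1 ≤ 2 X^(2e)` (`Finset.exists_subset_card_eq`): `mult_i` gives `X^(2e) X^(1-e) ≤ #S X^(1-e) ≤ X L^(K2+6)`, false for large `X` (`MP_log_pow` with `e`). So `#QS ≤ X^(2e)` and `mult_i` applies to `QS`.
-/

set_option autoImplicit false

namespace Pool.MP_dd84fd_nt.IX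

open Finset Pool.MP_67663b_nt.Odd Pool.MP_dd84fd_nt.En Pool.MP_dd84fd_nt.E2 Pool.MP_dd84fd_nt.LS
open Pool.MP_dd84fd_nt.L2G (nrm)
open Pool.MP_dd84fd_nt.GX Pool.MP_dd84fd_nt.HX
open Pool.MP_dd84fd_nt.PL (rr Fam)

theorem heavy_i (th e : ℝ) (h : Adm th e) (K2 : ℕ) : ∃ X0 : ℕ, ∀ X : ℕ, X0 ≤ X →
    ∀ (c1 c2 : ℕ → ℝ), ∑ n ∈ Icc 1 X, c1 n ^ 2 ≤ 3 * X * (Real.log X) ^ 4 →
    ∑ n ∈ Icc 1 X, c2 n ^ 2 ≤ 3 * X * (Real.log X) ^ 4 →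
    (∀ θ, (X : ℝ) ^ (th - 4 * e) ≤ ht X θ →
      ‖ES X c1 θ‖ ≤ (X : ℝ) ^ ((3 + th) / 4) ∧ ‖ES X c2 θ‖ ≤ (X : ℝ) ^ ((3 + th) / 4)) →
    ∀ QS : Finset ℕ, (∀ q ∈ QS, 1 ≤ q ∧ (q : ℝ) ≤ P0I th e X ∧
      (X : ℝ) ^ (1 - e) ≤ WtE X c1 c2 (2 * (Real.log X) ^ K2) q) →
    ∑ q ∈ QS, WtE X c1 c2 (2 * (Real.log X) ^ K2) q ≤ X * (Real.log X) ^ (K2 + 6) := by
  obtain ⟨X1, h1⟩ := mult_i th e h K2
  have he : 0 < e := h.2.2.1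
  obtain ⟨X2, h2⟩ := MP_log_pow 2 (K2 + 6) he
  refine ⟨X1 + X2 + 1, fun X hX c1 c2 hc1 hc2 hES QS hQS => ?_⟩
  have hmul := h1 X (by omega) c1 c2 hc1 hc2 hES
  have hX1 : (1 : ℝ) ≤ X := by exact_mod_cast (show 1 ≤ X by omega)
  have hX0 : (0 : ℝ) < X := lt_of_lt_of_le one_pos hX1
  by_cases hcard : (QS.card : ℝ) ≤ 2 * (X : ℝ) ^ (2 * e)
  · exact hmul QS (fun q hq => ⟨(hQS q hq).1, (hQS q hq).2.1⟩) hcard
  · exfalso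
    push Not at hcard
    have hp1 : (1 : ℝ) ≤ (X : ℝ) ^ (2 * e) := Real.one_le_rpow hX1 (by positivity)
    have hfl : ((⌊(X : ℝ) ^ (2 * e)⌋₊ : ℕ) : ℝ) ≤ (X : ℝ) ^ (2 * e) :=
      Nat.floor_le (by positivity)
    have hfl2 : (X : ℝ) ^ (2 * e) < (⌊(X : ℝ) ^ (2 * e)⌋₊ : ℕ) + 1 := Nat.lt_floor_add_one _
    have hle : ⌊(X : ℝ) ^ (2 * e)⌋₊ + 1 ≤ QS.card := by
      have : ((⌊(X : ℝ) ^ (2 * e)⌋₊ + 1 : ℕ) : ℝ) ≤ QS.card := by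
        push_cast
        linarith
      exact_mod_cast this
    obtain ⟨S, hSQ, hSc⟩ := Finset.exists_subset_card_eq hle
    have hS := hmul S (fun q hq => ⟨(hQS q (hSQ hq)).1, (hQS q (hSQ hq)).2.1⟩) (by
      rw [hSc]
      push_cast
      linarith)
    have hlow : (S.card : ℝ) * (X : ℝ) ^ (1 - e) ≤
        ∑ q ∈ S, WtE X c1 c2 (2 * (Real.log X) ^ K2) q := by
      rw [← nsmul_eq_mul]
      exact Finset.card_nsmul_le_sum _ _ _ fun q hq => (hQS q (hSQ hq)).2.2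
    have hcS : (X : ℝ) ^ (2 * e) ≤ (S.card : ℝ) := by
      rw [hSc]
      push_cast
      exact hfl2.le
    have h3 : (X : ℝ) ^ (2 * e) * (X : ℝ) ^ (1 - e) = X * (X : ℝ) ^ e := by
      rw [← Real.rpow_add hX0]
      nth_rewrite 2 [← Real.rpow_one (X : ℝ)]
      rw [← Real.rpow_add hX0]
      congr 1
      ring
    have h4 : X * (X : ℝ) ^ e ≤ X * (Real.log X) ^ (K2 + 6) := by
      rw [← h3]
      refine le_trans ?_ (hlow.trans hS)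
      exact mul_le_mul_of_nonneg_right hcS (by positivity)
    have h5 : (X : ℝ) ^ e ≤ (Real.log X) ^ (K2 + 6) := le_of_mul_le_mul_left h4 hX0
    have h6 := h2 X (by omega)
    have h7 : 0 < (X : ℝ) ^ e := Real.rpow_pos_of_pos hX0 e
    linarith

end Pool.MP_dd84fd_nt.IX
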