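import Pool.Agent.Lib.MP_dd84fd_nt.IX.GrDefs
import Pool.Agent.Lib.MP_67663b_nt.OddB.LSieve

/-!
# IX-GrLS (0.3 h): the large sieve for points and for arcs

Adapt `HX/GrLS.lean` (`ls_pts`, `ls_arcs`), with general real coefficients: `large_sieve_c`, `4π ≤ 13`; `ab ≤ (a² + b²)/2`; interchange of the finite sum and the integral.
-/

set_option autoImplicit false

namespace Pool.MP_dd84fd_nt.IX

open Finset Pool.MP_67663b_nt.Odd Pool.MP_dd84fd_nt.En Pool.MP_dd84fd_nt.E2 Pool.MP_dd84fd_nt.LS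
open Pool.MP_dd84fd_nt.L2G (nrm)
open Pool.MP_dd84fd_nt.GX Pool.MP_dd84fd_nt.HX
open Pool.MP_dd84fd_nt.PL (rr Fam)

theorem ls_ES (X : ℕ) (hX : 1 ≤ X) (c : ℕ → ℝ) (S : Finset (Σ _ : ℕ, ℕ)) (x : (Σ _ : ℕ, ℕ) → ℝ)
    (ρ : ℝ) (hρ : 0 < ρ) (hρ1 : ρ ≤ 1)
    (hs : ∀ i ∈ S, ∀ j ∈ S, i ≠ j → ∀ z : ℤ, ρ ≤ |x i - x j - z|) :
    ∑ i ∈ S, ‖ES X c (x i)‖ ^ 2 ≤ (1 / ρ + 13 * X) * ∑ n ∈ Icc 1 X, c n ^ 2 := by
  have hXp : (0 : ℝ) < X := by exact_mod_cast hX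
  have h := large_sieve_c S x hρ hρ1 hs (Icc 1 X)
    (fun n => ((c n : ℝ) : ℂ)) (N := (X : ℝ)) hXp
    (fun n hn => by exact_mod_cast (mem_Icc.1 hn).2)
  have e1 : ∑ i ∈ S, ‖ES X c (x i)‖ ^ 2 = ∑ i ∈ S,
      ‖∑ n ∈ Icc 1 X, ((c n : ℝ) : ℂ) * ee (n * x i)‖ ^ 2 := rfl
  rw [e1]
  refine h.trans ?_
  have h3 : ∑ n ∈ Icc 1 X, ‖((c n : ℝ) : ℂ)‖ ^ 2 = ∑ n ∈ Icc 1 X, c n ^ 2 := by
    refine sum_congr rfl fun n _ => ?_
    rw [Complex.norm_real, Real.norm_eq_abs, sq_abs]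
  have hpi : 4 * Real.pi ≤ 13 := by
    have := Real.pi_lt_d2
    linarith
  have h4 : ρ⁻¹ + 4 * Real.pi * X ≤ 1 / ρ + 13 * X := by
    rw [one_div]
    have := mul_le_mul_of_nonneg_right hpi hXp.le
    linarith
  rw [h3]
  exact mul_le_mul_of_nonneg_right h4 (sum_nonneg fun _ _ => by positivity)

theorem ls_arcE (X : ℕ) (hX : 1 ≤ X) (c1 c2 : ℕ → ℝ) (r : ℝ) (hr : 0 ≤ r)
    (S : Finset (Σ _ : ℕ, ℕ)) (x : (Σ _ : ℕ, ℕ) → ℝ) (ρ : ℝ) (hρ : 0 < ρ) (hρ1 : ρ ≤ 1)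
    (hs : ∀ i ∈ S, ∀ j ∈ S, i ≠ j → ∀ z : ℤ, ρ ≤ |x i - x j - z|) :
    ∑ i ∈ S, arcE X c1 c2 r (x i) ≤ 2 * r / X * ((1 / ρ + 13 * X) *
      ((∑ n ∈ Icc 1 X, c1 n ^ 2 + ∑ n ∈ Icc 1 X, c2 n ^ 2) / 2)) := by
  have hXp : (0 : ℝ) < X := by exact_mod_cast hX
  set B : ℝ := (1 / ρ + 13 * X) *
      ((∑ n ∈ Icc 1 X, c1 n ^ 2 + ∑ n ∈ Icc 1 X, c2 n ^ 2) / 2) with hB
  have hrX : -r / (X : ℝ) ≤ r / X := by
    rw [neg_div]
    have : 0 ≤ r / (X : ℝ) := by positivity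
    linarith
  have hcont : ∀ i : (Σ _ : ℕ, ℕ), Continuous (fun y : ℝ => ‖ES X c1 (x i + y)‖ *
      ‖ES X c2 (x i + y)‖) := fun i =>
    (((ES_cont X c1).comp (continuous_const.add continuous_id)).norm).mul
      (((ES_cont X c2).comp (continuous_const.add continuous_id)).norm)
  unfold arcE
  rw [← intervalIntegral.integral_finsetSum
    (fun i _ => (hcont i).intervalIntegrable _ _)]
  have hle : ∫ y in (-r / (X : ℝ))..(r / X), ∑ i ∈ S, ‖ES X c1 (x i + y)‖ *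
      ‖ES X c2 (x i + y)‖ ≤ ∫ _y in (-r / (X : ℝ))..(r / X), B := by
    refine intervalIntegral.integral_mono_on hrX
      ((continuous_finsetSum _ fun i _ => hcont i).intervalIntegrable _ _)
      (continuous_const.intervalIntegrable _ _) ?_
    intro y _
    have hsp' : ∀ i ∈ S, ∀ j ∈ S, i ≠ j → ∀ z : ℤ, ρ ≤ |(x i + y) - (x j + y) - z| := by
      intro i hi j hj hij z
      have := hs i hi j hj hij z
      rwa [show (x i + y) - (x j + y) - (z : ℝ) = x i - x j - z by ring]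
    have hm := ls_ES X hX c1 S (fun i => x i + y) ρ hρ hρ1 hsp'
    have hq := ls_ES X hX c2 S (fun i => x i + y) ρ hρ hρ1 hsp'
    calc ∑ i ∈ S, ‖ES X c1 (x i + y)‖ * ‖ES X c2 (x i + y)‖
        ≤ ∑ i ∈ S, (‖ES X c1 (x i + y)‖ ^ 2 + ‖ES X c2 (x i + y)‖ ^ 2) / 2 := by
          refine sum_le_sum fun i _ => ?_
          nlinarith [sq_nonneg (‖ES X c1 (x i + y)‖ - ‖ES X c2 (x i + y)‖)]
      _ = (∑ i ∈ S, ‖ES X c1 (x i + y)‖ ^ 2 +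
            ∑ i ∈ S, ‖ES X c2 (x i + y)‖ ^ 2) / 2 := by
          rw [← sum_add_distrib, sum_div]
      _ ≤ B := by
          rw [hB]
          have : (1 / ρ + 13 * X) *
              ((∑ n ∈ Icc 1 X, c1 n ^ 2 + ∑ n ∈ Icc 1 X, c2 n ^ 2) / 2) =
              ((1 / ρ + 13 * X) * ∑ n ∈ Icc 1 X, c1 n ^ 2 +
              (1 / ρ + 13 * X) * ∑ n ∈ Icc 1 X, c2 n ^ 2) / 2 := by ring
          rw [this]
          linarith
  refine hle.trans (le_of_eq ?_)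
  rw [intervalIntegral.integral_const, smul_eq_mul]
  ring

end Pool.MP_dd84fd_nt.IX
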