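import Pool.Agent.Lib.MP_dd84fd_nt.IX.GrLS
import Pool.Agent.Lib.MP_dd84fd_nt.IX.GrCo
import Pool.Agent.Lib.MP_dd84fd_nt.IX.GrHt

/-!
# IX-GrMul (0.7 h): the multiplicity argument

`r = 2 L^K2`, `WtE = ∑_{a ∈ nrI} + ∑_{a ∈ crI}` (filter and its complement).
Non-coincident: `ls_arcE` for `T = S.sigma (nrI X S)`, `x (q,a) = a/q`, `ρ = 1/X`: spacing: `q = q'`, `a ≠ a'`: `fr_dist` (`HX/GrFrac.lean`) `≥ 1/lcm(q,q) = 1/q ≥ 1/P0I ≥ 1/X`; `q ≠ q'`: not coincident, so `> 1/X` (see `non_mass` in `HX/GrMass.lean`):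
`≤ 2r/X · 14 X · 3 X L^4 = 168 X L^(K2+4)`.
Coincident: `coin_lrg`: `q ≥ X/P0I = X^(th-3e/2) ≥ X^(th-2e)`, `ht_arcI`: `ht ≥ X^(th-4e)` on the arc, so `arcE ≤ (2r/X) X^((3+th)/2)`; `coin_cnt`: their number is `≤ 2 P0I²/X (2 X^(2e))² = 8 X^(1-2th+7e)`: total
`≤ 32 L^K2 X^(1-2th+7e+(3+th)/2-1) = 32 L^K2 X^(3(1-th)/2+7e) ≤ X^(19/20)`.
Sum `≤ X L^(K2+6)` for large `X`.
-/

set_option autoImplicit false

namespace Pool.MP_dd84fd_nt.IX

open Finset Pool.MP_67663b_nt.Odd Pool.MP_dd84fd_nt.En Pool.MP_dd84fd_nt.E2 Pool.MP_dd84fd_nt.LS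
open Pool.MP_dd84fd_nt.L2G (nrm)
open Pool.MP_dd84fd_nt.GX Pool.MP_dd84fd_nt.HX
open Pool.MP_dd84fd_nt.PL (rr Fam)

theorem mult_i (th e : ℝ) (h : Adm th e) (K2 : ℕ) : ∃ X0 : ℕ, ∀ X : ℕ, X0 ≤ X →
    ∀ (c1 c2 : ℕ → ℝ), ∑ n ∈ Icc 1 X, c1 n ^ 2 ≤ 3 * X * (Real.log X) ^ 4 →
    ∑ n ∈ Icc 1 X, c2 n ^ 2 ≤ 3 * X * (Real.log X) ^ 4 →
    (∀ θ, (X : ℝ) ^ (th - 4 * e) ≤ ht X θ →
      ‖ES X c1 θ‖ ≤ (X : ℝ) ^ ((3 + th) / 4) ∧ ‖ES X c2 θ‖ ≤ (X : ℝ) ^ ((3 + th) / 4)) →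
    ∀ S : Finset ℕ, (∀ q ∈ S, 1 ≤ q ∧ (q : ℝ) ≤ P0I th e X) →
    (S.card : ℝ) ≤ 2 * (X : ℝ) ^ (2 * e) →
    ∑ q ∈ S, WtE X c1 c2 (2 * (Real.log X) ^ K2) q ≤ X * (Real.log X) ^ (K2 + 6) := by
  classical
  obtain ⟨X1, hht⟩ := ht_arcI th e h K2
  obtain ⟨hth1, hth2, he0, he1⟩ := h
  refine ⟨max X1 ⌈Real.exp 100⌉₊, fun X hX c1 c2 hc1 hc2 hsup S hS hcard => ?_⟩
  have hX1 : X1 ≤ X := (le_max_left _ _).trans hX
  have hXe : ⌈Real.exp 100⌉₊ ≤ X := (le_max_right _ _).trans hX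
  have hXe' : Real.exp 100 ≤ (X : ℝ) := (Nat.le_ceil _).trans (by exact_mod_cast hXe)
  have hX0 : (0 : ℝ) < X := (Real.exp_pos _).trans_le hXe'
  have hXn : 1 ≤ X := by
    have : 0 < X := by exact_mod_cast hX0
    omega
  have hXr : (1 : ℝ) ≤ X := by exact_mod_cast hXn
  have hL : 100 ≤ Real.log X := by
    rw [Real.le_log_iff_exp_le hX0]
    exact hXe'
  have hht' := hht X hX1
  set L := Real.log (X : ℝ) with hLdef
  have hL0 : 0 < L := by linarith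
  set r := 2 * L ^ K2 with hr
  have hr0 : 0 ≤ r := by positivity
  have hPX : P0I th e X ≤ X := by
    unfold P0I
    calc (X : ℝ) ^ (1 - th + 3 / 2 * e) ≤ (X : ℝ) ^ (1 : ℝ) :=
          Real.rpow_le_rpow_of_exponent_le hXr (by linarith)
      _ = X := Real.rpow_one _
  have hP0 : 0 < P0I th e X := Real.rpow_pos_of_pos hX0 _
  -- the non-coincident fractions
  set T : Finset (Σ _ : ℕ, ℕ) := S.sigma (fun q => nrI X S q) with hT
  have hspace : ∀ i ∈ T, ∀ j ∈ T, i ≠ j → ∀ z : ℤ,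
      1 / (X : ℝ) ≤ |(i.2 : ℝ) / i.1 - (j.2 : ℝ) / j.1 - z| := by
    intro i hi j hj hij z
    rw [hT, mem_sigma] at hi hj
    have hi2 := hi.2
    have hj2 := hj.2
    unfold nrI at hi2 hj2
    rw [mem_filter] at hi2 hj2
    by_cases hq : i.1 = j.1
    · refine le_trans ?_ (fr_dist (hS _ hi.1).1 (hS _ hj.1).1 hi2.1 hj2.1 ?_ z)
      · rw [← hq, Nat.lcm_self]
        exact one_div_le_one_div_of_le (by exact_mod_cast (hS _ hi.1).1)
          ((hS _ hi.1).2.trans hPX)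
      · rintro ⟨h3, h4⟩
        exact hij (Sigma.ext h3 (heq_of_eq h4))
    · by_contra hcon
      exact hi2.2 ⟨j.1, hj.1, fun h => hq h.symm, j.2, hj2.1, z, (not_le.1 hcon).le⟩
  have hρ1 : 1 / (X : ℝ) ≤ 1 := by
    rw [div_le_one hX0]; exact hXr
  have hnon : ∑ q ∈ S, ∑ a ∈ nrI X S q, arcE X c1 c2 r ((a : ℝ) / q) ≤
      168 * X * L ^ (K2 + 4) := by
    have hmain := ls_arcE X hXn c1 c2 r hr0 T (fun i => (i.2 : ℝ) / i.1) (1 / (X : ℝ))
      (by positivity) hρ1 hspace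
    have hsum : ∑ q ∈ S, ∑ a ∈ nrI X S q, arcE X c1 c2 r ((a : ℝ) / q) =
        ∑ i ∈ T, arcE X c1 c2 r ((i.2 : ℝ) / i.1) := by
      rw [hT, Finset.sum_sigma]
    rw [hsum]
    refine hmain.trans ?_
    rw [one_div_one_div]
    have h1 : (∑ n ∈ Icc 1 X, c1 n ^ 2 + ∑ n ∈ Icc 1 X, c2 n ^ 2) / 2 ≤ 3 * X * L ^ 4 := by
      linarith
    calc 2 * r / X * (((X : ℝ) + 13 * X) *
          ((∑ n ∈ Icc 1 X, c1 n ^ 2 + ∑ n ∈ Icc 1 X, c2 n ^ 2) / 2))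
        ≤ 2 * r / X * (((X : ℝ) + 13 * X) * (3 * X * L ^ 4)) := by
          refine mul_le_mul_of_nonneg_left ?_ (by positivity)
          exact mul_le_mul_of_nonneg_left h1 (by positivity)
      _ = 168 * X * L ^ (K2 + 4) := by
          rw [hr, pow_add]; field_simp; ring
  -- the coincident fractions
  have hcoin : ∀ q ∈ S, ∀ a ∈ crI X S q, arcE X c1 c2 r ((a : ℝ) / q) ≤
      2 * r / X * (X : ℝ) ^ ((3 + th) / 2) := by
    intro q hq a ha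
    have ha' : a ∈ rr q := by
      unfold crI at ha
      exact (mem_filter.1 ha).1
    have hlrg := coin_lrg X hXn S (P0I th e X) hS q hq a ha
    have hqge : (X : ℝ) ^ (th - 2 * e) ≤ q := by
      have h1 : (X : ℝ) = (X : ℝ) ^ (th - 3 / 2 * e) * P0I th e X := by
        unfold P0I
        rw [← Real.rpow_add hX0]
        conv_lhs => rw [← Real.rpow_one (X : ℝ)]
        congr 1
        ring
      have h2 : (X : ℝ) ^ (th - 3 / 2 * e) ≤ q := by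
        by_contra hcon
        have h3 := mul_lt_mul_of_pos_right (not_le.1 hcon) hP0
        linarith
      refine le_trans ?_ h2
      exact Real.rpow_le_rpow_of_exponent_le hXr (by linarith)
    have hb : ∀ x ∈ Set.uIoc (-r / (X : ℝ)) (r / X),
        ‖‖ES X c1 ((a : ℝ) / q + x)‖ * ‖ES X c2 ((a : ℝ) / q + x)‖‖ ≤
          (X : ℝ) ^ ((3 + th) / 2) := by
      intro x hx
      have hle : -r / (X : ℝ) ≤ r / X := by
        rw [neg_div]
        have : 0 ≤ r / (X : ℝ) := by positivity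
        linarith
      rw [Set.uIoc_of_le hle] at hx
      have hx' : |x| ≤ 2 * L ^ K2 / X := by
        rw [abs_le]
        have e1 : -r / (X : ℝ) = -(2 * L ^ K2 / X) := by rw [hr, neg_div]
        rw [e1] at hx
        exact ⟨hx.1.le, hx.2⟩
      have h1 := hht' q a x ha' hqge (hS q hq).2 hx'
      obtain ⟨h2, h3⟩ := hsup _ h1
      rw [Real.norm_of_nonneg (by positivity)]
      calc ‖ES X c1 ((a : ℝ) / q + x)‖ * ‖ES X c2 ((a : ℝ) / q + x)‖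
          ≤ (X : ℝ) ^ ((3 + th) / 4) * (X : ℝ) ^ ((3 + th) / 4) :=
            mul_le_mul h2 h3 (norm_nonneg _) (by positivity)
        _ = (X : ℝ) ^ ((3 + th) / 2) := by
            rw [← Real.rpow_add hX0]; congr 1; ring
    have h4 := intervalIntegral.norm_integral_le_of_norm_le_const hb
    unfold arcE
    refine (Real.le_norm_self _).trans (h4.trans (le_of_eq ?_))
    have h5 : |r / (X : ℝ) - -r / X| = 2 * r / X := by
      rw [neg_div, sub_neg_eq_add, abs_of_nonneg (by positivity)]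
      ring
    rw [h5]
    ring
  have hcnt := coin_cnt X hXn S (P0I th e X) hS
  have hco : ∑ q ∈ S, ∑ a ∈ crI X S q, arcE X c1 c2 r ((a : ℝ) / q) ≤ 32 * X * L ^ K2 := by
    have h1 : ∑ q ∈ S, ∑ a ∈ crI X S q, arcE X c1 c2 r ((a : ℝ) / q) ≤
        (∑ q ∈ S, ((crI X S q).card : ℝ)) * (2 * r / X * (X : ℝ) ^ ((3 + th) / 2)) := by
      rw [sum_mul]
      refine sum_le_sum fun q hq => ?_
      refine (sum_le_card_nsmul _ _ _ (hcoin q hq)).trans (le_of_eq ?_)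
      rw [nsmul_eq_mul]
    have h2 : ∑ q ∈ S, ((crI X S q).card : ℝ) ≤ 8 * (X : ℝ) ^ (1 - 2 * th + 7 * e) := by
      refine hcnt.trans ?_
      have e1 : P0I th e X ^ 2 / X = (X : ℝ) ^ (1 - 2 * th + 3 * e) := by
        rw [div_eq_iff hX0.ne']
        unfold P0I
        rw [sq, ← Real.rpow_add hX0]
        nth_rw 3 [← Real.rpow_one (X : ℝ)]
        rw [← Real.rpow_add hX0]
        congr 1
        ring
      have e2 : (S.card : ℝ) ^ 2 ≤ 4 * (X : ℝ) ^ (4 * e) := by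
        calc (S.card : ℝ) ^ 2 ≤ (2 * (X : ℝ) ^ (2 * e)) ^ 2 :=
              pow_le_pow_left₀ (Nat.cast_nonneg _) hcard 2
          _ = 4 * (X : ℝ) ^ (4 * e) := by
              rw [mul_pow, sq ((X : ℝ) ^ (2 * e)), ← Real.rpow_add hX0]
              norm_num
              congr 1
              ring
      rw [e1]
      calc 2 * (X : ℝ) ^ (1 - 2 * th + 3 * e) * (S.card : ℝ) ^ 2
          ≤ 2 * (X : ℝ) ^ (1 - 2 * th + 3 * e) * (4 * (X : ℝ) ^ (4 * e)) :=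
            mul_le_mul_of_nonneg_left e2 (by positivity)
        _ = 8 * ((X : ℝ) ^ (1 - 2 * th + 3 * e) * (X : ℝ) ^ (4 * e)) := by ring
        _ = 8 * (X : ℝ) ^ (1 - 2 * th + 7 * e) := by
            rw [← Real.rpow_add hX0]; congr 2; ring
    have h3 : (X : ℝ) ^ (1 - 2 * th + 7 * e) * (X : ℝ) ^ ((3 + th) / 2) ≤ X * X := by
      rw [← Real.rpow_add hX0]
      calc (X : ℝ) ^ (1 - 2 * th + 7 * e + (3 + th) / 2) ≤ (X : ℝ) ^ (2 : ℝ) :=
            Real.rpow_le_rpow_of_exponent_le hXr (by linarith)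
        _ = X * X := by
            rw [show (2 : ℝ) = ((2 : ℕ) : ℝ) by norm_num, Real.rpow_natCast, sq]
    refine h1.trans ?_
    calc (∑ q ∈ S, ((crI X S q).card : ℝ)) * (2 * r / X * (X : ℝ) ^ ((3 + th) / 2))
        ≤ 8 * (X : ℝ) ^ (1 - 2 * th + 7 * e) * (2 * r / X * (X : ℝ) ^ ((3 + th) / 2)) :=
          mul_le_mul_of_nonneg_right h2 (by positivity)
      _ = 16 * r / X * ((X : ℝ) ^ (1 - 2 * th + 7 * e) * (X : ℝ) ^ ((3 + th) / 2)) := by ring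
      _ ≤ 16 * r / X * (X * X) := mul_le_mul_of_nonneg_left h3 (by positivity)
      _ = 32 * X * L ^ K2 := by rw [hr]; field_simp; ring
  have hsplit : ∑ q ∈ S, WtE X c1 c2 r q =
      ∑ q ∈ S, ∑ a ∈ crI X S q, arcE X c1 c2 r ((a : ℝ) / q) +
        ∑ q ∈ S, ∑ a ∈ nrI X S q, arcE X c1 c2 r ((a : ℝ) / q) := by
    rw [← sum_add_distrib]
    refine sum_congr rfl fun q _ => ?_
    unfold WtE crI nrI
    rw [sum_filter_add_sum_filter_not]
  rw [hsplit]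
  have hK : L ^ K2 ≤ L ^ (K2 + 4) := pow_le_pow_right₀ (by linarith) (by omega)
  have hXL : X * L ^ K2 ≤ X * L ^ (K2 + 4) := mul_le_mul_of_nonneg_left hK hX0.le
  have hL2 : (200 : ℝ) ≤ L ^ 2 := by nlinarith
  calc _ ≤ 32 * X * L ^ K2 + 168 * X * L ^ (K2 + 4) := add_le_add hco hnon
    _ ≤ 200 * (X * L ^ (K2 + 4)) := by linarith
    _ ≤ L ^ 2 * (X * L ^ (K2 + 4)) := mul_le_mul_of_nonneg_right hL2 (by positivity)
    _ = X * L ^ (K2 + 6) := by ring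

end Pool.MP_dd84fd_nt.IX
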