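import Pool.Agent.Lib.MP_dd84fd_nt.IX.GrDefs
import Pool.Agent.Lib.MP_dd84fd_nt.HX.GrFrac

/-!
# IX-GrPair (0.5 h): counting numerators

`g = gcd(q,q')`. The proof of `sol_count` (`HX/GrFrac.lean`) shows: for every integer `v` the number of `a ∈ range q` with `∃ b, a q' - b q = v` is at most `g`, and `0` unless `g ∣ v`. The set in the theorem is the union of these sets over
`v = g j`, `j ∈ Icc (-J) J`, `j ≠ 0`, `J = ⌊V/g⌋₊`: at most `2 J g ≤ 2 V` elements.
-/

set_option autoImplicit false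

namespace Pool.MP_dd84fd_nt.IX

open Finset Pool.MP_67663b_nt.Odd Pool.MP_dd84fd_nt.En Pool.MP_dd84fd_nt.E2 Pool.MP_dd84fd_nt.LS
open Pool.MP_dd84fd_nt.L2G (nrm)
open Pool.MP_dd84fd_nt.GX Pool.MP_dd84fd_nt.HX
open Pool.MP_dd84fd_nt.PL (rr Fam)

open Classical in
private theorem sol_le (q q' : ℕ) (hq : 1 ≤ q) (v : ℤ) :
    ((range q).filter (fun a : ℕ => ∃ b : ℤ, (a : ℤ) * q' - b * q = v)).card ≤ Nat.gcd q q' := by
  set S := (range q).filter (fun a : ℕ => ∃ b : ℤ, (a : ℤ) * q' - b * q = v) with hS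
  set g : ℕ := Nat.gcd q q' with hg
  have hg0 : 0 < g := Nat.gcd_pos_of_pos_left _ (by omega)
  obtain ⟨t, ht⟩ : g ∣ q := Nat.gcd_dvd_left q q'
  obtain ⟨t', ht'⟩ : g ∣ q' := Nat.gcd_dvd_right q q'
  have ht0 : 0 < t := by
    rcases Nat.eq_zero_or_pos t with h | h
    · rw [h, mul_zero] at ht; omega
    · exact h
  have hcop : Nat.Coprime t t' := by
    have h1 := Nat.coprime_div_gcd_div_gcd (m := q) (n := q') hg0
    rw [← hg] at h1
    have e1 : q / g = t := by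
      conv_lhs => rw [ht]
      exact Nat.mul_div_cancel_left t hg0
    have e2 : q' / g = t' := by
      conv_lhs => rw [ht']
      exact Nat.mul_div_cancel_left t' hg0
    rwa [e1, e2] at h1
  rw [← card_range g]
  refine card_le_card_of_injOn (fun a => a / t) ?_ ?_
  · intro a ha
    rw [mem_coe, hS, mem_filter, mem_range] at ha
    rw [mem_coe, mem_range]
    refine Nat.div_lt_of_lt_mul ?_
    rw [mul_comm]
    rw [← ht]
    exact ha.1
  · intro a ha a' ha' h
    rw [mem_coe, hS, mem_filter, mem_range] at ha ha'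
    obtain ⟨-, b, hb⟩ := ha
    obtain ⟨-, b', hb'⟩ := ha'
    simp only at h
    have h1 : ((a : ℤ) - a') * q' = (b - b') * q := by linear_combination hb - hb'
    have h2 : ((a : ℤ) - a') * t' = (b - b') * t := by
      have e1 : (q : ℤ) = g * t := by exact_mod_cast ht
      have e2 : (q' : ℤ) = g * t' := by exact_mod_cast ht'
      rw [e1, e2] at h1
      have hgz : (g : ℤ) ≠ 0 := by exact_mod_cast hg0.ne'
      apply mul_left_cancel₀ hgz
      linear_combination h1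
    have h3 : (t : ℤ) ∣ (a : ℤ) - a' := by
      have h4 : (t : ℤ) ∣ ((a : ℤ) - a') * t' := ⟨b - b', by rw [h2]; ring⟩
      exact IsCoprime.dvd_of_dvd_mul_right (Nat.isCoprime_iff_coprime.2 hcop) h4
    have h5 : (a' : ℤ) ≡ a [ZMOD t] := Int.modEq_iff_dvd.2 h3
    have h6 : a' % t = a % t := by
      have := h5
      rw [Int.natCast_modEq_iff] at this
      exact this
    rw [← Nat.div_add_mod a t, ← Nat.div_add_mod a' t, h, h6]

open Classical in
theorem pair_count (q q' : ℕ) (hq : 1 ≤ q) (hq' : 1 ≤ q') (V : ℝ) (hV : 0 ≤ V) :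
    (((range q).filter (fun a : ℕ => ∃ b : ℤ, (a : ℤ) * q' - b * q ≠ 0 ∧
      |(((a : ℤ) * q' - b * q : ℤ) : ℝ)| ≤ V)).card : ℝ) ≤ 2 * V := by
  set g : ℕ := Nat.gcd q q' with hg
  have hg0 : 0 < g := Nat.gcd_pos_of_pos_left _ (by omega)
  have hgR : (0 : ℝ) < g := by exact_mod_cast hg0
  set J : ℕ := ⌊V / g⌋₊ with hJ
  have hsub : (range q).filter (fun a : ℕ => ∃ b : ℤ, (a : ℤ) * q' - b * q ≠ 0 ∧
      |(((a : ℤ) * q' - b * q : ℤ) : ℝ)| ≤ V) ⊆
      ((Icc (-(J : ℤ)) J).erase 0).biUnion (fun j : ℤ =>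
        (range q).filter (fun a : ℕ => ∃ b : ℤ, (a : ℤ) * q' - b * q = g * j)) := by
    intro a ha
    rw [mem_filter] at ha
    obtain ⟨ha1, b, hb1, hb2⟩ := ha
    have h1 : (g : ℤ) ∣ (a : ℤ) * q' - b * q := by
      have e1 : (g : ℤ) ∣ (q : ℤ) := by exact_mod_cast (Nat.gcd_dvd_left q q')
      have e2 : (g : ℤ) ∣ (q' : ℤ) := by exact_mod_cast (Nat.gcd_dvd_right q q')
      exact dvd_sub (Dvd.dvd.mul_left e2 _) (Dvd.dvd.mul_left e1 _)
    obtain ⟨j, hj⟩ := h1
    rw [mem_biUnion]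
    refine ⟨j, ?_, ?_⟩
    · rw [mem_erase, mem_Icc]
      have hj0 : j ≠ 0 := by
        rintro rfl
        exact hb1 (by rw [hj, mul_zero])
      have h2 : |(j : ℝ)| ≤ V / g := by
        rw [hj] at hb2
        push_cast at hb2
        rw [abs_mul, abs_of_pos hgR] at hb2
        rw [le_div_iff₀ hgR]
        linarith [mul_comm (g : ℝ) |(j : ℝ)|]
      have h3 : j.natAbs ≤ J := by
        apply Nat.le_floor
        rw [Nat.cast_natAbs]
        push_cast
        exact h2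
      refine ⟨hj0, ?_, ?_⟩ <;> omega
    · rw [mem_filter]
      exact ⟨ha1, b, hj⟩
  have hcard : ((Icc (-(J : ℤ)) J).erase 0).card = 2 * J := by
    rw [card_erase_of_mem (by rw [mem_Icc]; constructor <;> omega), Int.card_Icc]
    omega
  have h1 : ((range q).filter (fun a : ℕ => ∃ b : ℤ, (a : ℤ) * q' - b * q ≠ 0 ∧
      |(((a : ℤ) * q' - b * q : ℤ) : ℝ)| ≤ V)).card ≤ 2 * J * g := by
    refine le_trans (card_le_card hsub) (le_trans card_biUnion_le ?_)
    refine le_trans (sum_le_card_nsmul _ _ g fun j _ => sol_le q q' hq (g * j)) ?_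
    rw [hcard, smul_eq_mul]
  have h2 : (J : ℝ) * g ≤ V := by
    have h3 : (J : ℝ) ≤ V / g := Nat.floor_le (div_nonneg hV hgR.le)
    rwa [le_div_iff₀ hgR] at h3
  calc (((range q).filter (fun a : ℕ => ∃ b : ℤ, (a : ℤ) * q' - b * q ≠ 0 ∧
      |(((a : ℤ) * q' - b * q : ℤ) : ℝ)| ≤ V)).card : ℝ) ≤ ((2 * J * g : ℕ) : ℝ) := by
        exact_mod_cast h1
    _ = 2 * ((J : ℝ) * g) := by push_cast; ring
    _ ≤ 2 * V := by linarith

end Pool.MP_dd84fd_nt.IX
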