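import Pool.Agent.Lib.MP_dd84fd_nt.IX.Defs

/-!
# Theorem I, sections 2 and 3 (GEN): auxiliary definitions
-/

set_option autoImplicit false

namespace Pool.MP_dd84fd_nt.IX

open Finset Pool.MP_67663b_nt.Odd Pool.MP_dd84fd_nt.En Pool.MP_dd84fd_nt.E2 Pool.MP_dd84fd_nt.LS
open Pool.MP_dd84fd_nt.L2G (nrm)
open Pool.MP_dd84fd_nt.GX Pool.MP_dd84fd_nt.HX

/-- the number of scales of the rank one kernel: `2^(nK - 1) ≤ 8 X^((1-th)/2)` -/
noncomputable def nK (th : ℝ) (X : ℕ) : ℕ := Nat.log 2 ⌊(X : ℝ) ^ ((1 - th) / 2)⌋₊ + 4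

open Classical in
/-- the rank one kernel with scales up to `8 X^((1-th)/2)` -/
noncomputable def RkI (th : ℝ) (X : ℕ) (α α' : ℝ) : ℝ :=
  ∑ i ∈ range (nK th X), if rel X (2 ^ i) α α' then (X : ℝ) / 2 ^ i else 0

open Classical in
/-- the number of pairs `(n, n') ∈ E²` with `n - n' = i d`, `|i| < T` -/
noncomputable def pc (E : Finset ℕ) (d T : ℕ) : ℕ :=
  ((E ×ˢ E).filter (fun p : ℕ × ℕ => ∃ i : ℤ, |i| < T ∧ (p.1 : ℤ) - p.2 = i * d)).card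

/-- the number of pairs `(n, n') ∈ E²` with `v ∣ n - n'` -/
def pv (E : Finset ℕ) (v : ℕ) : ℕ :=
  ((E ×ˢ E).filter (fun p : ℕ × ℕ => (v : ℤ) ∣ (p.1 : ℤ) - p.2)).card

open Classical in
/-- the bad pairs `(d, t)`: `V` has mass `≥ X^(1-e)` on the points with denominator `d` and height in
`[2^t, 2^(t+1))` -/
noncomputable def BadI (G : ℕ) [NeZero G] (th e : ℝ) (X : ℕ) (V : ZMod G → ℂ) : Finset (ℕ × ℕ) :=
  ((Icc 1 X) ×ˢ (range (Nat.log 2 X + 1))).filter (fun p : ℕ × ℕ => (X : ℝ) ^ (1 - e) ≤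
    (1 / (G : ℝ)) * ∑ j ∈ Jdt G (dl th e) X (fun _ => 1) p.1 p.2, ‖V j‖ ^ 2)

/-- the bad denominators -/
noncomputable def PBI (G : ℕ) [NeZero G] (th e : ℝ) (X : ℕ) (V : ZMod G → ℂ) : Finset ℕ :=
  (BadI G th e X V).image Prod.fst

end Pool.MP_dd84fd_nt.IX
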