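import Pool.Agent.Lib.MP_dd84fd_nt.IX.KsDefs
import Pool.Agent.Lib.MP_dd84fd_nt.HX.KsRS

/-!
# IX-KsRS (0.7 h): the resonance sum with general masses

Copy the proof of `HX.res_sum` (`HX/KsRS.lean`, steps 1, 2, 3; its private lemmas too), step 3 with the hypothesis `hm` instead of `jsum`: by Cauchy-Schwarz on `S(d,t) = Jdt G δ X ω d t`, with `‖x_j‖ ≤ ‖V_j‖ ‖K_j‖`:
`A(d,t)² ≤ M(d,t) (1/G) Σ_{S(d,t)} ‖K_j‖² ≤ M(d,t) 128 (2^t/X) m d t`. So `Σ_t 2^(-t) S_t ≤ (128/X) Σ_{d,t} τ(d) m(d,t) M(d,t)`, which is the right side (no step 4).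
-/

set_option autoImplicit false

namespace Pool.MP_dd84fd_nt.IX

open Finset Pool.MP_67663b_nt.Odd Pool.MP_dd84fd_nt.En Pool.MP_dd84fd_nt.E2 Pool.MP_dd84fd_nt.LS
open Pool.MP_dd84fd_nt.L2G (nrm)
open Pool.MP_dd84fd_nt.GX Pool.MP_dd84fd_nt.HX

private theorem rs_swap {ι κ : Type*} (S : Finset ι) (D : Finset κ) (c : ℝ) (y : ι → ℝ)
    (r : ι → κ → ℝ) (K : κ → κ → ℝ) :
    c ^ 2 * ∑ j ∈ S, ∑ j' ∈ S, y j * y j' * (∑ d ∈ D, ∑ d' ∈ D, r j d * r j' d' * K d d') =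
      ∑ d ∈ D, ∑ d' ∈ D, (c * ∑ j ∈ S, y j * r j d) * (c * ∑ j ∈ S, y j * r j d') * K d d' := by
  have h1 : ∀ d d', (c * ∑ j ∈ S, y j * r j d) * (c * ∑ j ∈ S, y j * r j d') * K d d' =
      ∑ j ∈ S, ∑ j' ∈ S, c ^ 2 * (y j * y j' * (r j d * r j' d' * K d d')) := by
    intro d d'
    have h2 : (c * ∑ j ∈ S, y j * r j d) * (c * ∑ j ∈ S, y j * r j d') * K d d' =
        c ^ 2 * K d d' * ((∑ j ∈ S, y j * r j d) * (∑ j ∈ S, y j * r j d')) := by ring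
    rw [h2, Finset.sum_mul_sum, Finset.mul_sum]
    refine Finset.sum_congr rfl fun j _ => ?_
    rw [Finset.mul_sum]
    refine Finset.sum_congr rfl fun j' _ => ?_
    ring
  simp_rw [h1]
  simp_rw [Finset.mul_sum]
  have h3 : ∀ (f : ι → ι → κ → κ → ℝ), ∑ j ∈ S, ∑ j' ∈ S, ∑ d ∈ D, ∑ d' ∈ D, f j j' d d' =
      ∑ d ∈ D, ∑ d' ∈ D, ∑ j ∈ S, ∑ j' ∈ S, f j j' d d' := by
    intro f
    calc ∑ j ∈ S, ∑ j' ∈ S, ∑ d ∈ D, ∑ d' ∈ D, f j j' d d'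
        = ∑ j ∈ S, ∑ d ∈ D, ∑ j' ∈ S, ∑ d' ∈ D, f j j' d d' :=
          Finset.sum_congr rfl fun j _ => Finset.sum_comm
      _ = ∑ d ∈ D, ∑ j ∈ S, ∑ j' ∈ S, ∑ d' ∈ D, f j j' d d' := Finset.sum_comm
      _ = ∑ d ∈ D, ∑ j ∈ S, ∑ d' ∈ D, ∑ j' ∈ S, f j j' d d' :=
          Finset.sum_congr rfl fun d _ => Finset.sum_congr rfl fun j _ => Finset.sum_comm
      _ = ∑ d ∈ D, ∑ d' ∈ D, ∑ j ∈ S, ∑ j' ∈ S, f j j' d d' :=
          Finset.sum_congr rfl fun d _ => Finset.sum_comm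
  exact h3 _

private theorem rs_sub (X : ℕ) (δ : ℝ) (h16 : 16 * y3 δ X ≤ X) (α : ℝ) :
    Apd δ X α ⊆ Icc 1 X := by
  intro d hd
  rw [apd_mem] at hd
  rw [Finset.mem_Icc]
  refine ⟨hd.1, ?_⟩
  have h1 : (0 : ℝ) ≤ d := Nat.cast_nonneg d
  have h2 : (d : ℝ) ≤ X := by linarith [hd.2.1]
  exact_mod_cast h2

private theorem rs_ex (X : ℕ) (δ : ℝ) (h16 : 16 * y3 δ X ≤ X) (α : ℝ) (d : ℕ)
    (hd' : d ∈ Apd δ X α) :
    ∃ t < Nat.log 2 X + 1, (2 : ℝ) ^ t ≤ hd X α d ∧ hd X α d < 2 ^ (t + 1) := by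
  obtain ⟨h1, h2, -, -⟩ := hd_bd δ X α d hd'
  have h3 : 1 ≤ ⌊hd X α d⌋₊ := by
    rw [Nat.one_le_floor_iff]
    exact h1
  have h4 : ⌊hd X α d⌋₊ ≤ X := by
    have : hd X α d ≤ X := by linarith
    exact Nat.floor_le_of_le this
  refine ⟨Nat.log 2 ⌊hd X α d⌋₊, ?_, ?_, ?_⟩
  · exact Nat.lt_succ_of_le (Nat.log_mono_right h4)
  · have h5 : 2 ^ Nat.log 2 ⌊hd X α d⌋₊ ≤ ⌊hd X α d⌋₊ := Nat.pow_log_le_self 2 (by omega)
    have h6 : ((2 ^ Nat.log 2 ⌊hd X α d⌋₊ : ℕ) : ℝ) ≤ (⌊hd X α d⌋₊ : ℝ) := by exact_mod_cast h5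
    have h7 : (⌊hd X α d⌋₊ : ℝ) ≤ hd X α d := Nat.floor_le (by linarith)
    push_cast at h6
    linarith
  · have h5 : ⌊hd X α d⌋₊ < 2 ^ (Nat.log 2 ⌊hd X α d⌋₊ + 1) :=
      Nat.lt_pow_succ_log_self (by norm_num) _
    have h6 := (Nat.floor_lt (by linarith : (0 : ℝ) ≤ hd X α d)).1 h5
    push_cast at h6
    exact h6

private theorem rs_uniq {h : ℝ} {t t' : ℕ} (h1 : (2 : ℝ) ^ t ≤ h) (h2 : h < 2 ^ (t + 1))
    (h3 : (2 : ℝ) ^ t' ≤ h) (h4 : h < 2 ^ (t' + 1)) : t = t' := by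
  have h5 : (2 : ℝ) ^ t < 2 ^ (t' + 1) := lt_of_le_of_lt h1 h4
  have h6 : (2 : ℝ) ^ t' < 2 ^ (t + 1) := lt_of_le_of_lt h3 h2
  have h7 := (pow_lt_pow_iff_right₀ (by norm_num : (1 : ℝ) < 2)).1 h5
  have h8 := (pow_lt_pow_iff_right₀ (by norm_num : (1 : ℝ) < 2)).1 h6
  omega

open Classical in
/-- `Σ_{d ∈ Apd} f d` as a sum over `Icc 1 X` -/
private theorem rs_sum (X : ℕ) (δ : ℝ) (h16 : 16 * y3 δ X ≤ X) (α : ℝ) (f : ℕ → ℝ) :
    ∑ d ∈ Apd δ X α, f d = ∑ d ∈ Icc 1 X, if d ∈ Apd δ X α then f d else 0 := by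
  rw [← Finset.sum_filter]
  congr 1
  ext d
  rw [Finset.mem_filter]
  exact ⟨fun h => ⟨rs_sub X δ h16 α h, h⟩, fun h => h.2⟩

open Classical in
private theorem rs_res (X : ℕ) (δ : ℝ) (h16 : 16 * y3 δ X ≤ X) (α α' : ℝ) :
    Res δ X α α' = ∑ d ∈ Icc 1 X, ∑ d' ∈ Icc 1 X,
      (if d ∈ Apd δ X α then 1 / Real.sqrt (hd X α d) else 0) *
      (if d' ∈ Apd δ X α' then 1 / Real.sqrt (hd X α' d') else 0) *
      (Real.sqrt ((d : ℝ) * d') / (Nat.lcm d d' : ℝ)) := by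
  unfold Res
  rw [rs_sum X δ h16]
  refine Finset.sum_congr rfl fun d _ => ?_
  by_cases h : d ∈ Apd δ X α
  · rw [if_pos h, rs_sum X δ h16]
    refine Finset.sum_congr rfl fun d' _ => ?_
    by_cases h' : d' ∈ Apd δ X α'
    · rw [if_pos h', if_pos h, if_pos h']
      have h1 := (hd_bd δ X α d h).1
      rw [Real.sqrt_mul (by linarith) (hd X α' d')]
      rw [div_mul_div_comm, div_mul_div_comm, one_mul, one_mul]
      congr 1
      ring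
    · rw [if_neg h', if_neg h']
      ring
  · rw [if_neg h]
    symm
    apply Finset.sum_eq_zero
    intro d' _
    rw [if_neg h]
    ring

private theorem rs_cs (G : ℕ) [NeZero G] (V ω : ZMod G → ℂ) (hω : ∀ j, ‖ω j‖ ≤ 1) (E : Finset ℕ)
    (e : ℕ → ℂ) (S : Finset (ZMod G)) :
    ((1 / (G : ℝ)) * ∑ j ∈ S, ‖xx G V ω E e j‖) ^ 2 ≤
      ((1 / (G : ℝ)) * ∑ j ∈ S, ‖V j‖ ^ 2) * ((1 / (G : ℝ)) * ∑ j ∈ S, ‖KE G E e j‖ ^ 2) := by
  have h3 : ∑ j ∈ S, ‖xx G V ω E e j‖ ≤ ∑ j ∈ S, ‖V j‖ * ‖KE G E e j‖ := by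
    refine sum_le_sum fun j _ => ?_
    unfold xx
    rw [norm_mul, norm_mul]
    have h4 : ‖ω j‖ * ‖V j‖ * ‖KE G E e j‖ ≤ 1 * ‖V j‖ * ‖KE G E e j‖ :=
      mul_le_mul_of_nonneg_right (mul_le_mul_of_nonneg_right (hω j) (norm_nonneg _))
        (norm_nonneg _)
    rwa [one_mul] at h4
  have h4 : 0 ≤ ∑ j ∈ S, ‖xx G V ω E e j‖ := sum_nonneg fun _ _ => norm_nonneg _
  have h5 : (∑ j ∈ S, ‖xx G V ω E e j‖) ^ 2 ≤ (∑ j ∈ S, ‖V j‖ ^ 2) * ∑ j ∈ S, ‖KE G E e j‖ ^ 2 :=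
    (pow_le_pow_left₀ h4 h3 2).trans (sum_mul_sq_le_sq_mul_sq _ _ _)
  have h7 := mul_le_mul_of_nonneg_left h5 (show (0 : ℝ) ≤ (1 / (G : ℝ)) ^ 2 by positivity)
  calc ((1 / (G : ℝ)) * ∑ j ∈ S, ‖xx G V ω E e j‖) ^ 2
      = (1 / (G : ℝ)) ^ 2 * (∑ j ∈ S, ‖xx G V ω E e j‖) ^ 2 := by ring
    _ ≤ _ := h7
    _ = _ := by ring

theorem res_sum2 (X G : ℕ) [NeZero G] (hX : 3 ≤ X) (hG : 3 * X ≤ G) (δ : ℝ) (hδ : 0 ≤ δ)
    (h16 : 16 * y3 δ X ≤ X) (V ω : ZMod G → ℂ) (hω : ∀ j, ‖ω j‖ ≤ 1) (E : Finset ℕ)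
    (hE : E ⊆ Icc 1 X) (ph : ℕ → ℂ) (hp : ∀ n, ‖ph n‖ ≤ 1) (m : ℕ → ℕ → ℝ)
    (hm0 : ∀ d t, 0 ≤ m d t)
    (hm : ∀ d t, (1 / (G : ℝ)) * ∑ j ∈ Jdt G δ X ω d t, ‖KE G E ph j‖ ^ 2 ≤
      128 * (2 ^ t / X) * m d t) :
    (1 / (G : ℝ)) ^ 2 * ∑ j : ZMod G, ∑ j' : ZMod G, ‖xx G V ω E ph j‖ * ‖xx G V ω E ph j'‖ *
      Res δ X (al G j) (al G j') ≤
      128 * (1 + Real.log X) * (Nat.log 2 X + 1) * (1 / X) *
        ∑ d ∈ Icc 1 X, ∑ t ∈ range (Nat.log 2 X + 1), (d.divisors.card : ℝ) * m d t *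
          ((1 / (G : ℝ)) * ∑ j ∈ Jdt G δ X ω d t, ‖V j‖ ^ 2) := by
  classical
  obtain ⟨c, hc⟩ : ∃ c : ℝ, c = 1 / (G : ℝ) := ⟨_, rfl⟩
  have hc0 : 0 ≤ c := by rw [hc]; positivity
  rw [← hc]
  obtain ⟨y, hy⟩ : ∃ y : ZMod G → ℝ, y = fun j => ‖xx G V ω E ph j‖ := ⟨_, rfl⟩
  have hy0 : ∀ j, 0 ≤ y j := fun j => by rw [hy]; exact norm_nonneg _
  have hyω : ∀ j, ω j = 0 → y j = 0 := by
    intro j hj
    rw [hy]
    show ‖xx G V ω E ph j‖ = 0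
    unfold xx
    rw [hj]
    simp
  obtain ⟨T, hT⟩ : ∃ T : ℕ, T = Nat.log 2 X + 1 := ⟨_, rfl⟩
  have hTr : ((Nat.log 2 X : ℝ) + 1) = T := by rw [hT]; push_cast; rfl
  rw [hTr]
  obtain ⟨A, hA⟩ : ∃ A : ℕ → ℕ → ℝ, A = fun d t => c * ∑ j ∈ Jdt G δ X ω d t, y j := ⟨_, rfl⟩
  obtain ⟨M, hM⟩ : ∃ M : ℕ → ℕ → ℝ, M = fun d t => c * ∑ j ∈ Jdt G δ X ω d t, ‖V j‖ ^ 2 :=
    ⟨_, rfl⟩
  have hA0 : ∀ d t, 0 ≤ A d t := by
    intro d t
    rw [hA]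
    exact mul_nonneg hc0 (Finset.sum_nonneg fun j _ => hy0 j)
  have hM0 : ∀ d t, 0 ≤ M d t := by
    intro d t
    rw [hM]
    exact mul_nonneg hc0 (Finset.sum_nonneg fun j _ => by positivity)
  obtain ⟨B, hB⟩ : ∃ B : ℕ → ℝ, B = fun d => ∑ t ∈ range T, A d t * (1 / Real.sqrt (2 ^ t)) :=
    ⟨_, rfl⟩
  have hB0 : ∀ d, 0 ≤ B d := by
    intro d
    rw [hB]
    exact Finset.sum_nonneg fun t _ => mul_nonneg (hA0 d t) (by positivity)
  obtain ⟨r, hr⟩ : ∃ r : ZMod G → ℕ → ℝ, r = fun j d =>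
      if d ∈ Apd δ X (al G j) then 1 / Real.sqrt (hd X (al G j) d) else 0 := ⟨_, rfl⟩
  have hr0 : ∀ j d, 0 ≤ r j d := by
    intro j d
    rw [hr]
    show 0 ≤ (if d ∈ Apd δ X (al G j) then 1 / Real.sqrt (hd X (al G j) d) else 0)
    split_ifs
    · positivity
    · exact le_refl _
  have hX1 : 1 ≤ X := by omega
  have hX0 : (0 : ℝ) < X := by exact_mod_cast (by omega : 0 < X)
  have hlog : 0 ≤ Real.log X := Real.log_nonneg (by exact_mod_cast hX1)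
  -- step 1
  have h1 : c ^ 2 * ∑ j : ZMod G, ∑ j' : ZMod G, ‖xx G V ω E ph j‖ * ‖xx G V ω E ph j'‖ *
      Res δ X (al G j) (al G j') =
      ∑ d ∈ Icc 1 X, ∑ d' ∈ Icc 1 X, (c * ∑ j : ZMod G, y j * r j d) *
        (c * ∑ j : ZMod G, y j * r j d') * (Real.sqrt ((d : ℝ) * d') / (Nat.lcm d d' : ℝ)) := by
    rw [← rs_swap univ (Icc 1 X) c y r fun d d' => Real.sqrt ((d : ℝ) * d') / (Nat.lcm d d' : ℝ)]
    congr 1
    refine Finset.sum_congr rfl fun j _ => Finset.sum_congr rfl fun j' _ => ?_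
    rw [rs_res X δ h16, hy, hr]
  have h2 : ∀ d, c * ∑ j : ZMod G, y j * r j d ≤ B d := by
    intro d
    have h3 : B d = c * ∑ j : ZMod G, ∑ t ∈ range T,
        if j ∈ Jdt G δ X ω d t then y j * (1 / Real.sqrt (2 ^ t)) else 0 := by
      rw [hB]
      show ∑ t ∈ range T, A d t * (1 / Real.sqrt (2 ^ t)) = _
      rw [Finset.sum_comm, Finset.mul_sum]
      refine Finset.sum_congr rfl fun t _ => ?_
      rw [hA]
      show (c * ∑ j ∈ Jdt G δ X ω d t, y j) * (1 / Real.sqrt (2 ^ t)) = _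
      rw [mul_assoc, Finset.sum_mul, ← Finset.sum_filter, Finset.filter_univ_mem]
    rw [h3]
    apply mul_le_mul_of_nonneg_left _ hc0
    refine Finset.sum_le_sum fun j _ => ?_
    have h4 : ∀ t ∈ range T, 0 ≤ (if j ∈ Jdt G δ X ω d t then y j * (1 / Real.sqrt (2 ^ t))
        else 0) := by
      intro t _
      split_ifs
      · exact mul_nonneg (hy0 j) (by positivity)
      · exact le_refl _
    by_cases hω0 : ω j = 0
    · rw [hyω j hω0, zero_mul]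
      refine le_trans ?_ (Finset.sum_le_sum (f := fun _ => (0 : ℝ)) fun t ht => ?_)
      · simp
      · split_ifs
        · simp
        · exact le_refl _
    · by_cases hdA : d ∈ Apd δ X (al G j)
      · obtain ⟨t, ht, ht1, ht2⟩ := rs_ex X δ h16 (al G j) d hdA
        have h5 : j ∈ Jdt G δ X ω d t := by
          unfold Jdt
          rw [Finset.mem_filter]
          exact ⟨Finset.mem_univ _, hω0, hdA, ht1, ht2⟩
        refine le_trans ?_ (Finset.single_le_sum h4 (Finset.mem_range.2 (by rw [hT]; exact ht)))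
        rw [if_pos h5]
        apply mul_le_mul_of_nonneg_left _ (hy0 j)
        rw [hr]
        show (if d ∈ Apd δ X (al G j) then 1 / Real.sqrt (hd X (al G j) d) else 0) ≤ _
        rw [if_pos hdA]
        apply one_div_le_one_div_of_le
        · exact Real.sqrt_pos.2 (by positivity)
        · exact Real.sqrt_le_sqrt ht1
      · have h5 : r j d = 0 := by
          rw [hr]
          exact if_neg hdA
        rw [h5, mul_zero]
        exact Finset.sum_nonneg h4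
  have h3 : ∀ d, 0 ≤ c * ∑ j : ZMod G, y j * r j d := fun d =>
    mul_nonneg hc0 (Finset.sum_nonneg fun j _ => mul_nonneg (hy0 j) (hr0 j d))
  rw [h1]
  have h4 : ∑ d ∈ Icc 1 X, ∑ d' ∈ Icc 1 X, (c * ∑ j : ZMod G, y j * r j d) *
        (c * ∑ j : ZMod G, y j * r j d') * (Real.sqrt ((d : ℝ) * d') / (Nat.lcm d d' : ℝ)) ≤
      (1 + Real.log X) * ∑ d ∈ Icc 1 X, (d.divisors.card : ℝ) * B d ^ 2 := by
    refine le_trans (Finset.sum_le_sum fun d _ => Finset.sum_le_sum fun d' _ =>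
      mul_le_mul_of_nonneg_right (mul_le_mul (h2 d) (h2 d') (h3 d') (hB0 d)) (by positivity)) ?_
    refine (schur X hX1 B B hB0 hB0).trans ?_
    rw [Real.mul_self_sqrt]
    exact Finset.sum_nonneg fun d _ => by positivity
  refine h4.trans ?_
  -- step 2: Cauchy over `t`
  have h5 : ∀ d, B d ^ 2 ≤ T * ∑ t ∈ range T, A d t ^ 2 / 2 ^ t := by
    intro d
    rw [hB]
    have h6 := sq_sum_le_card_mul_sum_sq (s := range T)
      (f := fun t => A d t * (1 / Real.sqrt (2 ^ t)))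
    rw [Finset.card_range] at h6
    refine h6.trans (le_of_eq ?_)
    congr 1
    refine Finset.sum_congr rfl fun t _ => ?_
    rw [mul_pow, div_pow, Real.sq_sqrt (by positivity)]
    ring
  -- step 3
  have h6 : ∀ d t, A d t ^ 2 / 2 ^ t ≤ 128 * (1 / X) * (m d t * M d t) := by
    intro d t
    have h2t : (0 : ℝ) < 2 ^ t := by positivity
    rw [div_le_iff₀ h2t]
    have h7 := rs_cs G V ω hω E ph (Jdt G δ X ω d t)
    have h8 : A d t ^ 2 ≤ M d t * (128 * (2 ^ t / X) * m d t) := by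
      rw [← hc] at h7
      have h9 := hm d t
      rw [← hc] at h9
      have h10 : A d t ^ 2 ≤ M d t * (c * ∑ j ∈ Jdt G δ X ω d t, ‖KE G E ph j‖ ^ 2) := by
        rw [hA, hM, hy]
        exact h7
      exact h10.trans (mul_le_mul_of_nonneg_left h9 (hM0 d t))
    refine h8.trans (le_of_eq ?_)
    ring
  have h7 : ∑ d ∈ Icc 1 X, (d.divisors.card : ℝ) * B d ^ 2 ≤
      T * (128 * (1 / X)) *
        ∑ d ∈ Icc 1 X, ∑ t ∈ range T, (d.divisors.card : ℝ) * m d t * M d t := by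
    rw [Finset.mul_sum]
    refine Finset.sum_le_sum fun d hd' => ?_
    calc (d.divisors.card : ℝ) * B d ^ 2
        ≤ (d.divisors.card : ℝ) * (T * ∑ t ∈ range T, A d t ^ 2 / 2 ^ t) :=
          mul_le_mul_of_nonneg_left (h5 d) (by positivity)
      _ ≤ (d.divisors.card : ℝ) * (T * ∑ t ∈ range T,
            128 * (1 / X) * (m d t * M d t)) := by
          apply mul_le_mul_of_nonneg_left _ (by positivity)
          apply mul_le_mul_of_nonneg_left _ (by positivity)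
          exact Finset.sum_le_sum fun t _ => h6 d t
      _ = T * (128 * (1 / X)) *
            ∑ t ∈ range T, (d.divisors.card : ℝ) * m d t * M d t := by
          rw [← Finset.mul_sum]
          simp_rw [mul_assoc (d.divisors.card : ℝ) (m d _)]
          rw [← Finset.mul_sum]
          ring
  calc (1 + Real.log X) * ∑ d ∈ Icc 1 X, (d.divisors.card : ℝ) * B d ^ 2
      ≤ (1 + Real.log X) * (T * (128 * (1 / X)) *
        ∑ d ∈ Icc 1 X, ∑ t ∈ range T, (d.divisors.card : ℝ) * m d t * M d t) :=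
        mul_le_mul_of_nonneg_left h7 (by linarith)
    _ = _ := by
        simp only [hM, hT]
        ring

end Pool.MP_dd84fd_nt.IX
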