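import Pool.Agent.Lib.MP_dd84fd_nt.IX.KsDefs
import Pool.Agent.Lib.MP_dd84fd_nt.GX.KMass
import Pool.Agent.Lib.MP_dd84fd_nt.GX.RelCnt

/-!
# IX-KsRelK (0.9 h): mass of `K` on the points `j'` with `‖c - v j'/G‖ ≤ k/X`

Put `m = X / (8k)` (natural numbers; `2 ≤ m`, `8 k m ≤ X`, `X < 8 k (m+1) ≤ 16 k m`). Copy the proof of `GX.kmass` (`GX/KMass.lean`): there `q al_j` plays the role of
`c - v al_j`. For `nrm t ≤ 1/(8m)`, `t = c - v al_j`: `GX.fejer` gives `m²/4 ≤ ‖Σ_{r<m} ee (r t)‖²`. `ee (r t) = ee (r c) χ(-(r v) j)` (`LS.chi_ee`, `al G j = j/G`).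
So `K_j Σ_r ee (r t) = Σ_{(n,r) ∈ E × range m} (e(n) ee(r c)) χ(-(n + r v) j)`, coefficients of norm `≤ 1`; `(1/G) Σ_{all j} ‖.‖² ≤ #{((n,r),(n',r')) : n + r v ≡ n' + r' v mod G}`
(the private lemma `gen_le` of `GX/KMass.lean`; copy it). `n + r v ≤ X + m v ≤ X + m k < 2X < G`: congruence is equality (`LS.cast_eq_small`): `n - n' = (r' - r) v`, so `v ∣ n - n'`, and for given
`(n, n')` and `r` there is at most one `r'` (`v ≥ 1`): at most `m pv E v` quadruples. Total: `(1/G) Σ_{j in the set} ‖K_j‖² ≤ (4/m²) m pv = (4/m) pv ≤ 64 (k/X) pv`.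
-/

set_option autoImplicit false

namespace Pool.MP_dd84fd_nt.IX

open Finset Pool.MP_67663b_nt.Odd Pool.MP_dd84fd_nt.En Pool.MP_dd84fd_nt.E2 Pool.MP_dd84fd_nt.LS
open Pool.MP_dd84fd_nt.L2G (nrm)
open Pool.MP_dd84fd_nt.GX Pool.MP_dd84fd_nt.HX

private theorem gen_parsk (G : ℕ) [NeZero G] {ι : Type*} (I : Finset ι) (c : ι → ℂ)
    (a : ι → ZMod G) :
    ((∑ j : ZMod G, ‖∑ i ∈ I, c i * ZMod.stdAddChar (a i * j)‖ ^ 2 : ℝ) : ℂ) =
      (G : ℂ) * ∑ i ∈ I, ∑ k ∈ I, if a i = a k then c i * (starRingEnd ℂ) (c k) else 0 := by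
  have h1 : ∀ j : ZMod G, ((‖∑ i ∈ I, c i * (ZMod.stdAddChar (a i * j) : ℂ)‖ ^ 2 : ℝ) : ℂ) =
      ∑ i ∈ I, ∑ k ∈ I, c i * (starRingEnd ℂ) (c k) * ZMod.stdAddChar ((a i - a k) * j) := by
    intro j
    rw [← Complex.normSq_eq_norm_sq, ← Complex.mul_conj, map_sum, Finset.sum_mul_sum]
    refine Finset.sum_congr rfl fun i _ => Finset.sum_congr rfl fun k _ => ?_
    have h2 : (a i - a k) * j = a i * j + -(a k * j) := by ring
    rw [RingHom.map_mul, conj_chi, h2, AddChar.map_add_eq_mul]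
    ring
  rw [Complex.ofReal_sum, Finset.sum_congr rfl fun j _ => h1 j, Finset.sum_comm, Finset.mul_sum]
  refine Finset.sum_congr rfl fun i _ => ?_
  rw [Finset.sum_comm, Finset.mul_sum]
  refine Finset.sum_congr rfl fun k _ => ?_
  rw [← Finset.mul_sum, sum_chi]
  by_cases h : a i = a k
  · rw [if_pos h, if_pos (sub_eq_zero.2 h)]
    ring
  · rw [if_neg h, if_neg (fun h' => h (sub_eq_zero.1 h'))]
    ring

private theorem gen_le (G : ℕ) [NeZero G] {ι : Type*} (I : Finset ι) (c : ι → ℂ)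
    (a : ι → ZMod G) (hc : ∀ i, ‖c i‖ ≤ 1) :
    ∑ j : ZMod G, ‖∑ i ∈ I, c i * (ZMod.stdAddChar (a i * j) : ℂ)‖ ^ 2 ≤
      (G : ℝ) * ∑ i ∈ I, ((I.filter fun k => a i = a k).card : ℝ) := by
  have h1 := gen_parsk G I c a
  have h0 : 0 ≤ ∑ j : ZMod G, ‖∑ i ∈ I, c i * (ZMod.stdAddChar (a i * j) : ℂ)‖ ^ 2 :=
    Finset.sum_nonneg fun _ _ => by positivity
  have h2 : ∑ j : ZMod G, ‖∑ i ∈ I, c i * (ZMod.stdAddChar (a i * j) : ℂ)‖ ^ 2 =
      ‖(G : ℂ) * ∑ i ∈ I, ∑ k ∈ I, if a i = a k then c i * (starRingEnd ℂ) (c k) else 0‖ := by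
    rw [← h1, Complex.norm_real, Real.norm_of_nonneg h0]
  rw [h2, norm_mul, Complex.norm_natCast]
  refine mul_le_mul_of_nonneg_left ?_ (by positivity)
  refine (norm_sum_le _ _).trans (Finset.sum_le_sum fun i _ => ?_)
  refine (norm_sum_le _ _).trans ?_
  rw [Finset.card_filter]
  push_cast
  refine Finset.sum_le_sum fun k _ => ?_
  split_ifs
  · rw [norm_mul, RCLike.norm_conj]
    exact mul_le_one₀ (hc i) (norm_nonneg _) (hc k)
  · simp

theorem relK (X G : ℕ) [NeZero G] (hG : 3 * X ≤ G) (E : Finset ℕ) (hE : E ⊆ Icc 1 X)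
    (ph : ℕ → ℂ) (hp : ∀ n, ‖ph n‖ ≤ 1) (k v : ℕ) (hv : 1 ≤ v) (hvk : v ≤ k) (hk : 16 * k ≤ X)
    (c : ℝ) :
    (1 / (G : ℝ)) * ∑ j ∈ (univ : Finset (ZMod G)).filter
      (fun j => nrm (c - v * al G j) ≤ (k : ℝ) / X), ‖KE G E ph j‖ ^ 2 ≤
      64 * ((k : ℝ) / X) * (pv E v : ℝ) := by
  classical
  have hG0 : (0 : ℝ) < G := by exact_mod_cast Nat.pos_of_ne_zero (NeZero.ne G)
  have hk1 : 1 ≤ k := hv.trans hvk
  have hX1 : 16 ≤ X := by omega
  obtain ⟨m, hm⟩ : ∃ m : ℕ, m = X / (8 * k) := ⟨_, rfl⟩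
  have hm2 : 2 ≤ m := by
    rw [hm, Nat.le_div_iff_mul_le (by omega)]
    omega
  have hmX : 8 * k * m ≤ X := by
    rw [hm]
    exact Nat.mul_div_le X (8 * k)
  have hmX' : X < 8 * k * (m + 1) := by
    rw [hm]
    exact Nat.lt_mul_div_succ X (by omega)
  have hm0 : (0 : ℝ) < m := by
    have : 0 < m := by omega
    exact_mod_cast this
  have hX0 : (0 : ℝ) < X := by
    have : 0 < X := by omega
    exact_mod_cast this
  have hk0 : (0 : ℝ) < k := by exact_mod_cast hk1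
  -- the number of solutions
  have hcnt : ∀ p ∈ E ×ˢ range m, (((E ×ˢ range m).filter fun q : ℕ × ℕ =>
      (-((p.1 : ZMod G) + (p.2 : ZMod G) * (v : ZMod G))) =
        (-((q.1 : ZMod G) + (q.2 : ZMod G) * (v : ZMod G)))).card : ℝ) ≤
      ((E.filter fun n' : ℕ => (v : ℤ) ∣ (p.1 : ℤ) - n').card : ℝ) := by
    intro p hp'
    rw [Nat.cast_le]
    rw [Finset.mem_product, Finset.mem_range] at hp'
    have hp1 := Finset.mem_Icc.1 (hE hp'.1)
    have hmv : m * v ≤ X := by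
      have h1 : m * v ≤ m * k := Nat.mul_le_mul_left m hvk
      have h2 : m * k ≤ 8 * k * m := by nlinarith
      omega
    have hp2 : p.2 * v ≤ m * v := Nat.mul_le_mul_right v hp'.2.le
    have key : ∀ q ∈ (E ×ˢ range m).filter (fun q : ℕ × ℕ =>
        (-((p.1 : ZMod G) + (p.2 : ZMod G) * (v : ZMod G))) =
        (-((q.1 : ZMod G) + (q.2 : ZMod G) * (v : ZMod G)))),
        q.1 ∈ E ∧ p.1 + p.2 * v = q.1 + q.2 * v := by
      intro q hq
      rw [Finset.mem_filter, Finset.mem_product, Finset.mem_range] at hq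
      obtain ⟨⟨hq1, hq2⟩, hq3⟩ := hq
      refine ⟨hq1, ?_⟩
      have hq1' := Finset.mem_Icc.1 (hE hq1)
      have hq2' : q.2 * v ≤ m * v := Nat.mul_le_mul_right v hq2.le
      have h1 : ((p.1 + p.2 * v : ℕ) : ZMod G) = ((q.1 + q.2 * v : ℕ) : ZMod G) := by
        push_cast
        exact neg_injective hq3
      exact cast_eq_small (by omega) (by omega) h1
    refine Finset.card_le_card_of_injOn (fun q : ℕ × ℕ => q.1) ?_ ?_
    · intro q hq
      obtain ⟨h1, h3⟩ := key q hq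
      rw [Finset.mem_coe, Finset.mem_filter]
      refine ⟨h1, (q.2 : ℤ) - p.2, ?_⟩
      have h4 : ((p.1 + p.2 * v : ℕ) : ℤ) = ((q.1 + q.2 * v : ℕ) : ℤ) := by rw [h3]
      push_cast at h4
      linarith
    · intro q hq q' hq' h
      obtain ⟨h1, h3⟩ := key q hq
      obtain ⟨h1', h3'⟩ := key q' hq'
      have h4 : q.1 = q'.1 := h
      have h5 : q.2 * v = q'.2 * v := by
        rw [h4] at h3
        omega
      have h6 : q.2 = q'.2 := Nat.eq_of_mul_eq_mul_right (by omega) h5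
      exact Prod.ext h4 h6
  have hpv : ∑ p ∈ E ×ˢ range m, ((E.filter fun n' : ℕ => (v : ℤ) ∣ (p.1 : ℤ) - n').card : ℝ) =
      m * (pv E v : ℝ) := by
    rw [Finset.sum_product]
    have h1 : ∀ n ∈ E, ∑ r ∈ range m,
        ((E.filter fun n' : ℕ => (v : ℤ) ∣ (((n, r) : ℕ × ℕ).1 : ℤ) - n').card : ℝ) =
        m * ((E.filter fun n' : ℕ => (v : ℤ) ∣ (n : ℤ) - n').card : ℝ) := by
      intro n _
      change ∑ _r ∈ range m, ((E.filter fun n' : ℕ => (v : ℤ) ∣ (n : ℤ) - n').card : ℝ) = _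
      rw [Finset.sum_const, Finset.card_range, nsmul_eq_mul]
    rw [Finset.sum_congr rfl h1, ← Finset.mul_sum]
    congr 1
    unfold pv
    rw [Finset.card_filter, Finset.sum_product]
    push_cast
    refine Finset.sum_congr rfl fun n _ => ?_
    rw [Finset.card_filter]
    push_cast
    rfl
  -- the product
  have hprod : ∀ j : ZMod G, ‖KE G E ph j‖ ^ 2 *
      ‖∑ r ∈ range m, ee ((r : ℝ) * (c - v * al G j))‖ ^ 2 =
      ‖∑ p ∈ E ×ˢ range m, (ph p.1 * ee ((p.2 : ℝ) * c)) *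
        (ZMod.stdAddChar ((-((p.1 : ZMod G) + (p.2 : ZMod G) * (v : ZMod G))) * j) : ℂ)‖ ^ 2 := by
    intro j
    rw [← mul_pow, ← norm_mul]
    congr 2
    unfold KE
    rw [Finset.sum_mul_sum, Finset.sum_product]
    refine Finset.sum_congr rfl fun n _ => Finset.sum_congr rfl fun r _ => ?_
    have h1 : (-((n : ZMod G) + (r : ZMod G) * (v : ZMod G))) * j =
        -((n : ZMod G) * j) + -(((r * v : ℕ) : ZMod G) * j) := by
      push_cast
      ring
    have h2 : (ZMod.stdAddChar (-(((r * v : ℕ) : ZMod G) * j)) : ℂ) =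
        ee (-((r : ℝ) * (v * al G j))) := by
      rw [← conj_chi, chi_ee G (r * v) j, conj_ee]
      congr 1
      unfold al
      push_cast
      ring
    have h3 : ee ((r : ℝ) * (c - v * al G j)) =
        ee ((r : ℝ) * c) * ee (-((r : ℝ) * (v * al G j))) := by
      rw [← ee_add]
      congr 1
      ring
    rw [h1, AddChar.map_add_eq_mul, h2, h3]
    ring
  have hall : ∑ j : ZMod G, ‖KE G E ph j‖ ^ 2 *
      ‖∑ r ∈ range m, ee ((r : ℝ) * (c - v * al G j))‖ ^ 2 ≤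
      (G : ℝ) * (m * (pv E v : ℝ)) := by
    rw [Finset.sum_congr rfl fun j _ => hprod j]
    refine (gen_le G (E ×ˢ range m) (fun p => ph p.1 * ee ((p.2 : ℝ) * c))
      (fun p => -((p.1 : ZMod G) + (p.2 : ZMod G) * (v : ZMod G))) (fun p => ?_)).trans ?_
    · rw [norm_mul, norm_ee, mul_one]
      exact hp p.1
    · refine mul_le_mul_of_nonneg_left ?_ hG0.le
      rw [← hpv]
      exact Finset.sum_le_sum hcnt
  -- the lower bound
  have hlow : ∀ j ∈ (univ : Finset (ZMod G)).filter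
      (fun j => nrm (c - v * al G j) ≤ (k : ℝ) / X),
      ‖KE G E ph j‖ ^ 2 * ((m : ℝ) ^ 2 / 4) ≤ ‖KE G E ph j‖ ^ 2 *
      ‖∑ r ∈ range m, ee ((r : ℝ) * (c - v * al G j))‖ ^ 2 := by
    intro j hj
    refine mul_le_mul_of_nonneg_left ?_ (by positivity)
    refine fejer m (by omega) _ ((Finset.mem_filter.1 hj).2.trans ?_)
    rw [div_le_div_iff₀ hX0 (by positivity)]
    have h1 : ((8 * k * m : ℕ) : ℝ) ≤ (X : ℝ) := by exact_mod_cast hmX
    push_cast at h1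
    linarith
  have hsum : (∑ j ∈ (univ : Finset (ZMod G)).filter
      (fun j => nrm (c - v * al G j) ≤ (k : ℝ) / X), ‖KE G E ph j‖ ^ 2) *
      ((m : ℝ) ^ 2 / 4) ≤ (G : ℝ) * (m * (pv E v : ℝ)) := by
    rw [Finset.sum_mul]
    refine (Finset.sum_le_sum hlow).trans (le_trans ?_ hall)
    exact Finset.sum_le_sum_of_subset_of_nonneg (Finset.filter_subset _ _)
      fun _ _ _ => by positivity
  set SS1 := ∑ j ∈ (univ : Finset (ZMod G)).filter
      (fun j => nrm (c - v * al G j) ≤ (k : ℝ) / X), ‖KE G E ph j‖ ^ 2 with hS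
  have h3 : (1 / (G : ℝ)) * SS1 = (SS1 * ((m : ℝ) ^ 2 / 4)) * (4 / (G * (m : ℝ) ^ 2)) := by
    field_simp
  have h4 : (G : ℝ) * (m * (pv E v : ℝ)) * (4 / (G * (m : ℝ) ^ 2)) =
      4 * (1 / (m : ℝ)) * (pv E v : ℝ) := by
    field_simp
  have h5 : 1 / (m : ℝ) ≤ 16 * ((k : ℝ) / X) := by
    rw [div_le_iff₀ hm0]
    have h6 : (X : ℝ) < ((8 * k * (m + 1) : ℕ) : ℝ) := by exact_mod_cast hmX'
    push_cast at h6
    have h7 : (1 : ℝ) ≤ m := by
      have : 1 ≤ m := by omega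
      exact_mod_cast this
    have h8 : (X : ℝ) ≤ 16 * k * m := by nlinarith
    have h9 : 16 * ((k : ℝ) / X) * m = (16 * k * m) / X := by ring
    rw [h9, le_div_iff₀ hX0]
    linarith
  rw [h3]
  refine (mul_le_mul_of_nonneg_right hsum (by positivity)).trans ?_
  rw [h4]
  have h10 : (0 : ℝ) ≤ (pv E v : ℝ) := by positivity
  nlinarith [mul_le_mul_of_nonneg_right h5 h10]

end Pool.MP_dd84fd_nt.IX
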