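import Pool.Agent.Lib.MP_dd84fd_nt.IX.KsPar
import Pool.Agent.Lib.MP_dd84fd_nt.HX.KsTI

/-!
# IX-KsTI (0.7 h): type I bound at level `ZI`

Copy the proof of `HX.ti_h` (`HX/KsTI.lean`): `GX.typeI_exp`, `GX.typeI_ker` (any `R ≤ X`; `ZI ≤ X` for large `X`) and `HX.ht_sum` with `δ = dl th e`, `ρ = X^(-η)`:
`‖.‖ ≤ (1/G) Σ_j ‖x_j‖ C (X/ht + R) L ≤ C L (X 16 (log_2 X + 1) (X^(-η) L^CV)^(1/2) |E| + ZI L^CV (X |E|)^(1/2))` (`norms_h`).
`ZI X^(1/2) |E|^(1/2) = 2X^(1-th+3e) X^(1/2) |E|^(1/2) ≤ 2 X^(1-th+3e+1/2-(th-e)/2) |E| ≤ 2 X^(9/10+4e) |E|` (`(3-3th)/2 < 9/10`).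
-/

set_option autoImplicit false

namespace Pool.MP_dd84fd_nt.IX

open Finset Pool.MP_67663b_nt.Odd Pool.MP_dd84fd_nt.En Pool.MP_dd84fd_nt.E2 Pool.MP_dd84fd_nt.LS
open Pool.MP_dd84fd_nt.L2G (nrm)
open Pool.MP_dd84fd_nt.GX Pool.MP_dd84fd_nt.HX

theorem ti_i (CV : ℕ) (th e η : ℝ) (hA : Adm th e) (hη : 0 < η) (hη' : η ≤ e) :
    ∃ X0 : ℕ, ∀ X : ℕ, X0 ≤ X → ∀ (G : ℕ) [NeZero G], 3 * X ≤ G → ∀ V : ZMod G → ℂ,
    VBH G X CV V → ∀ ω : ZMod G → ℂ, (∀ j, ‖ω j‖ ≤ 1) → ∀ E : Finset ℕ, E ⊆ Icc 1 X →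
    (X : ℝ) ^ (th - e) ≤ E.card → ∀ ph : ℕ → ℂ, (∀ n, ‖ph n‖ ≤ 1) →
    NoAPH G (dl th e) X ω E ((X : ℝ) ^ (-η)) →
    TII1 th e X (FF G (xx G V ω E ph)) ((X : ℝ) ^ (1 - η / 4) * E.card) := by
  obtain ⟨hd0, -, he0, he1, ht1, ht2, -⟩ := par_i th e hA
  obtain ⟨C, hC, X1, hker⟩ := typeI_ker
  obtain ⟨X3, -, hpar⟩ := par_X
  obtain ⟨X2, hX2⟩ := MP_log_pow (50 * C) (CV + 2) (ε := η / 4) (by linarith)
  refine ⟨max (max (max X1 X2) X3) 4096, ?_⟩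
  intro X hX G _ hG V hV ω hω E hE hcard ph hph hN R c y hR hc hy
  have hXX1 : X1 ≤ X :=
    (le_max_left _ _).trans ((le_max_left _ _).trans ((le_max_left _ _).trans hX))
  have hXX2 : X2 ≤ X :=
    (le_max_right _ _).trans ((le_max_left _ _).trans ((le_max_left _ _).trans hX))
  have hXX3 : X3 ≤ X := (le_max_right _ _).trans ((le_max_left _ _).trans hX)
  have hX4 : 4096 ≤ X := (le_max_right _ _).trans hX
  have hX1 : 1 ≤ X := by omega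
  have hXr : (4096 : ℝ) ≤ X := by exact_mod_cast hX4
  have hX0 : (0 : ℝ) < X := by linarith
  have hX1r : (1 : ℝ) ≤ X := by linarith
  have hG0 : (0 : ℝ) ≤ 1 / (G : ℝ) := by positivity
  set L := Real.log X with hL
  have hL1 : 1 ≤ L := by
    have h1 : Real.exp 1 ≤ X := by
      have := Real.exp_one_lt_d9
      linarith
    rw [hL, ← Real.log_exp 1]
    exact Real.log_le_log (Real.exp_pos 1) h1
  have hL0 : 0 < L := by linarith
  have h16 : 16 * y3 (dl th e) X ≤ X := (hpar X hXX3 th e hA).1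
  have hy3 : y3 (dl th e) X = (X : ℝ) ^ (1 - th + 3 * e) := y3_dl th e X
  have hRX : R ≤ X := by
    have h1 : (R : ℝ) ≤ X := by
      have h2 : (0 : ℝ) ≤ (X : ℝ) ^ (1 - th + 3 * e) := Real.rpow_nonneg hX0.le _
      rw [hy3] at h16
      unfold ZI at hR
      linarith
    exact_mod_cast h1
  have hnm : 0 ≤ nm2 G V := mul_nonneg hG0 (Finset.sum_nonneg fun j _ => by positivity)
  have hE0 : (0 : ℝ) < E.card := (Real.rpow_pos_of_pos hX0 _).trans_le hcard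
  -- the first part
  have hsum := ht_sum X G hX1 hG (dl th e) hd0.le h16 V ω hω E hE ph hph ((X : ℝ) ^ (-η))
    (Real.rpow_nonneg hX0.le _) hN
  have hlog2 : (Nat.log 2 X : ℝ) + 1 ≤ 3 * L := by
    have h1 : (2 : ℝ) ^ Nat.log 2 X ≤ X := by
      have : 2 ^ Nat.log 2 X ≤ X := Nat.pow_log_le_self 2 (by omega)
      exact_mod_cast this
    have h2 : (Nat.log 2 X : ℝ) * Real.log 2 ≤ L := by
      have := Real.log_le_log (by positivity) h1
      rw [Real.log_pow] at this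
      exact this
    have h3 : (1 / 2 : ℝ) ≤ Real.log 2 := by
      have := Real.log_two_gt_d9
      linarith
    have h4 : (0 : ℝ) ≤ (Nat.log 2 X : ℝ) := Nat.cast_nonneg _
    nlinarith
  have hsq : Real.sqrt ((X : ℝ) ^ (-η) * (nm2 G V / X)) ≤ (X : ℝ) ^ (-(η / 2)) * L ^ CV := by
    have h1 : nm2 G V / X ≤ L ^ CV := by
      rw [div_le_iff₀ hX0]
      calc nm2 G V ≤ X * L ^ CV := hV.1
        _ = L ^ CV * X := mul_comm _ _
    have h2 : L ^ CV ≤ (L ^ CV) ^ 2 := by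
      have := one_le_pow₀ (n := CV) hL1
      nlinarith
    refine Real.sqrt_le_iff.2 ⟨by positivity, ?_⟩
    rw [mul_pow, ← Real.rpow_natCast ((X : ℝ) ^ (-(η / 2))) 2, ← Real.rpow_mul hX0.le]
    have h3 : -(η / 2) * ((2 : ℕ) : ℝ) = -η := by push_cast; ring
    rw [h3]
    exact mul_le_mul_of_nonneg_left (h1.trans h2) (Real.rpow_nonneg hX0.le _)
  have hP1 : (X : ℝ) * ((1 / (G : ℝ)) * ∑ j : ZMod G, ‖xx G V ω E ph j‖ / ht X (al G j)) ≤
      48 * L ^ (CV + 1) * ((X : ℝ) ^ (1 - η / 2) * E.card) := by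
    have h1 : (1 / (G : ℝ)) * ∑ j : ZMod G, ‖xx G V ω E ph j‖ / ht X (al G j) ≤
        16 * (3 * L) * ((X : ℝ) ^ (-(η / 2)) * L ^ CV) * E.card := by
      refine hsum.trans ?_
      refine mul_le_mul_of_nonneg_right ?_ hE0.le
      exact mul_le_mul (mul_le_mul_of_nonneg_left hlog2 (by norm_num)) hsq (Real.sqrt_nonneg _)
        (by positivity)
    have h2 : (X : ℝ) ^ (1 - η / 2) = X * (X : ℝ) ^ (-(η / 2)) := by
      rw [sub_eq_add_neg, Real.rpow_add hX0, Real.rpow_one]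
    calc (X : ℝ) * ((1 / (G : ℝ)) * ∑ j : ZMod G, ‖xx G V ω E ph j‖ / ht X (al G j))
        ≤ X * (16 * (3 * L) * ((X : ℝ) ^ (-(η / 2)) * L ^ CV) * E.card) :=
          mul_le_mul_of_nonneg_left h1 hX0.le
      _ = _ := by rw [h2, pow_succ]; ring
  -- the second part
  have hnorm := (norms_h X G CV (by omega) hG V ω hV hω E hE ph hph).1
  have hsE : Real.sqrt ((X : ℝ) * E.card) ≤ (X : ℝ) ^ ((1 - th + e) / 2) * E.card := by
    refine Real.sqrt_le_iff.2 ⟨by positivity, ?_⟩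
    rw [mul_pow, ← Real.rpow_natCast ((X : ℝ) ^ ((1 - th + e) / 2)) 2, ← Real.rpow_mul hX0.le]
    have h1 : (X : ℝ) = (X : ℝ) ^ ((1 - th + e) / 2 * ((2 : ℕ) : ℝ)) * (X : ℝ) ^ (th - e) := by
      rw [← Real.rpow_add hX0]
      have : (1 - th + e) / 2 * ((2 : ℕ) : ℝ) + (th - e) = 1 := by push_cast; ring
      rw [this, Real.rpow_one]
    have h2 : (0 : ℝ) ≤ (X : ℝ) ^ ((1 - th + e) / 2 * ((2 : ℕ) : ℝ)) :=
      Real.rpow_nonneg hX0.le _
    calc (X : ℝ) * E.card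
        = (X : ℝ) ^ ((1 - th + e) / 2 * ((2 : ℕ) : ℝ)) * ((X : ℝ) ^ (th - e) * E.card) := by
          rw [← mul_assoc, ← h1]
      _ ≤ (X : ℝ) ^ ((1 - th + e) / 2 * ((2 : ℕ) : ℝ)) * ((E.card : ℝ) * E.card) :=
          mul_le_mul_of_nonneg_left (mul_le_mul_of_nonneg_right hcard hE0.le) h2
      _ = _ := by rw [sq]
  have hP2 : (R : ℝ) * nm1 G (xx G V ω E ph) ≤
      2 * L ^ (CV + 1) * ((X : ℝ) ^ (1 - η / 2) * E.card) := by
    have h1 : (X : ℝ) ^ (1 - th + 3 * e) * (X : ℝ) ^ ((1 - th + e) / 2) ≤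
        (X : ℝ) ^ (1 - η / 2) := by
      rw [← Real.rpow_add hX0]
      exact Real.rpow_le_rpow_of_exponent_le hX1r (by linarith)
    have h2 : L ^ CV ≤ L ^ (CV + 1) := pow_le_pow_right₀ hL1 (by omega)
    have h3 : (0 : ℝ) ≤ 2 * (X : ℝ) ^ (1 - th + 3 * e) := by positivity
    have h4 : 0 ≤ nm1 G (xx G V ω E ph) :=
      mul_nonneg hG0 (Finset.sum_nonneg fun j _ => norm_nonneg _)
    unfold ZI at hR
    calc (R : ℝ) * nm1 G (xx G V ω E ph)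
        ≤ (2 * (X : ℝ) ^ (1 - th + 3 * e)) * (L ^ CV * ((X : ℝ) ^ ((1 - th + e) / 2) * E.card)) :=
          mul_le_mul hR (hnorm.trans (mul_le_mul_of_nonneg_left hsE (by positivity))) h4 h3
      _ = 2 * L ^ CV *
          (((X : ℝ) ^ (1 - th + 3 * e) * (X : ℝ) ^ ((1 - th + e) / 2)) * E.card) := by ring
      _ ≤ 2 * L ^ (CV + 1) * ((X : ℝ) ^ (1 - η / 2) * E.card) :=
          mul_le_mul (by linarith) (mul_le_mul_of_nonneg_right h1 hE0.le) (by positivity)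
            (by positivity)
  -- the kernel
  refine (typeI_exp X G hX1 _ R c hc y hy).trans ?_
  have hk : (1 / (G : ℝ)) * ∑ j : ZMod G, ‖xx G V ω E ph j‖ *
      ∑ r ∈ Icc 1 R, L2G.mn ((X : ℝ) / r) ((r : ℝ) * al G j) ≤
      C * L * ((X : ℝ) * ((1 / (G : ℝ)) * ∑ j : ZMod G, ‖xx G V ω E ph j‖ / ht X (al G j)) +
        R * nm1 G (xx G V ω E ph)) := by
    have h1 : ∑ j : ZMod G, ‖xx G V ω E ph j‖ *
        ∑ r ∈ Icc 1 R, L2G.mn ((X : ℝ) / r) ((r : ℝ) * al G j) ≤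
        ∑ j : ZMod G, ‖xx G V ω E ph j‖ * (C * ((X : ℝ) / ht X (al G j) + R) * L) :=
      Finset.sum_le_sum fun j _ => mul_le_mul_of_nonneg_left (hker X hXX1 _ R hRX) (norm_nonneg _)
    refine (mul_le_mul_of_nonneg_left h1 hG0).trans (le_of_eq ?_)
    unfold nm1
    have h2 : ∑ j : ZMod G, ‖xx G V ω E ph j‖ * (C * ((X : ℝ) / ht X (al G j) + R) * L) =
        C * L * (X * ∑ j : ZMod G, ‖xx G V ω E ph j‖ / ht X (al G j) +
          R * ∑ j : ZMod G, ‖xx G V ω E ph j‖) := by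
      rw [Finset.mul_sum, Finset.mul_sum, ← Finset.sum_add_distrib, Finset.mul_sum]
      refine Finset.sum_congr rfl fun j _ => ?_
      ring
    rw [h2]
    ring
  refine hk.trans ?_
  have hfin := hX2 X hXX2
  have hpow : (0 : ℝ) ≤ (X : ℝ) ^ (1 - η / 2) * E.card := by positivity
  calc C * L * ((X : ℝ) * ((1 / (G : ℝ)) * ∑ j : ZMod G, ‖xx G V ω E ph j‖ / ht X (al G j)) +
        R * nm1 G (xx G V ω E ph))
      ≤ C * L * (48 * L ^ (CV + 1) * ((X : ℝ) ^ (1 - η / 2) * E.card) +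
        2 * L ^ (CV + 1) * ((X : ℝ) ^ (1 - η / 2) * E.card)) :=
        mul_le_mul_of_nonneg_left (add_le_add hP1 hP2) (by positivity)
    _ = (50 * C * L ^ (CV + 2)) * ((X : ℝ) ^ (1 - η / 2) * E.card) := by ring
    _ ≤ (X : ℝ) ^ (η / 4) * ((X : ℝ) ^ (1 - η / 2) * E.card) :=
        mul_le_mul_of_nonneg_right hfin hpow
    _ = (X : ℝ) ^ (1 - η / 4) * E.card := by
        rw [← mul_assoc, ← Real.rpow_add hX0]
        congr 2
        ring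

end Pool.MP_dd84fd_nt.IX
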