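import Pool.Agent.Lib.MP_dd84fd_nt.IX.PlDefs

/-!
# PL_I-Dec: `DecI` in the form used on the arcs

From `DecI B C2 th e ww`: `γ' l n = ∑_{i < I} γ i n * α i l`: `|γ'| ≤ L^C2 L^C2 L^C2`, variation `≤ L^(3 C2)`; `γ' l = 0` for `l > D = ⌊ZI⌋`.
`M' i = M i` (real), `MM i = {m : a i m ≠ 0} ∩ Icc 1 X`, complex coefficients; `M i ≥ yA/2 ≥ X^((1-θ)/2+3e)` (`X^e ≥ 2`),
`K i * M i ≤ X`, `∑_{k ≤ K i} |c|² ≤ K i L^(2 C2) ≤ L^(2C2) X/M i`; `∑_{l ∣ n} γ' l n = ∑_i γ i n ∑_{l ∣ n} α i l`.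
(Compare the middle part of `arc_h` in `HX/PlArc.lean`.)
-/

set_option autoImplicit false

namespace Pool.MP_dd84fd_nt.IXP

open Finset Pool.MP_67663b_nt.Odd Pool.MP_dd84fd_nt.PL Pool.MP_dd84fd_nt.HX Pool.MP_dd84fd_nt.HXP
open Pool.MP_dd84fd_nt.IX (Adm DecI ZI)

private theorem pd_rpow (T η : ℝ) (hη : 0 < η) : ∃ X0 : ℕ, ∀ X : ℕ, X0 ≤ X →
    T ≤ (X : ℝ) ^ η := by
  have h1 := (tendsto_rpow_atTop hη).comp tendsto_natCast_atTop_atTop
  obtain ⟨X0, hX0⟩ := Filter.eventually_atTop.1 (h1.eventually_ge_atTop T)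
  exact ⟨X0, fun X hX => hX0 X hX⟩

private theorem pd_bv (X I : ℕ) (R : ℝ) (hR : 0 ≤ R) (hI : (I : ℝ) ≤ R) (γ α : ℕ → ℕ → ℝ)
    (hγ : ∀ i, (∀ n, |γ i n| ≤ R) ∧ ∑ n ∈ Ico 1 X, |γ i (n + 1) - γ i n| ≤ R)
    (hα : ∀ i l, |α i l| ≤ R) (l : ℕ) :
    BVw X (R ^ 3) (fun n => ∑ i ∈ range I, γ i n * α i l) := by
  have hI3 : (I : ℝ) * (R * R) ≤ R ^ 3 := by
    calc (I : ℝ) * (R * R) ≤ R * (R * R) := mul_le_mul_of_nonneg_right hI (by positivity)
      _ = R ^ 3 := by ring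
  constructor
  · intro n _
    calc |∑ i ∈ range I, γ i n * α i l| ≤ ∑ i ∈ range I, |γ i n * α i l| := abs_sum_le_sum_abs _ _
      _ ≤ ∑ _i ∈ range I, R * R := by
          refine sum_le_sum fun i _ => ?_
          rw [abs_mul]
          exact mul_le_mul ((hγ i).1 n) (hα i l) (abs_nonneg _) hR
      _ = (I : ℝ) * (R * R) := by rw [sum_const, card_range, nsmul_eq_mul]
      _ ≤ R ^ 3 := hI3
  · calc ∑ n ∈ Ico 1 X, |∑ i ∈ range I, γ i (n + 1) * α i l - ∑ i ∈ range I, γ i n * α i l|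
        ≤ ∑ n ∈ Ico 1 X, ∑ i ∈ range I, |γ i (n + 1) - γ i n| * R := by
          refine sum_le_sum fun n _ => ?_
          rw [← sum_sub_distrib]
          refine (abs_sum_le_sum_abs _ _).trans (sum_le_sum fun i _ => ?_)
          rw [← sub_mul, abs_mul]
          exact mul_le_mul_of_nonneg_left (hα i l) (abs_nonneg _)
      _ = ∑ i ∈ range I, (∑ n ∈ Ico 1 X, |γ i (n + 1) - γ i n|) * R := by
          rw [sum_comm]
          refine sum_congr rfl fun i _ => ?_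
          rw [sum_mul]
      _ ≤ ∑ _i ∈ range I, R * R :=
          sum_le_sum fun i _ => mul_le_mul_of_nonneg_right (hγ i).2 hR
      _ = (I : ℝ) * (R * R) := by rw [sum_const, card_range, nsmul_eq_mul]
      _ ≤ R ^ 3 := hI3

theorem dec_conv (B C2 : ℕ) (th e : ℝ) (hp : Adm th e) (ww : ℕ → ℕ → ℝ) (hd : DecI B C2 th e ww) :
    ∃ X0 : ℕ, ∀ X : ℕ, X0 ≤ X → ∃ (γ : ℕ → ℕ → ℝ) (I D : ℕ) (M : ℕ → ℝ) (K : ℕ → ℕ)
      (MM : ℕ → Finset ℕ) (a c : ℕ → ℕ → ℝ) (err : ℕ → ℝ),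
      (I : ℝ) ≤ (Real.log X) ^ C2 ∧ (D : ℝ) ≤ ZI th e X ∧ D ≤ X ∧
      (∀ l, BVw X ((Real.log X) ^ (3 * C2)) (γ l)) ∧ (∀ l, D < l → ∀ n, γ l n = 0) ∧
      (∀ i, BlkI X th e (M i) (K i) (MM i) (fun m => (a i m : ℂ)) (fun k => (c i k : ℂ))
        ((Real.log X) ^ C2) ((Real.log X) ^ (2 * C2))) ∧
      (∀ i, ∀ m ∈ MM i, 1 ≤ m) ∧ (∀ i m, a i m ≠ 0 → m ∈ MM i) ∧
      (∀ i m, a i m ≠ 0 → m * K i ≤ X) ∧
      (∀ n ∈ Icc 1 X, ww X n = ∑ l ∈ n.divisors, γ l n +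
        ∑ i ∈ range I, ∑ m ∈ n.divisors, (if n / m ≤ K i then a i m * c i (n / m) else 0) +
        err n) ∧
      ∑ n ∈ Icc 1 X, err n ^ 2 ≤ X / (Real.log X) ^ B := by
  obtain ⟨hth, hth2, he, he2⟩ := hp
  obtain ⟨X1, hX1⟩ := hd
  obtain ⟨X2, hX2⟩ := pd_rpow 2 e he
  obtain ⟨X3, hX3⟩ := pd_rpow 2 (2 / 5) (by norm_num)
  refine ⟨max (max X1 X2) (max X3 1), fun X hX => ?_⟩
  have g1 : X1 ≤ X := (le_max_left _ _).trans ((le_max_left _ _).trans hX)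
  have g2 : X2 ≤ X := (le_max_right _ _).trans ((le_max_left _ _).trans hX)
  have g3 : X3 ≤ X := (le_max_left _ _).trans ((le_max_right _ _).trans hX)
  have g4 : 1 ≤ X := (le_max_right _ _).trans ((le_max_right _ _).trans hX)
  have hXR : (1 : ℝ) ≤ X := by exact_mod_cast g4
  have hX0 : (0 : ℝ) < X := by linarith
  have hXe := hX2 X g2
  have hX25 := hX3 X g3
  obtain ⟨I, γ, α, M, K, a, c, err, hI, hγ, hα, hα0, hac, hM, haM, hdec, herr⟩ := hX1 X g1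
  obtain ⟨L, hL⟩ : ∃ L : ℝ, L = Real.log X := ⟨_, rfl⟩
  rw [← hL] at hI hγ hα hac herr ⊢
  have hL0 : 0 ≤ L := by rw [hL]; exact Real.log_nonneg hXR
  have hR0 : 0 ≤ L ^ C2 := pow_nonneg hL0 _
  have hZX : IX.ZI th e X ≤ X := by
    unfold IX.ZI
    calc 2 * (X : ℝ) ^ (1 - th + 3 * e) ≤ (X : ℝ) ^ (2 / 5 : ℝ) * (X : ℝ) ^ (3 / 5 : ℝ) := by
          refine mul_le_mul hX25 ?_ (by positivity) (by positivity)
          exact Real.rpow_le_rpow_of_exponent_le hXR (by linarith)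
      _ = X := by
          rw [← Real.rpow_add hX0]
          norm_num
  have hZ0 : 0 ≤ IX.ZI th e X := by
    unfold IX.ZI
    positivity
  have hMlow : ∀ i, (X : ℝ) ^ ((1 - th) / 2 + 3 * e) ≤ M i := by
    intro i
    refine le_trans ?_ (hM i).1
    unfold IX.yA
    rw [le_div_iff₀ (by norm_num)]
    calc (X : ℝ) ^ ((1 - th) / 2 + 3 * e) * 2 ≤
          (X : ℝ) ^ ((1 - th) / 2 + 3 * e) * (X : ℝ) ^ e :=
          mul_le_mul_of_nonneg_left hXe (by positivity)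
      _ = (X : ℝ) ^ ((1 - th) / 2 + 4 * e) := by
          rw [← Real.rpow_add hX0]
          congr 1
          ring
  have hM1 : ∀ i, (1 : ℝ) ≤ M i := fun i =>
    (Real.one_le_rpow hXR (by linarith)).trans (hMlow i)
  have hyB : IX.yB th e X ≤ X := by
    unfold IX.yB
    calc (X : ℝ) ^ (th - 3 * e) ≤ (X : ℝ) ^ (1 : ℝ) :=
          Real.rpow_le_rpow_of_exponent_le hXR (by linarith)
      _ = X := Real.rpow_one _
  have hKM : ∀ i, (K i : ℝ) * M i ≤ X := fun i => by exact_mod_cast (hM i).2.2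
  refine ⟨fun l n => ∑ i ∈ range I, γ i n * α i l, I, ⌊IX.ZI th e X⌋₊, fun i => (M i : ℝ), K,
    fun i => (Icc 1 X).filter (fun m => a i m ≠ 0), a, c, err, hI, Nat.floor_le hZ0, ?_, ?_, ?_,
    ?_, ?_, ?_, ?_, ?_, herr⟩
  · exact_mod_cast (Nat.floor_le hZ0).trans hZX
  · intro l
    rw [show 3 * C2 = C2 * 3 by ring, pow_mul]
    exact pd_bv X I (L ^ C2) hR0 hI γ α hγ hα l
  · intro l hl n
    refine sum_eq_zero fun i _ => ?_
    rw [hα0 i l (Nat.lt_of_floor_lt hl), mul_zero]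
  · intro i
    refine ⟨hMlow i, (hM i).2.1, ?_, ?_, ?_, ?_⟩
    · have h5 : (K i : ℝ) ≤ X :=
        (le_mul_of_one_le_right (Nat.cast_nonneg _) (hM1 i)).trans (hKM i)
      exact_mod_cast h5
    · intro m hm
      rw [mem_filter] at hm
      obtain ⟨h5, h6, -, -⟩ := haM i m hm.2
      have h5' : (M i : ℝ) < m := by exact_mod_cast h5
      have h6' : (m : ℝ) ≤ 2 * M i := by exact_mod_cast h6
      exact ⟨h5', h6'⟩
    · intro m _
      rw [Complex.norm_real]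
      exact (hac i m).1
    · have hMp : (0 : ℝ) < M i := by linarith [hM1 i]
      calc ∑ k ∈ Icc 1 (K i), ‖((c i k : ℝ) : ℂ)‖ ^ 2 ≤ ∑ k ∈ Icc 1 (K i), L ^ (2 * C2) := by
            refine sum_le_sum fun k _ => ?_
            rw [Complex.norm_real, Real.norm_eq_abs, mul_comm 2 C2, pow_mul]
            exact pow_le_pow_left₀ (abs_nonneg _) (hac i k).2 2
        _ = (K i : ℝ) * L ^ (2 * C2) := by
            rw [sum_const, Nat.card_Icc, nsmul_eq_mul]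
            simp
        _ ≤ L ^ (2 * C2) * X / M i := by
            rw [le_div_iff₀ hMp]
            calc (K i : ℝ) * L ^ (2 * C2) * M i = L ^ (2 * C2) * (K i * M i) := by ring
              _ ≤ L ^ (2 * C2) * X := mul_le_mul_of_nonneg_left (hKM i) (by positivity)
  · intro i m hm
    rw [mem_filter, mem_Icc] at hm
    exact hm.1.1
  · intro i m hm
    obtain ⟨h5, -, h7, -⟩ := haM i m hm
    rw [mem_filter, mem_Icc]
    refine ⟨⟨by omega, ?_⟩, hm⟩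
    exact_mod_cast h7.trans hyB
  · intro i m hm
    exact (haM i m hm).2.2.2
  · intro n hn
    rw [hdec n hn]
    congr 2
    rw [sum_comm]
    refine sum_congr rfl fun i _ => ?_
    rw [mul_sum]

end Pool.MP_dd84fd_nt.IXP
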