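import Pool.Agent.Lib.MP_dd84fd_nt.HX.PlNC
import Pool.Agent.Lib.MP_dd84fd_nt.IX.PlDefs

/-!
# PL_I-NC: the part `(n, q) > 1` of `ww`

Adapt `HX/PlNC.lean` (`nc_part`): `|ww X n| ≤ K0 rg (zI X) n`, `zI X = ⌈X^(1/10)⌉`.
For each `q ∈ QQ` the coefficients `ww(n) [(n,q) > 1]` vanish unless `n` is `zI X`-rough and a prime `p ≥ zI X` divides `n` and `q`; at most
10 such `p` (`z^11 > X ≥ q`; `q ≤ N ≤ Nb L^A1 ≤ X`), each divides at most `X/z` numbers `n ≤ X`: `∑ |·|² ≤ 10 K0² X/z`; `overlap_sigma` for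
`QQ = {q}`, `N = q` on `[b_q/X, 2b_q/X]` (`b_q q ≤ 2bN ≤ X`): `≤ 2∑`; `#QQ ≤ X^(1/50)`: total `≤ 20 K0² X^(1 - 1/10 + 1/50) ≤ X^(1 - 1/60)`.
-/

set_option autoImplicit false

namespace Pool.MP_dd84fd_nt.IXP

open Finset Pool.MP_67663b_nt.Odd Pool.MP_dd84fd_nt.PL Pool.MP_dd84fd_nt.HX Pool.MP_dd84fd_nt.HXP
open Pool.MP_dd84fd_nt.IX (Adm W1 zI)

private theorem ixNC_log_pow (C : ℝ) (K : ℕ) {ε : ℝ} (hε : 0 < ε) : ∃ X0 : ℕ, ∀ X : ℕ, X0 ≤ X →
    C * (Real.log X) ^ K ≤ (X : ℝ) ^ ε := by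
  have h1 := (isLittleO_log_rpow_rpow_atTop (K : ℝ) hε).bound
    (show (0 : ℝ) < 1 / (|C| + 1) by positivity)
  have h2 := tendsto_natCast_atTop_atTop (R := ℝ) |>.eventually h1
  obtain ⟨X0, hX0⟩ := Filter.eventually_atTop.mp h2
  refine ⟨max X0 1, fun X hX => ?_⟩
  have h3 := hX0 X ((le_max_left _ _).trans hX)
  have hX1 : (1 : ℝ) ≤ X := by exact_mod_cast (le_max_right _ _).trans hX
  have hl : 0 ≤ Real.log X := Real.log_nonneg hX1
  rw [Real.norm_of_nonneg (by positivity), Real.norm_of_nonneg (by positivity),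
    Real.rpow_natCast] at h3
  have h4 : C * (Real.log X) ^ K ≤ (|C| + 1) * (Real.log X) ^ K := by
    apply mul_le_mul_of_nonneg_right _ (by positivity)
    linarith [le_abs_self C]
  refine h4.trans ?_
  have h5 : (|C| + 1) * (Real.log X) ^ K ≤ (|C| + 1) * (1 / (|C| + 1) * (X : ℝ) ^ ε) :=
    mul_le_mul_of_nonneg_left h3 (by positivity)
  refine h5.trans (le_of_eq ?_)
  have : |C| + 1 ≠ 0 := by positivity
  field_simp

private theorem ixNC_ee_cont : Continuous ee := by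
  unfold ee
  fun_prop

private theorem ixNC_tp_cont (K : ℕ) (c : ℕ → ℂ) : Continuous (tp K c) := by
  unfold tp
  refine continuous_finsetSum _ fun k _ => ?_
  exact continuous_const.mul (ixNC_ee_cont.comp (continuous_const.mul continuous_id))

private theorem ixNC_ee_int (m : ℤ) : ee (m : ℝ) = 1 := by
  unfold ee
  have h : (2 * (Real.pi : ℂ) * ((m : ℝ) : ℂ) * Complex.I) = (m : ℂ) * (2 * Real.pi * Complex.I) := by
    push_cast
    ring
  rw [h]
  exact Complex.exp_int_mul_two_pi_mul_I m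

private theorem ixNC_ee_add (x y : ℝ) : ee (x + y) = ee x * ee y := by
  unfold ee
  rw [← Complex.exp_add]
  congr 1
  push_cast
  ring

private theorem ixNC_tp_per (K : ℕ) (c : ℕ → ℂ) (x : ℝ) : tp K c (x + 1) = tp K c x := by
  unfold tp
  refine sum_congr rfl fun k _ => ?_
  rw [mul_add, mul_one, ixNC_ee_add]
  have := ixNC_ee_int (k : ℤ)
  rw [Int.cast_natCast] at this
  rw [this, mul_one]

/-- the number of `z`-rough numbers `k ≤ X` with `(k, q) > 1` -/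
private theorem ixNC_count (X q z : ℕ) (hz : 1 ≤ z) (hq : 1 ≤ q) :
    ((((Icc 1 X).filter (fun k => ¬ Nat.Coprime k q ∧ Rgh z k)).card : ℕ) : ℝ) ≤
      ((q.primeFactors.filter (fun p => z ≤ p)).card : ℝ) * (X / z) := by
  classical
  have hsub : (Icc 1 X).filter (fun k => ¬ Nat.Coprime k q ∧ Rgh z k) ⊆
      (q.primeFactors.filter (fun p => z ≤ p)).biUnion
        (fun p => (Icc 1 X).filter (fun k => p ∣ k)) := by
    intro k hk
    rw [mem_filter, mem_Icc] at hk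
    obtain ⟨⟨hk1, hkX⟩, hc, hr⟩ := hk
    rw [mem_biUnion]
    obtain ⟨p, hp, hpk, hpq⟩ := Nat.Prime.not_coprime_iff_dvd.1 hc
    refine ⟨p, ?_, ?_⟩
    · rw [mem_filter, Nat.mem_primeFactors]
      exact ⟨⟨hp, hpq, by omega⟩, hr.2 p (Nat.mem_primeFactors.2 ⟨hp, hpk, by omega⟩)⟩
    · rw [mem_filter, mem_Icc]
      exact ⟨⟨hk1, hkX⟩, hpk⟩
  have h1 := (card_le_card hsub).trans card_biUnion_le
  have h2 : ((∑ p ∈ q.primeFactors.filter (fun p => z ≤ p),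
      ((Icc 1 X).filter (fun k => p ∣ k)).card : ℕ) : ℝ) ≤
      ∑ p ∈ q.primeFactors.filter (fun p => z ≤ p), ((X : ℝ) / z) := by
    push_cast
    refine sum_le_sum fun p hp => ?_
    rw [mem_filter] at hp
    have h3 : ((Icc 1 X).filter (fun n => p ∣ n)).card = X / p := by
      have h3 : Icc 1 X = Ioc 0 X := by
        ext n
        rw [mem_Icc, mem_Ioc]
        omega
      rw [h3]
      exact Nat.Ioc_filter_dvd_card_eq_div X p
    rw [h3]
    have hz0 : (0 : ℝ) < z := by exact_mod_cast hz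
    have h4 : (z : ℝ) ≤ p := by exact_mod_cast hp.2
    calc ((X / p : ℕ) : ℝ) ≤ (X : ℝ) / p := Nat.cast_div_le
      _ ≤ X / z := by gcongr
  rw [sum_const, nsmul_eq_mul] at h2
  exact le_trans (by exact_mod_cast h1) h2

/-- a number `q ≤ X` has at most `10` prime factors `≥ X^(1/10)` -/
private theorem ixNC_pf (X q z : ℕ) (hX : 2 ≤ X) (hq : 1 ≤ q) (hqX : q ≤ X)
    (hz : (X : ℝ) ^ (1 / 10 : ℝ) ≤ z) :
    (q.primeFactors.filter (fun p => z ≤ p)).card ≤ 10 := by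
  classical
  have hX1 : (1 : ℝ) < X := by exact_mod_cast (by omega : 1 < X)
  have hX0 : (0 : ℝ) < X := by linarith
  by_contra hcon
  push Not at hcon
  set P := q.primeFactors.filter (fun p => z ≤ p) with hP
  have h1 : z ^ P.card ≤ q := by
    calc z ^ P.card = ∏ _p ∈ P, z := by rw [prod_const]
      _ ≤ ∏ p ∈ P, p := prod_le_prod' fun p hp => (mem_filter.1 hp).2
      _ ≤ ∏ p ∈ q.primeFactors, p := by
          refine prod_le_prod_of_subset_of_one_le' (filter_subset _ _) fun p hp _ => ?_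
          exact (Nat.prime_of_mem_primeFactors hp).one_le
      _ ≤ q := Nat.le_of_dvd (by omega) (Nat.prod_primeFactors_dvd q)
  have hz1 : (1 : ℝ) < z := lt_of_lt_of_le (Real.one_lt_rpow hX1 (by norm_num)) hz
  have h2 : (z : ℝ) ^ 11 ≤ X := by
    calc (z : ℝ) ^ 11 ≤ (z : ℝ) ^ P.card := pow_le_pow_right₀ hz1.le (by omega)
      _ ≤ q := by exact_mod_cast h1
      _ ≤ X := by exact_mod_cast hqX
  have h3 : (X : ℝ) ^ (11 / 10 : ℝ) ≤ X := by
    calc (X : ℝ) ^ (11 / 10 : ℝ) = ((X : ℝ) ^ (1 / 10 : ℝ)) ^ 11 := by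
          rw [← Real.rpow_natCast ((X : ℝ) ^ (1 / 10 : ℝ)) 11, ← Real.rpow_mul hX0.le]
          norm_num
      _ ≤ (z : ℝ) ^ 11 := pow_le_pow_left₀ (by positivity) hz 11
      _ ≤ X := h2
  have h4 : (X : ℝ) < (X : ℝ) ^ (11 / 10 : ℝ) := by
    calc (X : ℝ) = (X : ℝ) ^ (1 : ℝ) := (Real.rpow_one _).symm
      _ < (X : ℝ) ^ (11 / 10 : ℝ) := Real.rpow_lt_rpow_of_exponent_lt hX1 (by norm_num)
  linarith

theorem nc_i (K0 C1 : ℕ) (ww gg : ℕ → ℕ → ℝ) (hw : W1 K0 C1 ww gg) (th e : ℝ) (A1 : ℕ)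
    (hp : Adm th e) : ∃ X0 : ℕ,
    ∀ X : ℕ, X0 ≤ X → ∀ (n : ℕ) (b N σ : ℝ) (QQ : Finset ℕ) (bq : ℕ → ℝ),
    StdI X n th e A1 b N σ QQ bq →
    N2 X bq QQ (fun q a x => tp X (fun k => if Nat.Coprime k q then 0 else (ww X k : ℂ))
      ((a : ℝ) / q + σ * x)) ≤ (X : ℝ) ^ (1 - 1 / 60 : ℝ) := by
  classical
  obtain ⟨XA, hXA⟩ := hw
  obtain ⟨hth1, hth2, he0, he1⟩ := hp
  obtain ⟨X1, hX1⟩ := ixNC_log_pow 2 A1 (ε := 1 / 8) (by norm_num)
  obtain ⟨X2, hX2⟩ := ixNC_log_pow (20 * (K0 : ℝ) ^ 2) 0 (ε := 19 / 300) (by norm_num)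
  refine ⟨max XA (max X1 (max X2 16)), fun X hX n b N σ QQ bq hS => ?_⟩
  simp only [max_le_iff] at hX
  obtain ⟨hXA', hX1', hX2', hX16⟩ := hX
  have hXr : (16 : ℝ) ≤ X := by exact_mod_cast hX16
  have hX0 : (0 : ℝ) < X := by linarith
  have hX1r : (1 : ℝ) ≤ X := by linarith
  have hlog := hX1 X hX1'
  have h50 := hX2 X hX2'
  rw [pow_zero, mul_one] at h50
  have hL0 : 0 < Real.log X := Real.log_pos (by linarith)
  obtain ⟨-, -, hσ, hb, hN1, hNb, hFam, hQQ, hbq⟩ := hS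
  have hb0 : 0 < b := lt_of_lt_of_le (Real.rpow_pos_of_pos hL0 _) hb
  set z : ℕ := zI X with hz
  have hzX : (X : ℝ) ^ (1 / 10 : ℝ) ≤ z := Nat.le_ceil _
  have hz0 : (0 : ℝ) < z := lt_of_lt_of_le (by positivity) hzX
  have hz1 : 1 ≤ z := by
    have : 0 < z := by exact_mod_cast hz0
    omega
  -- `N ≤ X` and `2 b N ≤ X`
  have h34 : (X : ℝ) ^ (1 - th + 3 / 2 * e) ≤ (X : ℝ) ^ (3 / 4 : ℝ) :=
    Real.rpow_le_rpow_of_exponent_le hX1r (by linarith)
  have hbN : 2 * (b * N) ≤ X := by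
    have h1 : (2 : ℝ) ≤ (X : ℝ) ^ (1 / 4 : ℝ) := by
      calc (2 : ℝ) = (16 : ℝ) ^ (1 / 4 : ℝ) := by
            rw [show (16 : ℝ) = 2 ^ (4 : ℝ) by norm_num, ← Real.rpow_mul (by norm_num)]
            norm_num
        _ ≤ (X : ℝ) ^ (1 / 4 : ℝ) := by gcongr
    calc 2 * (b * N) = 2 * (N * b) := by ring
      _ ≤ (X : ℝ) ^ (1 / 4 : ℝ) * (X : ℝ) ^ (3 / 4 : ℝ) := by
          apply mul_le_mul h1 (hNb.trans h34) (by positivity) (by positivity)
      _ = X := by rw [← Real.rpow_add hX0]; norm_num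
  have hNX : N ≤ X := by
    have h1 : 1 ≤ b * (Real.log X) ^ A1 := by
      rw [Real.rpow_neg hL0.le, Real.rpow_natCast] at hb
      have h2 : (Real.log X ^ A1)⁻¹ * (Real.log X) ^ A1 = 1 :=
        inv_mul_cancel₀ (by positivity)
      rw [← h2]
      gcongr
    have h3 : (Real.log X) ^ A1 ≤ (X : ℝ) ^ (1 / 8 : ℝ) := by
      have : 0 ≤ (Real.log X) ^ A1 := by positivity
      linarith
    calc N = N * 1 := (mul_one N).symm
      _ ≤ N * (b * (Real.log X) ^ A1) := by gcongr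
      _ = (N * b) * (Real.log X) ^ A1 := by ring
      _ ≤ (X : ℝ) ^ (3 / 4 : ℝ) * (X : ℝ) ^ (1 / 8 : ℝ) := by
          apply mul_le_mul (hNb.trans h34) h3 (by positivity) (by positivity)
      _ = (X : ℝ) ^ (7 / 8 : ℝ) := by rw [← Real.rpow_add hX0]; norm_num
      _ ≤ (X : ℝ) ^ (1 : ℝ) := Real.rpow_le_rpow_of_exponent_le hX1r (by norm_num)
      _ = X := Real.rpow_one _
  -- one modulus
  have hone : ∀ q ∈ QQ, ∑ a ∈ rr q, ∫ x in (bq q / X)..(2 * bq q / X),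
      ‖tp X (fun k => if Nat.Coprime k q then 0 else (ww X k : ℂ)) ((a : ℝ) / q + σ * x)‖ ^ 2 ≤
      2 * ((K0 : ℝ) ^ 2 * 10 * (X : ℝ) ^ (9 / 10 : ℝ)) := by
    intro q hq
    have hq1 := hFam.1 q hq
    have hq0 : (0 : ℝ) < q := by exact_mod_cast hq1
    have hqN : (q : ℝ) ≤ N := by
      have := hFam.2 q hq q hq
      rwa [Nat.lcm_self] at this
    have hqX : q ≤ X := by exact_mod_cast hqN.trans hNX
    obtain ⟨hbq1, hbq2⟩ := hbq q hq
    have hbq0 : 0 < bq q := by linarith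
    set c : ℕ → ℂ := fun k => if Nat.Coprime k q then 0 else (ww X k : ℂ) with hc
    have h1 := overlap_sigma {q} (q : ℝ) ⟨fun q' hq' => by
        rw [mem_singleton] at hq'; omega, fun q' hq' q'' hq'' => by
        rw [mem_singleton] at hq' hq''
        rw [hq', hq'', Nat.lcm_self]⟩ (by exact_mod_cast hq1)
      (fun θ => ‖tp X c θ‖ ^ 2) ((ixNC_tp_cont X c).norm.pow 2) (fun x => by positivity)
      (fun x => by simp only [ixNC_tp_per]) (bq q / X) (2 * bq q / X) (by gcongr; linarith) σ hσ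
    rw [sum_singleton, tp_l2] at h1
    refine h1.trans ?_
    have h2 : (2 * bq q / X - bq q / X) * q + 1 ≤ 2 := by
      have h3 : (2 * bq q / X - bq q / X) * q = bq q * q / X := by ring
      rw [h3]
      have h4 : bq q * q / X ≤ 1 := by
        rw [div_le_one hX0]
        calc bq q * q ≤ (2 * b) * N := by gcongr
          _ = 2 * (b * N) := by ring
          _ ≤ X := hbN
      linarith
    have h3 : ∑ k ∈ Icc 1 X, ‖c k‖ ^ 2 ≤ (K0 : ℝ) ^ 2 * 10 * (X : ℝ) ^ (9 / 10 : ℝ) := by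
      have h4 : ∀ k ∈ Icc 1 X, ‖c k‖ ^ 2 ≤
          if ¬ Nat.Coprime k q ∧ Rgh z k then (K0 : ℝ) ^ 2 else 0 := by
        intro k hk
        have h5 := ((hXA X hXA').1 k).1
        by_cases hk1 : Nat.Coprime k q
        · rw [if_neg (fun h => h.1 hk1), hc]
          simp only [if_pos hk1, norm_zero]
          norm_num
        · have h6 : c k = (ww X k : ℂ) := by
            rw [hc]
            simp only [if_neg hk1]
          rw [h6, Complex.norm_real, Real.norm_eq_abs]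
          unfold rg at h5
          by_cases hk2 : Rgh z k
          · rw [if_pos ⟨hk1, hk2⟩]
            rw [← hz, if_pos hk2, mul_one] at h5
            exact pow_le_pow_left₀ (abs_nonneg _) h5 2
          · rw [if_neg (fun h => hk2 h.2)]
            rw [← hz, if_neg hk2, mul_zero] at h5
            have h7 : |ww X k| = 0 := le_antisymm h5 (abs_nonneg _)
            rw [h7]
            norm_num
      refine (sum_le_sum h4).trans ?_
      rw [← sum_filter, sum_const, nsmul_eq_mul]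
      have h8 := ixNC_count X q z hz1 hq1
      have h9 : ((q.primeFactors.filter (fun p => z ≤ p)).card : ℝ) ≤ 10 := by
        exact_mod_cast ixNC_pf X q z (by omega) hq1 hqX hzX
      have h10 : (X : ℝ) / z ≤ (X : ℝ) ^ (9 / 10 : ℝ) := by
        rw [div_le_iff₀ hz0]
        calc (X : ℝ) = (X : ℝ) ^ (9 / 10 : ℝ) * (X : ℝ) ^ (1 / 10 : ℝ) := by
              rw [← Real.rpow_add hX0]
              norm_num
          _ ≤ _ := by gcongr
      have h11 : ((((Icc 1 X).filter (fun k => ¬ Nat.Coprime k q ∧ Rgh z k)).card : ℕ) : ℝ) ≤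
          10 * (X : ℝ) ^ (9 / 10 : ℝ) := by
        refine h8.trans ?_
        apply mul_le_mul h9 h10 (by positivity) (by norm_num)
      calc ((((Icc 1 X).filter (fun k => ¬ Nat.Coprime k q ∧ Rgh z k)).card : ℕ) : ℝ) * (K0 : ℝ) ^ 2
          ≤ 10 * (X : ℝ) ^ (9 / 10 : ℝ) * (K0 : ℝ) ^ 2 := by gcongr
        _ = _ := by ring
    apply mul_le_mul h2 h3 (sum_nonneg fun k _ => by positivity) (by norm_num)
  unfold N2
  refine (sum_le_sum hone).trans ?_
  rw [sum_const, nsmul_eq_mul]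
  calc (QQ.card : ℝ) * (2 * ((K0 : ℝ) ^ 2 * 10 * (X : ℝ) ^ (9 / 10 : ℝ)))
      ≤ (X : ℝ) ^ (1 / 50 : ℝ) * (2 * ((K0 : ℝ) ^ 2 * 10 * (X : ℝ) ^ (9 / 10 : ℝ))) := by gcongr
    _ = (20 * (K0 : ℝ) ^ 2) * ((X : ℝ) ^ (1 / 50 : ℝ) * (X : ℝ) ^ (9 / 10 : ℝ)) := by ring
    _ ≤ (X : ℝ) ^ (19 / 300 : ℝ) * ((X : ℝ) ^ (1 / 50 : ℝ) * (X : ℝ) ^ (9 / 10 : ℝ)) := by gcongr
    _ = (X : ℝ) ^ (1 - 1 / 60 : ℝ) := by
        rw [← Real.rpow_add hX0, ← Real.rpow_add hX0]
        norm_num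

end Pool.MP_dd84fd_nt.IXP
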