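import Pool.Agent.Lib.MP_dd84fd_nt.HX.PlTI
import Pool.Agent.Lib.MP_dd84fd_nt.IX.PlDefs
import Pool.Agent.Lib.MP_dd84fd_nt.En.Recip2

/-!
# PL_I-TIl: type I sums at points of the arcs, large level

`iw_le`: each term is `≤ 2 R mn(X/(lg), lgθ)`, `θ = a/q + σx`.  Put `Y = X/g`, `q' = q/g`, `β = gθ = a/q' + y`, `y = gσx`,
`q'|y| = qx ∈ [qb/X, 4qb/X]`, `(a, q') = 1`.  Terms with `l > Y` vanish (`X/(lg) = 0`); so it is `2R ∑_{l ≤ min(D, Y)} mn(Y/l, lβ)`.
`h0 := (1/8) min(X/(q(1+b)), q'(1+b))`, `P := Y/h0 = 8 max(q(1+b)/g, X/(q(1+b))) ≥ 8`.  Dirichlet: reduced `a''/r`, `1 ≤ r ≤ P`,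
`|rβ - a''| ≤ 1/P = h0/Y` (so `|β - a''/r| ≤ 1/r²`).  Claim `r ≥ h0`: suppose `r < h0`.
`|a r - a'' q'| = |q'(rβ - a'') - r (q'β - a)| ≤ q' h0/Y + r · 4qb/X ≤ h0 q(1+4b)/X ≤ 1/2 < 1` so `a r = a'' q'`, `r = q'`
(both reduced); but `r = q' < h0 ≤ q'(1+b)/8` needs `b > 7`, and `q'|y| = |rβ - a''| ≤ h0/Y ≤ (q(1+b)/8)/X < qb/X` for `b ≥ 1`:
contradiction.  `En.sum_mn'` (with `X := Y ≥ 2`, `N := min(D, ⌊Y⌋)`): `C (Y/r + D + r) log(2rY) ≤ C (2P + D) log(2 P Y)`, and
`P ≤ 8(q(1+b) + X/(q(1+b)))`, `P Y ≤ 16 X²`: `log(2 P Y) ≤ C (1 + log X)`.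
-/

set_option autoImplicit false

namespace Pool.MP_dd84fd_nt.IXP

open Finset Pool.MP_67663b_nt.Odd Pool.MP_dd84fd_nt.PL Pool.MP_dd84fd_nt.HX Pool.MP_dd84fd_nt.HXP

private theorem pltil_mn (M x : ℝ) : L2G.mn M x = En.mn M x := by
  unfold L2G.mn En.mn L2G.nrm
  have h : 2 * |x - round x| * M = 2 * M * |x - round x| := by ring
  rw [h]

private theorem pltil_core : ∃ C : ℝ, 0 < C ∧ ∀ (X q a g D : ℕ) (x σ b : ℝ),
    1 ≤ q → 2 * q ≤ X → Nat.Coprime a q → g ∣ q → (σ = 1 ∨ σ = -1) → 0 < b →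
    (q : ℝ) * (1 + b) ≤ X → b / X ≤ x → x ≤ 4 * b / X →
    ∑ l ∈ Icc 1 (min D (X / g)), En.mn (((X : ℝ) / g) / l)
      ((l : ℝ) * ((g : ℝ) * ((a : ℝ) / q + σ * x))) ≤
      C * ((D : ℝ) + q * (1 + b) + X / (q * (1 + b))) * (1 + Real.log X) := by
  obtain ⟨C0, hC0, hsum⟩ := En.sum_mn'
  refine ⟨240 * C0, by positivity, ?_⟩
  intro X q a g D x σ b hq hqX haq hgq hσ hb hqbX hx1 hx2
  obtain ⟨q', hr⟩ := hgq
  have hg1 : 1 ≤ g := by
    rcases Nat.eq_zero_or_pos g with h0 | h0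
    · rw [h0, zero_mul] at hr
      omega
    · exact h0
  have hq'1 : 1 ≤ q' := by
    rcases Nat.eq_zero_or_pos q' with h0 | h0
    · rw [h0, mul_zero] at hr
      omega
    · exact h0
  have hgR : (0 : ℝ) < g := by exact_mod_cast hg1
  have hg1R : (1 : ℝ) ≤ g := by exact_mod_cast hg1
  have hq'R : (0 : ℝ) < q' := by exact_mod_cast hq'1
  have hq'1R : (1 : ℝ) ≤ q' := by exact_mod_cast hq'1
  have hqR : (q : ℝ) = g * q' := by exact_mod_cast hr
  have hq1R : (1 : ℝ) ≤ q := by exact_mod_cast hq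
  have hq0R : (0 : ℝ) < q := by linarith
  have hX2 : 2 * (q : ℝ) ≤ X := by exact_mod_cast hqX
  have hX0 : (0 : ℝ) < X := by linarith
  have hX1 : (1 : ℝ) ≤ X := by linarith
  have haq' : Nat.Coprime a q' := Nat.Coprime.coprime_dvd_right ⟨g, by rw [hr, mul_comm]⟩ haq
  have hgleq : (g : ℝ) ≤ q := by
    rw [hqR]
    nlinarith
  set B : ℝ := 1 + b with hB
  have hB1 : 1 < B := by linarith
  have hB0 : 0 < B := by linarith
  set Y : ℝ := (X : ℝ) / g with hY
  have hY0 : 0 < Y := by positivity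
  have hY2 : 2 ≤ Y := by
    rw [hY, le_div_iff₀ hgR]
    linarith
  have hYX : Y ≤ X := by
    rw [hY]
    exact div_le_self hX0.le hg1R
  set u : ℝ := (X : ℝ) / (q * B) with hu
  set v : ℝ := (q' : ℝ) * B with hv
  have hu0 : 0 < u := by positivity
  have hv0 : 0 < v := by positivity
  set h0 : ℝ := min u v / 8 with hh0
  have hmin0 : 0 < min u v := lt_min hu0 hv0
  have hh0pos : 0 < h0 := by positivity
  have hh0u : h0 ≤ u / 8 := by
    rw [hh0]
    have := min_le_left u v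
    linarith
  have hh0v : h0 ≤ v / 8 := by
    rw [hh0]
    have := min_le_right u v
    linarith
  set P : ℝ := Y / h0 with hP
  have hP0 : 0 < P := by positivity
  have hqBX : (q : ℝ) * B ≤ X := hqbX
  have hqB1 : 1 ≤ (q : ℝ) * B := by nlinarith
  have huY : u ≤ Y := by
    rw [hu, hY]
    apply div_le_div_of_nonneg_left hX0.le hgR
    nlinarith
  have hP8 : 8 ≤ P := by
    rw [hP, le_div_iff₀ hh0pos]
    linarith
  -- upper bounds for P
  have hYu : Y / u ≤ q * B := by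
    rw [div_le_iff₀ hu0, hu, hY]
    have e : (q : ℝ) * B * (X / (q * B)) = X := by
      field_simp
    rw [e]
    exact div_le_self hX0.le hg1R
  have hYv : Y / v = X / (q * B) := by
    rw [hY, hv, hqR, div_div]
    congr 1
    ring
  have hPcase : P ≤ 8 * (q * B) ∨ P ≤ 8 * (X / (q * B)) := by
    rcases le_total u v with h | h
    · left
      have e : P = 8 * (Y / u) := by
        rw [hP, hh0, min_eq_left h]
        field_simp
      rw [e]
      linarith
    · right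
      have e : P = 8 * (Y / v) := by
        rw [hP, hh0, min_eq_right h]
        field_simp
      rw [e, hYv]
  have hXqB0 : 0 ≤ X / (q * B) := by positivity
  have hXqBX : X / (q * B) ≤ X := div_le_self hX0.le hqB1
  have hPle : P ≤ 8 * (q * B + X / (q * B)) := by
    rcases hPcase with h | h <;> linarith
  have hPX : P ≤ 8 * X := by
    rcases hPcase with h | h <;> linarith
  -- Dirichlet
  set β : ℝ := (g : ℝ) * ((a : ℝ) / q + σ * x) with hβ
  set y : ℝ := (g : ℝ) * (σ * x) with hy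
  have hβ2 : β = (a : ℝ) / q' + y := by
    rw [hβ, hy, hqR]
    field_simp
  have hxpos : 0 < x := lt_of_lt_of_le (by positivity) hx1
  have hσ1 : |σ| = 1 := by
    rcases hσ with h | h <;> rw [h] <;> simp
  have hyabs : (q' : ℝ) * |y| = q * x := by
    rw [hy, abs_mul, abs_mul, hσ1, abs_of_pos hgR, abs_of_pos hxpos, hqR]
    ring
  set n : ℕ := ⌊P⌋₊ with hn
  have hn0 : 0 < n := by
    rw [hn, Nat.floor_pos]
    linarith
  have hnP : (n : ℝ) ≤ P := Nat.floor_le hP0.le
  have hPn : P ≤ n + 1 := (Nat.lt_floor_add_one P).le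
  obtain ⟨t, ht, htd⟩ := Real.exists_rat_abs_sub_le_and_den_le β hn0
  set r : ℕ := t.den with hrdef
  have hr1 : 1 ≤ r := t.pos
  have hrR : (0 : ℝ) < r := by exact_mod_cast hr1
  have hr1R : (1 : ℝ) ≤ r := by exact_mod_cast hr1
  have hrn : (r : ℝ) ≤ n := by exact_mod_cast htd
  have htR : (t : ℝ) = (t.num : ℝ) / r := Rat.cast_def t
  have hgcd : Int.gcd t.num (r : ℤ) = 1 := by
    have := t.reduced
    rw [Nat.Coprime] at this
    simpa [Int.gcd] using this
  have hrβ : (r : ℝ) * |β - t| ≤ 1 / P := by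
    have h1 : |β - t| ≤ 1 / (P * r) := by
      refine ht.trans ?_
      apply one_div_le_one_div_of_le (by positivity)
      exact mul_le_mul_of_nonneg_right hPn hrR.le
    calc (r : ℝ) * |β - t| ≤ r * (1 / (P * r)) := by gcongr
      _ = 1 / P := by field_simp
  have hPinv : 1 / P = h0 / Y := by
    rw [hP, one_div_div]
  have hclaim : h0 ≤ r := by
    by_contra hcon
    rw [not_le] at hcon
    have hI : |(((a : ℤ) * r - t.num * q' : ℤ) : ℝ)| ≤ 1 / 2 := by
      have e1 : (((a : ℤ) * r - t.num * q' : ℤ) : ℝ) = q' * (r * (β - t)) - r * (q' * y) := by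
        push_cast
        rw [hβ2, htR]
        field_simp
        ring
      rw [e1]
      have h1 : |(q' : ℝ) * (r * (β - t))| ≤ q' * (1 / P) := by
        rw [abs_mul, abs_mul, abs_of_pos hq'R, abs_of_pos hrR]
        gcongr
      have h2 : |(r : ℝ) * (q' * y)| ≤ h0 * (4 * q * b / X) := by
        rw [abs_mul, abs_mul, abs_of_pos hq'R, abs_of_pos hrR, hyabs]
        have h3 : (q : ℝ) * x ≤ 4 * q * b / X := by
          calc (q : ℝ) * x ≤ q * (4 * b / X) := by gcongr
            _ = 4 * q * b / X := by ring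
        exact mul_le_mul hcon.le h3 (by positivity) hh0pos.le
      have h4 : (q' : ℝ) * (1 / P) = h0 * (q / X) := by
        rw [hPinv, hY, hqR]
        field_simp
      have h5 : h0 * (q / X) + h0 * (4 * q * b / X) ≤ 1 / 2 := by
        have e2 : h0 * (q / X) + h0 * (4 * q * b / X) = h0 * (q * (1 + 4 * b) / X) := by ring
        rw [e2]
        have h6 : h0 * (q * (1 + 4 * b) / X) ≤ u / 8 * (q * (1 + 4 * b) / X) := by
          gcongr
        refine h6.trans ?_
        have e3 : u / 8 * (q * (1 + 4 * b) / X) = (1 + 4 * b) / (8 * B) := by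
          rw [hu]
          field_simp
        rw [e3, div_le_iff₀ (by positivity), hB]
        linarith
      calc |(q' : ℝ) * (r * (β - t)) - r * (q' * y)| ≤
            |(q' : ℝ) * (r * (β - t))| + |(r : ℝ) * (q' * y)| := abs_sub _ _
        _ ≤ h0 * (q / X) + h0 * (4 * q * b / X) := by rw [← h4]; exact add_le_add h1 h2
        _ ≤ 1 / 2 := h5
    have hI0 : (a : ℤ) * r - t.num * q' = 0 := by
      by_contra hne
      have h1 := Int.one_le_abs hne
      have h2 : (1 : ℝ) ≤ |(((a : ℤ) * r - t.num * q' : ℤ) : ℝ)| := by exact_mod_cast h1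
      linarith
    have hI1 : (a : ℤ) * r = t.num * q' := by linarith
    have hrq' : r = q' := by
      apply Nat.dvd_antisymm
      · have h1 : (r : ℤ) ∣ t.num * q' := ⟨a, by rw [← hI1]; ring⟩
        have h2 : IsCoprime (r : ℤ) t.num := by
          rw [Int.isCoprime_iff_gcd_eq_one, Int.gcd_comm]
          exact hgcd
        exact_mod_cast h2.dvd_of_dvd_mul_left h1
      · have h1 : (q' : ℤ) ∣ a * r := ⟨t.num, by rw [hI1]; ring⟩
        have h2 : IsCoprime (q' : ℤ) (a : ℤ) := by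
          rw [Int.isCoprime_iff_gcd_eq_one]
          have := haq'.symm
          rw [Nat.Coprime] at this
          simpa [Int.gcd] using this
        exact_mod_cast h2.dvd_of_dvd_mul_left h1
    have hta : (t : ℝ) = (a : ℝ) / q' := by
      rw [htR, hrq']
      have h1 : (a : ℝ) * r = t.num * q' := by exact_mod_cast hI1
      rw [hrq'] at h1
      have h2 : (a : ℝ) = t.num := mul_right_cancel₀ hq'R.ne' h1
      rw [h2]
    have h1 : |β - t| = |y| := by
      rw [hβ2, hta]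
      congr 1
      ring
    rw [h1, hrq', hyabs, hPinv] at hrβ
    have h2 : h0 / Y ≤ q * B / (8 * X) := by
      rw [div_le_iff₀ hY0]
      have e : (q : ℝ) * B / (8 * X) * Y = v / 8 := by
        rw [hY, hv, hqR]
        field_simp
      rw [e]
      exact hh0v
    have h3 : (q : ℝ) * b / X ≤ q * x := by
      calc (q : ℝ) * b / X = q * (b / X) := by ring
        _ ≤ q * x := by gcongr
    have h4 : (q : ℝ) * b / X ≤ q * B / (8 * X) := h3.trans (hrβ.trans h2)
    have h5 : 8 * b ≤ B := by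
      rw [div_le_div_iff₀ hX0 (by positivity)] at h4
      have h6 : (q : ℝ) * X * (8 * b) ≤ q * X * B := by linarith
      exact le_of_mul_le_mul_left h6 (by positivity)
    have h6 : (q' : ℝ) < v / 8 := by
      have : (q' : ℝ) < h0 := by
        rw [← hrq']
        exact hcon
      linarith
    have h7 : 8 < B := by
      rw [hv] at h6
      have : (q' : ℝ) * 8 < q' * B := by linarith
      exact lt_of_mul_lt_mul_left this hq'R.le
    linarith
  -- the sum
  have hβt : |β - (t.num : ℝ) / r| ≤ 1 / (r : ℝ) ^ 2 := by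
    rw [← htR]
    refine ht.trans ?_
    apply one_div_le_one_div_of_le (by positivity)
    have : (r : ℝ) ≤ n + 1 := by linarith
    nlinarith
  have hNY : ((min D (X / g) : ℕ) : ℝ) ≤ Y := by
    have h1 : ((min D (X / g) : ℕ) : ℝ) ≤ ((X / g : ℕ) : ℝ) := by
      exact_mod_cast min_le_right D (X / g)
    exact h1.trans Nat.cast_div_le
  have hND : ((min D (X / g) : ℕ) : ℝ) ≤ D := by exact_mod_cast min_le_left D (X / g)
  have hmain := hsum β r t.num hr1 hgcd hβt Y (min D (X / g)) hNY hY2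
  refine hmain.trans ?_
  have hYr : Y / r ≤ P := by
    rw [hP]
    exact div_le_div_of_nonneg_left hY0.le hh0pos hclaim
  have hrP : (r : ℝ) ≤ P := hrn.trans hnP
  have hlogX : 0 ≤ Real.log X := Real.log_nonneg hX1
  have hlog : Real.log (2 * r * Y) ≤ 15 * (1 + Real.log X) := by
    have h1 : 2 * (r : ℝ) * Y ≤ 16 * (X : ℝ) ^ 2 := by
      calc 2 * (r : ℝ) * Y ≤ 2 * (8 * X) * X := by
            gcongr
            exact hrP.trans hPX
        _ = 16 * (X : ℝ) ^ 2 := by ring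
    have h2 : Real.log (2 * r * Y) ≤ Real.log (16 * (X : ℝ) ^ 2) :=
      Real.log_le_log (by positivity) h1
    have h3 : Real.log (16 * (X : ℝ) ^ 2) = Real.log 16 + 2 * Real.log X := by
      rw [Real.log_mul (by norm_num) (by positivity), Real.log_pow]
      norm_num
    have h4 : Real.log 16 ≤ 16 - 1 := Real.log_le_sub_one_of_pos (by norm_num)
    linarith
  have hlog0 : 0 ≤ Real.log (2 * r * Y) := by
    apply Real.log_nonneg
    nlinarith
  have hS0 : 0 ≤ (D : ℝ) + q * B + X / (q * B) := by positivity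
  calc C0 * (Y / r + ((min D (X / g) : ℕ) : ℝ) + r) * Real.log (2 * r * Y) ≤
        C0 * (16 * ((D : ℝ) + q * B + X / (q * B))) * Real.log (2 * r * Y) := by
        have h1 : Y / r + ((min D (X / g) : ℕ) : ℝ) + r ≤
            16 * ((D : ℝ) + q * B + X / (q * B)) := by
          have hD0 : (0 : ℝ) ≤ D := Nat.cast_nonneg D
          linarith
        gcongr
    _ ≤ C0 * (16 * ((D : ℝ) + q * B + X / (q * B))) * (15 * (1 + Real.log X)) := by
        gcongr
    _ = 240 * C0 * ((D : ℝ) + q * B + X / (q * B)) * (1 + Real.log X) := by ring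

theorem ti_large : ∃ C : ℝ, 0 < C ∧ ∀ (X q a g D : ℕ) (S : Finset ℕ) (γ : ℕ → ℕ → ℝ)
    (R x σ b : ℝ), 1 ≤ q → 2 * q ≤ X → Nat.Coprime a q → g ∣ q → (∀ l ∈ S, 1 ≤ l ∧ l ≤ D) →
    (σ = 1 ∨ σ = -1) → 0 < b → (q : ℝ) * (1 + b) ≤ X → b / X ≤ x → x ≤ 4 * b / X → 0 ≤ R →
    (∀ l ∈ S, BVw X R (γ l)) →
    ‖∑ l ∈ S, iw X (l * g) (γ l) ((a : ℝ) / q + σ * x)‖ ≤
      C * R * ((D : ℝ) + q * (1 + b) + X / (q * (1 + b))) * (1 + Real.log X) := by
  obtain ⟨C0, hC0, hcore⟩ := pltil_core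
  refine ⟨2 * C0, by positivity, ?_⟩
  intro X q a g D S γ R x σ b hq hqX haq hgq hS hσ hb hqbX hx1 hx2 hR hγ
  have h := hcore X q a g D x σ b hq hqX haq hgq hσ hb hqbX hx1 hx2
  have hg1 : 1 ≤ g := Nat.pos_of_dvd_of_pos hgq hq
  set θ : ℝ := (a : ℝ) / q + σ * x with hθ
  set F : ℕ → ℝ := fun l => En.mn (((X : ℝ) / g) / l) ((l : ℝ) * ((g : ℝ) * θ)) with hF
  have hF0 : ∀ l : ℕ, 0 ≤ F l := fun l => En.mn_nonneg (by positivity) _
  have hterm : ∀ l ∈ S, ‖iw X (l * g) (γ l) θ‖ ≤ if l ≤ X / g then 2 * R * F l else 0 := by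
    intro l hl
    obtain ⟨hl1, hlD⟩ := hS l hl
    split_ifs with hlg
    · have h1 := iw_le X (l * g) (γ l) R θ (Nat.mul_pos hl1 hg1) hR (hγ l hl)
      rw [pltil_mn] at h1
      have e1 : (X : ℝ) / ((l * g : ℕ) : ℝ) = ((X : ℝ) / g) / l := by
        push_cast
        rw [div_div, mul_comm]
      have e2 : ((l * g : ℕ) : ℝ) * θ = (l : ℝ) * ((g : ℝ) * θ) := by
        push_cast
        ring
      rw [e1, e2] at h1
      exact h1
    · have h2 : X / (l * g) = 0 := by
        rw [Nat.mul_comm, ← Nat.div_div_eq_div_mul]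
        exact Nat.div_eq_of_lt (by omega)
      unfold iw
      rw [h2]
      simp
  calc ‖∑ l ∈ S, iw X (l * g) (γ l) θ‖ ≤ ∑ l ∈ S, ‖iw X (l * g) (γ l) θ‖ := norm_sum_le _ _
    _ ≤ ∑ l ∈ S, (if l ≤ X / g then 2 * R * F l else 0) := Finset.sum_le_sum hterm
    _ = ∑ l ∈ S.filter (fun l => l ≤ X / g), 2 * R * F l := (Finset.sum_filter _ _).symm
    _ ≤ ∑ l ∈ Icc 1 (min D (X / g)), 2 * R * F l := by
        apply Finset.sum_le_sum_of_subset_of_nonneg
        · intro l hl
          rw [Finset.mem_filter] at hl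
          rw [Finset.mem_Icc]
          exact ⟨(hS l hl.1).1, le_min (hS l hl.1).2 hl.2⟩
        · intro l _ _
          have := hF0 l
          positivity
    _ = 2 * R * ∑ l ∈ Icc 1 (min D (X / g)), F l := by rw [Finset.mul_sum]
    _ ≤ 2 * R * (C0 * ((D : ℝ) + q * (1 + b) + X / (q * (1 + b))) * (1 + Real.log X)) := by
        gcongr
    _ = 2 * C0 * R * ((D : ℝ) + q * (1 + b) + X / (q * (1 + b))) * (1 + Real.log X) := by ring

end Pool.MP_dd84fd_nt.IXP
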