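import Pool.Agent.Lib.MP_dd84fd_nt.HX.PlTIN
import Pool.Agent.Lib.MP_dd84fd_nt.IX.PlTIl

/-!
# PL_I-T1: type I sums on the arcs, `L²` norm (level `D ≤ ZI = 2X^(1-θ+3e)`)

Adapt `tia_N2` of `HX/PlTIN.lean` (copy its private lemmas; `N2_sup`).
Per `q` two cases. Case A, `16 D q b ≤ X`: the terms `g ≠ q`: `ti_rest` (`4 D q x ≤ 4 D q · 4b/X ≤ 1`), pointwise
`≤ τ(q) C L^C0 (D + q)(1 + L)`.  Case B: all `g ∣ q`: `ti_large`, pointwise `≤ τ(q) C L^C0 (D + q(1+b) + X/(q(1+b)))(1+L)` and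
`X/(q(1+b)) ≤ X/(qb) < 16 D`.  `D ≤ 2X^(1-θ+3e)`, `q(1+b) ≤ N(1+b) ≤ Nb(1 + L^A1) ≤ X^(1-θ+3e/2)(1+L^A1)`,
`τ(q) ≤ C X^(e/10)` (`PL.lt_tau`): pointwise `≤ X^(1-θ+4e)`.  `∑_q φ(q) ≤ 2N` (`count`), `b_q ≤ 2b`:
`N2 ≤ (4Nb/X) X^(2-2θ+8e) ≤ 4X^(2-3θ+19e/2) ≤ X^(19/20)` (`θ > 2/5`, `e ≤ 1/1000`).
-/

set_option autoImplicit false

namespace Pool.MP_dd84fd_nt.IXP

open Finset Pool.MP_67663b_nt.Odd Pool.MP_dd84fd_nt.PL Pool.MP_dd84fd_nt.HX Pool.MP_dd84fd_nt.HXP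
open Pool.MP_dd84fd_nt.IX (Adm ZI)

/-- the type I part on the arcs: the term `g = q` is left out in case A -/
noncomputable def T1i (X D : ℕ) (b : ℝ) (γ : ℕ → ℕ → ℝ) (σ : ℝ) (q a : ℕ) (x : ℝ) : ℂ :=
  open Classical in
  ∑ g ∈ q.divisors.filter (fun g => 16 * (D : ℝ) * q * b ≤ X → g ≠ q),
    ((ArithmeticFunction.moebius g : ℤ) : ℂ) *
      ∑ l ∈ (Icc 1 D).filter (fun l => Nat.Coprime l q),
        iw X (l * g) (γ l) ((a : ℝ) / q + σ * x)

private theorem t1_log (K : ℕ) (A η : ℝ) (hη : 0 < η) : ∃ X0 : ℕ, ∀ X : ℕ, X0 ≤ X →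
    A * (Real.log X) ^ K ≤ (X : ℝ) ^ η := by
  have h1 := (isLittleO_log_rpow_rpow_atTop (K : ℝ) hη).bound
    (show (0 : ℝ) < 1 / (|A| + 1) by positivity)
  obtain ⟨x0, hx0⟩ := Filter.eventually_atTop.1 h1
  refine ⟨max ⌈x0⌉₊ 1, fun X hX => ?_⟩
  have hX1 : 1 ≤ X := (le_max_right _ _).trans hX
  have hX2 : x0 ≤ X := (Nat.le_ceil x0).trans (by exact_mod_cast (le_max_left _ _).trans hX)
  have h2 := hx0 X hX2
  have hL : 0 ≤ Real.log X := Real.log_natCast_nonneg X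
  have hXp : (0 : ℝ) ≤ (X : ℝ) ^ η := Real.rpow_nonneg (Nat.cast_nonneg X) _
  rw [Real.rpow_natCast, Real.norm_eq_abs, Real.norm_eq_abs, abs_of_nonneg (pow_nonneg hL K),
    abs_of_nonneg hXp] at h2
  calc A * (Real.log X) ^ K ≤ |A| * (Real.log X) ^ K :=
        mul_le_mul_of_nonneg_right (le_abs_self A) (pow_nonneg hL K)
    _ ≤ |A| * (1 / (|A| + 1) * (X : ℝ) ^ η) := mul_le_mul_of_nonneg_left h2 (abs_nonneg A)
    _ = (|A| / (|A| + 1)) * (X : ℝ) ^ η := by ring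
    _ ≤ 1 * (X : ℝ) ^ η := by
        apply mul_le_mul_of_nonneg_right _ hXp
        rw [div_le_one (by positivity)]
        linarith
    _ = (X : ℝ) ^ η := one_mul _

private theorem t1_big (T : ℝ) : ∃ X0 : ℕ, ∀ X : ℕ, X0 ≤ X → T ≤ Real.log X := by
  refine ⟨⌈Real.exp T⌉₊, fun X hX => ?_⟩
  have h1 : Real.exp T ≤ X := (Nat.le_ceil _).trans (by exact_mod_cast hX)
  rw [Real.le_log_iff_exp_le ((Real.exp_pos T).trans_le h1)]
  exact h1

private theorem t1_moebius (g : ℕ) : ‖((ArithmeticFunction.moebius g : ℤ) : ℂ)‖ ≤ 1 := by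
  rw [Complex.norm_intCast]
  exact_mod_cast ArithmeticFunction.abs_moebius_le_one

private theorem t1_tau (e : ℝ) (he : 0 < e) : ∃ D : ℝ, 1 ≤ D ∧ ∀ h X : ℕ, 1 ≤ h → h ≤ X →
    (h.divisors.card : ℝ) ≤ D * (X : ℝ) ^ (e / 10) := by
  obtain ⟨k, hk⟩ := exists_nat_gt (10 / e)
  have hk0 : (0 : ℝ) < k := lt_trans (by positivity) hk
  obtain ⟨D, hD, h4⟩ := lt_tau k
  refine ⟨D, hD, fun h X hh hX => ?_⟩
  have hX' : (h : ℝ) ≤ X := by exact_mod_cast hX
  have hX1 : (1 : ℝ) ≤ X := by exact_mod_cast hh.trans hX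
  have hτ0 : (0 : ℝ) ≤ (h.divisors.card : ℝ) := Nat.cast_nonneg _
  have hke : 1 / (k : ℝ) ≤ e / 10 := by
    rw [div_le_div_iff₀ hk0 (by norm_num)]
    rw [div_lt_iff₀ he] at hk
    linarith
  calc (h.divisors.card : ℝ) = ((h.divisors.card : ℝ) ^ k) ^ (1 / (k : ℝ)) := by
        rw [← Real.rpow_natCast, ← Real.rpow_mul hτ0]
        rw [mul_one_div, div_self hk0.ne', Real.rpow_one]
    _ ≤ (D * X) ^ (1 / (k : ℝ)) :=
        Real.rpow_le_rpow (by positivity) ((h4 h hh).trans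
          (mul_le_mul_of_nonneg_left hX' (by linarith))) (by positivity)
    _ = D ^ (1 / (k : ℝ)) * (X : ℝ) ^ (1 / (k : ℝ)) :=
        Real.mul_rpow (by linarith) (by positivity)
    _ ≤ D ^ (1 : ℝ) * (X : ℝ) ^ (e / 10) := by
        refine mul_le_mul ?_ (Real.rpow_le_rpow_of_exponent_le hX1 hke) (by positivity)
          (by positivity)
        refine Real.rpow_le_rpow_of_exponent_le hD ?_
        rw [div_le_one hk0]
        have : (0 : ℕ) < k := by exact_mod_cast hk0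
        exact_mod_cast this
    _ = D * (X : ℝ) ^ (e / 10) := by rw [Real.rpow_one]

theorem t1i_cont (X D : ℕ) (b : ℝ) (γ : ℕ → ℕ → ℝ) (σ : ℝ) (q a : ℕ) :
    Continuous (T1i X D b γ σ q a) := by
  unfold T1i
  refine continuous_finsetSum _ fun g _ => continuous_const.mul ?_
  refine continuous_finsetSum _ fun l _ => ?_
  exact (iw_cont X (l * g) (γ l)).comp (by fun_prop)

/-- facts for large `X` -/
private theorem t1_facts (th e : ℝ) (A1 : ℕ) (hp : Adm th e) : ∃ X0 : ℕ, ∀ X : ℕ,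
    X0 ≤ X → ∀ (n : ℕ) (b N σ : ℝ) (QQ : Finset ℕ) (bq : ℕ → ℝ), StdI X n th e A1 b N σ QQ bq →
    1 ≤ X ∧ 2 ≤ Real.log X ∧ 0 < b ∧ N * b ≤ (X : ℝ) ^ (1 - th + 3 / 2 * e) ∧
    (∀ q ∈ QQ, 1 ≤ q ∧ q ≤ X ∧ 2 * q ≤ X ∧ (q : ℝ) * (1 + b) ≤ X ∧
      (q : ℝ) * (1 + b) ≤ 2 * (X : ℝ) ^ (1 - th + 3 * e)) := by
  obtain ⟨ht1, ht2, he0, het⟩ := hp
  obtain ⟨X1, hX1⟩ := t1_log A1 1 (e / 10) (by linarith)
  obtain ⟨X2, hX2⟩ := t1_big 2
  obtain ⟨X3, hX3⟩ := t1_log 0 2 (2 / 5) (by norm_num)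
  refine ⟨max (max X1 X2) (max X3 1), ?_⟩
  intro X hX n b N σ QQ bq hstd
  have g1 := hX1 X ((le_max_left _ _).trans ((le_max_left _ _).trans hX))
  have g2 := hX2 X ((le_max_right _ _).trans ((le_max_left _ _).trans hX))
  have g3 := hX3 X ((le_max_left _ _).trans ((le_max_right _ _).trans hX))
  have hX1' : 1 ≤ X := (le_max_right _ _).trans ((le_max_right _ _).trans hX)
  have hX0 : (0 : ℝ) < X := by exact_mod_cast hX1'
  have hX1R : (1 : ℝ) ≤ X := by exact_mod_cast hX1'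
  obtain ⟨-, -, hσ, hbL, hN1, hNb, hfam, -, hbq⟩ := hstd
  obtain ⟨L, hL⟩ : ∃ L : ℝ, L = Real.log X := ⟨_, rfl⟩
  rw [← hL] at g1 g2 hbL
  rw [pow_zero, mul_one] at g3
  rw [one_mul] at g1
  have hL0 : 0 < L := by linarith
  have hb0 : 0 < b := lt_of_lt_of_le (Real.rpow_pos_of_pos hL0 _) hbL
  have hNle : N ≤ (X : ℝ) ^ (1 - th + 8 / 5 * e) := by
    have h1 : 1 ≤ b * L ^ A1 := by
      have h2 : L ^ (-(A1 : ℝ)) * L ^ A1 = 1 := by
        rw [← Real.rpow_natCast, ← Real.rpow_add hL0]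
        simp
      calc 1 = L ^ (-(A1 : ℝ)) * L ^ A1 := h2.symm
        _ ≤ b * L ^ A1 := mul_le_mul_of_nonneg_right hbL (by positivity)
    calc N = N * 1 := (mul_one N).symm
      _ ≤ N * (b * L ^ A1) := mul_le_mul_of_nonneg_left h1 (by linarith)
      _ = (N * b) * L ^ A1 := by ring
      _ ≤ (X : ℝ) ^ (1 - th + 3 / 2 * e) * (X : ℝ) ^ (e / 10) := by
          apply mul_le_mul hNb g1 (by positivity) (by positivity)
      _ = (X : ℝ) ^ (1 - th + 8 / 5 * e) := by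
          rw [← Real.rpow_add hX0]
          congr 1
          ring
  have hNb2 : N * b ≤ (X : ℝ) ^ (1 - th + 8 / 5 * e) :=
    hNb.trans (Real.rpow_le_rpow_of_exponent_le hX1R (by linarith))
  have h35 : 2 * (X : ℝ) ^ (1 - th + 8 / 5 * e) ≤ X := by
    have h1 : (X : ℝ) ^ (1 - th + 8 / 5 * e) ≤ (X : ℝ) ^ (3 / 5 : ℝ) :=
      Real.rpow_le_rpow_of_exponent_le hX1R (by linarith)
    calc 2 * (X : ℝ) ^ (1 - th + 8 / 5 * e) ≤ (X : ℝ) ^ (2 / 5 : ℝ) * (X : ℝ) ^ (3 / 5 : ℝ) :=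
          mul_le_mul g3 h1 (by positivity) (by positivity)
      _ = X := by
          rw [← Real.rpow_add hX0]
          norm_num
  refine ⟨hX1', by rw [← hL]; exact g2, hb0, hNb, ?_⟩
  intro q hqq
  have h1 := hfam.2 q hqq q hqq
  rw [Nat.lcm_self] at h1
  have hq1 := hfam.1 q hqq
  have h2q : 2 * (q : ℝ) ≤ X := by linarith
  have h2q' : 2 * q ≤ X := by exact_mod_cast h2q
  have hqb : (q : ℝ) * b ≤ N * b := mul_le_mul_of_nonneg_right h1 hb0.le
  have hsum : (q : ℝ) * (1 + b) ≤ 2 * (X : ℝ) ^ (1 - th + 8 / 5 * e) := by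
    have : (q : ℝ) * (1 + b) = q + q * b := by ring
    rw [this]
    linarith
  refine ⟨hq1, by omega, h2q', hsum.trans h35, hsum.trans ?_⟩
  have : (X : ℝ) ^ (1 - th + 8 / 5 * e) ≤ (X : ℝ) ^ (1 - th + 3 * e) :=
    Real.rpow_le_rpow_of_exponent_le hX1R (by linarith)
  linarith

theorem t1i_N2 (th e : ℝ) (A1 C0 : ℕ) (hp : Adm th e) : ∃ X0 : ℕ, ∀ X : ℕ, X0 ≤ X →
    ∀ (n : ℕ) (b N σ : ℝ) (QQ : Finset ℕ) (bq : ℕ → ℝ), StdI X n th e A1 b N σ QQ bq →
    ∀ (D : ℕ) (γ : ℕ → ℕ → ℝ), (D : ℝ) ≤ ZI th e X →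
    (∀ l, BVw X ((Real.log X) ^ C0) (γ l)) →
    N2 X bq QQ (T1i X D b γ σ) ≤ (X : ℝ) ^ (19 / 20 : ℝ) := by
  classical
  obtain ⟨ht1, ht2, he0, het⟩ := id hp
  obtain ⟨C1, hC1, hti⟩ := ti_rest
  obtain ⟨C2, hC2, htl⟩ := ti_large
  obtain ⟨D0, hD0, htau⟩ := t1_tau e he0
  obtain ⟨X1, hX1⟩ := t1_facts th e A1 hp
  obtain ⟨X2, hX2⟩ := t1_log (C0 + 1) (72 * (C1 + C2) * D0) (e / 2) (by linarith)
  obtain ⟨X3, hX3⟩ := t1_log 0 4 (3 / 20) (by norm_num)
  refine ⟨max X1 (max X2 X3), ?_⟩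
  intro X hX n b N σ QQ bq hstd D γ hD hγ
  obtain ⟨hX1', hL2, hb0, hNb, hq⟩ := hX1 X ((le_max_left _ _).trans hX) n b N σ QQ bq hstd
  have g2 := hX2 X ((le_max_left _ _).trans ((le_max_right _ _).trans hX))
  have g3 := hX3 X ((le_max_right _ _).trans ((le_max_right _ _).trans hX))
  rw [pow_zero, mul_one] at g3
  have hX0 : (0 : ℝ) < X := by exact_mod_cast hX1'
  have hX1R : (1 : ℝ) ≤ X := by exact_mod_cast hX1'
  obtain ⟨-, -, hσ, -, hN1, -, hfam, -, hbq⟩ := hstd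
  set κ : ℝ := 1 - th + 3 * e with hκ
  have hDκ : (D : ℝ) ≤ 2 * (X : ℝ) ^ κ := hD
  have hL0 : 0 < Real.log X := by linarith
  have hR0 : 0 ≤ (Real.log X) ^ C0 := by positivity
  -- the pointwise bound
  have hpt : ∀ q ∈ QQ, ∀ a ∈ rr q, ∀ x : ℝ, bq q / X ≤ x → x ≤ 2 * bq q / X →
      ‖T1i X D b γ σ q a x‖ ≤ (X : ℝ) ^ (κ + e) := by
    intro q hqq a ha x hx1 hx2
    obtain ⟨hq1, hqX, h2qX, hqbX, hqbκ⟩ := hq q hqq
    have hqR : (1 : ℝ) ≤ q := by exact_mod_cast hq1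
    have hcop : Nat.Coprime a q := by
      unfold rr at ha
      exact (mem_filter.1 ha).2
    have hbqq := hbq q hqq
    have hxb : b / X ≤ x := le_trans (div_le_div_of_nonneg_right hbqq.1 hX0.le) hx1
    have hx4 : x ≤ 4 * b / X := by
      refine hx2.trans (div_le_div_of_nonneg_right ?_ hX0.le)
      linarith [hbqq.2]
    have hx0 : 0 ≤ x := le_trans (div_nonneg hb0.le hX0.le) hxb
    have hlogq : Real.log q ≤ Real.log X :=
      Real.log_le_log (by linarith) (by exact_mod_cast hqX)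
    have hlogq0 := Real.log_natCast_nonneg q
    set B : ℝ := (C1 + C2) * (Real.log X) ^ C0 * (17 * (D : ℝ) + q * (1 + b)) *
      (1 + Real.log X) with hB
    have hD0' : (0 : ℝ) ≤ D := Nat.cast_nonneg D
    have hB0 : 0 ≤ B := by
      rw [hB]
      positivity
    have hterm : ∀ g ∈ q.divisors.filter (fun g => 16 * (D : ℝ) * q * b ≤ X → g ≠ q),
        ‖((ArithmeticFunction.moebius g : ℤ) : ℂ) *
          ∑ l ∈ (Icc 1 D).filter (fun l => Nat.Coprime l q),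
            iw X (l * g) (γ l) ((a : ℝ) / q + σ * x)‖ ≤ B := by
      intro g hg
      rw [mem_filter, Nat.mem_divisors] at hg
      obtain ⟨⟨hgq, hq0⟩, hne⟩ := hg
      rw [norm_mul]
      have hkey : ‖∑ l ∈ (Icc 1 D).filter (fun l => Nat.Coprime l q),
            iw X (l * g) (γ l) ((a : ℝ) / q + σ * x)‖ ≤ B := by
        by_cases hcase : 16 * (D : ℝ) * q * b ≤ X
        · have hDx : 4 * (D : ℝ) * q * x ≤ 1 := by
            calc 4 * (D : ℝ) * q * x ≤ 4 * (D : ℝ) * q * (4 * b / X) := by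
                  gcongr
              _ = (16 * (D : ℝ) * q * b) / X := by ring
              _ ≤ 1 := by
                  rw [div_le_one hX0]
                  exact hcase
          have h2 := hti X q a g D ((Icc 1 D).filter (fun l => Nat.Coprime l q)) γ
            ((Real.log X) ^ C0) x σ hq1 hcop hgq (by
              intro l hl
              rw [mem_filter, mem_Icc] at hl
              refine ⟨hl.1.1, hl.1.2, fun hdv => ?_⟩
              have h3 : q / g ∣ q := Nat.div_dvd_of_dvd hgq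
              have h4 : q / g ∣ 1 := by
                have := Nat.dvd_gcd hdv h3
                rwa [hl.2] at this
              have h5 : q / g = 1 := Nat.dvd_one.1 h4
              apply hne hcase
              have h6 := Nat.div_mul_cancel hgq
              rw [h5, one_mul] at h6
              exact h6) hσ hx0 hDx hR0 (fun l _ => hγ l)
          refine h2.trans ?_
          rw [hB]
          have e1 : C1 * (Real.log X) ^ C0 ≤ (C1 + C2) * (Real.log X) ^ C0 :=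
            mul_le_mul_of_nonneg_right (by linarith) hR0
          have e2 : (D : ℝ) + q ≤ 17 * (D : ℝ) + q * (1 + b) := by nlinarith
          have e3 : 1 + Real.log q ≤ 1 + Real.log X := by linarith
          exact mul_le_mul (mul_le_mul e1 e2 (by positivity) (by positivity)) e3 (by positivity)
            (by positivity)
        · have h2 := htl X q a g D ((Icc 1 D).filter (fun l => Nat.Coprime l q)) γ
            ((Real.log X) ^ C0) x σ b hq1 h2qX hcop hgq (by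
              intro l hl
              rw [mem_filter, mem_Icc] at hl
              exact hl.1) hσ hb0 hqbX hxb hx4 hR0 (fun l _ => hγ l)
          refine h2.trans ?_
          rw [hB]
          have e1 : C2 * (Real.log X) ^ C0 ≤ (C1 + C2) * (Real.log X) ^ C0 :=
            mul_le_mul_of_nonneg_right (by linarith) hR0
          have e4 : (X : ℝ) / (q * (1 + b)) ≤ 16 * D := by
            rw [div_le_iff₀ (by positivity)]
            have h5 := (not_le.1 hcase).le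
            have h6 : (0 : ℝ) ≤ 16 * D * q := by positivity
            nlinarith
          have e2 : (D : ℝ) + q * (1 + b) + X / (q * (1 + b)) ≤
              17 * (D : ℝ) + q * (1 + b) := by linarith
          exact mul_le_mul_of_nonneg_right (mul_le_mul e1 e2 (by positivity) (by positivity))
            (by positivity)
      calc ‖((ArithmeticFunction.moebius g : ℤ) : ℂ)‖ * _ ≤ 1 * _ :=
            mul_le_mul_of_nonneg_right (t1_moebius g) (norm_nonneg _)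
        _ ≤ _ := by rw [one_mul]; exact hkey
    have h7 : ‖T1i X D b γ σ q a x‖ ≤ (D0 * (X : ℝ) ^ (e / 10)) * B := by
      unfold T1i
      refine (norm_sum_le _ _).trans ?_
      have h8 : ∀ g ∈ (q.divisors.filter (fun g => 16 * (D : ℝ) * q * b ≤ X → g ≠ q)),
          ‖((ArithmeticFunction.moebius g : ℤ) : ℂ) *
            ∑ l ∈ (Icc 1 D).filter (fun l => Nat.Coprime l q),
              iw X (l * g) (γ l) ((a : ℝ) / q + σ * x)‖ ≤ B := hterm
      have h9 := sum_le_card_nsmul _ _ _ h8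
      rw [nsmul_eq_mul] at h9
      have h10 : (((q.divisors.filter (fun g => 16 * (D : ℝ) * q * b ≤ X → g ≠ q)).card : ℕ) : ℝ) ≤
          D0 * (X : ℝ) ^ (e / 10) := by
        refine le_trans ?_ (htau q X hq1 hqX)
        exact_mod_cast card_le_card (filter_subset _ _)
      refine le_trans ?_ (mul_le_mul_of_nonneg_right h10 hB0)
      convert h9 using 3
    refine h7.trans ?_
    have h11 : 17 * (D : ℝ) + q * (1 + b) ≤ 36 * (X : ℝ) ^ κ := by linarith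
    have h12 : 1 + Real.log X ≤ 2 * Real.log X := by linarith
    calc (D0 * (X : ℝ) ^ (e / 10)) * B
        ≤ (D0 * (X : ℝ) ^ (e / 10)) * ((C1 + C2) * (Real.log X) ^ C0 * (36 * (X : ℝ) ^ κ) *
          (2 * Real.log X)) := by
          rw [hB]
          gcongr
      _ = (72 * (C1 + C2) * D0 * (Real.log X) ^ (C0 + 1)) *
          ((X : ℝ) ^ (e / 10) * (X : ℝ) ^ κ) := by ring
      _ ≤ (X : ℝ) ^ (e / 2) * ((X : ℝ) ^ (e / 10) * (X : ℝ) ^ κ) := by
          gcongr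
      _ = (X : ℝ) ^ (e / 2 + (e / 10 + κ)) := by
          rw [← Real.rpow_add hX0, ← Real.rpow_add hX0]
      _ ≤ (X : ℝ) ^ (κ + e) := Real.rpow_le_rpow_of_exponent_le hX1R (by linarith)
  -- the norm
  have h0 := N2_sup X hX1' bq QQ (fun q hqq => hb0.trans_le (hbq q hqq).1) (T1i X D b γ σ)
    (fun q a => t1i_cont X D b γ σ q a) (fun _ => (X : ℝ) ^ (κ + e)) hpt
  refine h0.trans ?_
  have hcount := count QQ N hfam hN1
  have h1 : ∑ q ∈ QQ, (Nat.totient q : ℝ) * (bq q / X) * ((X : ℝ) ^ (κ + e)) ^ 2 ≤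
      ∑ q ∈ QQ, (Nat.totient q : ℝ) * ((2 * b / X) * ((X : ℝ) ^ (κ + e)) ^ 2) := by
    apply sum_le_sum
    intro q hqq
    have h6 := (hbq q hqq).2
    rw [mul_assoc]
    gcongr
  refine h1.trans ?_
  rw [← sum_mul]
  have h8 : ((X : ℝ) ^ (κ + e)) ^ 2 = (X : ℝ) * (X : ℝ) ^ (2 * κ + 2 * e - 1) := by
    rw [← Real.rpow_natCast, ← Real.rpow_mul hX0.le]
    nth_rewrite 2 [← Real.rpow_one (X : ℝ)]
    rw [← Real.rpow_add hX0]
    congr 1
    push_cast
    ring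
  calc (∑ q ∈ QQ, (Nat.totient q : ℝ)) * ((2 * b / X) * ((X : ℝ) ^ (κ + e)) ^ 2)
      ≤ (2 * N) * ((2 * b / X) * ((X : ℝ) ^ (κ + e)) ^ 2) := by
        apply mul_le_mul_of_nonneg_right _ (by positivity)
        linarith
    _ = 4 * (N * b) * (X : ℝ) ^ (2 * κ + 2 * e - 1) := by
        rw [h8]
        field_simp
        ring
    _ ≤ (X : ℝ) ^ (3 / 20 : ℝ) * (X : ℝ) ^ (1 - th + 3 / 2 * e) *
          (X : ℝ) ^ (2 * κ + 2 * e - 1) := by
        gcongr
    _ = (X : ℝ) ^ (3 / 20 + (1 - th + 3 / 2 * e) + (2 * κ + 2 * e - 1)) := by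
        rw [← Real.rpow_add hX0, ← Real.rpow_add hX0]
    _ ≤ (X : ℝ) ^ (19 / 20 : ℝ) := by
        apply Real.rpow_le_rpow_of_exponent_le hX1R
        rw [hκ]
        linarith

end Pool.MP_dd84fd_nt.IXP
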