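import Pool.Agent.Lib.MP_dd84fd_nt.HX.PlArc
import Pool.Agent.Lib.MP_dd84fd_nt.IX.PlT1
import Pool.Agent.Lib.MP_dd84fd_nt.IX.PlT2
import Pool.Agent.Lib.MP_dd84fd_nt.IX.PlNC
import Pool.Agent.Lib.MP_dd84fd_nt.IX.PlMod
import Pool.Agent.Lib.MP_dd84fd_nt.IX.PlDec

/-!
# PL_I-Arc: decomposition of `WI` on the arcs

Adapt `arc_h` (`HX/PlArc.lean`; copy its private lemmas; `paLam1`, `paLam2`, `paT2` are public) with `dec_conv`, `t1i_N2`, `t2i_N2`,
`nc_i`, `model_i`, `N2_tpc`, `N2_tp`.  `lam q x = (if 16 D q b ≤ X then μ(q) paLam1 .. else 0) + s paLam2 ..`: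
`|lam| ≤ 2 L^(3C2+C1+2) (1+L) X/q` (`lam_iw`), `N2(lam) ≤ X L^C/b` (`lami_N2` twice; for `paLam2` with `D := V0 X`: the condition `16 V0 q b ≤ X`
holds for all `q ∈ QQ`).
-/

set_option autoImplicit false

namespace Pool.MP_dd84fd_nt.IXP

open Finset Pool.MP_67663b_nt.Odd Pool.MP_dd84fd_nt.E2 Pool.MP_dd84fd_nt.PL Pool.MP_dd84fd_nt.HX Pool.MP_dd84fd_nt.HXP
open Pool.MP_dd84fd_nt.IX (Adm W1 DecI WI fI)

/-! ### elementary estimates -/

private theorem pa_log (K : ℕ) (A η : ℝ) (hη : 0 < η) : ∃ X0 : ℕ, ∀ X : ℕ, X0 ≤ X →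
    A * (Real.log X) ^ K ≤ (X : ℝ) ^ η := by
  have h1 := (isLittleO_log_rpow_rpow_atTop (K : ℝ) hη).bound
    (show (0 : ℝ) < 1 / (|A| + 1) by positivity)
  obtain ⟨x0, hx0⟩ := Filter.eventually_atTop.1 h1
  refine ⟨max ⌈x0⌉₊ 1, fun X hX => ?_⟩
  have hX1 : 1 ≤ X := (le_max_right _ _).trans hX
  have hX2 : x0 ≤ X := (Nat.le_ceil x0).trans (by exact_mod_cast (le_max_left _ _).trans hX)
  have h2 := hx0 X hX2
  have hL : 0 ≤ Real.log X := Real.log_natCast_nonneg X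
  have hXp : (0 : ℝ) ≤ (X : ℝ) ^ η := Real.rpow_nonneg (Nat.cast_nonneg X) _
  rw [Real.rpow_natCast, Real.norm_eq_abs, Real.norm_eq_abs, abs_of_nonneg (pow_nonneg hL K),
    abs_of_nonneg hXp] at h2
  calc A * (Real.log X) ^ K ≤ |A| * (Real.log X) ^ K :=
        mul_le_mul_of_nonneg_right (le_abs_self A) (pow_nonneg hL K)
    _ ≤ |A| * (1 / (|A| + 1) * (X : ℝ) ^ η) := mul_le_mul_of_nonneg_left h2 (abs_nonneg A)
    _ = (|A| / (|A| + 1)) * (X : ℝ) ^ η := by ring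
    _ ≤ 1 * (X : ℝ) ^ η := by
        apply mul_le_mul_of_nonneg_right _ hXp
        rw [div_le_one (by positivity)]
        linarith
    _ = (X : ℝ) ^ η := one_mul _

private theorem pa_big (T : ℝ) : ∃ X0 : ℕ, ∀ X : ℕ, X0 ≤ X → T ≤ Real.log X := by
  refine ⟨⌈Real.exp T⌉₊, fun X hX => ?_⟩
  have h1 : Real.exp T ≤ X := (Nat.le_ceil _).trans (by exact_mod_cast hX)
  rw [Real.le_log_iff_exp_le ((Real.exp_pos T).trans_le h1)]
  exact h1

private theorem pa_BVw_mono {X : ℕ} {R R' : ℝ} {γ : ℕ → ℝ} (h : BVw X R γ) (hR : R ≤ R') :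
    BVw X R' γ := ⟨fun n hn => (h.1 n hn).trans hR, h.2.trans hR⟩

/-! ### the `L²` norm -/

private theorem pa_smul (X : ℕ) (bq : ℕ → ℝ) (QQ : Finset ℕ) (hb : ∀ q ∈ QQ, 0 < bq q)
    (f : ℕ → ℕ → ℝ → ℂ) (hf : ∀ q a, Continuous (f q a)) (c : ℕ → ℂ) (hc : ∀ q, ‖c q‖ ≤ 1) :
    N2 X bq QQ (fun q a x => c q * f q a x) ≤ N2 X bq QQ f := by
  unfold N2
  refine sum_le_sum fun q hq => sum_le_sum fun a _ => ?_
  have hle : bq q / X ≤ 2 * bq q / X := by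
    apply div_le_div_of_nonneg_right _ (Nat.cast_nonneg X)
    linarith [hb q hq]
  have hfq := hf q a
  apply intervalIntegral.integral_mono_on hle
  · apply Continuous.intervalIntegrable
    fun_prop
  · apply Continuous.intervalIntegrable
    fun_prop
  · intro x _
    rw [norm_mul]
    have h1 : ‖c q‖ * ‖f q a x‖ ≤ 1 * ‖f q a x‖ :=
      mul_le_mul_of_nonneg_right (hc q) (norm_nonneg _)
    rw [one_mul] at h1
    exact pow_le_pow_left₀ (by positivity) h1 2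

private theorem pa_five (X : ℕ) (bq : ℕ → ℝ) (QQ : Finset ℕ) (hb : ∀ q ∈ QQ, 0 < bq q)
    (f1 f2 f3 f4 f5 : ℕ → ℕ → ℝ → ℂ) (h1 : ∀ q a, Continuous (f1 q a))
    (h2 : ∀ q a, Continuous (f2 q a)) (h3 : ∀ q a, Continuous (f3 q a))
    (h4 : ∀ q a, Continuous (f4 q a)) (h5 : ∀ q a, Continuous (f5 q a)) :
    N2 X bq QQ (fun q a x => (f1 q a x + f2 q a x) + ((f3 q a x + f4 q a x) + f5 q a x)) ≤
      8 * (N2 X bq QQ f1 + N2 X bq QQ f2 + N2 X bq QQ f3 + N2 X bq QQ f4 + N2 X bq QQ f5) := by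
  have e1 := N2_add X bq QQ hb (fun q a x => f1 q a x + f2 q a x)
    (fun q a x => (f3 q a x + f4 q a x) + f5 q a x) (fun q a => (h1 q a).add (h2 q a))
    (fun q a => ((h3 q a).add (h4 q a)).add (h5 q a))
  have e2 := N2_add X bq QQ hb f1 f2 h1 h2
  have e3 := N2_add X bq QQ hb (fun q a x => f3 q a x + f4 q a x) f5
    (fun q a => (h3 q a).add (h4 q a)) h5
  have e4 := N2_add X bq QQ hb f3 f4 h3 h4
  have p1 := N2_nonneg X bq QQ hb f1
  have p2 := N2_nonneg X bq QQ hb f2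
  have p3 := N2_nonneg X bq QQ hb f3
  have p4 := N2_nonneg X bq QQ hb f4
  have p5 := N2_nonneg X bq QQ hb f5
  linarith

/-! ### algebra -/

private theorem pa_tp_cq (X q I : ℕ) (f F1 er : ℕ → ℝ) (F2 : ℕ → ℕ → ℝ)
    (h : ∀ n ∈ Icc 1 X, f n = F1 n + ∑ i ∈ range I, F2 i n + er n) (θ : ℝ) :
    tp X (cq q (fun n => (f n : ℂ))) θ = tp X (cq q (fun n => ((F1 n : ℝ) : ℂ))) θ +
      ∑ i ∈ range I, tp X (cq q (fun n => ((F2 i n : ℝ) : ℂ))) θ +
      tp X (cq q (fun n => (er n : ℂ))) θ := by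
  unfold tp
  rw [sum_comm, ← sum_add_distrib, ← sum_add_distrib]
  refine sum_congr rfl fun n hn => ?_
  rw [← sum_mul, ← add_mul, ← add_mul]
  congr 1
  unfold cq
  by_cases hc : Nat.Coprime n q
  · simp only [if_pos hc]
    rw [h n hn]
    push_cast
    ring
  · simp only [if_neg hc, sum_const_zero, add_zero]

private theorem pa_tp_split (X q : ℕ) (f : ℕ → ℂ) (θ : ℝ) :
    tp X f θ = tp X (cq q f) θ + tp X (fun k => if Nat.Coprime k q then 0 else f k) θ := by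
  unfold tp
  rw [← sum_add_distrib]
  refine sum_congr rfl fun n _ => ?_
  rw [← add_mul]
  congr 1
  unfold cq
  by_cases hc : Nat.Coprime n q
  · simp only [if_pos hc, add_zero]
  · simp only [if_neg hc, zero_add]

/-- `WI` on the half arcs -/
noncomputable def WIa (ww gg : ℕ → ℕ → ℝ) (s σ : ℝ) (w X q a : ℕ) (x : ℝ) : ℂ :=
  WI ww gg s w X ((a : ℝ) / q + σ * x)

private theorem pa_WI (ww gg : ℕ → ℕ → ℝ) (s : ℝ) (w X : ℕ) (θ : ℝ) :
    WI ww gg s w X θ = tp X (fun n => (ww X n : ℂ)) θ +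
      (s : ℂ) * tp X (fun n => (fI gg X w n : ℂ)) θ := by
  unfold WI tp
  rw [mul_sum, ← sum_add_distrib]
  refine sum_congr rfl fun n _ => ?_
  push_cast
  ring

/-- the multiples of `q` -/
private theorem pa_mult (V q : ℕ) (hq : 1 ≤ q) (F : ℕ → ℂ) :
    ∑ d ∈ (Icc 1 V).filter (fun d => q ∣ d), F d = ∑ l ∈ Icc 1 (V / q), F (l * q) := by
  symm
  refine sum_bij (fun l _ => l * q) ?_ ?_ ?_ ?_
  · intro l hl
    rw [mem_Icc] at hl
    rw [mem_filter, mem_Icc]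
    refine ⟨⟨Nat.mul_pos hl.1 hq, ?_⟩, Dvd.intro_left l rfl⟩
    exact (Nat.le_div_iff_mul_le hq).1 hl.2
  · intro l _ l' _ h
    exact Nat.eq_of_mul_eq_mul_right hq h
  · intro d hd
    rw [mem_filter, mem_Icc] at hd
    obtain ⟨⟨h1, h2⟩, ⟨l, rfl⟩⟩ := hd
    refine ⟨l, ?_, mul_comm _ _⟩
    rw [mem_Icc]
    refine ⟨Nat.pos_of_ne_zero fun h0 => by simp [h0] at h1, ?_⟩
    rw [Nat.le_div_iff_mul_le hq, mul_comm]
    exact h2
  · intro l _
    rfl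

/-- the first part of `lam` -/
noncomputable def lamP (X D : ℕ) (b : ℝ) (γ : ℕ → ℕ → ℝ) (σ : ℝ) (q : ℕ) (x : ℝ) : ℂ :=
  open Classical in
  if 16 * (D : ℝ) * q * b ≤ X then
    ((ArithmeticFunction.moebius q : ℤ) : ℂ) * paLam1 X D γ σ q x else 0

private theorem pa_id (X q a : ℕ) (hq : 1 ≤ q) (ww gg : ℕ → ℕ → ℝ) (s σ x b : ℝ) (w I D : ℕ)
    (γ : ℕ → ℕ → ℝ)
    (K : ℕ → ℕ) (MM : ℕ → Finset ℕ) (α c : ℕ → ℕ → ℝ) (er : ℕ → ℝ) (Γ : ℕ → ℕ → ℝ) (e : ℕ → ℂ)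
    (hγ : ∀ l, D < l → ∀ n, γ l n = 0)
    (hM0 : ∀ i, ∀ m ∈ MM i, 1 ≤ m) (hα : ∀ i m, α i m ≠ 0 → m ∈ MM i)
    (hK : ∀ i m, α i m ≠ 0 → m * K i ≤ X)
    (hdec : ∀ n ∈ Icc 1 X, ww X n = ∑ l ∈ n.divisors, γ l n +
      ∑ i ∈ range I, ∑ m ∈ n.divisors, (if n / m ≤ K i then α i m * c i (n / m) else 0) + er n)
    (hmod : ∀ θ : ℝ, tp X (fun n => (fI gg X w n : ℂ)) θ =
        ∑ d ∈ Icc 1 (V0 X), iw X d (Γ d) θ + tp X e θ) :
    WIa ww gg s σ w X q a x = lamP X D b γ σ q x +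
      (s : ℂ) * paLam2 X (V0 X) Γ σ q x +
      ∑ i ∈ range I, f2f (MM i) (fun m => (α i m : ℂ))
        (tp (K i) (cq q (fun k => (c i k : ℂ)))) σ q a x +
      ((T1i X D b γ σ q a x +
        (s : ℂ) * ∑ d ∈ (Icc 1 (V0 X)).filter (fun d => ¬ q ∣ d),
          iw X d (Γ d) ((a : ℝ) / q + σ * x)) +
      ((tp X (cq q (fun n => (er n : ℂ))) ((a : ℝ) / q + σ * x) +
        tp X (fun k => if Nat.Coprime k q then 0 else (ww X k : ℂ)) ((a : ℝ) / q + σ * x)) +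
        (s : ℂ) * tp X e ((a : ℝ) / q + σ * x))) := by
  classical
  set θ : ℝ := (a : ℝ) / q + σ * x with hθ
  have h1 : ∑ l ∈ (Icc 1 D).filter (fun l => Nat.Coprime l q), iw X (l * q) (γ l) θ =
      paLam1 X D γ σ q x := by
    unfold paLam1
    refine sum_congr rfl fun l _ => ?_
    rw [hθ, iw_shift X l q a hq]
  have h2 : ∑ d ∈ (Icc 1 (V0 X)).filter (fun d => q ∣ d), iw X d (Γ d) θ =
      paLam2 X (V0 X) Γ σ q x := by
    rw [pa_mult (V0 X) q hq (fun d => iw X d (Γ d) θ)]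
    unfold paLam2
    refine sum_congr rfl fun l _ => ?_
    rw [hθ, iw_shift X l q a hq]
  have h3 : ∑ g ∈ q.divisors, ((ArithmeticFunction.moebius g : ℤ) : ℂ) *
        ∑ l ∈ (Icc 1 D).filter (fun l => Nat.Coprime l q), iw X (l * g) (γ l) θ =
      T1i X D b γ σ q a x + lamP X D b γ σ q x := by
    unfold T1i lamP
    rw [← hθ]
    by_cases hc : 16 * (D : ℝ) * q * b ≤ X
    · rw [if_pos hc]
      rw [← sum_filter_add_sum_filter_not q.divisors (fun g => g ≠ q)]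
      have h5 : q.divisors.filter (fun g => 16 * (D : ℝ) * q * b ≤ X → g ≠ q) =
          q.divisors.filter (fun g => g ≠ q) := by
        refine filter_congr fun g _ => ?_
        exact ⟨fun h => h hc, fun h _ => h⟩
      rw [h5]
      congr 1
      have h4 : q.divisors.filter (fun g => ¬ g ≠ q) = {q} := by
        ext g
        simp only [mem_filter, Nat.mem_divisors, not_not, mem_singleton]
        constructor
        · exact fun h => h.2
        · rintro rfl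
          exact ⟨⟨dvd_rfl, by omega⟩, rfl⟩
      rw [h4, sum_singleton, h1]
    · rw [if_neg hc, add_zero]
      have h5 : q.divisors.filter (fun g => 16 * (D : ℝ) * q * b ≤ X → g ≠ q) =
          q.divisors := by
        refine filter_true_of_mem fun g _ => ?_
        exact fun h => absurd h hc
      rw [h5]
  have h5 := alg_I X q D hq γ hγ θ
  have h6 : ∀ i ∈ range I, tp X (cq q (fun n => ((∑ m ∈ n.divisors,
      (if n / m ≤ K i then α i m * c i (n / m) else 0) : ℝ) : ℂ))) θ =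
      f2f (MM i) (fun m => (α i m : ℂ)) (tp (K i) (cq q (fun k => (c i k : ℂ)))) σ q a x := by
    intro i _
    rw [alg_II X q (K i) hq (MM i) (α i) (c i) (hM0 i) (hα i) (hK i) θ]
    rfl
  have h7 := pa_tp_cq X q I (ww X) (fun n => ∑ l ∈ n.divisors, γ l n) er
    (fun i n => ∑ m ∈ n.divisors, (if n / m ≤ K i then α i m * c i (n / m) else 0)) hdec θ
  rw [h5, sum_congr rfl h6, h3] at h7
  have h8 : ∑ d ∈ Icc 1 (V0 X), iw X d (Γ d) θ = paLam2 X (V0 X) Γ σ q x +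
      ∑ d ∈ (Icc 1 (V0 X)).filter (fun d => ¬ q ∣ d), iw X d (Γ d) θ := by
    rw [← h2, sum_filter_add_sum_filter_not]
  unfold WIa
  rw [← hθ, pa_WI, hmod, pa_tp_split X q, h7, h8]
  ring

/-! ### the five error functions -/

private theorem pa_T2_cont (X : ℕ) (Γ : ℕ → ℕ → ℝ) (σ : ℝ) (q a : ℕ) :
    Continuous (paT2 X Γ σ q a) := by
  unfold paT2
  refine continuous_finsetSum _ fun d _ => ?_
  exact (iw_cont X d (Γ d)).comp (by fun_prop)

private theorem pa_L1_cont (X D : ℕ) (γ : ℕ → ℕ → ℝ) (σ : ℝ) (q : ℕ) :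
    Continuous (paLam1 X D γ σ q) := by
  unfold paLam1
  refine continuous_finsetSum _ fun l _ => ?_
  exact (iw_cont X (l * q) (γ l)).comp (by fun_prop)

private theorem pa_L2_cont (X V : ℕ) (Γ : ℕ → ℕ → ℝ) (σ : ℝ) (q : ℕ) :
    Continuous (paLam2 X V Γ σ q) := by
  unfold paLam2
  refine continuous_finsetSum _ fun l _ => ?_
  exact (iw_cont X (l * q) (Γ (l * q))).comp (by fun_prop)

private theorem pa_tp_cont (X : ℕ) (c : ℕ → ℂ) (σ : ℝ) (q a : ℕ) :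
    Continuous (fun x : ℝ => tp X c ((a : ℝ) / q + σ * x)) :=
  (tp_cont X c).comp (by fun_prop)

private theorem pa_congr (X : ℕ) (bq : ℕ → ℝ) (QQ : Finset ℕ) (f g : ℕ → ℕ → ℝ → ℂ)
    (h : ∀ q ∈ QQ, ∀ a x, f q a x = g q a x) : N2 X bq QQ f = N2 X bq QQ g := by
  unfold N2
  refine sum_congr rfl fun q hq => sum_congr rfl fun a _ => ?_
  have : f q a = g q a := funext fun x => h q hq a x
  rw [this]


private theorem pa_lamP_cont (X D : ℕ) (b : ℝ) (γ : ℕ → ℕ → ℝ) (σ : ℝ) (q : ℕ) :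
    Continuous (lamP X D b γ σ q) := by
  unfold lamP
  by_cases hc : 16 * (D : ℝ) * q * b ≤ X
  · simp only [if_pos hc]
    exact continuous_const.mul (pa_L1_cont X D γ σ q)
  · simp only [if_neg hc]
    exact continuous_const

/-- decomposition, the error -/
private theorem pa_core (X : ℕ) (bq : ℕ → ℝ) (QQ : Finset ℕ) (hb : ∀ q ∈ QQ, 0 < bq q)
    (hQ : ∀ q ∈ QQ, 1 ≤ q) (ww gg : ℕ → ℕ → ℝ) (s σ b : ℝ) (hs : |s| ≤ 1) (w I D : ℕ)
    (γ : ℕ → ℕ → ℝ)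
    (K : ℕ → ℕ) (MM : ℕ → Finset ℕ) (α c : ℕ → ℕ → ℝ) (er : ℕ → ℝ) (Γ : ℕ → ℕ → ℝ) (e : ℕ → ℂ)
    (hγ : ∀ l, D < l → ∀ n, γ l n = 0)
    (hM0 : ∀ i, ∀ m ∈ MM i, 1 ≤ m) (hα : ∀ i m, α i m ≠ 0 → m ∈ MM i)
    (hK : ∀ i m, α i m ≠ 0 → m * K i ≤ X)
    (hdec : ∀ n ∈ Icc 1 X, ww X n = ∑ l ∈ n.divisors, γ l n +
      ∑ i ∈ range I, ∑ m ∈ n.divisors, (if n / m ≤ K i then α i m * c i (n / m) else 0) + er n)
    (hmod : ∀ θ : ℝ, tp X (fun n => (fI gg X w n : ℂ)) θ =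
        ∑ d ∈ Icc 1 (V0 X), iw X d (Γ d) θ + tp X e θ)
    (B1 B2 B3 B4 B5 : ℝ)
    (h1 : N2 X bq QQ (T1i X D b γ σ) ≤ B1) (h2 : N2 X bq QQ (paT2 X Γ σ) ≤ B2)
    (h3 : N2 X bq QQ (fun q a x => tp X (cq q (fun n => (er n : ℂ))) ((a : ℝ) / q + σ * x)) ≤ B3)
    (h4 : N2 X bq QQ (fun q a x => tp X (fun k => if Nat.Coprime k q then 0 else (ww X k : ℂ))
      ((a : ℝ) / q + σ * x)) ≤ B4)
    (h5 : N2 X bq QQ (fun q a x => tp X e ((a : ℝ) / q + σ * x)) ≤ B5) :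
    N2 X bq QQ (fun q a x => WIa ww gg s σ w X q a x -
      (lamP X D b γ σ q x + (s : ℂ) * paLam2 X (V0 X) Γ σ q x) -
      ∑ i ∈ range I, f2f (MM i) (fun m => (α i m : ℂ))
        (tp (K i) (cq q (fun k => (c i k : ℂ)))) σ q a x) ≤ 8 * (B1 + B2 + B3 + B4 + B5) := by
  have hs' : ‖(s : ℂ)‖ ≤ 1 := by
    rw [Complex.norm_real]
    exact hs
  have e2 := pa_smul X bq QQ hb (paT2 X Γ σ) (fun q a => pa_T2_cont X Γ σ q a)
    (fun _ => (s : ℂ)) (fun _ => hs')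
  have e5 := pa_smul X bq QQ hb (fun q a x => tp X e ((a : ℝ) / q + σ * x))
    (fun q a => pa_tp_cont X e σ q a) (fun _ => (s : ℂ)) (fun _ => hs')
  have e0 := pa_five X bq QQ hb (T1i X D b γ σ) (fun q a x => (s : ℂ) * paT2 X Γ σ q a x)
    (fun q a x => tp X (cq q (fun n => (er n : ℂ))) ((a : ℝ) / q + σ * x))
    (fun q a x => tp X (fun k => if Nat.Coprime k q then 0 else (ww X k : ℂ))
      ((a : ℝ) / q + σ * x))
    (fun q a x => (s : ℂ) * tp X e ((a : ℝ) / q + σ * x))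
    (fun q a => t1i_cont X D b γ σ q a) (fun q a => continuous_const.mul (pa_T2_cont X Γ σ q a))
    (fun q a => pa_tp_cont X _ σ q a) (fun q a => pa_tp_cont X _ σ q a)
    (fun q a => continuous_const.mul (pa_tp_cont X e σ q a))
  have ec := pa_congr X bq QQ (fun q a x => WIa ww gg s σ w X q a x -
      (lamP X D b γ σ q x + (s : ℂ) * paLam2 X (V0 X) Γ σ q x) -
      ∑ i ∈ range I, f2f (MM i) (fun m => (α i m : ℂ))
        (tp (K i) (cq q (fun k => (c i k : ℂ)))) σ q a x)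
    (fun q a x => (T1i X D b γ σ q a x + (s : ℂ) * paT2 X Γ σ q a x) +
      ((tp X (cq q (fun n => (er n : ℂ))) ((a : ℝ) / q + σ * x) +
        tp X (fun k => if Nat.Coprime k q then 0 else (ww X k : ℂ)) ((a : ℝ) / q + σ * x)) +
        (s : ℂ) * tp X e ((a : ℝ) / q + σ * x))) ?_
  · rw [ec]
    linarith
  · intro q hq a x
    have h := pa_id X q a (hQ q hq) ww gg s σ x b w I D γ K MM α c er Γ e hγ hM0 hα hK hdec hmod
    show WIa ww gg s σ w X q a x - _ - _ = _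
    rw [h]
    unfold paT2
    ring

/-! ### numerical parts -/

private theorem pa_V0 (X : ℕ) : V0 X ≤ X := (Nat.sqrt_le_self _).trans (Nat.sqrt_le_self _)

private theorem pa_lam (X D q : ℕ) (b : ℝ) (γ Γ : ℕ → ℕ → ℝ) (σ s x L R : ℝ) (hX : 1 ≤ X)
    (hq : 1 ≤ q) (hs : |s| ≤ 1) (hD : D ≤ X) (hV : V0 X ≤ X) (hL : L = Real.log X) (hL3 : 3 ≤ L)
    (hR : 0 ≤ R) (h1 : ∀ l, BVw X R (γ l)) (h2 : ∀ l, BVw X R (Γ l)) :
    ‖lamP X D b γ σ q x + (s : ℂ) * paLam2 X (V0 X) Γ σ q x‖ ≤ R * L ^ 2 * X / q := by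
  have e1 := lam_iw X q D ((Icc 1 D).filter (fun l => Nat.Coprime l q)) γ R x σ hX hq hD
    (fun l hl => by
      rw [mem_filter, mem_Icc] at hl
      exact hl.1) hR (fun l _ => h1 l)
  have e2 := lam_iw X q (V0 X) (Icc 1 (V0 X / q)) (fun l => Γ (l * q)) R x σ hX hq hV
    (fun l hl => by
      rw [mem_Icc] at hl
      exact ⟨hl.1, hl.2.trans (Nat.div_le_self _ _)⟩) hR (fun l _ => h2 (l * q))
  rw [← hL] at e1 e2
  have hμ : ‖((ArithmeticFunction.moebius q : ℤ) : ℂ)‖ ≤ 1 := by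
    rw [Complex.norm_intCast]
    exact_mod_cast ArithmeticFunction.abs_moebius_le_one
  have hs' : ‖(s : ℂ)‖ ≤ 1 := by
    rw [Complex.norm_real]
    exact hs
  have hq0 : (0 : ℝ) < q := by exact_mod_cast hq
  have hX0 : (0 : ℝ) < X := by exact_mod_cast hX
  have e3 : ‖lamP X D b γ σ q x‖ ≤ R * (1 + L) * X / q := by
    unfold lamP
    split_ifs
    · rw [norm_mul]
      calc _ ≤ 1 * ‖paLam1 X D γ σ q x‖ := mul_le_mul_of_nonneg_right hμ (norm_nonneg _)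
        _ ≤ _ := by
          rw [one_mul]
          exact e1
    · rw [norm_zero]
      positivity
  have e4 : ‖(s : ℂ) * paLam2 X (V0 X) Γ σ q x‖ ≤ R * (1 + L) * X / q := by
    rw [norm_mul]
    calc _ ≤ 1 * ‖paLam2 X (V0 X) Γ σ q x‖ := mul_le_mul_of_nonneg_right hs' (norm_nonneg _)
      _ ≤ _ := by
        rw [one_mul]
        exact e2
  calc _ ≤ R * (1 + L) * X / q + R * (1 + L) * X / q :=
        (norm_add_le _ _).trans (add_le_add e3 e4)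
    _ = (R * (2 * (1 + L)) * X) / q := by ring
    _ ≤ (R * L ^ 2 * X) / q := by
        apply div_le_div_of_nonneg_right _ hq0.le
        apply mul_le_mul_of_nonneg_right _ hX0.le
        apply mul_le_mul_of_nonneg_left _ hR
        nlinarith
    _ = R * L ^ 2 * X / q := by ring

/-- `N ≤ X` -/
private theorem pa_N (th e : ℝ) (A1 : ℕ) (hp : Adm th e) : ∃ X0 : ℕ, ∀ X : ℕ,
    X0 ≤ X → ∀ (n : ℕ) (b N σ : ℝ) (QQ : Finset ℕ) (bq : ℕ → ℝ),
    StdI X n th e A1 b N σ QQ bq → N ≤ X ∧ N * b ≤ X ∧ 0 < b ∧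
      ∀ q ∈ QQ, 16 * (V0 X : ℝ) * q * b ≤ X := by
  obtain ⟨hp1, hp2, hp3, hp4⟩ := hp
  obtain ⟨X1, h1⟩ := pa_log A1 1 (1 / 10) (by norm_num)
  obtain ⟨X2, h2⟩ := pa_big 1
  obtain ⟨X3, h3⟩ := pa_log 0 16 (1 / 10) (by norm_num)
  refine ⟨max (max X1 X2) (max X3 1), fun X hX n b N σ QQ bq hstd => ?_⟩
  obtain ⟨-, -, -, hbL, hN1, hNb, hfam, -, -⟩ := hstd
  have g1 := h1 X ((le_max_left _ _).trans ((le_max_left _ _).trans hX))
  have g2 := h2 X ((le_max_right _ _).trans ((le_max_left _ _).trans hX))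
  have g3 := h3 X ((le_max_left _ _).trans ((le_max_right _ _).trans hX))
  have hX1 : 1 ≤ X := (le_max_right _ _).trans ((le_max_right _ _).trans hX)
  rw [pow_zero, mul_one] at g3
  have hX1R : (1 : ℝ) ≤ X := by exact_mod_cast hX1
  have hX0 : (0 : ℝ) < X := by linarith
  have hL0 : 0 < Real.log X := by linarith
  rw [one_mul] at g1
  have hb0 : 0 < b := lt_of_lt_of_le (Real.rpow_pos_of_pos hL0 _) hbL
  have hb1 : 1 ≤ b * (Real.log X) ^ A1 := by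
    rw [Real.rpow_neg hL0.le, Real.rpow_natCast] at hbL
    calc (1 : ℝ) = ((Real.log X) ^ A1)⁻¹ * (Real.log X) ^ A1 := by field_simp
      _ ≤ b * (Real.log X) ^ A1 := mul_le_mul_of_nonneg_right hbL (by positivity)
  refine ⟨?_, ?_, hb0, ?_⟩
  · calc N ≤ N * (b * (Real.log X) ^ A1) := le_mul_of_one_le_right (by linarith) hb1
      _ = (N * b) * (Real.log X) ^ A1 := by ring
      _ ≤ (X : ℝ) ^ (1 - th + 3 / 2 * e) * (X : ℝ) ^ (1 / 10 : ℝ) :=
          mul_le_mul hNb g1 (by positivity) (by positivity)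
      _ = (X : ℝ) ^ (1 - th + 3 / 2 * e + 1 / 10) := (Real.rpow_add hX0 _ _).symm
      _ ≤ (X : ℝ) ^ (1 : ℝ) := Real.rpow_le_rpow_of_exponent_le hX1R (by linarith)
      _ = X := Real.rpow_one _
  · calc N * b ≤ (X : ℝ) ^ (1 - th + 3 / 2 * e) := hNb
      _ ≤ (X : ℝ) ^ (1 : ℝ) := Real.rpow_le_rpow_of_exponent_le hX1R (by linarith)
      _ = X := Real.rpow_one _
  · intro q hq
    have h5 : (q : ℝ) ≤ N := by
      have h6 := hfam.2 q hq q hq
      rwa [Nat.lcm_self] at h6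
    have hV : (V0 X : ℝ) ≤ (X : ℝ) ^ (1 / 4 : ℝ) := by
      have h6 : V0 X * V0 X ≤ Nat.sqrt X := Nat.sqrt_le _
      have h7 : Nat.sqrt X * Nat.sqrt X ≤ X := Nat.sqrt_le _
      have h8 : (V0 X * V0 X) * (V0 X * V0 X) ≤ X := (Nat.mul_le_mul h6 h6).trans h7
      have h9 : (V0 X : ℝ) ^ (4 : ℝ) ≤ X := by
        have : (V0 X : ℝ) ^ (4 : ℝ) = (V0 X * V0 X) * (V0 X * V0 X) := by
          rw [show (4 : ℝ) = ((4 : ℕ) : ℝ) by norm_num, Real.rpow_natCast]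
          ring
        rw [this]
        exact_mod_cast h8
      calc (V0 X : ℝ) = ((V0 X : ℝ) ^ (4 : ℝ)) ^ (1 / 4 : ℝ) := by
            rw [← Real.rpow_mul (Nat.cast_nonneg _)]
            norm_num
        _ ≤ (X : ℝ) ^ (1 / 4 : ℝ) := Real.rpow_le_rpow (by positivity) h9 (by norm_num)
    calc 16 * (V0 X : ℝ) * q * b ≤ 16 * (X : ℝ) ^ (1 / 4 : ℝ) * N * b := by gcongr
      _ = 16 * ((X : ℝ) ^ (1 / 4 : ℝ) * (N * b)) := by ring
      _ ≤ (X : ℝ) ^ (1 / 10 : ℝ) * ((X : ℝ) ^ (1 / 4 : ℝ) * (X : ℝ) ^ (1 - th + 3 / 2 * e)) := by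
          gcongr
      _ = (X : ℝ) ^ (1 / 10 + (1 / 4 + (1 - th + 3 / 2 * e))) := by
          rw [← Real.rpow_add hX0, ← Real.rpow_add hX0]
      _ ≤ (X : ℝ) ^ (1 : ℝ) := Real.rpow_le_rpow_of_exponent_le hX1R (by linarith)
      _ = X := Real.rpow_one _

/-- a power of `X` below `X / (c L^AE)` -/
private theorem pa_pow (X AE : ℕ) (c η Z L : ℝ) (hX : 1 ≤ X) (hL : 0 < L)
    (hZ : Z * L ^ AE = X) (h : c * L ^ AE ≤ (X : ℝ) ^ η) :
    c * (X : ℝ) ^ (1 - η) ≤ Z := by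
  have hX0 : (0 : ℝ) < X := by exact_mod_cast hX
  have h1 : (X : ℝ) ^ (1 - η) * (X : ℝ) ^ η = X := by
    rw [← Real.rpow_add hX0]
    have : 1 - η + η = 1 := by ring
    rw [this, Real.rpow_one]
  have h2 : 0 < (X : ℝ) ^ (1 - η) := Real.rpow_pos_of_pos hX0 _
  have h3 : (c * (X : ℝ) ^ (1 - η)) * L ^ AE ≤ Z * L ^ AE := by
    rw [hZ]
    calc (c * (X : ℝ) ^ (1 - η)) * L ^ AE = (X : ℝ) ^ (1 - η) * (c * L ^ AE) := by ring
      _ ≤ (X : ℝ) ^ (1 - η) * (X : ℝ) ^ η := mul_le_mul_of_nonneg_left h h2.le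
      _ = X := h1
  exact le_of_mul_le_mul_right h3 (by positivity)

theorem arc_i (AE : ℕ) : ∃ B : ℕ, ∀ K0 C1 C2 : ℕ, ∃ C : ℕ, ∀ th e : ℝ, Adm th e →
    ∀ ww gg : ℕ → ℕ → ℝ, W1 K0 C1 ww gg → DecI B C2 th e ww → ∀ A1 D' : ℕ, 1 ≤ D' →
    ∃ X0 : ℕ, ∀ X : ℕ, X0 ≤ X →
    ∃ (I : ℕ) (M : ℕ → ℝ) (K : ℕ → ℕ) (MM : ℕ → Finset ℕ) (a c : ℕ → ℕ → ℂ),
      (I : ℝ) ≤ (Real.log X) ^ C ∧
      (∀ i < I, BlkI X th e (M i) (K i) (MM i) (a i) (c i) ((Real.log X) ^ C)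
        ((Real.log X) ^ C)) ∧
      ∀ (n : ℕ) (b N σ : ℝ) (QQ : Finset ℕ) (bq : ℕ → ℝ), StdI X n th e A1 b N σ QQ bq →
      ∀ s : ℝ, |s| ≤ 1 → ∃ lam : ℕ → ℝ → ℂ, (∀ q, Continuous (lam q)) ∧
        (∀ q ∈ QQ, ∀ x, ‖lam q x‖ ≤ (Real.log X) ^ C * X / q) ∧
        N2 X bq QQ (fun q _ x => lam q x) ≤ X * (Real.log X) ^ C / b ∧
        N2 X bq QQ (fun q a' x => WIa ww gg s σ (wX D' X) X q a' x - lam q x -
          ∑ i ∈ range I, f2f (MM i) (a i) (tp (K i) (cq q (c i))) σ q a' x) ≤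
            X / (Real.log X) ^ AE := by
  refine ⟨AE + 4, fun K0 C1 C2 => ?_⟩
  obtain ⟨R0, hR0⟩ : ∃ R0 : ℕ, R0 = 3 * C2 + C1 + 2 := ⟨_, rfl⟩
  refine ⟨2 * R0 + 8, ?_⟩
  intro th e hp ww gg hw hd A1 D' hD'
  obtain ⟨Xd, hXd⟩ := dec_conv (AE + 4) C2 th e hp ww hd
  obtain ⟨η, hη, Xm, hXm⟩ := model_i K0 C1 ww gg hw D' hD'
  obtain ⟨Xa, hXa⟩ := t1i_N2 th e A1 R0 hp
  obtain ⟨Xb, hXb⟩ := t2i_N2 th e A1 R0 hp
  obtain ⟨Xc, hXc⟩ := lami_N2 th e A1 R0 hp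
  obtain ⟨Xe, hXe⟩ := nc_i K0 C1 ww gg hw th e A1 hp
  obtain ⟨Xn, hXn⟩ := pa_N th e A1 hp
  obtain ⟨X1, hX1⟩ := pa_log AE 160 (1 / 20) (by norm_num)
  obtain ⟨X2, hX2⟩ := pa_log AE 160 (1 / 60) (by norm_num)
  obtain ⟨X3, hX3⟩ := pa_log AE 640 η hη
  obtain ⟨X4, hX4⟩ := pa_big 100
  refine ⟨max (max (max Xd Xm) (max Xa Xb)) (max (max (max Xc Xe) (max Xn 1))
    (max (max X1 X2) (max X3 X4))), ?_⟩
  intro X hX
  rw [max_le_iff, max_le_iff, max_le_iff, max_le_iff, max_le_iff, max_le_iff, max_le_iff,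
    max_le_iff, max_le_iff, max_le_iff, max_le_iff] at hX
  obtain ⟨⟨⟨gd, gm⟩, ⟨ga, gb⟩⟩, ⟨⟨⟨gc, ge⟩, ⟨gn, hXone⟩⟩, ⟨⟨g1, g2⟩, ⟨g3, g4⟩⟩⟩⟩ := hX
  obtain ⟨γ, I, D, M, K, MM, a, c, err, hI, hDZ, hDX, hγB0, hγ0, hBlk, hM0, hMMa, haK, hdec,
    herr⟩ := hXd X gd
  obtain ⟨Γ, em, hΓ, he, hfa⟩ := hXm X gm
  have f1 := hX1 X g1
  have f2 := hX2 X g2
  have f3 := hX3 X g3
  have f4 := hX4 X g4
  have hXa' := hXa X ga
  have hXb' := hXb X gb
  have hXc' := hXc X gc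
  have hXe' := hXe X ge
  have hXn' := hXn X gn
  have hX1R : (1 : ℝ) ≤ X := by exact_mod_cast hXone
  have hX0 : (0 : ℝ) < X := by linarith
  obtain ⟨L, hL⟩ : ∃ L : ℝ, L = Real.log X := ⟨_, rfl⟩
  rw [← hL] at f1 f2 f3 f4 hI herr hXa' hXb' hXc' hγB0 hΓ hBlk ⊢
  have hL0 : 0 < L := by linarith
  have hL1 : 1 ≤ L := by linarith
  have hLA : 0 < L ^ AE := by positivity
  obtain ⟨Z, hZ⟩ : ∃ Z : ℝ, Z = X / L ^ AE := ⟨_, rfl⟩
  have hZX : Z * L ^ AE = X := by rw [hZ]; field_simp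
  have hZ0 : 0 < Z := by rw [hZ]; positivity
  have hV2 := pa_V0 X
  have hγB : ∀ l, BVw X (L ^ R0) (γ l) := fun l =>
    pa_BVw_mono (hγB0 l) (pow_le_pow_right₀ hL1 (by omega))
  have hΓB : ∀ l, BVw X (L ^ R0) (Γ l) := fun l =>
    pa_BVw_mono (hΓ l) (pow_le_pow_right₀ hL1 (by omega))
  have b1 : 80 * (X : ℝ) ^ (19 / 20 : ℝ) ≤ Z / 2 := by
    have := pa_pow X AE 160 (1 / 20) Z L hXone hL0 hZX f1
    norm_num at this
    linarith
  have b2 : 80 * (X : ℝ) ^ (1 - 1 / 60 : ℝ) ≤ Z / 2 := by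
    have := pa_pow X AE 160 (1 / 60) Z L hXone hL0 hZX f2
    linarith
  have b3 : 320 * (X : ℝ) ^ (1 - η) ≤ Z / 2 := by
    have := pa_pow X AE 640 η Z L hXone hL0 hZX f3
    linarith
  refine ⟨I, M, K, MM, fun i m => (a i m : ℂ), fun i k => (c i k : ℂ),
    hI.trans (pow_le_pow_right₀ hL1 (by omega)), ?_, ?_⟩
  · intro i _
    obtain ⟨p1, p2, p3, p4, p5, p6⟩ := hBlk i
    have hMp : 0 < M i := lt_of_lt_of_le (Real.rpow_pos_of_pos hX0 _) p1
    refine ⟨p1, p2, p3, p4, fun m hm => (p5 m hm).trans (pow_le_pow_right₀ hL1 (by omega)), ?_⟩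
    refine p6.trans ?_
    apply div_le_div_of_nonneg_right _ hMp.le
    exact mul_le_mul_of_nonneg_right (pow_le_pow_right₀ hL1 (by omega)) hX0.le
  · intro n b N σ QQ bq hstd s hs
    obtain ⟨hNX, hNbX, hb0, hVq⟩ := hXn' n b N σ QQ bq hstd
    obtain ⟨-, -, hσ, -, hN1, -, hfam, -, hbq⟩ := id hstd
    have hQ : ∀ q ∈ QQ, 1 ≤ q := hfam.1
    have hb : ∀ q ∈ QQ, 0 < bq q := fun q hq => hb0.trans_le (hbq q hq).1
    have e1 := hXa' n b N σ QQ bq hstd D γ hDZ hγB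
    have e2 := hXb' n b N σ QQ bq hstd Γ hΓB
    have e3 := N2_tpc X hXone b N σ hb0 hN1 hNbX hσ QQ hfam bq hbq X (fun n => (err n : ℂ))
    have e4 := hXe' n b N σ QQ bq hstd
    have e5 := N2_tp X hXone b N σ hb0 hN1 hNbX hσ QQ hfam bq hbq X em
    have b4 : 12 * (1 + Real.log N) ^ 2 * ∑ k ∈ Icc 1 X, ‖((err k : ℝ) : ℂ)‖ ^ 2 ≤ Z / 80 := by
      have h5 : ∑ k ∈ Icc 1 X, ‖((err k : ℝ) : ℂ)‖ ^ 2 ≤ X / L ^ (AE + 4) := by
        refine le_trans (le_of_eq ?_) herr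
        refine sum_congr rfl fun k _ => ?_
        rw [Complex.norm_real, Real.norm_eq_abs, sq_abs]
      have h6 : Real.log N ≤ L := by
        rw [hL]
        exact Real.log_le_log (by linarith) hNX
      have h7 : 0 ≤ Real.log N := Real.log_nonneg hN1
      have h8 : (1 + Real.log N) ^ 2 ≤ (2 * L) ^ 2 := pow_le_pow_left₀ (by linarith) (by linarith) 2
      have h9 : 0 ≤ ∑ k ∈ Icc 1 X, ‖((err k : ℝ) : ℂ)‖ ^ 2 := sum_nonneg fun k _ => by positivity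
      calc 12 * (1 + Real.log N) ^ 2 * ∑ k ∈ Icc 1 X, ‖((err k : ℝ) : ℂ)‖ ^ 2 ≤
          12 * (2 * L) ^ 2 * (X / L ^ (AE + 4)) :=
            mul_le_mul (by linarith) h5 h9 (by positivity)
        _ = Z * (48 / L ^ 2) := by
            rw [hZ, pow_add]
            field_simp
            ring
        _ ≤ Z * (1 / 80) := by
            apply mul_le_mul_of_nonneg_left _ hZ0.le
            rw [div_le_iff₀ (by positivity)]
            nlinarith
        _ = Z / 80 := by ring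
    have hcore := pa_core X bq QQ hb hQ ww gg s σ b hs (wX D' X) I D γ K MM a c err Γ em hγ0 hM0
      hMMa haK hdec hfa ((X : ℝ) ^ (19 / 20 : ℝ)) ((X : ℝ) ^ (19 / 20 : ℝ)) (Z / 80)
      ((X : ℝ) ^ (1 - 1 / 60 : ℝ)) (4 * (X : ℝ) ^ (1 - η)) e1 e2 (e3.trans b4) e4
      (e5.trans (by linarith))
    have hcore2 : 8 * ((X : ℝ) ^ (19 / 20 : ℝ) + (X : ℝ) ^ (19 / 20 : ℝ) + Z / 80 +
      (X : ℝ) ^ (1 - 1 / 60 : ℝ) + 4 * (X : ℝ) ^ (1 - η)) ≤ Z / 2 := by linarith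
    have hs' : ‖(s : ℂ)‖ ≤ 1 := by
      rw [Complex.norm_real]
      exact hs
    have hμ : ∀ q : ℕ, ‖((ArithmeticFunction.moebius q : ℤ) : ℂ)‖ ≤ 1 := by
      intro q
      rw [Complex.norm_intCast]
      exact_mod_cast ArithmeticFunction.abs_moebius_le_one
    refine ⟨fun q x => lamP X D b γ σ q x + (s : ℂ) * paLam2 X (V0 X) Γ σ q x, ?_, ?_, ?_, ?_⟩
    · intro q
      exact (pa_lamP_cont X D b γ σ q).add (continuous_const.mul (pa_L2_cont X (V0 X) Γ σ q))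
    · intro q hq x
      refine (pa_lam X D q b γ Γ σ s x L (L ^ R0) hXone (hQ q hq) hs hDX hV2 hL (by linarith)
        (by positivity) hγB hΓB).trans ?_
      have hq0 : (0 : ℝ) < q := by exact_mod_cast hQ q hq
      apply div_le_div_of_nonneg_right _ hq0.le
      apply mul_le_mul_of_nonneg_right _ hX0.le
      rw [← pow_add]
      exact pow_le_pow_right₀ hL1 (by omega)
    · have l1 := hXc' n b N σ QQ bq hstd D (fun q => (Icc 1 D).filter (fun l => Nat.Coprime l q))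
        (fun _ l => γ l) hDX (fun q l hl => by
          rw [mem_filter, mem_Icc] at hl
          exact hl.1) (fun _ l => hγB l)
      have l2 := hXc' n b N σ QQ bq hstd (V0 X) (fun q => Icc 1 (V0 X / q))
        (fun q l => Γ (l * q)) hV2 (fun q l hl => by
          rw [mem_Icc] at hl
          exact ⟨hl.1, hl.2.trans (Nat.div_le_self _ _)⟩)
        (fun q l => hΓB (l * q))
      have m1 : N2 X bq QQ (fun q _ x => lamP X D b γ σ q x) ≤ X * L ^ (2 * R0 + 6) / b := by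
        refine le_trans ?_ l1
        have h5 := pa_smul X bq QQ hb (fun q _ x => open Classical in
          if 16 * (D : ℝ) * q * b ≤ X then
            ∑ l ∈ (Icc 1 D).filter (fun l => Nat.Coprime l q), iw X (l * q) (γ l) (σ * x) else 0)
          (fun q _ => by
            by_cases hc : 16 * (D : ℝ) * q * b ≤ X
            · simp only [if_pos hc]
              exact pa_L1_cont X D γ σ q
            · simp only [if_neg hc]
              exact continuous_const)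
          (fun q => ((ArithmeticFunction.moebius q : ℤ) : ℂ)) hμ
        refine le_trans (le_of_eq ?_) h5
        refine pa_congr X bq QQ _ _ fun q _ a x => ?_
        unfold lamP paLam1
        split_ifs
        · rfl
        · simp
      have m2 : N2 X bq QQ (fun q _ x => (s : ℂ) * paLam2 X (V0 X) Γ σ q x) ≤
          X * L ^ (2 * R0 + 6) / b := by
        refine (pa_smul X bq QQ hb (fun q _ x => paLam2 X (V0 X) Γ σ q x)
          (fun q _ => pa_L2_cont X (V0 X) Γ σ q) (fun _ => (s : ℂ)) (fun _ => hs')).trans ?_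
        refine le_trans (le_of_eq ?_) l2
        refine pa_congr X bq QQ _ _ fun q hq a x => ?_
        rw [if_pos (hVq q hq)]
        rfl
      have m3 := N2_add X bq QQ hb
        (fun q _ x => lamP X D b γ σ q x)
        (fun q _ x => (s : ℂ) * paLam2 X (V0 X) Γ σ q x)
        (fun q _ => pa_lamP_cont X D b γ σ q)
        (fun q _ => continuous_const.mul (pa_L2_cont X (V0 X) Γ σ q))
      have m4 : 4 * (X * L ^ (2 * R0 + 6) / b) ≤ X * L ^ (2 * R0 + 8) / b := by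
        calc 4 * (X * L ^ (2 * R0 + 6) / b) = (X * (4 * L ^ (2 * R0 + 6))) / b := by ring
          _ ≤ (X * L ^ (2 * R0 + 8)) / b := by
              apply div_le_div_of_nonneg_right _ hb0.le
              apply mul_le_mul_of_nonneg_left _ hX0.le
              have h5 : 0 < L ^ (2 * R0 + 6) := by positivity
              have h6 : L ^ (2 * R0 + 8) = L ^ (2 * R0 + 6) * L ^ 2 := by rw [← pow_add]
              have h7 : (4 : ℝ) ≤ L ^ 2 := by nlinarith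
              rw [h6]
              nlinarith
          _ = _ := rfl
      refine m3.trans ?_
      linarith
    · refine (hcore.trans hcore2).trans ?_
      rw [← hZ]
      linarith

end Pool.MP_dd84fd_nt.IXP
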