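import Pool.Agent.Lib.MP_dd84fd_nt.IX.PlDefs
import Pool.Agent.Lib.MP_dd84fd_nt.HX.PlTwo

/-!
# PL_I-Two: type II against type II

As `HXP.two_two_h` (`HX/PlTwo.lean`) with `StdI`, `BlkI`.
-/

set_option autoImplicit false

namespace Pool.MP_dd84fd_nt.IXP

open Finset Pool.MP_67663b_nt.Odd Pool.MP_dd84fd_nt.PL Pool.MP_dd84fd_nt.HX Pool.MP_dd84fd_nt.HXP
open Pool.MP_dd84fd_nt.IX (Adm)

theorem i2_num2 (κ T h τ3 x3 X L1 th e : ℝ) (hT : 1 ≤ T) (hX : 1 ≤ X)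
    (hy : x3 = X ^ ((1 - th) / 2 + 3 * e)) (h2 : κ ^ 2 * h ≤ τ3) (hτ : 0 ≤ τ3) (hh : 0 < h)
    (hhT : h * T ≤ X ^ (1 - th + 3 / 2 * e) * L1) (h3 : τ3 * L1 ≤ X ^ (5 / 2 * e)) :
    κ / Real.sqrt T * (h * T / x3) ≤ X ^ (-e) := by
  have hT0 : 0 < T := by linarith
  have hX0 : 0 < X := by linarith
  have hy0 : 0 < x3 := by rw [hy]; positivity
  refine (abs_le_of_sq_le_sq ?_ (by positivity)).trans' (le_abs_self _)
  have e1 : (κ / Real.sqrt T * (h * T / x3)) ^ 2 = (κ ^ 2 * h) * (h * T) / x3 ^ 2 := by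
    rw [mul_pow, div_pow, Real.sq_sqrt hT0.le]
    field_simp
  have e2 : x3 ^ 2 = X ^ ((1 - th) + 6 * e) := by
    rw [hy, ← Real.rpow_natCast, ← Real.rpow_mul hX0.le]
    congr 1
    push_cast
    ring
  have e3 : (X ^ (-e)) ^ 2 = X ^ (-(2 * e)) := by
    rw [← Real.rpow_natCast, ← Real.rpow_mul hX0.le]
    congr 1
    push_cast
    ring
  rw [e1, e2, e3, div_le_iff₀ (by positivity), ← Real.rpow_add hX0]
  calc κ ^ 2 * h * (h * T) ≤ τ3 * (X ^ (1 - th + 3 / 2 * e) * L1) :=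
        mul_le_mul h2 hhT (by positivity) hτ
    _ = X ^ (1 - th + 3 / 2 * e) * (τ3 * L1) := by ring
    _ ≤ X ^ (1 - th + 3 / 2 * e) * X ^ (5 / 2 * e) := mul_le_mul_of_nonneg_left h3 (by positivity)
    _ ≤ X ^ (-(2 * e) + (1 - th + 6 * e)) := by
        rw [← Real.rpow_add hX0]
        exact Real.rpow_le_rpow_of_exponent_le hX (by linarith)

theorem i2_ev (A1 : ℕ) (η : ℝ) (hη : 0 < η) : ∃ X0 : ℕ, ∀ X : ℕ, X0 ≤ X → ∀ h : ℕ, 1 ≤ h →
    h ≤ X → (h.divisors.card : ℝ) ^ 3 * (1 + (Real.log X) ^ (A1 : ℝ)) ≤ (X : ℝ) ^ η := by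
  obtain ⟨m, hm⟩ := exists_nat_gt (4 / η)
  have hm0 : 0 < m := by
    have : (0 : ℝ) < m := lt_trans (by positivity) hm
    exact_mod_cast this
  have hm0' : (0 : ℝ) < m := by exact_mod_cast hm0
  obtain ⟨D, hD, hk⟩ := lt_tau (3 * m)
  have h1 : ∀ᶠ x : ℝ in Filter.atTop, (Real.log x) ^ (A1 : ℝ) ≤ x ^ (η / 8) := by
    have h := isLittleO_log_rpow_rpow_atTop (A1 : ℝ) (show (0 : ℝ) < η / 8 by positivity)
    filter_upwards [h.bound (show (0 : ℝ) < 1 by norm_num), Filter.eventually_ge_atTop (1 : ℝ)]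
      with x hx hx1
    rw [Real.norm_of_nonneg (Real.rpow_nonneg (Real.log_nonneg hx1) _),
      Real.norm_of_nonneg (Real.rpow_nonneg (by linarith) _), one_mul] at hx
    exact hx
  have h2 : ∀ᶠ x : ℝ in Filter.atTop, 2 ≤ x ^ (η / 8) :=
    (tendsto_rpow_atTop (show (0 : ℝ) < η / 8 by positivity)).eventually_ge_atTop 2
  have h2' : ∀ᶠ x : ℝ in Filter.atTop, D ≤ x ^ (η / 4) :=
    (tendsto_rpow_atTop (show (0 : ℝ) < η / 4 by positivity)).eventually_ge_atTop D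
  have h3 := (h1.and h2).and (h2'.and (Filter.eventually_ge_atTop (1 : ℝ)))
  have h4 := tendsto_natCast_atTop_atTop (R := ℝ) |>.eventually h3
  obtain ⟨X0, hX0⟩ := Filter.eventually_atTop.1 h4
  refine ⟨X0, fun X hX h hh hhX => ?_⟩
  obtain ⟨⟨h5, h6⟩, h7, h8⟩ := hX0 X hX
  have hXp : (0 : ℝ) < X := by linarith
  have hhX' : (h : ℝ) ≤ X := by exact_mod_cast hhX
  have hh0 : (0 : ℝ) < h := by exact_mod_cast hh
  have hτ0 : (0 : ℝ) ≤ (h.divisors.card : ℝ) := Nat.cast_nonneg _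
  have hmi : 1 / (m : ℝ) ≤ η / 4 := by
    rw [div_le_iff₀ hm0']
    rw [div_lt_iff₀ hη] at hm
    linarith
  have h9 : (h.divisors.card : ℝ) ^ 3 ≤ (X : ℝ) ^ (η / 4) * (X : ℝ) ^ (η / 4) := by
    calc (h.divisors.card : ℝ) ^ 3 = ((h.divisors.card : ℝ) ^ (3 * m)) ^ (1 / (m : ℝ)) := by
          rw [← Real.rpow_natCast, ← Real.rpow_natCast, ← Real.rpow_mul hτ0]
          congr 1
          push_cast
          field_simp
      _ ≤ (D * X) ^ (1 / (m : ℝ)) :=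
          Real.rpow_le_rpow (by positivity) ((hk h hh).trans
            (mul_le_mul_of_nonneg_left hhX' (by linarith))) (by positivity)
      _ = D ^ (1 / (m : ℝ)) * (X : ℝ) ^ (1 / (m : ℝ)) := Real.mul_rpow (by linarith) hXp.le
      _ ≤ D ^ (1 : ℝ) * (X : ℝ) ^ (η / 4) := by
          refine mul_le_mul ?_ (Real.rpow_le_rpow_of_exponent_le h8 hmi) (by positivity)
            (by positivity)
          refine Real.rpow_le_rpow_of_exponent_le hD ?_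
          rw [div_le_one hm0']
          exact_mod_cast hm0
      _ ≤ _ := by
          rw [Real.rpow_one]
          exact mul_le_mul_of_nonneg_right h7 (by positivity)
  have h10 : 1 + (Real.log X) ^ (A1 : ℝ) ≤ (X : ℝ) ^ (η / 4) := by
    have e : (X : ℝ) ^ (η / 4) = (X : ℝ) ^ (η / 8) * (X : ℝ) ^ (η / 8) := by
      rw [← Real.rpow_add hXp]
      congr 1
      ring
    rw [e]
    nlinarith
  have hL0 : 0 ≤ 1 + (Real.log X) ^ (A1 : ℝ) := by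
    have : 0 ≤ (Real.log X) ^ (A1 : ℝ) := Real.rpow_nonneg (Real.log_nonneg h8) _
    linarith
  calc (h.divisors.card : ℝ) ^ 3 * (1 + (Real.log X) ^ (A1 : ℝ))
      ≤ ((X : ℝ) ^ (η / 4) * (X : ℝ) ^ (η / 4)) * (X : ℝ) ^ (η / 4) :=
        mul_le_mul h9 h10 hL0 (by positivity)
    _ = (X : ℝ) ^ (3 / 4 * η) := by
        rw [← Real.rpow_add hXp, ← Real.rpow_add hXp]
        congr 1
        ring
    _ ≤ (X : ℝ) ^ η := Real.rpow_le_rpow_of_exponent_le h8 (by linarith)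

theorem two_two_i : ∃ C : ℝ, 0 < C ∧ ∀ (th e : ℝ) (A1 : ℕ), Adm th e → ∃ X0 : ℕ,
    ∀ X : ℕ, X0 ≤ X → ∀ (n : ℕ) (b N σ : ℝ) (QQ : Finset ℕ) (bq : ℕ → ℝ),
    StdI X n th e A1 b N σ QQ bq → ∀ H : ℝ, 1 ≤ H → (∀ q ∈ QQ, H ≤ (hq q n : ℝ) * (1 + b)) →
    ∀ (M1 M2 Am S : ℝ) (K1 K2 : ℕ) (MM1 MM2 : Finset ℕ) (a1 a2 c1 c2 : ℕ → ℂ),
    0 ≤ Am → Am ≤ X → 0 ≤ S → S ≤ X → BlkI X th e M1 K1 MM1 a1 c1 Am S →
    BlkI X th e M2 K2 MM2 a2 c2 Am S →
    ∑ q ∈ QQ, ‖Bq X (bq q) σ n q (f2f MM1 a1 (tp K1 (cq q c1)) σ q)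
        (f2f MM2 a2 (tp K2 (cq q c2)) σ q)‖ ≤
      C * (Real.log X) ^ 3 * Am ^ 2 * S * X * (H ^ (-(1 / 4) : ℝ) + (X : ℝ) ^ (-e)) +
        1 := by
  obtain ⟨C, hC, h1⟩ := h2_one
  obtain ⟨D, hD, h4⟩ := h2_D
  refine ⟨600 * C * (9 * D + 18), by positivity, ?_⟩
  intro th e A1 hpar
  obtain ⟨hp1, hp2, hp3, hp4⟩ := hpar
  obtain ⟨X0, hX0⟩ := lt_ev A1 C
  obtain ⟨X1, hX1⟩ := i2_ev A1 (5 / 2 * e) (by linarith)
  refine ⟨max X0 X1, ?_⟩
  intro X hX n b N σ QQ bq hstd H hH hHq M1 M2 Am S K1 K2 MM1 MM2 a1 a2 c1 c2 hAm hAmX hS hSX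
    hblk1 hblk2
  obtain ⟨h2n, hnX, hσ, hbA, hN1, hNb, hFam, -, hbq⟩ := hstd
  obtain ⟨hM11, hM12, hK1, hMM1, ha1, hc1⟩ := hblk1
  obtain ⟨hM21, hM22, hK2, hMM2, ha2, hc2⟩ := hblk2
  obtain ⟨hX16, hL1, hLA, hXC⟩ := hX0 X ((le_max_left _ _).trans hX)
  have hτ := hX1 X ((le_max_right _ _).trans hX)
  have hX16' : (16 : ℝ) ≤ X := by exact_mod_cast hX16
  have hXp : (0 : ℝ) < X := by linarith
  have hX1 : 1 ≤ X := by omega
  have hX1' : (1 : ℝ) ≤ X := by linarith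
  obtain ⟨x3, hx3⟩ : ∃ x : ℝ, x = (X : ℝ) ^ ((1 - th) / 2 + 3 * e) := ⟨_, rfl⟩
  rw [← hx3] at hM11 hM21
  have hx30 : 0 < x3 := by rw [hx3]; positivity
  have hx31 : 1 ≤ x3 := by rw [hx3]; exact Real.one_le_rpow hX1' (by linarith)
  have hb0 : 0 < b := lt_of_lt_of_le (Real.rpow_pos_of_pos (by linarith) _) hbA
  have hN0 : 0 ≤ N := by linarith
  have hNbx : N * b * x3 ≤ X := by
    calc N * b * x3 ≤ (X : ℝ) ^ (1 - th + 3 / 2 * e) * (X : ℝ) ^ ((1 - th) / 2 + 3 * e) := by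
          rw [hx3]
          exact mul_le_mul_of_nonneg_right hNb (by positivity)
      _ = (X : ℝ) ^ (1 - th + 3 / 2 * e + ((1 - th) / 2 + 3 * e)) := (Real.rpow_add hXp _ _).symm
      _ ≤ (X : ℝ) ^ (1 : ℝ) := Real.rpow_le_rpow_of_exponent_le hX1' (by linarith)
      _ = X := Real.rpow_one _
  have hNbM : ∀ M : ℝ, M ≤ (X : ℝ) ^ (th - 3 * e) → 0 ≤ M → N * b * M ≤ X := by
    intro M hM hM0
    calc N * b * M ≤ (X : ℝ) ^ (1 - th + 3 / 2 * e) * (X : ℝ) ^ (th - 3 * e) :=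
          mul_le_mul hNb hM hM0 (by positivity)
      _ = (X : ℝ) ^ (1 - th + 3 / 2 * e + (th - 3 * e)) := (Real.rpow_add hXp _ _).symm
      _ ≤ (X : ℝ) ^ (1 : ℝ) := Real.rpow_le_rpow_of_exponent_le hX1' (by linarith)
      _ = X := Real.rpow_one _
  have hNb3 : N * b ≤ (X : ℝ) ^ (61 / 100 : ℝ) :=
    hNb.trans (Real.rpow_le_rpow_of_exponent_le hX1' (by linarith))
  have hLA0 : 0 ≤ (Real.log X) ^ (A1 : ℝ) := Real.rpow_nonneg (by linarith) _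
  have hNbL : N ≤ (N * b) * (Real.log X) ^ (A1 : ℝ) := by
    have h2 : 1 ≤ b * (Real.log X) ^ (A1 : ℝ) := by
      have h3 : (0 : ℝ) < (Real.log X) ^ (A1 : ℝ) := Real.rpow_pos_of_pos (by linarith) _
      have h4 := mul_le_mul_of_nonneg_right hbA h3.le
      rwa [Real.rpow_neg (by linarith), inv_mul_cancel₀ h3.ne'] at h4
    calc N = N * 1 := (mul_one N).symm
      _ ≤ N * (b * (Real.log X) ^ (A1 : ℝ)) := mul_le_mul_of_nonneg_left h2 (by linarith)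
      _ = (N * b) * (Real.log X) ^ (A1 : ℝ) := by ring
  have hNX : N ≤ X := by
    have h5 := hτ 1 le_rfl hX1
    simp only [Nat.divisors_one, Finset.card_singleton, Nat.cast_one, one_pow, one_mul] at h5
    have h6 : (X : ℝ) ^ (5 / 2 * e) ≤ (X : ℝ) ^ (1 / 20 : ℝ) :=
      Real.rpow_le_rpow_of_exponent_le hX1' (by linarith)
    calc N ≤ (N * b) * (Real.log X) ^ (A1 : ℝ) := hNbL
      _ ≤ (X : ℝ) ^ (61 / 100 : ℝ) * (X : ℝ) ^ (1 / 20 : ℝ) :=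
          mul_le_mul hNb3 (by linarith) hLA0 (by positivity)
      _ = (X : ℝ) ^ (61 / 100 + 1 / 20 : ℝ) := (Real.rpow_add hXp _ _).symm
      _ ≤ (X : ℝ) ^ (1 : ℝ) := Real.rpow_le_rpow_of_exponent_le hX1' (by norm_num)
      _ = X := Real.rpow_one _
  have hbX : b ≤ X := by
    have h5 : (X : ℝ) ^ (61 / 100 : ℝ) ≤ (X : ℝ) ^ (1 : ℝ) :=
      Real.rpow_le_rpow_of_exponent_le hX1' (by norm_num)
    rw [Real.rpow_one] at h5
    nlinarith
  have hM1 : 1 ≤ M1 := hx31.trans hM11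
  have hM2 : 1 ≤ M2 := hx31.trans hM21
  have hMX : ∀ M : ℝ, M ≤ (X : ℝ) ^ (th - 3 * e) → M ≤ X := by
    intro M hM
    refine hM.trans ?_
    have h5 : (X : ℝ) ^ (th - 3 * e) ≤ (X : ℝ) ^ (1 : ℝ) :=
      Real.rpow_le_rpow_of_exponent_le hX1' (by linarith)
    rwa [Real.rpow_one] at h5
  have hqq : ∀ q ∈ QQ, 1 ≤ q ∧ q ≤ X := by
    intro q hqm
    refine ⟨hFam.1 q hqm, ?_⟩
    have h2 := hFam.2 q hqm q hqm
    rw [Nat.lcm_self] at h2
    exact_mod_cast h2.trans hNX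
  -- bound of the inner polynomial
  have hBs : ∀ (M : ℝ) (K : ℕ) (c : ℕ → ℂ), 1 ≤ M → K ≤ X →
      ∑ k ∈ Icc 1 K, ‖c k‖ ^ 2 ≤ S * X / M → ∀ x, ‖tp K c x‖ ≤ 2 * (X : ℝ) ^ 2 := by
    intro M K c hM hK hc x
    unfold tp
    refine (norm_sum_le _ _).trans ?_
    have h2 : ∀ k ∈ Icc 1 K, ‖c k * ee ((k : ℝ) * x)‖ ≤ 1 + ‖c k‖ ^ 2 := by
      intro k _
      have h3 : ‖ee ((k : ℝ) * x)‖ = 1 := by
        unfold ee
        rw [Complex.norm_exp]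
        simp
      rw [norm_mul, h3, mul_one]
      nlinarith [sq_nonneg (‖c k‖ - 1), norm_nonneg (c k)]
    refine (Finset.sum_le_sum h2).trans ?_
    rw [Finset.sum_add_distrib]
    have h5 : ∑ _k ∈ Icc 1 K, (1 : ℝ) ≤ X := by
      simp only [Finset.sum_const, Nat.card_Icc, nsmul_eq_mul, mul_one]
      have : K + 1 - 1 = K := by omega
      rw [this]
      exact_mod_cast hK
    have h6 : S * X / M ≤ X ^ 2 := by
      rw [div_le_iff₀ (by linarith)]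
      nlinarith
    nlinarith [hc.trans h6]
  -- the masses
  obtain ⟨Z, hZ⟩ : ∃ Z : ℝ → ℕ → (ℕ → ℂ) → ℕ → ℝ, Z = fun M K c q => ∑ r ∈ rr q,
    ∫ t in (0 : ℝ)..1,
    ‖tp K (cq q c) ((r : ℝ) / q + σ * (M * (bq q / X)) * Real.exp (2 * Int.fract t))‖ ^ 2 :=
    ⟨_, rfl⟩
  have hZ0 : ∀ (M : ℝ) (K : ℕ) (c : ℕ → ℂ), ∀ q ∈ QQ, 0 ≤ Z M K c q := by
    intro M K c q _
    rw [hZ]
    refine Finset.sum_nonneg fun r _ => ?_
    refine intervalIntegral.integral_nonneg (by norm_num) fun t _ => by positivity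
  obtain ⟨Λ, hΛ⟩ : ∃ Λ : ℝ, Λ = 12 * (Real.log X) ^ 2 := ⟨_, rfl⟩
  have hΛ0 : 0 ≤ Λ := by rw [hΛ]; positivity
  have hlogN : 3 * (1 + Real.log N) ^ 2 ≤ Λ := by
    have h5 : Real.log N ≤ Real.log X := Real.log_le_log (by linarith) hNX
    have h6 : 0 ≤ Real.log N := Real.log_nonneg hN1
    have h7 : (1 + Real.log N) ^ 2 ≤ (2 * Real.log X) ^ 2 :=
      pow_le_pow_left₀ (by linarith) (by linarith) 2
    rw [hΛ]
    nlinarith
  have hZs : ∀ (M : ℝ) (K : ℕ) (c : ℕ → ℂ), 1 ≤ M →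
      ∑ k ∈ Icc 1 K, ‖c k‖ ^ 2 ≤ S * X / M →
      ∑ q ∈ QQ, Z M K c q ≤ Λ * (8 * N + X / (M * b)) * (S * X / M) := by
    intro M K c hM hc
    have h2 := bmass_c X hX1 b N σ M hb0 hN1 (by linarith) hσ QQ hFam bq hbq K c
    rw [hZ]
    refine h2.trans ?_
    have hc0 : 0 ≤ ∑ k ∈ Icc 1 K, ‖c k‖ ^ 2 := Finset.sum_nonneg fun k _ => by positivity
    have h5 : 0 ≤ 8 * N + X / (M * b) := by positivity
    exact mul_le_mul (mul_le_mul_of_nonneg_right hlogN h5) hc hc0 (by positivity)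
  -- the bound for one modulus
  have hper : ∀ q ∈ QQ,
      ‖Bq X (bq q) σ n q (f2f MM1 a1 (tp K1 (cq q c1)) σ q)
        (f2f MM2 a2 (tp K2 (cq q c2)) σ q)‖ ≤
      50 * C * Real.log X * Am ^ 2 * (b / X) * (Real.sqrt (Z M1 K1 c1 q) *
        Real.sqrt (Z M2 K2 c2 q) * (ltK (hq q n) / Real.sqrt (1 + b) *
        (Real.sqrt (M1 * (2 * (hq q n * (1 + b)) + M1)) *
          Real.sqrt (M2 * (2 * (hq q n * (1 + b)) + M2))))) + 128 * C / (X : ℝ) ^ 3 := by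
    intro q hqm
    obtain ⟨hq1, hqX⟩ := hqq q hqm
    have hqX' : (q : ℝ) ≤ X := by exact_mod_cast hqX
    have : NeZero q := ⟨by omega⟩
    have hβ := hbq q hqm
    have hMB : ∀ M : ℝ, 1 ≤ M → M ≤ (X : ℝ) ^ (th - 3 * e) →
        2 * M * Am * (2 * (X : ℝ) ^ 2) ≤ 8 * (X : ℝ) ^ 4 := by
      intro M hM hM'
      have hMX' := hMX M hM'
      calc 2 * M * Am * (2 * (X : ℝ) ^ 2) ≤ 2 * (2 * X) * X * (2 * (X : ℝ) ^ 2) := by
            refine mul_le_mul_of_nonneg_right (mul_le_mul (by linarith) hAmX hAm (by linarith))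
              (by positivity)
        _ = 8 * (X : ℝ) ^ 4 := by ring
    have h2 := h1 X n q (bq q) σ hX1 hnX h2n (by linarith) hσ M1 M2 Am K1 K2 MM1 MM2 a1 a2
      (cq q c1) (cq q c2)
      hM1 hM2 hAm hMM1 hMM2 ha1 ha2 (2 * (X : ℝ) ^ 2) (8 * (X : ℝ) ^ 4) (X ^ 24)
      (hBs M1 K1 (cq q c1) hM1 hK1 ((h2_cq_norm q K1 c1).trans hc1))
      (hBs M2 K2 (cq q c2) hM2 hK2 ((h2_cq_norm q K2 c2).trans hc2)) (hMB M1 hM1 hM12)
      (hMB M2 hM2 hM22)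
      (Nat.one_le_pow _ _ hX1)
      (by
        have h3 : bq q ≤ 2 * X := by linarith [hβ.2]
        have h5 : (16 : ℝ) * X ≤ X ^ 24 := by
          calc (16 : ℝ) * X ≤ X * X := by nlinarith
            _ = X ^ 2 := by ring
            _ ≤ X ^ 24 := pow_le_pow_right₀ hX1' (by norm_num)
        push_cast
        linarith)
    refine h2.trans ?_
    have hlogJ : Real.log ((X ^ 24 : ℕ) : ℝ) = 24 * Real.log X := by
      push_cast
      rw [Real.log_pow]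
      norm_num
    rw [hlogJ]
    have h3 := h2_per C X b (bq q) (Nat.totient q) (ltK (hq q n)) (Z M1 K1 c1 q) (Z M2 K2 c2 q)
      Am M1 M2 (hq q n) (Real.log X) (8 * (X : ℝ) ^ 4) ((X ^ 24 : ℕ) : ℝ) hC hX1' hb0 hβ.1 hβ.2 hbX
      (Nat.cast_nonneg _) (le_trans (by exact_mod_cast Nat.totient_le q) hqX') (ltK_nonneg _)
      (by linarith) (by linarith)
      (Nat.cast_nonneg _) hL1 rfl (by push_cast; ring)
    rw [hZ] at h3 ⊢
    exact h3
  have hh1 : ∀ q ∈ QQ, 1 ≤ hq q n ∧ hq q n ≤ X := by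
    intro q hqm
    obtain ⟨hq1, hqX⟩ := hqq q hqm
    unfold hq
    exact ⟨Nat.div_pos (Nat.le_of_dvd hq1 (Nat.gcd_dvd_left q n))
      (Nat.gcd_pos_of_pos_left _ hq1), (Nat.div_le_self _ _).trans hqX⟩
  refine (Finset.sum_le_sum hper).trans ?_
  rw [Finset.sum_add_distrib]
  have htail : ∑ _q ∈ QQ, 128 * C / (X : ℝ) ^ 3 ≤ 1 := by
    rw [Finset.sum_const, nsmul_eq_mul]
    have hcard : (QQ.card : ℝ) ≤ X := by
      have : QQ.card ≤ X := by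
        calc QQ.card ≤ (Icc 1 X).card := Finset.card_le_card fun q hqm => Finset.mem_Icc.2 (hqq q hqm)
          _ = X := by simp
      exact_mod_cast this
    calc (QQ.card : ℝ) * (128 * C / (X : ℝ) ^ 3) ≤ X * (128 * C / (X : ℝ) ^ 3) :=
          mul_le_mul_of_nonneg_right hcard (by positivity)
      _ = 128 * C / X ^ 2 := by field_simp
      _ ≤ 1 := by
          rw [div_le_one (by positivity)]
          nlinarith
  refine add_le_add ?_ htail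
  rw [← Finset.mul_sum]
  obtain ⟨V1, hV1⟩ : ∃ V : ℝ, V = Λ * (8 * N + X / (M1 * b)) * (S * X / M1) := ⟨_, rfl⟩
  obtain ⟨V2, hV2⟩ : ∃ V : ℝ, V = Λ * (8 * N + X / (M2 * b)) * (S * X / M2) := ⟨_, rfl⟩
  have hM10 : 0 < M1 := by linarith
  have hM20 : 0 < M2 := by linarith
  have hV10 : 0 ≤ V1 := by rw [hV1]; positivity
  have hV20 : 0 ≤ V2 := by rw [hV2]; positivity
  have hη : 0 < H ^ (-(1 / 4) : ℝ) + (X : ℝ) ^ (-e) := by
    have : 0 < H := by linarith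
    positivity
  -- one modulus, with the masses bounded
  have hG : ∀ q ∈ QQ, Real.sqrt V1 * Real.sqrt V2 * (ltK (hq q n) / Real.sqrt (1 + b) *
        (Real.sqrt (M1 * (2 * (hq q n * (1 + b)) + M1)) *
          Real.sqrt (M2 * (2 * (hq q n * (1 + b)) + M2)))) ≤
      Λ * (S * (X : ℝ) ^ 2 / b) *
        ((9 * D + 18) * (H ^ (-(1 / 4) : ℝ) + (X : ℝ) ^ (-e))) := by
    intro q hqm
    obtain ⟨hh1', hhX⟩ := hh1 q hqm
    have hh0 : (0 : ℝ) < hq q n := by exact_mod_cast hh1'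
    have hhT0 : 0 ≤ (hq q n : ℝ) * (1 + b) := by positivity
    have n1 := h2_num3 x3 X b N M1 S V1 (hq q n * (1 + b)) Λ hx30 hXp hb0 hN0 hM11
      (hNbM M1 hM12 hM10.le) hNbx hS hhT0 hΛ0 hV1.le
    have n2 := h2_num3 x3 X b N M2 S V2 (hq q n * (1 + b)) Λ hx30 hXp hb0 hN0 hM21
      (hNbM M2 hM22 hM20.le) hNbx hS hhT0 hΛ0 hV2.le
    obtain ⟨E, hE⟩ : ∃ E : ℝ, E = Λ * (S * (X : ℝ) ^ 2 / b *
      (9 + 18 * (hq q n * (1 + b) / x3))) := ⟨_, rfl⟩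
    rw [← hE] at n1 n2
    have hE0 : 0 ≤ E := by rw [hE]; positivity
    have s1 : Real.sqrt V1 * Real.sqrt (M1 * (2 * (hq q n * (1 + b)) + M1)) ≤ Real.sqrt E := by
      rw [← Real.sqrt_mul hV10]
      exact Real.sqrt_le_sqrt (by linarith)
    have s2 : Real.sqrt V2 * Real.sqrt (M2 * (2 * (hq q n * (1 + b)) + M2)) ≤ Real.sqrt E := by
      rw [← Real.sqrt_mul hV20]
      exact Real.sqrt_le_sqrt (by linarith)
    have s3 : (Real.sqrt V1 * Real.sqrt (M1 * (2 * (hq q n * (1 + b)) + M1))) *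
        (Real.sqrt V2 * Real.sqrt (M2 * (2 * (hq q n * (1 + b)) + M2))) ≤ E := by
      calc _ ≤ Real.sqrt E * Real.sqrt E := mul_le_mul s1 s2 (by positivity) (by positivity)
        _ = E := Real.mul_self_sqrt hE0
    have t1 := h2_num1 (ltK (hq q n)) (1 + b) (hq q n) H D (ltK_nonneg _) (by linarith) hh0 hH
      (hHq q hqm) hD (h4 _ hh1')
    have hκ3 := ltK_sq (hq q n) hh1'
    rw [le_div_iff₀ hh0] at hκ3
    have t2 := i2_num2 (ltK (hq q n)) (1 + b) (hq q n) ((hq q n).divisors.card ^ 3) x3 X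
      (1 + (Real.log X) ^ (A1 : ℝ)) th e (by linarith) hX1' hx3 hκ3
      (by positivity) hh0 (by
        have hhq : (hq q n : ℝ) ≤ N := by
          have h5 := hFam.2 q hqm q hqm
          rw [Nat.lcm_self] at h5
          have h6 : hq q n ≤ q := Nat.div_le_self _ _
          have h6' : (hq q n : ℝ) ≤ q := by exact_mod_cast h6
          linarith
        calc (hq q n : ℝ) * (1 + b) ≤ N * (1 + b) := mul_le_mul_of_nonneg_right hhq (by linarith)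
          _ = N + N * b := by ring
          _ ≤ (N * b) * (Real.log X) ^ (A1 : ℝ) + N * b := by linarith
          _ = (N * b) * (1 + (Real.log X) ^ (A1 : ℝ)) := by ring
          _ ≤ _ := mul_le_mul_of_nonneg_right hNb (by linarith)) (hτ _ hh1' hhX)
    have hκT : 0 ≤ ltK (hq q n) / Real.sqrt (1 + b) := div_nonneg (ltK_nonneg _) (Real.sqrt_nonneg _)
    calc Real.sqrt V1 * Real.sqrt V2 * (ltK (hq q n) / Real.sqrt (1 + b) *
        (Real.sqrt (M1 * (2 * (hq q n * (1 + b)) + M1)) *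
          Real.sqrt (M2 * (2 * (hq q n * (1 + b)) + M2)))) =
        ltK (hq q n) / Real.sqrt (1 + b) *
        ((Real.sqrt V1 * Real.sqrt (M1 * (2 * (hq q n * (1 + b)) + M1))) *
        (Real.sqrt V2 * Real.sqrt (M2 * (2 * (hq q n * (1 + b)) + M2)))) := by ring
      _ ≤ ltK (hq q n) / Real.sqrt (1 + b) * E := mul_le_mul_of_nonneg_left s3 hκT
      _ = Λ * (S * (X : ℝ) ^ 2 / b) * (9 * (ltK (hq q n) / Real.sqrt (1 + b)) +
          18 * (ltK (hq q n) / Real.sqrt (1 + b) * (hq q n * (1 + b) / x3))) := by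
          rw [hE]; ring
      _ ≤ Λ * (S * (X : ℝ) ^ 2 / b) *
          ((9 * D + 18) * (H ^ (-(1 / 4) : ℝ) + (X : ℝ) ^ (-e))) := by
          refine mul_le_mul_of_nonneg_left ?_ (by positivity)
          have hH4 : 0 ≤ H ^ (-(1 / 4) : ℝ) := Real.rpow_nonneg (by linarith) _
          have hX8 : 0 ≤ (X : ℝ) ^ (-e) := by positivity
          have : 0 ≤ D := by linarith
          nlinarith [mul_nonneg this hX8]
  have hcs := h2_cs2 QQ (Z M1 K1 c1) (Z M2 K2 c2) (fun q => ltK (hq q n) / Real.sqrt (1 + b) *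
        (Real.sqrt (M1 * (2 * (hq q n * (1 + b)) + M1)) *
          Real.sqrt (M2 * (2 * (hq q n * (1 + b)) + M2)))) V1 V2
      (Λ * (S * (X : ℝ) ^ 2 / b) *
        ((9 * D + 18) * (H ^ (-(1 / 4) : ℝ) + (X : ℝ) ^ (-e))))
      (hZ0 M1 K1 c1) (hZ0 M2 K2 c2)
      (fun q _ => mul_nonneg (div_nonneg (ltK_nonneg _) (Real.sqrt_nonneg _)) (by positivity))
      (by rw [hV1]; exact hZs M1 K1 c1 hM1 hc1) (by rw [hV2]; exact hZs M2 K2 c2 hM2 hc2)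
      (by positivity) hG
  have hc0 : 0 ≤ 50 * C * Real.log X * Am ^ 2 * (b / X) := by
    have : 0 ≤ Real.log X := by linarith
    positivity
  refine (mul_le_mul_of_nonneg_left hcs hc0).trans (le_of_eq ?_)
  rw [hΛ]
  field_simp
  ring

end Pool.MP_dd84fd_nt.IXP
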