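import Pool.Agent.Lib.MP_dd84fd_nt.IX.KsDefs
import Pool.Agent.Lib.MP_dd84fd_nt.HX.StRed

/-!
# IX-StTI (0.5 h): type I sums with weights

`tih_of`: `R ≤ X^(2/5) ≤ ZI` (`X ≥ 1`, `1 - th + 3e ≥ 2/5`), the two definitions have the same shape.
`st_ti_i`: for `t ≤ X`: `HX.st_ti_swap` with `R = ⌊ZI⌋` (`α l = 0` for `l > R`): `Σ_{n ≤ t} (Σ_{l ∣ n} α l) F n = Σ_{l ≤ R} α l Σ_{k ≤ t/l} F(lk)`; `TII1` with `c l = α l / Q` (if `Q = 0` all is `0`; `Q ≥ 0` by `hα 0`), `y l = t / l`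
(`l (t/l) ≤ t ≤ X`): norm `≤ Q B1`. Then `HX.abel_bv` with `s n = (Σ_{l ∣ n} α l) F n`, `g = γ`.
-/

set_option autoImplicit false

namespace Pool.MP_dd84fd_nt.IX

open Finset Pool.MP_67663b_nt.Odd Pool.MP_dd84fd_nt.En Pool.MP_dd84fd_nt.E2 Pool.MP_dd84fd_nt.LS
open Pool.MP_dd84fd_nt.L2G (nrm)
open Pool.MP_dd84fd_nt.GX Pool.MP_dd84fd_nt.HX

theorem tih_of (th e : ℝ) (hA : Adm th e) (X : ℕ) (hX : 1 ≤ X) (F : ℕ → ℂ) (B1 : ℝ)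
    (h : TII1 th e X F B1) : TIH X F B1 := by
  intro R c y hR hc hy
  obtain ⟨hA1, hA2, hA3, hA4⟩ := hA
  have hX1 : (1 : ℝ) ≤ X := by exact_mod_cast hX
  refine h R c y (hR.trans ?_) hc hy
  unfold ZI
  have h1 : (X : ℝ) ^ (2 / 5 : ℝ) ≤ (X : ℝ) ^ (1 - th + 3 * e) :=
    Real.rpow_le_rpow_of_exponent_le hX1 (by linarith)
  have h2 : (0 : ℝ) ≤ (X : ℝ) ^ (1 - th + 3 * e) := Real.rpow_nonneg (by linarith) _
  linarith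

theorem st_ti_i (th e : ℝ) (X : ℕ) (hX : 1 ≤ X) (F : ℕ → ℂ) (B1 : ℝ) (hB : TII1 th e X F B1)
    (γ α : ℕ → ℝ) (Q G0 G1 : ℝ) (hα : ∀ l, |α l| ≤ Q) (hs : ∀ l : ℕ, ZI th e X < l → α l = 0)
    (hγ : ∀ n, |γ n| ≤ G0) (hv : ∑ n ∈ Ico 1 X, |γ (n + 1) - γ n| ≤ G1) :
    ‖∑ n ∈ Icc 1 X, ((γ n * ∑ l ∈ n.divisors, α l : ℝ) : ℂ) * F n‖ ≤ Q * B1 * (G0 + G1) := by
  have hQ0 : 0 ≤ Q := (abs_nonneg _).trans (hα 0)
  have hZ0 : 0 ≤ ZI th e X := by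
    unfold ZI
    positivity
  have hB0 : 0 ≤ B1 := by
    have := hB 0 (fun _ => 0) (fun _ => 0) (by rw [Nat.cast_zero]; exact hZ0) (by simp) (by simp)
    simpa using this
  set R : ℕ := ⌊ZI th e X⌋₊ with hR
  have hR1 : (R : ℝ) ≤ ZI th e X := Nat.floor_le hZ0
  have hS : ∀ t ∈ Icc 1 X, ‖∑ n ∈ Icc 1 t, ((∑ l ∈ n.divisors, α l : ℝ) : ℂ) * F n‖ ≤
      Q * B1 := by
    intro t ht
    rw [mem_Icc] at ht
    rw [st_ti_swap t R α (fun l hl => hs l ((Nat.floor_lt hZ0).1 hl)) F]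
    rcases hQ0.eq_or_lt with hQ | hQ
    · have h0 : ∀ l, α l = 0 := fun l => by
        have h1 := hα l
        rw [← hQ] at h1
        exact abs_nonpos_iff.1 h1
      simp [h0, ← hQ]
    · have h1 := hB R (fun l => ((α l / Q : ℝ) : ℂ)) (fun l => t / l) hR1 (fun l => by
        rw [Complex.norm_real, Real.norm_eq_abs, abs_div, abs_of_pos hQ]
        exact (div_le_one hQ).2 (hα l)) (fun l _ => (Nat.mul_div_le t l).trans ht.2)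
      have h2 : ∑ l ∈ Icc 1 R, (α l : ℂ) * ∑ k ∈ Icc 1 (t / l), F (l * k) =
          ((Q : ℝ) : ℂ) * ∑ l ∈ Icc 1 R, ((α l / Q : ℝ) : ℂ) *
            ∑ k ∈ Icc 1 (t / l), F (l * k) := by
        rw [Finset.mul_sum]
        refine Finset.sum_congr rfl fun l _ => ?_
        rw [← mul_assoc, ← Complex.ofReal_mul, mul_div_cancel₀ _ hQ.ne']
      rw [h2, norm_mul, Complex.norm_real, Real.norm_of_nonneg hQ0]
      exact mul_le_mul_of_nonneg_left h1 hQ0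
  have h3 := abel_bv X hX (fun n => ((∑ l ∈ n.divisors, α l : ℝ) : ℂ) * F n) γ (Q * B1) G0 G1
    (mul_nonneg hQ0 hB0) hS (fun n _ => hγ n) hv
  have h4 : ∑ n ∈ Icc 1 X, ((γ n * ∑ l ∈ n.divisors, α l : ℝ) : ℂ) * F n =
      ∑ n ∈ Icc 1 X, ((γ n : ℝ) : ℂ) * (((∑ l ∈ n.divisors, α l : ℝ) : ℂ) * F n) := by
    refine Finset.sum_congr rfl fun n _ => ?_
    rw [Complex.ofReal_mul, mul_assoc]
  rw [h4]
  exact h3

end Pool.MP_dd84fd_nt.IX
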